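import Pool.Agent.Lib.BW.Defs7

/-!
# Bounded workspace, DNF and parity version: row CELLS5 (helper70)
-/

set_option autoImplicit false

namespace Pool.Agent.BW

open Finset Pool.Agent.SL Pool.Agent.BWP

/-- Row CELLS5 -/
theorem cells5 : Cells5 := by
  classical
  intro n m b g κ base cl E0 y0 Q L W r f τ t w gap hf hr hrf hE0 hQw hQ hLτ hLt hbase hcl hgap hW
  choose T hT1 hT2 using fun q : Finset (Fin n × Fin b) => closure (L ∪ sing q) r f hr hrf
  -- the systems and the cells
  obtain ⟨L1, hL1⟩ : ∃ L1 : (Fin n → Fin b → Bool) → Finset (Finset (Fin n × Fin b)),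
      L1 = fun x => (L ∪ sing (Q x)) ∪ sing (T (Q x) ×ˢ (univ : Finset (Fin b))) := ⟨_, rfl⟩
  have hmem : ∀ x y, x ∈ AffL (L1 y) y ↔
      ((∀ P ∈ L, BWP.par P (R8x.toA x) = BWP.par P (R8x.toA y)) ∧
        ∀ v ∈ Q y, x v.1 v.2 = y v.1 v.2) ∧ ∀ i ∈ T (Q y), x i = y i := by
    intro x y
    rw [hL1]
    dsimp only
    rw [mem_cell, ← mem_AffL, mem_AffL_sing]
  have hQeq : ∀ x y, x ∈ AffL (L1 y) y → Q x = Q y := by
    intro x y hx
    refine hQ y x fun v hv => ?_
    exact (((hmem x y).1 hx).1.2 v hv).symm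
  have hself : ∀ x, x ∈ AffL (L1 x) x := fun x => by
    rw [mem_AffL]
    exact fun _ _ => rfl
  have hcell : ∀ x y, x ∈ AffL (L1 y) y → AffL (L1 x) x = AffL (L1 y) y := by
    intro x y hx
    have h1 : L1 x = L1 y := by
      rw [hL1]
      dsimp only
      rw [hQeq x y hx]
    have hx' := mem_AffL.1 hx
    ext z
    rw [h1, mem_AffL, mem_AffL]
    constructor
    · intro h P hP
      rw [h P hP, hx' P hP]
    · intro h P hP
      rw [h P hP, hx' P hP]
  have hLq : ∀ x, (L ∪ sing (Q x)).card ≤ w + L.card := by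
    intro x
    have e1 := card_union_le L (sing (Q x))
    have e2 := sing_card (Q x)
    have e3 := hQw x
    omega
  have hTt : ∀ x, (T (Q x)).card ≤ t := by
    intro x
    refine Nat.le_of_mul_le_mul_left ?_ hf
    rw [mul_comm f t]
    exact ((hT1 (Q x)).trans (hLq x)).trans hLt
  have hL1c : ∀ x, (L1 x).card ≤ τ := by
    intro x
    have hsum : (w + L.card) + b * (T (Q x)).card ≤ τ := by
      refine Nat.le_of_mul_le_mul_right ?_ hf
      calc ((w + L.card) + b * (T (Q x)).card) * f
          = (w + L.card) * f + b * (f * (T (Q x)).card) := by ring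
        _ ≤ (w + L.card) * f + b * (w + L.card) := by
            gcongr
            exact (hT1 (Q x)).trans (hLq x)
        _ = (w + L.card) * (b + f) := by ring
        _ ≤ τ * f := hLτ
    rw [hL1]
    dsimp only
    refine (card_union_le _ _).trans ?_
    have e1 := sing_card (T (Q x) ×ˢ (univ : Finset (Fin b)))
    rw [card_product, card_univ, Fintype.card_fin, mul_comm] at e1
    have e2 := hLq x
    omega
  let c : (Fin n → Fin b → Bool) → {s // ∃ x, AffL (L1 x) x = s} :=
    fun x => ⟨AffL (L1 x) x, x, rfl⟩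
  have hc : ∀ x y, c x = c y ↔ x ∈ AffL (L1 y) y := by
    intro x y
    constructor
    · intro h
      have h1 : AffL (L1 x) x = AffL (L1 y) y := congrArg Subtype.val h
      rw [← h1]
      exact hself x
    · intro h
      exact Subtype.ext (hcell x y h)
  have hfibre : ∀ y, (univ.filter fun x => c x = c y) = AffL (L1 y) y := by
    intro y
    ext x
    rw [mem_filter, hc]
    simp
  refine ⟨{s // ∃ x, AffL (L1 x) x = s}, inferInstance, inferInstance, c, ?_, ?_, ?_, ?_⟩
  · -- number of cells
    have h1 := card_eq_sum_card_fiberwise (f := c) (s := (univ : Finset (Fin n → Fin b → Bool)))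
      (t := univ) (fun _ _ => mem_coe.2 (mem_univ _))
    have h2 : ∀ i : {s // ∃ x, AffL (L1 x) x = s}, (2 ^ b) ^ n ≤
        (univ.filter fun x => c x = i).card * 2 ^ τ := by
      rintro ⟨s, y, rfl⟩
      have e1 : (univ.filter fun x => c x = ⟨AffL (L1 y) y, y, rfl⟩) = AffL (L1 y) y :=
        hfibre y
      rw [e1]
      refine (aff_card_lower (L1 y) y).trans (Nat.mul_le_mul_left _ ?_)
      exact Nat.pow_le_pow_right (by norm_num) (hL1c y)
    have h3 : Fintype.card {s // ∃ x, AffL (L1 x) x = s} * (2 ^ b) ^ n ≤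
        2 ^ τ * (2 ^ b) ^ n := by
      calc Fintype.card {s // ∃ x, AffL (L1 x) x = s} * (2 ^ b) ^ n
          = ∑ _i : {s // ∃ x, AffL (L1 x) x = s}, (2 ^ b) ^ n := by
            rw [sum_const, card_univ, smul_eq_mul]
        _ ≤ ∑ i : {s // ∃ x, AffL (L1 x) x = s},
              (univ.filter fun x => c x = i).card * 2 ^ τ := sum_le_sum fun i _ => h2 i
        _ = (univ : Finset (Fin n → Fin b → Bool)).card * 2 ^ τ := by
            rw [← sum_mul, ← h1]
        _ = 2 ^ τ * (2 ^ b) ^ n := by
            rw [card_univ, card_X, mul_comm]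
    exact Nat.le_of_mul_le_mul_right h3 (by positivity)
  · rintro ⟨s, y, rfl⟩
    have e1 : (univ.filter fun x => c x = ⟨AffL (L1 y) y, y, rfl⟩) = AffL (L1 y) y := hfibre y
    rw [e1]
    exact hbase _ _ (hL1c y)
  · intro x hx y hy hxy hxW
    have h1 := (hmem y x).1 ((hc y x).1 hxy.symm)
    refine hW x hx y hy (fun v hv => (h1.1.2 v hv).symm) (fun P hP => (h1.1.1 P hP).symm) hxW
  · rintro ⟨s, y, rfl⟩
    have e1 : (univ.filter fun x => c x = ⟨AffL (L1 y) y, y, rfl⟩) = AffL (L1 y) y := hfibre y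
    have e2 : ∀ x, c x = ⟨AffL (L1 y) y, y, rfl⟩ ↔ c x = c y := fun x => Iff.rfl
    by_cases hne : ∃ x0 ∈ Cube E0 y0, c x0 = c y
    · right
      obtain ⟨x0, hx0, hx0y⟩ := hne
      have hfx : AffL (L1 y) y = AffL (L1 x0) x0 := (hcell x0 y ((hc x0 y).1 hx0y)).symm
      have hmemx : ∀ x, c x = c y → x ∈ AffL (L1 x0) x0 := by
        intro x hx
        rw [← hc, hx0y]
        exact hx
      by_cases hd : Dead g (T (Q x0)) x0
      · left
        obtain ⟨i, hi, j, hj, hij, hgg⟩ := hd
        refine ⟨_, hcl i j (x0 i) (x0 j) hij hgg, fun x _ hx => ?_⟩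
        have h1 := (hmem x x0).1 (hmemx x ((e2 x).1 hx))
        rw [mem_filter]
        exact ⟨mem_univ _, h1.2 i hi, h1.2 j hj⟩
      · right
        have hsp : Spread r (T (Q x0)) (AffL (L1 x0) x0) := by
          rw [hL1]
          exact spread_cell (L ∪ sing (Q x0)) (T (Q x0)) r (hT2 (Q x0)) x0
        have hsub : AffL (L1 x0) x0 ⊆ Fib (T (Q x0)) x0 := by
          intro x hx
          rw [Fib, mem_filter]
          exact ⟨mem_univ _, ((hmem x x0).1 hx).2⟩
        refine (hgap (T (Q x0)) (L1 x0) x0 (hTt x0) (hL1c x0) hsp hsub hd).trans (le_of_eq ?_)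
        unfold Sg
        refine sum_congr ?_ fun _ _ => rfl
        ext x
        rw [R6x.mem_Inter]
        simp only [List.mem_cons, List.not_mem_nil, or_false, forall_eq_or_imp, forall_eq]
        rw [e1, hfx]
        constructor
        · intro hx
          refine ⟨?_, hx⟩
          have hx' := (hmem x x0).1 hx
          rw [Cube, mem_filter] at hx0 ⊢
          refine ⟨mem_univ _, fun v hv => ?_⟩
          have h1 := hx'.1.1 {v} (hE0 v hv)
          rw [par_singleton, par_singleton] at h1
          rw [← hx0.2 v hv]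
          exact h1
        · exact fun h => h.2
    · left
      intro x hx hcx
      exact hne ⟨x, hx, hcx⟩

end Pool.Agent.BW
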