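import Pool.Agent.Lib.BW.Defs
import Pool.Agent.Lib.SL.R1g
import Pool.Agent.Lib.SL.R8a

/-! Row CORE (helper32): the pseudo-measure theorem with the values of the subcubes. -/

set_option autoImplicit false

namespace Pool.Agent.BW

open Finset Pool.Agent.SL

namespace Corex

variable {n m : ℕ} {α : Type} [Fintype α] [DecidableEq α]

theorem mem_Fib {B : Finset (Fin n)} {a x : Fin n → α} : x ∈ Fib B a ↔ ∀ i ∈ B, x i = a i := by
  simp [Fib]

theorem spread_Fib (r R : ℕ) (hR : 1 ≤ R) (hr : 1 ≤ r) (hα : Fintype.card α = r * R)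
    (T : Finset (Fin n)) (a : Fin n → α) : Spread (n := n) (α := α) r T (Fib T a) := by
  intro B hB b
  have hq : 0 < Fintype.card α := by rw [hα]; positivity
  have h1 : (Fib T a).filter (fun x => ∀ i ∈ B, x i = b i)
      = Fib (T ∪ B) (fun i => if i ∈ B then b i else a i) := by
    ext x
    rw [mem_filter, mem_Fib, mem_Fib]
    constructor
    · rintro ⟨h1, h2⟩ i hi
      by_cases hiB : i ∈ B
      · simp only [hiB, if_true]
        exact h2 i hiB
      · simp only [hiB, if_false]
        exact h1 i ((mem_union.1 hi).resolve_right hiB)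
    · intro h
      refine ⟨fun i hi => ?_, fun i hi => ?_⟩
      · have hiB : i ∉ B := fun hiB => (disjoint_left.1 hB hiB) hi
        have := h i (mem_union_left _ hi)
        simpa only [hiB, if_false] using this
      · have := h i (mem_union_right _ hi)
        simpa only [hi, if_true] using this
  rw [h1]
  have h2 := R8x.card_Fib (n := n) T a
  have h3 := R8x.card_Fib (n := n) (T ∪ B) (fun i => if i ∈ B then b i else a i)
  rw [card_union_of_disjoint hB.symm, pow_add, ← h2] at h3
  have h4 : (Fib (T ∪ B) (fun i => if i ∈ B then b i else a i)).card * Fintype.card α ^ B.card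
      = (Fib T a).card := by
    have hpos : 0 < Fintype.card α ^ T.card := by positivity
    apply Nat.eq_of_mul_eq_mul_right hpos
    rw [← h3]
    ring
  rw [← h4]
  apply Nat.mul_le_mul_left
  apply Nat.pow_le_pow_left
  rw [hα]
  exact Nat.le_mul_of_pos_right _ hR

omit [Fintype α] [DecidableEq α] in
theorem zval_ge_one (g : Fin n → α → Fin m) (T : Finset (Fin n)) (a : Fin n → α)
    (hd : ¬ Dead g T a) : 1 ≤ zval g T a := by
  classical
  unfold zval avgJ
  set lab : Fin n → Fin m := fun i => g i (a i) with hlab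
  have hsub : Fib T lab ⊆ J n m T := by
    intro η hη
    rw [mem_Fib] at hη
    simp only [J, mem_filter, mem_univ, true_and]
    intro i hi j hj hij
    by_contra hne
    refine hd ⟨i, hi, j, hj, hne, ?_⟩
    have h1 := hη i hi
    have h2 := hη j hj
    rw [hlab] at h1 h2
    simp only at h1 h2
    rw [← h1, ← h2, hij]
  have hne : (Fib T lab).Nonempty := ⟨lab, mem_Fib.2 fun _ _ => rfl⟩
  have hJpos : (0 : ℝ) < ((J n m T).card : ℝ) := by
    exact_mod_cast (hne.mono hsub).card_pos
  rw [le_div_iff₀ hJpos, one_mul]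
  have hcard := R8x.card_Fib (α := Fin m) T lab
  rw [Fintype.card_fin] at hcard
  have h1 : ((J n m T).card : ℝ) ≤ (Fintype.card (Fin n → Fin m) : ℝ) := by
    exact_mod_cast Finset.card_le_univ _
  have h2 : ∑ η ∈ Fib T lab, (m : ℝ) ^ T.card = (Fintype.card (Fin n → Fin m) : ℝ) := by
    rw [sum_const, nsmul_eq_mul]
    exact_mod_cast hcard
  have h3 : ∑ η ∈ Fib T lab, (m : ℝ) ^ T.card
      ≤ ∑ η ∈ J n m T, ∏ i ∈ T, ((m : ℝ) * (if g i (a i) = η i then 1 else 0)) := by
    calc ∑ η ∈ Fib T lab, (m : ℝ) ^ T.card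
        = ∑ η ∈ Fib T lab, ∏ i ∈ T, ((m : ℝ) * (if g i (a i) = η i then 1 else 0)) := by
          refine sum_congr rfl fun η hη => ?_
          rw [mem_Fib] at hη
          rw [← prod_const]
          refine prod_congr rfl fun i hi => ?_
          have : g i (a i) = η i := (hη i hi).symm
          rw [if_pos this, mul_one]
      _ ≤ _ := by
          refine sum_le_sum_of_subset_of_nonneg hsub fun η _ _ => ?_
          refine prod_nonneg fun i _ => ?_
          split_ifs <;> simp
  linarith

theorem card_label (i : Fin n) (c : Fin m) (g : Fin n → α → Fin m) :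
    (univ.filter fun x : Fin n → α => g i (x i) = c).card * Fintype.card α
      = (univ.filter fun a : α => g i a = c).card * Fintype.card (Fin n → α) := by
  classical
  have h := card_eq_sum_card_fiberwise (s := univ.filter fun x : Fin n → α => g i (x i) = c)
    (t := univ.filter fun a : α => g i a = c) (f := fun x => x i) (by
      intro x hx
      have hx' : g i (x i) = c := by simpa using hx
      simpa using hx')
  rw [h, sum_mul, ← smul_eq_mul (_ : ℕ) (Fintype.card (Fin n → α)), ← sum_const]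
  refine sum_congr rfl fun b hb => ?_
  have hb' : g i b = c := by simpa using hb
  have e : ((univ.filter fun x : Fin n → α => g i (x i) = c).filter fun x => x i = b)
      = Fib {i} (fun _ => b) := by
    ext x
    rw [mem_Fib]
    simp only [mem_filter, mem_univ, true_and, mem_singleton, forall_eq]
    constructor
    · exact fun h => h.2
    · intro h
      exact ⟨by rw [h]; exact hb', h⟩
  rw [e]
  have := R8x.card_Fib (n := n) {i} (fun _ => b)
  rw [card_singleton, pow_one] at this
  exact this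

/-- The pseudo-measure theorem -/
theorem core (h1 : R1g) (h3 : R3) (h5 : R5) (h5b : R5b) (h5c : R5c)
    (r R k t s : ℕ) [Nonempty α] (hn : 8 ≤ n) (hm : n = m + 1) (ht1 : 1 ≤ t) (ht : 2 * t ≤ m)
    (hα : Fintype.card α = r * R) (hk : 1 ≤ k) (hs : 4 ≤ s)
    (hkr : 32 * k * n ^ 2 * n ^ (2 * s) ≤ r) (hR1 : n ^ (s + 2) ≤ R) (𝓤 : Finset (Finset (Fin n → α)))
    (hU : ((𝓤.card + 1) * (2 ^ n * Fintype.card (Fin n → α)) + 1) * 2 ^ n * m ^ n < 4 ^ k) :
    ∃ g : Fin n → α → Fin m,
      (∀ (T : Finset (Fin n)) (a : Fin n → α), T.card ≤ t → ¬ Dead g T a →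
        (Fintype.card (Fin n → α) : ℝ) / (4 * (Fintype.card α : ℝ) ^ T.card)
          ≤ ∑ x ∈ Fib T a, Ker (2 * t) g x) ∧
      (∀ U ∈ 𝓤, -(6 / (n : ℝ) ^ ((s - 2) * t) * Fintype.card (Fin n → α))
        ≤ ∑ x ∈ U, Ker (2 * t) g x) ∧
      (∀ U ∈ 𝓤, ∀ i j : Fin n, ∀ a a' : α, i ≠ j → g i a = g j a' →
        (∀ x ∈ U, x i = a ∧ x j = a') →
        ∑ x ∈ U, Ker (2 * t) g x ≤ 6 / (n : ℝ) ^ ((s - 2) * t) * Fintype.card (Fin n → α)) ∧
      (∀ (i : Fin n) (c : Fin m),
        (univ.filter fun a : α => g i a = c).card * m ≤ 2 * Fintype.card α) := by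
  classical
  have hr1 : n ^ (s + 2) ≤ r := by
    refine le_trans ?_ hkr
    have e1 : n ^ (s + 2) ≤ n ^ 2 * n ^ (2 * s) := by
      rw [← pow_add]
      exact Nat.pow_le_pow_right (by omega) (by omega)
    calc n ^ (s + 2) ≤ n ^ 2 * n ^ (2 * s) := e1
      _ = 1 * (n ^ 2 * n ^ (2 * s)) := by ring
      _ ≤ (32 * k) * (n ^ 2 * n ^ (2 * s)) := Nat.mul_le_mul_right _ (by omega)
      _ = 32 * k * n ^ 2 * n ^ (2 * s) := by ring
  have hR0 : 1 ≤ R := le_trans (Nat.one_le_pow _ _ (by omega)) hR1
  have hr2 : 2 ≤ r := by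
    refine le_trans ?_ hr1
    calc 2 ≤ n := by omega
      _ = n ^ 1 := by simp
      _ ≤ n ^ (s + 2) := Nat.pow_le_pow_right (by omega) (by omega)
  have hr0 : 1 ≤ r := by omega
  have hm1 : 1 ≤ m := by omega
  have hnR : (8 : ℝ) ≤ n := by exact_mod_cast hn
  have hnpos : (0 : ℝ) < n := by linarith
  -- pieces
  choose! P L hP using (fun U : Finset (Fin n → α) => h1 n t r R α hr0 hR0 hα U)
  -- the family
  set Fam : Finset (Finset (Fin n) × Finset (Fin n → α)) :=
    insert (∅, univ) ((((𝓤 ×ˢ (univ : Finset (Finset (Fin n)))) ×ˢ (univ : Finset (Fin n → α))).image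
      (fun z => (z.1.2, P z.1.1 z.1.2 z.2))) ∪
      (((univ : Finset (Finset (Fin n))) ×ˢ (univ : Finset (Fin n → α))).image
      (fun z => (z.1, Fib z.1 z.2)))) with hFam
  have hFcard : Fam.card ≤ (𝓤.card + 1) * (2 ^ n * Fintype.card (Fin n → α)) + 1 := by
    refine le_trans (card_insert_le _ _) ?_
    refine Nat.add_le_add_right (le_trans (card_union_le _ _)
      (le_trans (Nat.add_le_add card_image_le card_image_le) ?_)) 1
    rw [card_product, card_product, card_product]
    simp only [card_univ, Fintype.card_finset, Fintype.card_fin]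
    rw [add_mul, one_mul, mul_assoc]
  have hτ : (0 : ℝ) < 1 / (n : ℝ) ^ s := by positivity
  have hcond : 8 * (k : ℝ) * (m : ℝ) ^ 2 / r ≤ (1 / (n : ℝ) ^ s) ^ 2 / 4 := by
    have hrR : (0 : ℝ) < r := by exact_mod_cast hr0
    have hmn : (m : ℝ) ≤ n := by
      have : m ≤ n := by omega
      exact_mod_cast this
    have hkrR : 32 * (k : ℝ) * (n : ℝ) ^ 2 * (n : ℝ) ^ (2 * s) ≤ r := by exact_mod_cast hkr
    have e : (1 / (n : ℝ) ^ s) ^ 2 / 4 = 1 / (4 * (n : ℝ) ^ (2 * s)) := by
      rw [div_pow, one_pow, ← pow_mul, mul_comm s 2]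
      field_simp
    rw [e, div_le_div_iff₀ hrR (by positivity)]
    calc 8 * (k : ℝ) * (m : ℝ) ^ 2 * (4 * (n : ℝ) ^ (2 * s))
        ≤ 8 * (k : ℝ) * (n : ℝ) ^ 2 * (4 * (n : ℝ) ^ (2 * s)) := by gcongr
      _ = 32 * (k : ℝ) * (n : ℝ) ^ 2 * (n : ℝ) ^ (2 * s) := by ring
      _ ≤ r := hkrR
      _ = 1 * r := by ring
  obtain ⟨g, hg⟩ := h3 n m r k α (1 / (n : ℝ) ^ s) hm1 hr0 hk hτ hcond Fam
    (by
      intro Q hQ
      rw [hFam, mem_insert, mem_union, mem_image, mem_image] at hQ
      rcases hQ with hQ | ⟨z, _, hz⟩ | ⟨z, _, hz⟩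
      · rw [hQ]; exact R8x.spread_univ r R hR0 hα
      · rw [← hz]
        exact (hP z.1.1).2.2.2.1 z.1.2 z.2
      · rw [← hz]
        exact spread_Fib r R hR0 hr0 hα z.1 z.2)
    (lt_of_le_of_lt (by gcongr) hU)
  have hΩ : (0 : ℝ) ≤ (Fintype.card (Fin n → α) : ℝ) := by positivity
  set E : ℝ := 3 / (n : ℝ) ^ ((s - 2) * t) with hE
  have hE0 : 0 ≤ E := by positivity
  have hE2 : 6 / (n : ℝ) ^ ((s - 2) * t) = 2 * E := by rw [hE]; ring
  have hE4 : E ≤ 1 / 4 := by
    rw [hE, div_le_div_iff₀ (by positivity) (by norm_num)]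
    have : (8 : ℝ) ^ 2 ≤ (n : ℝ) ^ ((s - 2) * t) := by
      calc (8 : ℝ) ^ 2 ≤ (n : ℝ) ^ 2 := by gcongr
        _ ≤ (n : ℝ) ^ ((s - 2) * t) := by
            apply pow_le_pow_right₀ (by linarith)
            calc 2 = 2 * 1 := by norm_num
              _ ≤ (s - 2) * t := Nat.mul_le_mul (by omega) ht1
    linarith
  -- the leftover
  have hL : ∀ U : Finset (Fin n → α), |∑ x ∈ L U, Ker (2 * t) g x|
      ≤ E * Fintype.card (Fin n → α) := by
    intro U
    have hLc := (hP U).2.2.2.2.2
    have b1 : |∑ x ∈ L U, Ker (2 * t) g x| ≤ (L U).card * (3 * (n : ℝ) ^ (2 * (2 * t))) := by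
      refine le_trans (Finset.abs_sum_le_sum_abs _ _) ?_
      refine le_trans (Finset.sum_le_card_nsmul _ _ _ (fun x _ =>
        h5b n m (2 * t) α (by omega) hm g x)) ?_
      rw [nsmul_eq_mul]
    have b2 : ((L U).card : ℝ) * (n : ℝ) ^ ((s + 2) * t) ≤ Fintype.card (Fin n → α) := by
      have : (L U).card * n ^ ((s + 2) * t) ≤ Fintype.card (Fin n → α) := by
        refine le_trans ?_ hLc
        apply Nat.mul_le_mul_left
        rw [pow_mul]
        exact Nat.pow_le_pow_left hR1 t
      exact_mod_cast this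
    have e3 : (n : ℝ) ^ ((s + 2) * t) = (n : ℝ) ^ ((s - 2) * t) * (n : ℝ) ^ (2 * (2 * t)) := by
      rw [← pow_add]
      congr 1
      obtain ⟨u, rfl⟩ : ∃ u, s = u + 2 := ⟨s - 2, by omega⟩
      simp only [Nat.add_sub_cancel]
      ring
    have hpos : (0 : ℝ) < (n : ℝ) ^ ((s - 2) * t) := by positivity
    refine le_trans b1 ?_
    rw [hE, div_mul_eq_mul_div, le_div_iff₀ hpos]
    calc ((L U).card : ℝ) * (3 * (n : ℝ) ^ (2 * (2 * t))) * (n : ℝ) ^ ((s - 2) * t)
        = 3 * ((L U).card * ((n : ℝ) ^ ((s - 2) * t) * (n : ℝ) ^ (2 * (2 * t)))) := by ring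
      _ = 3 * ((L U).card * (n : ℝ) ^ ((s + 2) * t)) := by rw [e3]
      _ ≤ 3 * Fintype.card (Fin n → α) := by gcongr
  -- the cardinalities of the pieces
  have hcard : ∀ U : Finset (Fin n → α),
      (∑ T : Finset (Fin n), ∑ a : Fin n → α, ((P U T a).card : ℝ))
        ≤ Fintype.card (Fin n → α) := by
    intro U
    have h := (hP U).2.2.1 (fun _ => 1)
    simp only [sum_const, nsmul_eq_mul, mul_one] at h
    have hUc : (U.card : ℝ) ≤ Fintype.card (Fin n → α) := by
      exact_mod_cast Finset.card_le_univ U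
    have hLc : (0 : ℝ) ≤ ((L U).card : ℝ) := Nat.cast_nonneg _
    linarith
  have hgood : ∀ U ∈ 𝓤, ∀ T a, Good (1 / (n : ℝ) ^ s) g T (P U T a) := by
    intro U hU' T a
    have : (T, P U T a) ∈ Fam := by
      rw [hFam, mem_insert, mem_union, mem_image]
      right
      left
      exact ⟨((U, T), a), mem_product.mpr ⟨mem_product.mpr ⟨hU', mem_univ _⟩, mem_univ _⟩, rfl⟩
    exact hg _ this
  have hval : ∀ U ∈ 𝓤, ∀ T a, (P U T a).Nonempty →
      |(∑ x ∈ P U T a, Ker (2 * t) g x) - (P U T a).card * zval g T a|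
        ≤ (P U T a).card * (zval g T a / 2 + E) := by
    intro U hU' T a hne
    exact h5 n m t α hn hm ht s hs g T a (P U T a) ((hP U).2.2.2.2.1 T a hne)
      (fun x hx => (mem_inter.mp ((hP U).1 T a hx)).2) (hgood U hU' T a)
  refine ⟨g, ?_, ?_, ?_, ?_⟩
  · -- the subcubes
    intro T a hT hd
    have hgT : Good (1 / (n : ℝ) ^ s) g T (Fib T a) := by
      have : (T, Fib T a) ∈ Fam := by
        rw [hFam, mem_insert, mem_union, mem_image, mem_image]
        right
        right
        exact ⟨(T, a), mem_product.mpr ⟨mem_univ _, mem_univ _⟩, rfl⟩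
      exact hg _ this
    have h := h5 n m t α hn hm ht s hs g T a (Fib T a) hT (subset_refl _) hgT
    have hz := zval_ge_one g T a hd
    have h' := (abs_le.mp h).1
    have hp : (0 : ℝ) ≤ (Fib T a).card := Nat.cast_nonneg _
    have hE3 : 3 / (n : ℝ) ^ ((s - 2) * t) ≤ 1 / 4 := hE4
    have hcf : ((Fib T a).card : ℝ) * (Fintype.card α : ℝ) ^ T.card
        = (Fintype.card (Fin n → α) : ℝ) := by exact_mod_cast R8x.card_Fib (n := n) T a
    have hqpos : (0 : ℝ) < (Fintype.card α : ℝ) ^ T.card := by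
      have : 0 < Fintype.card α := Fintype.card_pos
      positivity
    rw [div_le_iff₀ (by positivity), ← hcf]
    have h1 : ((Fib T a).card : ℝ) / 4 ≤ ∑ x ∈ Fib T a, Ker (2 * t) g x := by nlinarith
    calc ((Fib T a).card : ℝ) * (Fintype.card α : ℝ) ^ T.card
        = ((Fib T a).card : ℝ) / 4 * (4 * (Fintype.card α : ℝ) ^ T.card) := by ring
      _ ≤ (∑ x ∈ Fib T a, Ker (2 * t) g x) * (4 * (Fintype.card α : ℝ) ^ T.card) := by
          gcongr
  · -- nonnegativity
    intro U hU'
    have hsum := (hP U).2.2.1 (Ker (2 * t) g)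
    rw [hsum, hE2]
    have hpc : ∀ T a, -((P U T a).card * E) ≤ ∑ x ∈ P U T a, Ker (2 * t) g x := by
      intro T a
      rcases (P U T a).eq_empty_or_nonempty with he | hne
      · rw [he]; simp
      · have h := (abs_le.mp (hval U hU' T a hne)).1
        have hz := (h5c n m α hm1 g T a).1
        have hp : (0 : ℝ) ≤ (P U T a).card := Nat.cast_nonneg _
        have hzp : (0 : ℝ) ≤ (P U T a).card * zval g T a := mul_nonneg hp hz
        nlinarith
    have hs1 : -(∑ T : Finset (Fin n), ∑ a : Fin n → α, ((P U T a).card : ℝ)) * E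
        ≤ ∑ T : Finset (Fin n), ∑ a : Fin n → α, ∑ x ∈ P U T a, Ker (2 * t) g x := by
      rw [neg_mul, Finset.sum_mul, ← Finset.sum_neg_distrib]
      refine Finset.sum_le_sum (fun T _ => ?_)
      rw [Finset.sum_mul, ← Finset.sum_neg_distrib]
      exact Finset.sum_le_sum (fun a _ => hpc T a)
    have hs2 := hcard U
    have hl := (abs_le.mp (hL U)).1
    have hs3 : (∑ T : Finset (Fin n), ∑ a : Fin n → α, ((P U T a).card : ℝ)) * E
        ≤ Fintype.card (Fin n → α) * E := by gcongr
    linarith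
  · -- leaves
    intro U hU' i j a a' hij hgg hUs
    have hsum := (hP U).2.2.1 (Ker (2 * t) g)
    rw [hsum, hE2]
    have hpc : ∀ T b, ∑ x ∈ P U T b, Ker (2 * t) g x ≤ (P U T b).card * E := by
      intro T b
      rcases (P U T b).eq_empty_or_nonempty with he | hne
      · rw [he]; simp
      · have hsub : ∀ x ∈ P U T b, x i = a ∧ x j = a' := fun x hx =>
          hUs x (mem_inter.mp ((hP U).1 T b hx)).1
        have hfib : ∀ x ∈ P U T b, ∀ u ∈ T, x u = b u := by
          intro x hx
          have := (mem_inter.mp ((hP U).1 T b hx)).2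
          simpa [Fib] using this
        have hmem : ∀ u : Fin n, ∀ v : α, (∀ x ∈ P U T b, x u = v) → u ∈ T := by
          intro u v huv
          by_contra hnot
          have hsp := (hP U).2.2.2.1 T b {u} (Finset.disjoint_singleton_left.mpr hnot) (fun _ => v)
          have hfil : ((P U T b).filter (fun x => ∀ i ∈ ({u} : Finset (Fin n)), x i = v))
              = P U T b := by
            apply Finset.filter_true_of_mem
            intro x hx w hw
            rw [mem_singleton] at hw
            rw [hw]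
            exact huv x hx
          rw [hfil, card_singleton, pow_one] at hsp
          have hpos : 0 < (P U T b).card := hne.card_pos
          nlinarith
        have hi := hmem i a (fun x hx => (hsub x hx).1)
        have hj := hmem j a' (fun x hx => (hsub x hx).2)
        obtain ⟨x0, hx0⟩ := hne
        have hbi : b i = a := by rw [← hfib x0 hx0 i hi]; exact (hsub x0 hx0).1
        have hbj : b j = a' := by rw [← hfib x0 hx0 j hj]; exact (hsub x0 hx0).2
        have hz := (h5c n m α hm1 g T b).2.2 i hi j hj hij (by rw [hbi, hbj]; exact hgg)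
        have h := (abs_le.mp (hval U hU' T b ⟨x0, hx0⟩)).2
        rw [hz] at h
        linarith
    have hs1 : ∑ T : Finset (Fin n), ∑ b : Fin n → α, ∑ x ∈ P U T b, Ker (2 * t) g x
        ≤ (∑ T : Finset (Fin n), ∑ b : Fin n → α, ((P U T b).card : ℝ)) * E := by
      rw [Finset.sum_mul]
      refine Finset.sum_le_sum (fun T _ => ?_)
      rw [Finset.sum_mul]
      exact Finset.sum_le_sum (fun b _ => hpc T b)
    have hs2 := hcard U
    have hl := (abs_le.mp (hL U)).2
    have hs3 : (∑ T : Finset (Fin n), ∑ a : Fin n → α, ((P U T a).card : ℝ)) * E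
        ≤ Fintype.card (Fin n → α) * E := by gcongr
    linarith
  · -- balance
    intro i c
    have hg0 : Good (1 / (n : ℝ) ^ s) g (∅ : Finset (Fin n)) univ := by
      have : ((∅ : Finset (Fin n)), (univ : Finset (Fin n → α))) ∈ Fam := by
        rw [hFam]; exact mem_insert_self _ _
      exact hg _ this
    have h := hg0 {i} (by simp) (fun _ => c)
    have e1 : ∑ x : Fin n → α, Qf g (fun _ => c) {i} x
        = m * ((univ.filter fun x : Fin n → α => g i (x i) = c).card : ℝ)
          - Fintype.card (Fin n → α) := by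
      have : ∀ x : Fin n → α, Qf g (fun _ => c) {i} x
          = (m : ℝ) * (if g i (x i) = c then 1 else 0) - 1 := by
        intro x
        rw [Qf, prod_singleton]
      simp only [this]
      rw [sum_sub_distrib, ← mul_sum, sum_boole, sum_const, card_univ, nsmul_eq_mul, mul_one]
    rw [e1, card_singleton, pow_one, card_univ] at h
    have h1 := (abs_le.mp h).2
    have h2 : (1 : ℝ) / (n : ℝ) ^ s ≤ 1 := by
      rw [div_le_one (by positivity)]
      exact one_le_pow₀ (by linarith)
    have h3 : (m : ℝ) * ((univ.filter fun x : Fin n → α => g i (x i) = c).card : ℝ)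
        ≤ 2 * Fintype.card (Fin n → α) := by nlinarith
    have h4 := card_label (n := n) i c g
    have h5' : m * (univ.filter fun x : Fin n → α => g i (x i) = c).card
        ≤ 2 * Fintype.card (Fin n → α) := by exact_mod_cast h3
    have hΩpos : 0 < Fintype.card (Fin n → α) := Fintype.card_pos
    apply Nat.le_of_mul_le_mul_right _ hΩpos
    calc (univ.filter fun a : α => g i a = c).card * m * Fintype.card (Fin n → α)
        = m * ((univ.filter fun a : α => g i a = c).card * Fintype.card (Fin n → α)) := by ring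
      _ = m * ((univ.filter fun x : Fin n → α => g i (x i) = c).card * Fintype.card α) := by
          rw [h4]
      _ = (m * (univ.filter fun x : Fin n → α => g i (x i) = c).card) * Fintype.card α := by ring
      _ ≤ (2 * Fintype.card (Fin n → α)) * Fintype.card α := Nat.mul_le_mul_right _ h5'
      _ = 2 * Fintype.card α * Fintype.card (Fin n → α) := by ring

end Corex

/-- Row CORE -/
theorem core (h1 : R1g) (h3 : R3) (h5 : R5) (h5b : R5b) (h5c : R5c) : Core := by
  intro n m α _ _ _ r R k t s hn hm ht1 ht hα hk hs hkr hR1 𝓤 hU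
  exact Corex.core h1 h3 h5 h5b h5c r R k t s hn hm ht1 ht hα hk hs hkr hR1 𝓤 hU

end Pool.Agent.BW
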