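import Pool.Agent.Lib.BW.Defs5
import Pool.Agent.Lib.BW.Core

/-! Row CORE2 (helper32): the pseudo-measure theorem with a family of spread sets. -/

set_option autoImplicit false

namespace Pool.Agent.BW

open Finset Pool.Agent.SL

namespace Core2x

variable {n m : ℕ} {α : Type} [Fintype α] [DecidableEq α]

/-- The pseudo-measure theorem -/
theorem core (h1 : R1g) (h3 : R3) (h5 : R5) (h5b : R5b) (h5c : R5c)
    (r R k t s : ℕ) [Nonempty α] (hn : 8 ≤ n) (hm : n = m + 1) (ht1 : 1 ≤ t) (ht : 2 * t ≤ m)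
    (hα : Fintype.card α = r * R) (hk : 1 ≤ k) (hs : 4 ≤ s)
    (hkr : 32 * k * n ^ 2 * n ^ (2 * s) ≤ r) (hR1 : n ^ (s + 2) ≤ R) (𝓤 : Finset (Finset (Fin n → α)))
    (𝓟 : Finset (Finset (Fin n) × Finset (Fin n → α)))
    (h𝓟 : ∀ P ∈ 𝓟, P.1.card ≤ t ∧ Spread r P.1 P.2)
    (hU : (𝓤.card * (2 ^ n * Fintype.card (Fin n → α)) + 𝓟.card + 1) * 2 ^ n * m ^ n < 4 ^ k) :
    ∃ g : Fin n → α → Fin m,
      (∀ P ∈ 𝓟, ∀ a, P.2 ⊆ Fib P.1 a → ¬ Dead g P.1 a →
        (P.2.card : ℝ) / 4 ≤ ∑ x ∈ P.2, Ker (2 * t) g x) ∧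
      (∀ U ∈ 𝓤, -(6 / (n : ℝ) ^ ((s - 2) * t) * Fintype.card (Fin n → α))
        ≤ ∑ x ∈ U, Ker (2 * t) g x) ∧
      (∀ U ∈ 𝓤, ∀ i j : Fin n, ∀ a a' : α, i ≠ j → g i a = g j a' →
        (∀ x ∈ U, x i = a ∧ x j = a') →
        ∑ x ∈ U, Ker (2 * t) g x ≤ 6 / (n : ℝ) ^ ((s - 2) * t) * Fintype.card (Fin n → α)) := by
  classical
  have hr1 : n ^ (s + 2) ≤ r := by
    refine le_trans ?_ hkr
    have e1 : n ^ (s + 2) ≤ n ^ 2 * n ^ (2 * s) := by
      rw [← pow_add]
      exact Nat.pow_le_pow_right (by omega) (by omega)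
    calc n ^ (s + 2) ≤ n ^ 2 * n ^ (2 * s) := e1
      _ = 1 * (n ^ 2 * n ^ (2 * s)) := by ring
      _ ≤ (32 * k) * (n ^ 2 * n ^ (2 * s)) := Nat.mul_le_mul_right _ (by omega)
      _ = 32 * k * n ^ 2 * n ^ (2 * s) := by ring
  have hR0 : 1 ≤ R := le_trans (Nat.one_le_pow _ _ (by omega)) hR1
  have hr2 : 2 ≤ r := by
    refine le_trans ?_ hr1
    calc 2 ≤ n := by omega
      _ = n ^ 1 := by simp
      _ ≤ n ^ (s + 2) := Nat.pow_le_pow_right (by omega) (by omega)
  have hr0 : 1 ≤ r := by omega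
  have hm1 : 1 ≤ m := by omega
  have hnR : (8 : ℝ) ≤ n := by exact_mod_cast hn
  have hnpos : (0 : ℝ) < n := by linarith
  -- pieces
  choose! P L hP using (fun U : Finset (Fin n → α) => h1 n t r R α hr0 hR0 hα U)
  -- the family
  set Fam : Finset (Finset (Fin n) × Finset (Fin n → α)) :=
    insert (∅, univ) ((((𝓤 ×ˢ (univ : Finset (Finset (Fin n)))) ×ˢ (univ : Finset (Fin n → α))).image
      (fun z => (z.1.2, P z.1.1 z.1.2 z.2))) ∪ 𝓟) with hFam
  have hFcard : Fam.card ≤ 𝓤.card * (2 ^ n * Fintype.card (Fin n → α)) + 𝓟.card + 1 := by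
    refine le_trans (card_insert_le _ _) ?_
    refine Nat.add_le_add_right (le_trans (card_union_le _ _)
      (Nat.add_le_add_right (le_trans card_image_le ?_) _)) 1
    rw [card_product, card_product]
    simp only [card_univ, Fintype.card_finset, Fintype.card_fin]
    rw [mul_assoc]
  have hτ : (0 : ℝ) < 1 / (n : ℝ) ^ s := by positivity
  have hcond : 8 * (k : ℝ) * (m : ℝ) ^ 2 / r ≤ (1 / (n : ℝ) ^ s) ^ 2 / 4 := by
    have hrR : (0 : ℝ) < r := by exact_mod_cast hr0
    have hmn : (m : ℝ) ≤ n := by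
      have : m ≤ n := by omega
      exact_mod_cast this
    have hkrR : 32 * (k : ℝ) * (n : ℝ) ^ 2 * (n : ℝ) ^ (2 * s) ≤ r := by exact_mod_cast hkr
    have e : (1 / (n : ℝ) ^ s) ^ 2 / 4 = 1 / (4 * (n : ℝ) ^ (2 * s)) := by
      rw [div_pow, one_pow, ← pow_mul, mul_comm s 2]
      field_simp
    rw [e, div_le_div_iff₀ hrR (by positivity)]
    calc 8 * (k : ℝ) * (m : ℝ) ^ 2 * (4 * (n : ℝ) ^ (2 * s))
        ≤ 8 * (k : ℝ) * (n : ℝ) ^ 2 * (4 * (n : ℝ) ^ (2 * s)) := by gcongr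
      _ = 32 * (k : ℝ) * (n : ℝ) ^ 2 * (n : ℝ) ^ (2 * s) := by ring
      _ ≤ r := hkrR
      _ = 1 * r := by ring
  obtain ⟨g, hg⟩ := h3 n m r k α (1 / (n : ℝ) ^ s) hm1 hr0 hk hτ hcond Fam
    (by
      intro Q hQ
      rw [hFam, mem_insert, mem_union, mem_image] at hQ
      rcases hQ with hQ | ⟨z, _, hz⟩ | hQ
      · rw [hQ]; exact R8x.spread_univ r R hR0 hα
      · rw [← hz]
        exact (hP z.1.1).2.2.2.1 z.1.2 z.2
      · exact (h𝓟 Q hQ).2)
    (lt_of_le_of_lt (by gcongr) hU)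
  have hΩ : (0 : ℝ) ≤ (Fintype.card (Fin n → α) : ℝ) := by positivity
  set E : ℝ := 3 / (n : ℝ) ^ ((s - 2) * t) with hE
  have hE0 : 0 ≤ E := by positivity
  have hE2 : 6 / (n : ℝ) ^ ((s - 2) * t) = 2 * E := by rw [hE]; ring
  have hE4 : E ≤ 1 / 4 := by
    rw [hE, div_le_div_iff₀ (by positivity) (by norm_num)]
    have : (8 : ℝ) ^ 2 ≤ (n : ℝ) ^ ((s - 2) * t) := by
      calc (8 : ℝ) ^ 2 ≤ (n : ℝ) ^ 2 := by gcongr
        _ ≤ (n : ℝ) ^ ((s - 2) * t) := by
            apply pow_le_pow_right₀ (by linarith)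
            calc 2 = 2 * 1 := by norm_num
              _ ≤ (s - 2) * t := Nat.mul_le_mul (by omega) ht1
    linarith
  -- the leftover
  have hL : ∀ U : Finset (Fin n → α), |∑ x ∈ L U, Ker (2 * t) g x|
      ≤ E * Fintype.card (Fin n → α) := by
    intro U
    have hLc := (hP U).2.2.2.2.2
    have b1 : |∑ x ∈ L U, Ker (2 * t) g x| ≤ (L U).card * (3 * (n : ℝ) ^ (2 * (2 * t))) := by
      refine le_trans (Finset.abs_sum_le_sum_abs _ _) ?_
      refine le_trans (Finset.sum_le_card_nsmul _ _ _ (fun x _ =>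
        h5b n m (2 * t) α (by omega) hm g x)) ?_
      rw [nsmul_eq_mul]
    have b2 : ((L U).card : ℝ) * (n : ℝ) ^ ((s + 2) * t) ≤ Fintype.card (Fin n → α) := by
      have : (L U).card * n ^ ((s + 2) * t) ≤ Fintype.card (Fin n → α) := by
        refine le_trans ?_ hLc
        apply Nat.mul_le_mul_left
        rw [pow_mul]
        exact Nat.pow_le_pow_left hR1 t
      exact_mod_cast this
    have e3 : (n : ℝ) ^ ((s + 2) * t) = (n : ℝ) ^ ((s - 2) * t) * (n : ℝ) ^ (2 * (2 * t)) := by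
      rw [← pow_add]
      congr 1
      obtain ⟨u, rfl⟩ : ∃ u, s = u + 2 := ⟨s - 2, by omega⟩
      simp only [Nat.add_sub_cancel]
      ring
    have hpos : (0 : ℝ) < (n : ℝ) ^ ((s - 2) * t) := by positivity
    refine le_trans b1 ?_
    rw [hE, div_mul_eq_mul_div, le_div_iff₀ hpos]
    calc ((L U).card : ℝ) * (3 * (n : ℝ) ^ (2 * (2 * t))) * (n : ℝ) ^ ((s - 2) * t)
        = 3 * ((L U).card * ((n : ℝ) ^ ((s - 2) * t) * (n : ℝ) ^ (2 * (2 * t)))) := by ring
      _ = 3 * ((L U).card * (n : ℝ) ^ ((s + 2) * t)) := by rw [e3]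
      _ ≤ 3 * Fintype.card (Fin n → α) := by gcongr
  -- the cardinalities of the pieces
  have hcard : ∀ U : Finset (Fin n → α),
      (∑ T : Finset (Fin n), ∑ a : Fin n → α, ((P U T a).card : ℝ))
        ≤ Fintype.card (Fin n → α) := by
    intro U
    have h := (hP U).2.2.1 (fun _ => 1)
    simp only [sum_const, nsmul_eq_mul, mul_one] at h
    have hUc : (U.card : ℝ) ≤ Fintype.card (Fin n → α) := by
      exact_mod_cast Finset.card_le_univ U
    have hLc : (0 : ℝ) ≤ ((L U).card : ℝ) := Nat.cast_nonneg _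
    linarith
  have hgood : ∀ U ∈ 𝓤, ∀ T a, Good (1 / (n : ℝ) ^ s) g T (P U T a) := by
    intro U hU' T a
    have : (T, P U T a) ∈ Fam := by
      rw [hFam, mem_insert, mem_union, mem_image]
      right
      left
      exact ⟨((U, T), a), mem_product.mpr ⟨mem_product.mpr ⟨hU', mem_univ _⟩, mem_univ _⟩, rfl⟩
    exact hg _ this
  have hval : ∀ U ∈ 𝓤, ∀ T a, (P U T a).Nonempty →
      |(∑ x ∈ P U T a, Ker (2 * t) g x) - (P U T a).card * zval g T a|
        ≤ (P U T a).card * (zval g T a / 2 + E) := by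
    intro U hU' T a hne
    exact h5 n m t α hn hm ht s hs g T a (P U T a) ((hP U).2.2.2.2.1 T a hne)
      (fun x hx => (mem_inter.mp ((hP U).1 T a hx)).2) (hgood U hU' T a)
  refine ⟨g, ?_, ?_, ?_⟩
  · -- the sets of the family
    intro Q hQ a hsub hd
    have hgT : Good (1 / (n : ℝ) ^ s) g Q.1 Q.2 := by
      have : (Q.1, Q.2) ∈ Fam := by
        rw [hFam, mem_insert, mem_union]
        right
        right
        exact hQ
      exact hg _ this
    have h := h5 n m t α hn hm ht s hs g Q.1 a Q.2 (h𝓟 Q hQ).1 hsub hgT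
    have hz := Corex.zval_ge_one g Q.1 a hd
    have h' := (abs_le.mp h).1
    have hp : (0 : ℝ) ≤ Q.2.card := Nat.cast_nonneg _
    have hE3 : 3 / (n : ℝ) ^ ((s - 2) * t) ≤ 1 / 4 := hE4
    nlinarith
  · -- nonnegativity
    intro U hU'
    have hsum := (hP U).2.2.1 (Ker (2 * t) g)
    rw [hsum, hE2]
    have hpc : ∀ T a, -((P U T a).card * E) ≤ ∑ x ∈ P U T a, Ker (2 * t) g x := by
      intro T a
      rcases (P U T a).eq_empty_or_nonempty with he | hne
      · rw [he]; simp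
      · have h := (abs_le.mp (hval U hU' T a hne)).1
        have hz := (h5c n m α hm1 g T a).1
        have hp : (0 : ℝ) ≤ (P U T a).card := Nat.cast_nonneg _
        have hzp : (0 : ℝ) ≤ (P U T a).card * zval g T a := mul_nonneg hp hz
        nlinarith
    have hs1 : -(∑ T : Finset (Fin n), ∑ a : Fin n → α, ((P U T a).card : ℝ)) * E
        ≤ ∑ T : Finset (Fin n), ∑ a : Fin n → α, ∑ x ∈ P U T a, Ker (2 * t) g x := by
      rw [neg_mul, Finset.sum_mul, ← Finset.sum_neg_distrib]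
      refine Finset.sum_le_sum (fun T _ => ?_)
      rw [Finset.sum_mul, ← Finset.sum_neg_distrib]
      exact Finset.sum_le_sum (fun a _ => hpc T a)
    have hs2 := hcard U
    have hl := (abs_le.mp (hL U)).1
    have hs3 : (∑ T : Finset (Fin n), ∑ a : Fin n → α, ((P U T a).card : ℝ)) * E
        ≤ Fintype.card (Fin n → α) * E := by gcongr
    linarith
  · -- leaves
    intro U hU' i j a a' hij hgg hUs
    have hsum := (hP U).2.2.1 (Ker (2 * t) g)
    rw [hsum, hE2]
    have hpc : ∀ T b, ∑ x ∈ P U T b, Ker (2 * t) g x ≤ (P U T b).card * E := by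
      intro T b
      rcases (P U T b).eq_empty_or_nonempty with he | hne
      · rw [he]; simp
      · have hsub : ∀ x ∈ P U T b, x i = a ∧ x j = a' := fun x hx =>
          hUs x (mem_inter.mp ((hP U).1 T b hx)).1
        have hfib : ∀ x ∈ P U T b, ∀ u ∈ T, x u = b u := by
          intro x hx
          have := (mem_inter.mp ((hP U).1 T b hx)).2
          simpa [Fib] using this
        have hmem : ∀ u : Fin n, ∀ v : α, (∀ x ∈ P U T b, x u = v) → u ∈ T := by
          intro u v huv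
          by_contra hnot
          have hsp := (hP U).2.2.2.1 T b {u} (Finset.disjoint_singleton_left.mpr hnot) (fun _ => v)
          have hfil : ((P U T b).filter (fun x => ∀ i ∈ ({u} : Finset (Fin n)), x i = v))
              = P U T b := by
            apply Finset.filter_true_of_mem
            intro x hx w hw
            rw [mem_singleton] at hw
            rw [hw]
            exact huv x hx
          rw [hfil, card_singleton, pow_one] at hsp
          have hpos : 0 < (P U T b).card := hne.card_pos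
          nlinarith
        have hi := hmem i a (fun x hx => (hsub x hx).1)
        have hj := hmem j a' (fun x hx => (hsub x hx).2)
        obtain ⟨x0, hx0⟩ := hne
        have hbi : b i = a := by rw [← hfib x0 hx0 i hi]; exact (hsub x0 hx0).1
        have hbj : b j = a' := by rw [← hfib x0 hx0 j hj]; exact (hsub x0 hx0).2
        have hz := (h5c n m α hm1 g T b).2.2 i hi j hj hij (by rw [hbi, hbj]; exact hgg)
        have h := (abs_le.mp (hval U hU' T b ⟨x0, hx0⟩)).2
        rw [hz] at h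
        linarith
    have hs1 : ∑ T : Finset (Fin n), ∑ b : Fin n → α, ∑ x ∈ P U T b, Ker (2 * t) g x
        ≤ (∑ T : Finset (Fin n), ∑ b : Fin n → α, ((P U T b).card : ℝ)) * E := by
      rw [Finset.sum_mul]
      refine Finset.sum_le_sum (fun T _ => ?_)
      rw [Finset.sum_mul]
      exact Finset.sum_le_sum (fun b _ => hpc T b)
    have hs2 := hcard U
    have hl := (abs_le.mp (hL U)).2
    have hs3 : (∑ T : Finset (Fin n), ∑ a : Fin n → α, ((P U T a).card : ℝ)) * E
        ≤ Fintype.card (Fin n → α) * E := by gcongr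
    linarith

end Core2x

/-- Row CORE2 -/
theorem core2 (h1 : R1g) (h3 : R3) (h5 : R5) (h5b : R5b) (h5c : R5c) : Core2 := by
  intro n m α _ _ _ r R k t s hn hm ht1 ht hα hk hs hkr hR1 𝓤 𝓟 h𝓟 hU
  exact Core2x.core h1 h3 h5 h5b h5c r R k t s hn hm ht1 ht hα hk hs hkr hR1 𝓤 𝓟 h𝓟 hU

end Pool.Agent.BW
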