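import Pool.Agent.Lib.BW.Defs6

/-!
# Bounded workspace, DNF version: row KILL3
-/

set_option autoImplicit false

namespace Pool.Agent.BW

open Finset Pool.Agent.SL

namespace Kill3x

variable {ν : Type} [Fintype ν] [DecidableEq ν]

/-- restrictions which set all the variables of `J` -/
theorem cnt {L : ℕ} (hL : 2 ≤ L) (J : Finset ν) :
    (univ.filter (fun ω : ν → Fin L => ∀ v ∈ J, (ω v : ℕ) ≤ 1)).card * L ^ J.card =
      2 ^ J.card * L ^ Fintype.card ν := by
  classical
  set A : Finset (Fin L) := univ.filter (fun a : Fin L => (a : ℕ) ≤ 1) with hA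
  have hA2 : A.card = 2 := by
    have e : A = {⟨0, by omega⟩, ⟨1, by omega⟩} := by
      ext a
      rw [hA, mem_filter, mem_insert, mem_singleton, Fin.ext_iff, Fin.ext_iff]
      simp only [mem_univ, true_and]
      omega
    rw [e, card_pair]
    rw [Ne, Fin.ext_iff]
    simp
  have h1 : univ.filter (fun ω : ν → Fin L => ∀ v ∈ J, (ω v : ℕ) ≤ 1) =
      Fintype.piFinset (fun v => if v ∈ J then A else univ) := by
    ext ω
    rw [mem_filter, Fintype.mem_piFinset]
    constructor
    · rintro ⟨-, h⟩ v
      by_cases hv : v ∈ J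
      · rw [if_pos hv, hA, mem_filter]
        exact ⟨mem_univ _, h v hv⟩
      · rw [if_neg hv]
        exact mem_univ _
    · intro h
      refine ⟨mem_univ _, fun v hv => ?_⟩
      have := h v
      rw [if_pos hv, hA, mem_filter] at this
      exact this.2
  have h2 : L ^ J.card = ∏ v : ν, (if v ∈ J then L else 1) := by
    rw [prod_ite_mem univ J (fun _ => L), univ_inter, prod_const]
  have h3 : 2 ^ J.card = ∏ v : ν, (if v ∈ J then 2 else 1) := by
    rw [prod_ite_mem univ J (fun _ => 2), univ_inter, prod_const]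
  have h4 : L ^ Fintype.card ν = ∏ _v : ν, L := by
    rw [prod_const, card_univ]
  rw [h1, Fintype.card_piFinset, h2, h3, h4, ← prod_mul_distrib, ← prod_mul_distrib]
  refine prod_congr rfl fun v _ => ?_
  by_cases hv : v ∈ J
  · simp only [if_pos hv]
    rw [hA2]
  · simp only [if_neg hv]
    rw [card_univ, Fintype.card_fin, mul_one, one_mul]

end Kill3x

open Kill3x in
/-- Row KILL3 -/
theorem kill3 (h : Switch) : Kill3 := by
  classical
  intro k L hL
  obtain ⟨C, hC⟩ := h k L hL
  refine ⟨C, ?_⟩
  intro n b s f Γ I _ G hG hn hb hs hf hI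
  have hcν : Fintype.card (Fin n × Fin b) = n * b := by
    rw [Fintype.card_prod, Fintype.card_fin, Fintype.card_fin]
  set Z : ℕ := L ^ Fintype.card (Fin n × Fin b) with hZ
  have hZ0 : 0 < Z := by
    rw [hZ]
    exact Nat.pow_pos (by omega)
  -- the variables which are set
  set E : (Fin n × Fin b → Fin L) → Finset (Fin n × Fin b) := fun ω => univ.filter (fun v => (ω v : ℕ) ≤ 1) with hE
  -- too many set variables
  set A1 : Finset (Fin n × Fin b → Fin L) := univ.filter (fun ω => s < (E ω).card) with hA1
  have h1 : 4 * A1.card ≤ Z := by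
    have e1 : A1.card * s ≤ ∑ ω : Fin n × Fin b → Fin L, (E ω).card := by
      rw [← smul_eq_mul, ← sum_const]
      refine (sum_le_sum fun ω hω => ?_).trans (sum_le_sum_of_subset (subset_univ A1))
      rw [hA1, mem_filter] at hω
      exact hω.2.le
    have e2 : (∑ ω : Fin n × Fin b → Fin L, (E ω).card) * L = Fintype.card (Fin n × Fin b) * (2 * Z) := by
      have e3 : ∑ ω : Fin n × Fin b → Fin L, (E ω).card =
          ∑ v : Fin n × Fin b, (univ.filter (fun ω : Fin n × Fin b → Fin L => (ω v : ℕ) ≤ 1)).card := by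
        simp only [hE, card_filter]
        rw [sum_comm]
      rw [e3, sum_mul, ← smul_eq_mul (Fintype.card (Fin n × Fin b)), ← card_univ, ← sum_const]
      refine sum_congr rfl fun v _ => ?_
      have := cnt hL ({v} : Finset (Fin n × Fin b))
      simp only [mem_singleton, forall_eq, card_singleton, pow_one] at this
      exact this
    have e4 : 4 * A1.card * (s * L) ≤ Z * (s * L) := by
      calc 4 * A1.card * (s * L) = 4 * (A1.card * s * L) := by ring
        _ ≤ 4 * ((∑ ω : Fin n × Fin b → Fin L, (E ω).card) * L) := by gcongr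
        _ = (8 * (n * b)) * Z := by rw [e2, hcν]; ring
        _ ≤ (s * L) * Z := Nat.mul_le_mul_right _ hs
        _ = Z * (s * L) := by ring
    have hnb : 0 < n * b := Nat.mul_pos (by omega) (by omega)
    exact Nat.le_of_mul_le_mul_right e4 (by omega)
  -- a full block
  set A2 : Finset (Fin n × Fin b → Fin L) := univ.filter (fun ω => ∃ i : Fin n,
    f < (univ.filter fun u : Fin b => (i, u) ∈ E ω).card) with hA2
  have h2 : 4 * A2.card ≤ Z := by
    let bad : Fin n × Finset (Fin b) → Finset (Fin n × Fin b → Fin L) := fun z =>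
      univ.filter (fun ω => ∀ v ∈ z.2.map ⟨fun u => (z.1, u), fun _ _ h => (Prod.ext_iff.1 h).2⟩,
        (ω v : ℕ) ≤ 1)
    have e1 : A2 ⊆ ((univ : Finset (Fin n)) ×ˢ (powersetCard f univ)).biUnion bad := by
      intro ω hω
      rw [hA2, mem_filter] at hω
      obtain ⟨-, i, hi⟩ := hω
      obtain ⟨J, hJ, hJc⟩ := exists_subset_card_eq hi.le
      rw [mem_biUnion]
      refine ⟨(i, J), ?_, ?_⟩
      · rw [mem_product, mem_powersetCard]
        exact ⟨mem_univ _, subset_univ _, hJc⟩
      · simp only [bad, mem_filter, mem_univ, true_and, mem_map, Function.Embedding.coeFn_mk]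
        rintro v ⟨u, hu, rfl⟩
        have := hJ hu
        rw [mem_filter, hE, mem_filter] at this
        exact this.2.2
    have e2 : ∀ z ∈ (univ : Finset (Fin n)) ×ˢ (powersetCard f (univ : Finset (Fin b))),
        (bad z).card * L ^ f = 2 ^ f * Z := by
      intro z hz
      rw [mem_product, mem_powersetCard] at hz
      have := cnt hL (z.2.map ⟨fun u => (z.1, u), fun _ _ h => (Prod.ext_iff.1 h).2⟩ : Finset (Fin n × Fin b))
      rw [card_map, hz.2.2] at this
      exact this
    have e3 : A2.card * L ^ f ≤ n * 2 ^ b * (2 ^ f * Z) := by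
      calc A2.card * L ^ f ≤ (∑ z ∈ (univ : Finset (Fin n)) ×ˢ
            (powersetCard f (univ : Finset (Fin b))), (bad z).card) * L ^ f :=
            Nat.mul_le_mul_right _ ((card_le_card e1).trans card_biUnion_le)
        _ = ∑ z ∈ (univ : Finset (Fin n)) ×ˢ (powersetCard f (univ : Finset (Fin b))),
            (2 ^ f * Z) := by
            rw [sum_mul]
            exact sum_congr rfl e2
        _ = (n * (b.choose f)) * (2 ^ f * Z) := by
            rw [sum_const, card_product, card_univ, Fintype.card_fin, card_powersetCard,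
              card_univ, Fintype.card_fin, smul_eq_mul]
        _ ≤ n * 2 ^ b * (2 ^ f * Z) := by
            gcongr
            exact Nat.choose_le_two_pow b f
    have e4 : 4 * A2.card * L ^ f ≤ Z * L ^ f := by
      calc 4 * A2.card * L ^ f = 4 * (A2.card * L ^ f) := by ring
        _ ≤ 4 * (n * 2 ^ b * (2 ^ f * Z)) := by gcongr
        _ = (4 * n * 2 ^ b * 2 ^ f) * Z := by ring
        _ ≤ L ^ f * Z := Nat.mul_le_mul_right _ hf
        _ = Z * L ^ f := by ring
    exact Nat.le_of_mul_le_mul_right e4 (Nat.pow_pos (by omega))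
  -- the lines
  set A3 : Finset (Fin n × Fin b → Fin L) := univ.filter (fun ω => ∃ i : I, ¬ LocalOn (C * Γ) ω (G i))
    with hA3
  have h3 : 2 * A3.card < Z := by
    have e1 : A3 ⊆ (univ : Finset I).biUnion
        (fun i => univ.filter (fun ω : Fin n × Fin b → Fin L => ¬ LocalOn (C * Γ) ω (G i))) := by
      intro ω hω
      rw [hA3, mem_filter] at hω
      obtain ⟨-, i, hi⟩ := hω
      rw [mem_biUnion]
      exact ⟨i, mem_univ _, by simpa using hi⟩
    have e2 : A3.card * 2 ^ Γ ≤ Fintype.card I * (k * Z) := by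
      calc A3.card * 2 ^ Γ ≤ (∑ i : I,
            (univ.filter (fun ω : Fin n × Fin b → Fin L => ¬ LocalOn (C * Γ) ω (G i))).card) * 2 ^ Γ :=
            Nat.mul_le_mul_right _ ((card_le_card e1).trans card_biUnion_le)
        _ ≤ ∑ _i : I, k * Z := by
            rw [sum_mul]
            exact sum_le_sum fun i _ => hC (Fin n × Fin b) Γ (G i) (hG i)
        _ = Fintype.card I * (k * Z) := by
            rw [sum_const, card_univ, smul_eq_mul]
    have e3 : 2 * A3.card * 2 ^ Γ < Z * 2 ^ Γ := by
      calc 2 * A3.card * 2 ^ Γ = 2 * (A3.card * 2 ^ Γ) := by ring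
        _ ≤ 2 * (Fintype.card I * (k * Z)) := by gcongr
        _ = (2 * Fintype.card I * k) * Z := by ring
        _ < 2 ^ Γ * Z := Nat.mul_lt_mul_of_pos_right hI hZ0
        _ = Z * 2 ^ Γ := by ring
    exact lt_of_mul_lt_mul_right e3 (by positivity)
  -- a good restriction
  obtain ⟨ω, hω⟩ : ∃ ω : Fin n × Fin b → Fin L, ω ∉ A1 ∪ A2 ∪ A3 := by
    by_contra hcon
    push Not at hcon
    have e1 : (univ : Finset (Fin n × Fin b → Fin L)) ⊆ A1 ∪ A2 ∪ A3 := fun ω _ => hcon ω
    have e2 := (card_le_card e1).trans ((card_union_le _ _).trans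
      (Nat.add_le_add_right (card_union_le _ _) _))
    rw [card_univ, Fintype.card_fun, Fintype.card_fin] at e2
    omega
  rw [mem_union, mem_union, not_or, not_or] at hω
  obtain ⟨⟨g1, g2⟩, g3⟩ := hω
  rw [hA1, mem_filter] at g1
  rw [hA2, mem_filter] at g2
  rw [hA3, mem_filter] at g3
  push Not at g1 g2 g3
  refine ⟨E ω, fun i u => decide ((ω (i, u) : ℕ) = 1), g1 (mem_univ _), ⟨fun i hi => ?_,
    fun i _ => g2 (mem_univ _) i⟩, fun i => ?_⟩
  · exact absurd hi (notMem_empty i)
  · obtain ⟨Q, ⟨hQ1, hQ2⟩, hQ3⟩ := g3 (mem_univ _) i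
    refine ⟨fun x => Q (fun p => x p.1 p.2), fun x => hQ1 _, fun x x' hx => ?_,
      fun x hx x' hx' hxx => ?_⟩
    · exact hQ2 _ _ hx
    · have hag : ∀ x ∈ Cube (E ω) (fun i u => decide ((ω (i, u) : ℕ) = 1)),
          Agrees ω (fun p : Fin n × Fin b => x p.1 p.2) := by
        intro x hx v
        rw [Cube, mem_filter] at hx
        have h5 := hx.2 v
        constructor
        · intro h0
          have hv : v ∈ E ω := by
            rw [hE, mem_filter]
            exact ⟨mem_univ _, by omega⟩
          have h6 := h5 hv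
          dsimp only at h6 ⊢
          rw [h6]
          have h7 : (ω (v.1, v.2) : ℕ) = 0 := h0
          rw [h7]
          simp
        · intro h0
          have hv : v ∈ E ω := by
            rw [hE, mem_filter]
            exact ⟨mem_univ _, by omega⟩
          have h6 := h5 hv
          dsimp only at h6 ⊢
          rw [h6]
          have h7 : (ω (v.1, v.2) : ℕ) = 1 := h0
          rw [h7]
          simp
      exact hQ3 _ _ (hag x hx) (hag x' hx') hxx

end Pool.Agent.BW
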