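import Pool.Agent.Lib.BW.Final5

/-!
# Row LAST4

Project BW (helper10), after `Pool.Agent.Lib.SL.Final`.
-/

set_option autoImplicit false

namespace Pool.Agent.BW

open Finset Filter Pool.Agent.SL

theorem pow_768 (K : ℕ) (hK : 20 ≤ K) : 768 * K ^ 2 ≤ 2 ^ K := by
  induction K, hK using Nat.le_induction with
  | base => norm_num
  | succ K hK ih =>
    rw [pow_succ 2 K]
    nlinarith

theorem last4 (hCore : Core2) (hSp : SpreadC) (hKill : Kill3) (hMain : MainA)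
    (hCells : Cells5) (hFam : BWP.Family3) : Last4 := by
  intro c kD A hc
  obtain ⟨K, hK⟩ : ∃ K, K = c + 19 := ⟨_, rfl⟩
  have hK20 : 20 ≤ K := by omega
  obtain ⟨C, hC⟩ := hKill kD (2 ^ K) (by
    calc 2 = 2 ^ 1 := by norm_num
      _ ≤ 2 ^ K := Nat.pow_le_pow_right (by norm_num) (by omega))
  have hKR : (20 : ℝ) ≤ K := by exact_mod_cast hK20
  have hKpos : (0 : ℝ) < K := by linarith
  obtain ⟨a, ha⟩ : ∃ a, a = A * C + 1 := ⟨_, rfl⟩
  have ha1 : 1 ≤ a := by omega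
  have haR : (1 : ℝ) ≤ a := by exact_mod_cast ha1
  -- asymptotic facts
  have ev1 := R8x.ev_pow 1 K 1 2 (by norm_num)
  have ev2 := R8x.ev_pow (200 * c + 600) K (c + 2) 2 (by norm_num)
  have hr1 : (1 : ℝ) < 2 ^ ((1 : ℝ) / 100) := by
    apply Real.one_lt_rpow (by norm_num) (by norm_num)
  have ev3 := R8x.ev_pow (48 * 20) (4 * K) c (2 ^ ((1 : ℝ) / 100)) hr1
  obtain ⟨a1, ha1'⟩ := Filter.eventually_atTop.mp ev1
  obtain ⟨a2, ha2⟩ := Filter.eventually_atTop.mp ev2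
  obtain ⟨a3, ha3⟩ := Filter.eventually_atTop.mp ev3
  -- the constant for the number of DNFs
  obtain ⟨J, hJ⟩ : ∃ J : ℕ, J = 2 * A * kD + 1 := ⟨_, rfl⟩
  refine ⟨1 / (1000 * (K : ℝ) ^ 2 * a), K,
    max (max a1 a2) (max (a3 + 3) (10000 * K ^ 2 * a * J)), by positivity, by omega, ?_⟩
  intro ℓ n b N hℓ hn hb hN V hV
  have hℓ1 : a1 ≤ ℓ := le_trans (le_trans (le_max_left _ _) (le_max_left _ _)) hℓ
  have hℓ2 : a2 ≤ ℓ := le_trans (le_trans (le_max_right _ _) (le_max_left _ _)) hℓ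
  have hℓ3 : a3 + 3 ≤ ℓ := le_trans (le_trans (le_max_left _ _) (le_max_right _ _)) hℓ
  have hℓ4 : 10000 * K ^ 2 * a * J ≤ ℓ :=
    le_trans (le_trans (le_max_right _ _) (le_max_right _ _)) hℓ
  have hK2 : 1 ≤ K ^ 2 * a := Nat.mul_pos (Nat.pow_pos (by omega)) ha1
  have hJ1 : 1 ≤ J := by omega
  have hℓ5 : 10000 * (K ^ 2 * a) ≤ ℓ := by
    refine le_trans ?_ hℓ4
    calc 10000 * (K ^ 2 * a) = 10000 * K ^ 2 * a * 1 := by ring
      _ ≤ 10000 * K ^ 2 * a * J := Nat.mul_le_mul_left _ hJ1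
  have hℓ10 : 10 ≤ ℓ := by omega
  have hE3 : b ≤ 2 ^ ℓ := by
    have := ha1' ℓ hℓ1
    have h2 : ((b : ℕ) : ℝ) ≤ ((2 ^ ℓ : ℕ) : ℝ) := by
      rw [hb]
      push_cast
      push_cast at this
      linarith
    exact_mod_cast h2
  have hE2 : (200 * c + 600) * b ^ (c + 2) ≤ 2 ^ ℓ := by
    have := ha2 ℓ hℓ2
    have h2 : (((200 * c + 600) * b ^ (c + 2) : ℕ) : ℝ) ≤ ((2 ^ ℓ : ℕ) : ℝ) := by
      rw [hb]
      push_cast
      push_cast at this
      linarith
    exact_mod_cast h2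
  obtain ⟨u, hu⟩ : ∃ u, ℓ = u + 2 := ⟨ℓ - 2, by omega⟩
  obtain ⟨G, hG⟩ : ∃ G, G = ℓ * 2 ^ u := ⟨_, rfl⟩
  obtain ⟨X, hX⟩ : ∃ X, X = ℓ * (2 * 2 ^ u) := ⟨_, rfl⟩
  have hXG : X = 2 * G := by rw [hX, hG]; ring
  have hnu : n = 4 * 2 ^ u := by rw [hn, hu, pow_add]; ring
  have hNG : N = 4 * K * G := by rw [hN, hnu, hb, hG]; ring
  have hGℓ : ℓ ≤ G := by
    rw [hG]
    exact Nat.le_mul_of_pos_right _ (by positivity)
  have hGpos : 0 < G := by omega
  have hE4 : Real.logb 2 (48 * (((4 * N ^ c + 12 : ℕ) : ℝ) + 4)) ≤ (X : ℝ) / 200 := by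
    have h3 := ha3 G (by omega)
    have hN1 : (1 : ℝ) ≤ (N : ℝ) ^ c := by
      apply one_le_pow₀
      have : 1 ≤ N := by
        rw [hNG]
        exact Nat.mul_pos (by omega) hGpos
      exact_mod_cast this
    have h4 : 48 * (((4 * N ^ c + 12 : ℕ) : ℝ) + 4) ≤ (2 ^ ((1 : ℝ) / 100)) ^ G := by
      refine le_trans ?_ h3
      have e : ((4 * K : ℕ) : ℝ) * (G : ℝ) = (N : ℝ) := by
        rw [hNG]; push_cast; ring
      rw [e]
      push_cast
      linarith
    have h5 := Real.logb_le_logb_of_le (b := 2) (by norm_num) (by positivity) h4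
    rw [Real.logb_pow, Real.logb_rpow (by norm_num) (by norm_num)] at h5
    have hX1R : (X : ℝ) = 2 * G := by rw [hXG]; push_cast; ring
    linarith
  -- the parameters
  obtain ⟨w, hw⟩ : ∃ w, w = G / (6 * K) := ⟨_, rfl⟩
  obtain ⟨sk, hsk⟩ : ∃ sk, sk = w / 2 := ⟨_, rfl⟩
  obtain ⟨Γ, hΓ⟩ : ∃ Γ, Γ = w / (4 * a) := ⟨_, rfl⟩
  obtain ⟨tm, htm⟩ : ∃ tm, tm = w / 4 := ⟨_, rfl⟩
  have hw1 : 6 * (c + 19) * w ≤ ℓ * 2 ^ u := by
    rw [← hK, ← hG, hw]
    exact Nat.mul_div_le _ _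
  have hw2 : G < 6 * K * (w + 1) := by
    rw [hw]
    exact Nat.lt_mul_div_succ _ (by omega)
  have hwbig : 1000 * (K * a) ≤ w := by
    by_contra hcon
    push Not at hcon
    have h1 : 6 * K * (w + 1) ≤ 6 * K * (1000 * (K * a)) := Nat.mul_le_mul_left _ (by omega)
    have h2 : 6 * K * (1000 * (K * a)) = 6000 * (K ^ 2 * a) := by ring
    omega
  have hKa : 20 ≤ K * a := by
    calc 20 = 20 * 1 := by norm_num
      _ ≤ K * a := Nat.mul_le_mul hK20 ha1
  have hskK : 32 * (c + 19) * (ℓ * 2 ^ u) ≤ sk * 2 ^ (c + 19) := by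
    rw [← hK, ← hG]
    have h1 : w ≤ 2 * sk + 1 := by omega
    have h3 : 1000 * 20 ≤ w := (Nat.mul_le_mul_left 1000 hKa).trans hwbig
    have h2 := pow_768 K hK20
    calc 32 * K * G ≤ 32 * K * (6 * K * (w + 1)) := Nat.mul_le_mul_left _ hw2.le
      _ = 192 * K ^ 2 * (w + 1) := by ring
      _ ≤ 192 * K ^ 2 * (4 * sk) := Nat.mul_le_mul_left _ (by omega)
      _ = sk * (768 * K ^ 2) := by ring
      _ ≤ sk * 2 ^ K := Nat.mul_le_mul_left _ h2
  have hΓ1 : 4 * a * Γ ≤ w := by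
    rw [hΓ]
    exact Nat.mul_div_le _ _
  have hΓ2 : w < 4 * a * (Γ + 1) := by
    rw [hΓ]
    exact Nat.lt_mul_div_succ _ (by omega)
  have hsum : A * (C * Γ) + (sk + tm) ≤ w := by
    have h1 : 4 * (A * (C * Γ)) ≤ w := by
      calc 4 * (A * (C * Γ)) = 4 * (A * C) * Γ := by ring
        _ ≤ 4 * a * Γ := Nat.mul_le_mul_right _ (by omega)
        _ ≤ w := hΓ1
    omega
  obtain ⟨F, hF1, hF2, hF3, hF4⟩ := final_aux5 hCore hSp hMain hCells hFam kD A C
    c ℓ u n b N X w sk Γ tm (by rw [← hK]; exact hC) hc hn hu (by rw [hb, hK]) hN hX (by omega)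
    hE3 hE2 hE4 hw1 hskK hsum V hV
  refine ⟨F, hF1, hF2, hF3, ?_⟩
  intro t S D ht hR
  have hNR : (N : ℝ) = 4 * K * G := by rw [hNG]; push_cast; ring
  have hG0 : (0 : ℝ) < G := by exact_mod_cast hGpos
  have hNpos : (0 : ℝ) < N := by rw [hNR]; positivity
  have hw2R : (G : ℝ) < 6 * K * (w + 1) := by exact_mod_cast hw2
  have hwbR : (1000 : ℝ) * (K * a) ≤ w := by exact_mod_cast hwbig
  have hKaR : (20 : ℝ) ≤ K * a := by exact_mod_cast hKa
  have hw3 : (G : ℝ) ≤ 7 * K * w := by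
    have h6 : (6 : ℝ) ≤ w := by linarith
    have h7 : (K : ℝ) * 6 ≤ K * w := mul_le_mul_of_nonneg_left h6 hKpos.le
    have h8 : 6 * (K : ℝ) * (w + 1) = 6 * (K * w) + K * 6 := by ring
    have h9 : 7 * (K : ℝ) * w = 7 * (K * w) := by ring
    rw [h9]
    rw [h8] at hw2R
    linarith
  -- the values of δ
  have hδ : 1 / (1000 * (K : ℝ) ^ 2 * a) * N ≤ w * (28 / (1000 * a)) := by
    rw [hNR]
    have e : 1 / (1000 * (K : ℝ) ^ 2 * a) * (4 * K * G) = 4 * G / (1000 * K * a) := by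
      field_simp
    rw [e, div_le_iff₀ (by positivity)]
    have e2 : (w : ℝ) * (28 / (1000 * a)) * (1000 * K * a) = 28 * K * w := by
      field_simp
    rw [e2]
    linarith
  have hw0 : (0 : ℝ) ≤ w := Nat.cast_nonneg _
  have htt : t ≤ tm := by
    have h1 : (t : ℝ) ≤ w / 5 := by
      refine (ht.trans hδ).trans ?_
      have : (28 : ℝ) / (1000 * a) ≤ 1 / 5 := by
        rw [div_le_div_iff₀ (by positivity) (by norm_num)]
        linarith
      calc (w : ℝ) * (28 / (1000 * a)) ≤ w * (1 / 5) := mul_le_mul_of_nonneg_left this hw0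
        _ = w / 5 := by ring
    have h2 : (5 * t : ℕ) ≤ w := by
      have : (5 * (t : ℝ)) ≤ w := by linarith
      exact_mod_cast this
    omega
  have hS0 : (0 : ℝ) ≤ S := Nat.cast_nonneg _
  have hlog0 : 0 ≤ Real.logb 2 ((S : ℝ) + 1) := Real.logb_nonneg (by norm_num) (by linarith)
  have hD0 : (0 : ℝ) ≤ D := Nat.cast_nonneg _
  rcases hF4 t S D htt hR with h | h
  · -- many lines
    have h1 : (2 : ℝ) ^ Γ ≤ J * ((S : ℝ) + 1) := by
      have h2 : 2 ^ Γ ≤ J * (S + 1) := by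
        refine h.trans ?_
        rw [hJ]
        calc 2 * (S * A) * kD = (2 * A * kD) * S := by ring
          _ ≤ (2 * A * kD + 1) * (S + 1) := Nat.mul_le_mul (by omega) (by omega)
      exact_mod_cast h2
    have hJR : (1 : ℝ) ≤ J := by exact_mod_cast hJ1
    have hJ0 : (0 : ℝ) < J := by linarith
    have hS1 : (0 : ℝ) < (S : ℝ) + 1 := by linarith
    have h20 : (0 : ℝ) < (2 : ℝ) ^ Γ := pow_pos (by norm_num) Γ
    have h3 := Real.logb_le_logb_of_le (b := 2) (by norm_num) h20 h1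
    rw [Real.logb_pow, Real.logb_self_eq_one (by norm_num), Real.logb_mul hJ0.ne' hS1.ne'] at h3
    have h4 : Real.logb 2 (J : ℝ) ≤ J := by
      rw [Real.logb_le_iff_le_rpow (by norm_num) hJ0]
      rw [Real.rpow_natCast]
      have : J < 2 ^ J := Nat.lt_two_pow_self
      exact_mod_cast this.le
    have hΓ2R : (w : ℝ) < 4 * a * (Γ + 1) := by exact_mod_cast hΓ2
    have hJw : (J : ℝ) * (1000 * (K * a)) ≤ w := by
      have h5 : 10000 * K ^ 2 * a * J ≤ G := hℓ4.trans hGℓ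
      have h6 : (10000 : ℝ) * (K : ℝ) ^ 2 * a * J ≤ G := by exact_mod_cast h5
      have h7 : (K : ℝ) * (10000 * K * a * J) ≤ (K : ℝ) * (7 * w) := by
        calc (K : ℝ) * (10000 * K * a * J) = 10000 * (K : ℝ) ^ 2 * a * J := by ring
          _ ≤ G := h6
          _ ≤ 7 * K * w := hw3
          _ = (K : ℝ) * (7 * w) := by ring
      have h8 := le_of_mul_le_mul_left h7 hKpos
      have h9 : 0 ≤ (K : ℝ) * a * J := by positivity
      linarith
    have h5 : (w : ℝ) * (28 / (1000 * a)) ≤ Real.logb 2 ((S : ℝ) + 1) := by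
      have h6 : (Γ : ℝ) - J ≤ Real.logb 2 ((S : ℝ) + 1) := by linarith
      refine le_trans ?_ h6
      have h7 : (w : ℝ) / (4 * a) - 1 ≤ Γ := by
        have : (w : ℝ) / (4 * a) ≤ Γ + 1 := by
          rw [div_le_iff₀ (by positivity)]
          linarith
        linarith
      have h8 : (J : ℝ) + 1 ≤ w / (1000 * a) * 2 := by
        have e : (w : ℝ) / (1000 * a) * 2 = 2 * w / (1000 * a) := by ring
        rw [e, le_div_iff₀ (by positivity)]
        have h10 : (J : ℝ) * (1000 * a) ≤ w := by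
          refine le_trans ?_ hJw
          have h11 : (1 : ℝ) * a ≤ K * a :=
            mul_le_mul_of_nonneg_right (by linarith) (by linarith)
          rw [one_mul] at h11
          exact mul_le_mul_of_nonneg_left (mul_le_mul_of_nonneg_left h11 (by norm_num))
            (by linarith)
        have h12 : (1 : ℝ) * (1000 * a) ≤ J * (1000 * a) :=
          mul_le_mul_of_nonneg_right hJR (by positivity)
        have h14 : ((J : ℝ) + 1) * (1000 * a) = J * (1000 * a) + 1 * (1000 * a) := by ring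
        rw [h14]
        linarith
      have e1 : (w : ℝ) / (4 * a) = 250 * (w / (1000 * a)) := by ring
      have e2 : (w : ℝ) * (28 / (1000 * a)) = 28 * (w / (1000 * a)) := by ring
      have h13 : 0 ≤ (w : ℝ) / (1000 * a) := div_nonneg hw0 (by linarith)
      rw [e2]
      rw [e1] at h7
      linarith
    calc 1 / (1000 * (K : ℝ) ^ 2 * a) * (N : ℝ) ^ 2
        = N * (1 / (1000 * (K : ℝ) ^ 2 * a) * N) := by ring
      _ ≤ N * Real.logb 2 ((S : ℝ) + 1) := by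
          apply mul_le_mul_of_nonneg_left _ hNpos.le
          exact hδ.trans h5
      _ ≤ ((D : ℝ) + N) * Real.logb 2 ((S : ℝ) + 1) := by
          apply mul_le_mul_of_nonneg_right _ hlog0
          linarith
  · refine le_trans ?_ h
    have hXR : (X : ℝ) = 2 * G := by rw [hXG]; push_cast; ring
    rw [hXR, hNR]
    have h4 : 1 / (1000 * (K : ℝ) ^ 2 * a) * (4 * K * G) ^ 2 = 16 * G ^ 2 / (1000 * a) := by
      field_simp
      ring
    rw [h4, div_le_iff₀ (by positivity)]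
    have h6 : 0 ≤ (G : ℝ) ^ 2 := by positivity
    have h7 : (G : ℝ) ^ 2 * 1 ≤ G ^ 2 * a := mul_le_mul_of_nonneg_left haR h6
    have h8 : 0.06 * (2 * (G : ℝ)) ^ 2 * (1000 * a) = 240 * (G ^ 2 * a) := by ring
    rw [h8]
    linarith

end Pool.Agent.BW
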