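import Pool.Agent.Lib.BW.Defs5

/-!
# Bounded workspace, bit version: rows CUBECARD and SPREADC
-/

set_option autoImplicit false

namespace Pool.Agent.BW

open Finset Pool.Agent.SL

/-- Row CUBECARD -/
theorem cubeCard : CubeCard := by
  classical
  intro n b E y
  have h1 : (Cube E y).card = (Fintype.piFinset (fun v : Fin n × Fin b =>
      if v ∈ E then ({y v.1 v.2} : Finset Bool) else univ)).card := by
    refine card_nbij' (fun x v => x v.1 v.2) (fun x i u => x (i, u)) ?_ ?_ ?_ ?_
    · intro x hx
      rw [Cube, mem_coe, mem_filter] at hx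
      rw [mem_coe, Fintype.mem_piFinset]
      intro v
      by_cases hv : v ∈ E
      · rw [if_pos hv, mem_singleton]
        exact hx.2 v hv
      · rw [if_neg hv]
        exact mem_univ _
    · intro x hx
      rw [mem_coe, Fintype.mem_piFinset] at hx
      rw [Cube, mem_coe, mem_filter]
      refine ⟨mem_univ _, fun v hv => ?_⟩
      have := hx v
      rw [if_pos hv, mem_singleton] at this
      exact this
    · intro x _
      rfl
    · intro x _
      rfl
  have h2 : 2 ^ E.card = ∏ v : Fin n × Fin b, (if v ∈ E then 2 else 1) := by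
    rw [prod_ite_mem univ E (fun _ => 2), univ_inter, prod_const]
  rw [h1, Fintype.card_piFinset, h2, ← prod_mul_distrib]
  have h3 : ∀ v : Fin n × Fin b, (if v ∈ E then ({y v.1 v.2} : Finset Bool) else univ).card *
      (if v ∈ E then 2 else 1) = 2 := by
    intro v
    by_cases hv : v ∈ E
    · simp [hv]
    · simp [hv]
  rw [prod_congr rfl fun v _ => h3 v, prod_const, card_univ, Fintype.card_prod, Fintype.card_fin,
    Fintype.card_fin, ← pow_mul, mul_comm b n]

/-- Row SPREADC -/
theorem spreadC : SpreadC := by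
  classical
  intro n b f r T E y hE hfb hr B hB a
  obtain ⟨z, hz⟩ : ∃ z : Fin n → Fin b → Bool, z = fun i => if i ∈ B then a i else y i :=
    ⟨_, rfl⟩
  obtain ⟨E', hE'⟩ : ∃ E' : Finset (Fin n × Fin b), E' = E ∪ (B ×ˢ univ) := ⟨_, rfl⟩
  have h1 : ((Cube E y).filter (fun x => ∀ i ∈ B, x i = a i)).card ≤ (Cube E' z).card := by
    refine card_le_card fun x hx => ?_
    rw [mem_filter, Cube, mem_filter] at hx
    rw [Cube, mem_filter]
    refine ⟨mem_univ _, fun v hv => ?_⟩
    rw [hE', mem_union, mem_product] at hv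
    rw [hz]
    dsimp only
    by_cases hvB : v.1 ∈ B
    · rw [if_pos hvB, hx.2 v.1 hvB]
    · rw [if_neg hvB]
      rcases hv with hv | hv
      · exact hx.1.2 v hv
      · exact absurd hv.1 hvB
  have h2 : E.card + B.card * (b - f) ≤ E'.card := by
    have e1 : E'.card = E.card + ((B ×ˢ (univ : Finset (Fin b))) \ E).card := by
      rw [hE', ← union_sdiff_self_eq_union, card_union_of_disjoint disjoint_sdiff]
    rw [e1]
    refine Nat.add_le_add_left ?_ _
    have e2 : ((B ×ˢ (univ : Finset (Fin b))) \ E).card =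
        ∑ i ∈ B, (univ.filter fun u : Fin b => (i, u) ∉ E).card := by
      rw [sdiff_eq_filter, card_filter, sum_product]
      refine sum_congr rfl fun i _ => ?_
      rw [card_filter]
    rw [e2, ← smul_eq_mul, ← sum_const]
    refine sum_le_sum fun i hi => ?_
    have hiT : i ∉ T := disjoint_left.1 hB hi
    have h3 := hE.2 i hiT
    have h4 := card_filter_add_card_filter_not (s := (univ : Finset (Fin b)))
      (fun u => (i, u) ∈ E)
    rw [card_univ, Fintype.card_fin] at h4
    omega
  have h3 := cubeCard n b E y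
  have h4 := cubeCard n b E' z
  have h5 : r ^ B.card ≤ 2 ^ (B.card * (b - f)) := by
    calc r ^ B.card ≤ (2 ^ (b - f)) ^ B.card := Nat.pow_le_pow_left hr _
      _ = 2 ^ (B.card * (b - f)) := by rw [← pow_mul, mul_comm]
  have h6 : (Cube E' z).card * 2 ^ (B.card * (b - f)) * 2 ^ E.card ≤
      (Cube E y).card * 2 ^ E.card := by
    calc (Cube E' z).card * 2 ^ (B.card * (b - f)) * 2 ^ E.card
        = (Cube E' z).card * 2 ^ (E.card + B.card * (b - f)) := by rw [pow_add]; ring
      _ ≤ (Cube E' z).card * 2 ^ E'.card :=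
          Nat.mul_le_mul_left _ (Nat.pow_le_pow_right (by norm_num) h2)
      _ = (Cube E y).card * 2 ^ E.card := by rw [h3, h4]
  have h7 := Nat.le_of_mul_le_mul_right h6 (by positivity)
  exact (Nat.mul_le_mul h1 h5).trans h7

end Pool.Agent.BW
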