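import Pool.Agent.Lib.BW.Defs6

/-! Row SWITCH (helper32): small random restrictions make `k`-DNFs local
(Segerlind, Buss, Impagliazzo). -/

set_option autoImplicit false

namespace Pool.Agent.BW

open Finset Pool.Agent.SL

namespace Switchx

variable {ν : Type} [Fintype ν] [DecidableEq ν] {L : ℕ}

/-- the variables of a term -/
def vars (T : Finset (ν × Bool)) : Finset ν := T.image Prod.fst

omit [Fintype ν] in
theorem mem_vars {T : Finset (ν × Bool)} {l : ν × Bool} (hl : l ∈ T) : l.1 ∈ vars T :=
  mem_image_of_mem _ hl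

/-- the restriction satisfies the term -/
def Sat (ω : ν → Fin L) (T : Finset (ν × Bool)) : Prop :=
  ∀ l ∈ T, ((ω l.1 : ℕ) = if l.2 then 1 else 0)

/-- no two contradictory literals -/
def Cons (T : Finset (ν × Bool)) : Prop := ∀ l ∈ T, ∀ l' ∈ T, l.1 = l'.1 → l.2 = l'.2

/-- overwrite by the values of a term -/
def ov (hL : 2 ≤ L) (T : Finset (ν × Bool)) (ω : ν → Fin L) : ν → Fin L := fun v =>
  if (v, true) ∈ T then ⟨1, by omega⟩ else if (v, false) ∈ T then ⟨0, by omega⟩ else ω v

omit [Fintype ν] in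
theorem ov_sat (hL : 2 ≤ L) {T : Finset (ν × Bool)} (hT : Cons T) (ω : ν → Fin L) :
    Sat (ov hL T ω) T := by
  rintro ⟨v, s⟩ hl
  unfold ov
  cases s with
  | true => simp [hl]
  | false =>
    have h1 : (v, true) ∉ T := by
      intro h
      have := hT _ h _ hl rfl
      simp at this
    simp [hl, h1]

omit [Fintype ν] in
theorem ov_off (hL : 2 ≤ L) {T : Finset (ν × Bool)} (ω : ν → Fin L) {v : ν}
    (hv : v ∉ vars T) : ov hL T ω v = ω v := by
  unfold ov
  have h1 : (v, true) ∉ T := fun h => hv (mem_vars h)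
  have h2 : (v, false) ∉ T := fun h => hv (mem_vars h)
  simp [h1, h2]

omit [Fintype ν] in
theorem card_vars (T : Finset (ν × Bool)) : (vars T).card ≤ T.card := card_image_le

open Classical in
/-- a set which does not depend on the variables of `T` contains many `ω` which satisfy `T` -/
theorem step (hL : 2 ≤ L) {T : Finset (ν × Bool)} (hT : Cons T) {m : ℕ} (hm : T.card ≤ m)
    (A : Finset (ν → Fin L)) (hA : ∀ ω ∈ A, ∀ ω' : ν → Fin L,
      (∀ v, v ∉ vars T → ω v = ω' v) → ω' ∈ A) :
    (A.filter fun ω => ¬ Sat ω T).card * L ^ m ≤ A.card * (L ^ m - 1) := by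
  have hLm : 1 ≤ L ^ m := Nat.one_le_pow _ _ (by omega)
  have h1 : A.card ≤ L ^ m * (A.image (ov hL T)).card := by
    refine card_le_mul_card_image A (L ^ m) ?_
    intro ω' _
    have h2 : (A.filter fun ω => ov hL T ω = ω').card ≤
        (univ : Finset ({v // v ∈ vars T} → Fin L)).card := by
      refine card_le_card_of_injOn (fun ω v => ω v.1) (fun _ _ => mem_coe.2 (mem_univ _)) ?_
      intro ω₁ h₁ ω₂ h₂ h12
      have e1 : ov hL T ω₁ = ω' := by simpa using (mem_filter.1 (mem_coe.1 h₁)).2
      have e2 : ov hL T ω₂ = ω' := by simpa using (mem_filter.1 (mem_coe.1 h₂)).2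
      funext v
      by_cases hv : v ∈ vars T
      · exact congrFun h12 ⟨v, hv⟩
      · rw [← ov_off hL ω₁ hv, ← ov_off hL ω₂ hv, e1, e2]
    refine h2.trans ?_
    rw [card_univ, Fintype.card_fun, Fintype.card_fin, Fintype.card_coe]
    exact Nat.pow_le_pow_right (by omega) ((card_vars T).trans hm)
  have h2 : (A.image (ov hL T)).card ≤ (A.filter fun ω => Sat ω T).card := by
    apply card_le_card
    intro ω' hω'
    obtain ⟨ω, hω, rfl⟩ := mem_image.1 hω'
    exact mem_filter.2 ⟨hA ω hω _ fun v hv => (ov_off hL ω hv).symm, ov_sat hL hT ω⟩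
  have h3 : (A.filter fun ω => Sat ω T).card + (A.filter fun ω => ¬ Sat ω T).card = A.card :=
    card_filter_add_card_filter_not _
  have h4 : A.card ≤ L ^ m * (A.filter fun ω => Sat ω T).card :=
    h1.trans (Nat.mul_le_mul_left _ h2)
  have h5 : A.card * (L ^ m - 1) + A.card = A.card * L ^ m := by
    have : L ^ m - 1 + 1 = L ^ m := by omega
    calc A.card * (L ^ m - 1) + A.card = A.card * (L ^ m - 1 + 1) := by ring
      _ = A.card * L ^ m := by rw [this]
  have h6 : (A.filter fun ω => ¬ Sat ω T).card * L ^ m + L ^ m * (A.filter fun ω => Sat ω T).card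
      = A.card * L ^ m := by
    rw [← h3]
    ring
  omega

/-- pairwise disjoint terms -/
def Disj (M : Finset (Finset (ν × Bool))) : Prop :=
  ∀ T ∈ M, ∀ T' ∈ M, T ≠ T' → Disjoint (vars T) (vars T')

open Classical in
theorem many (hL : 2 ≤ L) (m : ℕ) (M : Finset (Finset (ν × Bool))) (hM : Disj M)
    (hC : ∀ T ∈ M, Cons T) (hm : ∀ T ∈ M, T.card ≤ m) :
    (univ.filter fun ω : ν → Fin L => ∀ T ∈ M, ¬ Sat ω T).card * (L ^ m) ^ M.card
      ≤ (L ^ m - 1) ^ M.card * L ^ Fintype.card ν := by
  induction M using Finset.induction_on with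
  | empty =>
    simp
  | insert T M hT ih =>
    have ih' := ih (fun T₁ h₁ T₂ h₂ => hM T₁ (mem_insert_of_mem h₁) T₂ (mem_insert_of_mem h₂))
      (fun T₁ h₁ => hC T₁ (mem_insert_of_mem h₁)) (fun T₁ h₁ => hm T₁ (mem_insert_of_mem h₁))
    set A : Finset (ν → Fin L) := univ.filter fun ω : ν → Fin L => ∀ T ∈ M, ¬ Sat ω T with hA
    have e : (univ.filter fun ω : ν → Fin L => ∀ T' ∈ insert T M, ¬ Sat ω T')
        = A.filter fun ω => ¬ Sat ω T := by
      ext ω
      simp only [hA, mem_filter, mem_univ, true_and, mem_insert, forall_eq_or_imp]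
      exact and_comm
    have hs := step hL (hC T (mem_insert_self _ _)) (hm T (mem_insert_self _ _)) A (by
      intro ω hω ω' hωω'
      rw [hA, mem_filter] at hω ⊢
      refine ⟨mem_univ _, fun T' hT' hsat => hω.2 T' hT' fun l hl => ?_⟩
      have hne : T ≠ T' := fun h => hT (h ▸ hT')
      have hd := hM T (mem_insert_self _ _) T' (mem_insert_of_mem hT') hne
      have hl' : l.1 ∉ vars T := fun h => disjoint_left.1 hd h (mem_vars hl)
      rw [hωω' l.1 hl']
      exact hsat l hl)
    rw [e, card_insert_of_notMem hT, pow_succ, pow_succ]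
    calc (A.filter fun ω => ¬ Sat ω T).card * ((L ^ m) ^ M.card * L ^ m)
        = ((A.filter fun ω => ¬ Sat ω T).card * L ^ m) * (L ^ m) ^ M.card := by ring
      _ ≤ (A.card * (L ^ m - 1)) * (L ^ m) ^ M.card := Nat.mul_le_mul_right _ hs
      _ = (A.card * (L ^ m) ^ M.card) * (L ^ m - 1) := by ring
      _ ≤ ((L ^ m - 1) ^ M.card * L ^ Fintype.card ν) * (L ^ m - 1) := Nat.mul_le_mul_right _ ih'
      _ = (L ^ m - 1) ^ M.card * (L ^ m - 1) * L ^ Fintype.card ν := by ring

theorem bern (p : ℕ) : ∀ n : ℕ, p ^ (n + 1) + (n + 1) * p ^ n ≤ (p + 1) ^ (n + 1)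
  | 0 => by simp
  | n + 1 => by
    have ih := bern p n
    calc p ^ (n + 1 + 1) + (n + 1 + 1) * p ^ (n + 1)
        ≤ (p + 1) * (p ^ (n + 1) + (n + 1) * p ^ n) := by
          have e : (p + 1) * (p ^ (n + 1) + (n + 1) * p ^ n)
              = p ^ (n + 1 + 1) + (n + 1 + 1) * p ^ (n + 1) + (n + 1) * p ^ n := by ring
          rw [e]
          exact Nat.le_add_right _ _
      _ ≤ (p + 1) * (p + 1) ^ (n + 1) := Nat.mul_le_mul_left _ ih
      _ = (p + 1) ^ (n + 1 + 1) := by ring

theorem half (q Γ M : ℕ) (hq : 1 ≤ q) (hM : Γ * q ≤ M) : 2 ^ Γ * (q - 1) ^ M ≤ q ^ M := by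
  obtain ⟨p, rfl⟩ : ∃ p, q = p + 1 := ⟨q - 1, by omega⟩
  obtain ⟨d, rfl⟩ : ∃ d, M = Γ * (p + 1) + d := ⟨M - Γ * (p + 1), by omega⟩
  rw [Nat.add_sub_cancel, pow_add, pow_add, mul_comm Γ, pow_mul, pow_mul]
  have h1 : 2 * p ^ (p + 1) ≤ (p + 1) ^ (p + 1) := by
    have := bern p p
    have e : (p + 1) * p ^ p = p ^ (p + 1) + p ^ p := by ring
    rw [e] at this
    omega
  calc 2 ^ Γ * ((p ^ (p + 1)) ^ Γ * p ^ d) = (2 * p ^ (p + 1)) ^ Γ * p ^ d := by
        rw [mul_pow]
        ring
    _ ≤ ((p + 1) ^ (p + 1)) ^ Γ * (p + 1) ^ d := by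
        gcongr
        omega

omit [Fintype ν] [DecidableEq ν] in
/-- a constant function is local -/
theorem local_const {w : ℕ} {ω : ν → Fin L} {f : (ν → Bool) → Bool}
    (h : ∀ x y, Agrees ω x → Agrees ω y → f x = f y) : LocalOn w ω f :=
  ⟨fun _ => ∅, ⟨fun _ => by simp, fun _ _ _ => rfl⟩, fun x y hx hy _ => h x y hx hy⟩

/-- `x` with the values `a` on `H` -/
def glue (H : Finset ν) (a : {v // v ∈ H} → Bool) (x : ν → Bool) : ν → Bool := fun v =>
  if h : v ∈ H then a ⟨v, h⟩ else x v

omit [Fintype ν] in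
theorem glue_on (H : Finset ν) (a : {v // v ∈ H} → Bool) (x : ν → Bool) {v : ν} (h : v ∈ H) :
    glue H a x v = a ⟨v, h⟩ := by simp [glue, h]

omit [Fintype ν] in
theorem glue_off (H : Finset ν) (a : {v // v ∈ H} → Bool) (x : ν → Bool) {v : ν} (h : v ∉ H) :
    glue H a x v = x v := by simp [glue, h]

omit [Fintype ν] in
theorem glue_self (H : Finset ν) (x : ν → Bool) : glue H (fun v => x v.1) x = x := by
  funext v
  by_cases h : v ∈ H
  · rw [glue_on H _ _ h]
  · rw [glue_off H _ _ h]

open Classical in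
omit [Fintype ν] in
/-- after the variables of `H` are fixed, there remains a `k`-DNF -/
theorem dnf_glue {k : ℕ} {f : (ν → Bool) → Bool} {G : Finset (Finset (ν × Bool))}
    (hk : ∀ T ∈ G, T.card ≤ k + 1) (hf : ∀ x, f x = true ↔ ∃ T ∈ G, ∀ l ∈ T, x l.1 = l.2)
    (H : Finset ν) (hH : ∀ T ∈ G, Cons T → ∃ l ∈ T, l.1 ∈ H) (a : {v // v ∈ H} → Bool) :
    IsDnf k (fun x => f (glue H a x)) := by
  refine ⟨(G.filter fun T => Cons T ∧ ∀ l ∈ T, ∀ h : l.1 ∈ H, a ⟨l.1, h⟩ = l.2).image
    (fun T => T.filter fun l => l.1 ∉ H), ?_, ?_⟩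
  · intro T' hT'
    obtain ⟨T, hT, rfl⟩ := mem_image.1 hT'
    obtain ⟨hTG, hc, -⟩ := mem_filter.1 hT
    obtain ⟨l, hl, hlH⟩ := hH T hTG hc
    have h1 : (T.filter fun l => l.1 ∉ H) ⊂ T := by
      refine ⟨filter_subset _ _, fun h => ?_⟩
      exact (mem_filter.1 (h hl)).2 hlH
    have := card_lt_card h1
    have := hk T hTG
    omega
  · intro x
    rw [hf]
    constructor
    · rintro ⟨T, hT, hx⟩
      refine ⟨T.filter fun l => l.1 ∉ H, mem_image_of_mem _ (mem_filter.2 ⟨hT, ?_, ?_⟩), ?_⟩
      · intro l hl l' hl' hll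
        rw [← hx l hl, ← hx l' hl', hll]
      · intro l hl h
        rw [← glue_on H a x h]
        exact hx l hl
      · intro l hl
        obtain ⟨hlT, hlH⟩ := mem_filter.1 hl
        rw [← glue_off H a x hlH]
        exact hx l hlT
    · rintro ⟨T', hT', hx⟩
      obtain ⟨T, hT, rfl⟩ := mem_image.1 hT'
      obtain ⟨hTG, -, hTa⟩ := mem_filter.1 hT
      refine ⟨T, hTG, fun l hl => ?_⟩
      by_cases h : l.1 ∈ H
      · rw [glue_on H a x h]
        exact hTa l hl h
      · rw [glue_off H a x h]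
        exact hx l (mem_filter.2 ⟨hl, h⟩)

omit [Fintype ν] in
/-- the trees for the restrictions of `f` to the values on `H` give a tree for `f` -/
theorem local_glue {w w' : ℕ} {ω : ν → Fin L} {f : (ν → Bool) → Bool} (H : Finset ν)
    (hw : H.card + w' ≤ w)
    (h : ∀ a : {v // v ∈ H} → Bool, LocalOn w' ω (fun x => f (glue H a x))) :
    LocalOn w ω f := by
  choose Q hQ hf using h
  have hsub : ∀ x y : ν → Bool,
      (∀ v ∈ H ∪ Q (fun v => x v.1) x, x v = y v) →
      (fun v : {v // v ∈ H} => x v.1) = fun v => y v.1 := by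
    intro x y hxy
    funext v
    exact hxy v.1 (mem_union_left _ v.2)
  refine ⟨fun x => H ∪ Q (fun v => x v.1) x, ⟨fun x => ?_, fun x y hxy => ?_⟩, ?_⟩
  · refine (card_union_le _ _).trans ?_
    have := (hQ (fun v => x v.1)).1 x
    omega
  · have e := hsub x y hxy
    show H ∪ Q (fun v => y v.1) y = H ∪ Q (fun v => x v.1) x
    rw [← e]
    congr 1
    exact (hQ _).2 x y fun v hv => hxy v (mem_union_right _ hv)
  · intro x y hx hy hxy
    have e := hsub x y hxy
    have := hf (fun v => x v.1) x y hx hy fun v hv => hxy v (mem_union_right _ hv)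
    simp only at this
    rw [glue_self] at this
    rw [this, e, glue_self]

open Classical in
theorem main (hL : 2 ≤ L) : ∀ k : ℕ, ∃ C : ℕ, ∀ (ν : Type) [Fintype ν] [DecidableEq ν] (Γ : ℕ)
    (f : (ν → Bool) → Bool), IsDnf k f →
    (univ.filter fun ω : ν → Fin L => ¬ LocalOn (C * Γ) ω f).card * 2 ^ Γ
      ≤ k * L ^ Fintype.card ν := by
  intro k
  induction k with
  | zero =>
    refine ⟨0, ?_⟩
    intro ν _ _ Γ f hf
    obtain ⟨G, hG, hf⟩ := hf
    have h1 : ∀ x y, f x = f y := by
      intro x y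
      have key : ∀ z : ν → Bool, f z = true ↔ (∅ : Finset (ν × Bool)) ∈ G := by
        intro z
        rw [hf]
        constructor
        · rintro ⟨T, hT, -⟩
          have : T = ∅ := card_eq_zero.1 (Nat.le_zero.1 (hG T hT))
          rwa [this] at hT
        · intro h
          exact ⟨∅, h, by simp⟩
      rw [Bool.eq_iff_iff, key, key]
    have h2 : (univ.filter fun ω : ν → Fin L => ¬ LocalOn (0 * Γ) ω f) = ∅ := by
      rw [filter_eq_empty_iff]
      intro ω _ h
      exact h (local_const fun x y _ _ => h1 x y)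
    rw [h2]
    simp
  | succ k ih =>
    obtain ⟨C, ih⟩ := ih
    refine ⟨(k + 1) * L ^ (k + 1) + C * (1 + (k + 1) * L ^ (k + 1)), ?_⟩
    intro ν _ _ Γ f hf
    obtain ⟨G, hG, hf⟩ := hf
    set w : ℕ := ((k + 1) * L ^ (k + 1) + C * (1 + (k + 1) * L ^ (k + 1))) * Γ with hw
    set q : ℕ := L ^ (k + 1) with hq
    have hq1 : 1 ≤ q := Nat.one_le_pow _ _ (by omega)
    -- a maximal set of disjoint terms
    obtain ⟨M, hM, hMmax⟩ := exists_max_image
      (G.powerset.filter fun M => Disj M ∧ ∀ T ∈ M, Cons T) card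
      ⟨∅, mem_filter.2 ⟨mem_powerset.2 (empty_subset _), fun T hT => by simp at hT,
        fun T hT => by simp at hT⟩⟩
    obtain ⟨hMG, hMd, hMc⟩ := mem_filter.1 hM
    rw [mem_powerset] at hMG
    have hmono : (k : ℕ) * L ^ Fintype.card ν ≤ (k + 1) * L ^ Fintype.card ν :=
      Nat.mul_le_mul_right _ (by omega)
    by_cases hempty : (∅ : Finset (ν × Bool)) ∈ G
    · have h2 : (univ.filter fun ω : ν → Fin L => ¬ LocalOn w ω f) = ∅ := by
        rw [filter_eq_empty_iff]
        intro ω _ h
        refine h (local_const fun x y _ _ => ?_)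
        rw [(hf x).2 ⟨∅, hempty, by simp⟩, (hf y).2 ⟨∅, hempty, by simp⟩]
      rw [h2]
      simp
    by_cases hbig : Γ * q ≤ M.card
    · -- many disjoint terms
      have h1 := many (ν := ν) hL (k + 1) M hMd hMc (fun T hT => hG T (hMG hT))
      have h2 : (univ.filter fun ω : ν → Fin L => ¬ LocalOn w ω f).card ≤
          (univ.filter fun ω : ν → Fin L => ∀ T ∈ M, ¬ Sat ω T).card := by
        apply card_le_card
        intro ω hω
        rw [mem_filter] at hω ⊢
        refine ⟨mem_univ _, fun T hT hsat => hω.2 (local_const fun x y hx hy => ?_)⟩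
        have key : ∀ z : ν → Bool, Agrees ω z → f z = true := by
          intro z hz
          refine (hf z).2 ⟨T, hMG hT, fun l hl => ?_⟩
          have h3 := hsat l hl
          have h4 := hz l.1
          cases hs : l.2 with
          | true =>
            rw [hs] at h3
            exact h4.2 (by simpa using h3)
          | false =>
            rw [hs] at h3
            exact h4.1 (by simpa using h3)
        rw [key x hx, key y hy]
      have h3 := half q Γ M.card hq1 hbig
      have hqM : 0 < q ^ M.card := by positivity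
      refine le_trans ?_ (show 1 * L ^ Fintype.card ν ≤ (k + 1) * L ^ Fintype.card ν from
        Nat.mul_le_mul_right _ (by omega))
      apply Nat.le_of_mul_le_mul_right _ hqM
      set a := (univ.filter fun ω : ν → Fin L => ¬ LocalOn w ω f).card
      set b := (univ.filter fun ω : ν → Fin L => ∀ T ∈ M, ¬ Sat ω T).card
      calc a * 2 ^ Γ * q ^ M.card ≤ b * 2 ^ Γ * q ^ M.card := by gcongr
        _ = 2 ^ Γ * (b * q ^ M.card) := by ring
        _ ≤ 2 ^ Γ * ((q - 1) ^ M.card * L ^ Fintype.card ν) := Nat.mul_le_mul_left _ h1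
        _ = (2 ^ Γ * (q - 1) ^ M.card) * L ^ Fintype.card ν := by ring
        _ ≤ q ^ M.card * L ^ Fintype.card ν := Nat.mul_le_mul_right _ h3
        _ = 1 * L ^ Fintype.card ν * q ^ M.card := by ring
    · -- few disjoint terms
      push Not at hbig
      set H : Finset ν := M.biUnion vars with hH
      have hHcard : H.card ≤ (k + 1) * q * Γ := by
        calc H.card ≤ ∑ T ∈ M, (vars T).card := card_biUnion_le
          _ ≤ ∑ T ∈ M, (k + 1) := sum_le_sum fun T hT => (card_vars T).trans (hG T (hMG hT))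
          _ = M.card * (k + 1) := by rw [sum_const, smul_eq_mul]
          _ ≤ (Γ * q) * (k + 1) := Nat.mul_le_mul_right _ hbig.le
          _ = (k + 1) * q * Γ := by ring
      have hmeet : ∀ T ∈ G, Cons T → ∃ l ∈ T, l.1 ∈ H := by
        intro T hT hc
        by_contra hno
        push Not at hno
        have hTM : T ∉ M := by
          intro hTM
          have hne : T.Nonempty := by
            rw [nonempty_iff_ne_empty]
            rintro rfl
            exact hempty hT
          obtain ⟨l, hl⟩ := hne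
          exact hno l hl (mem_biUnion.2 ⟨T, hTM, mem_vars hl⟩)
        have hdis : ∀ T' ∈ M, Disjoint (vars T) (vars T') := by
          intro T' hT'
          rw [disjoint_left]
          intro v hv hv'
          obtain ⟨l, hl, rfl⟩ := mem_image.1 hv
          exact hno l hl (mem_biUnion.2 ⟨T', hT', hv'⟩)
        have h1 : insert T M ∈ G.powerset.filter fun M => Disj M ∧ ∀ T ∈ M, Cons T := by
          refine mem_filter.2 ⟨mem_powerset.2 (insert_subset hT hMG), ?_, ?_⟩
          · intro T₁ h₁ T₂ h₂ h12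
            rcases mem_insert.1 h₁ with e₁ | h₁'
            · rcases mem_insert.1 h₂ with e₂ | h₂'
              · exact absurd (e₁.trans e₂.symm) h12
              · rw [e₁]
                exact hdis T₂ h₂'
            · rcases mem_insert.1 h₂ with e₂ | h₂'
              · rw [e₂]
                exact (hdis T₁ h₁').symm
              · exact hMd T₁ h₁' T₂ h₂' h12
          · intro T₁ h₁
            rcases mem_insert.1 h₁ with rfl | h₁
            · exact hc
            · exact hMc T₁ h₁
        have h2 := hMmax _ h1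
        rw [card_insert_of_notMem hTM] at h2
        omega
      set Γ' : ℕ := Γ + (k + 1) * q * Γ with hΓ'
      have hwb : H.card + C * Γ' ≤ w := by
        have e : w = (k + 1) * q * Γ + C * Γ' := by rw [hw, hΓ']; ring
        omega
      have h1 : (univ.filter fun ω : ν → Fin L => ¬ LocalOn w ω f) ⊆
          (univ : Finset ({v // v ∈ H} → Bool)).biUnion fun a =>
            univ.filter fun ω : ν → Fin L => ¬ LocalOn (C * Γ') ω (fun x => f (glue H a x)) := by
        intro ω hω
        by_contra hno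
        rw [mem_biUnion] at hno
        push Not at hno
        refine (mem_filter.1 hω).2 (local_glue H hwb fun a => ?_)
        by_contra hna
        exact hno a (mem_univ _) (mem_filter.2 ⟨mem_univ _, hna⟩)
      have h2 : ∀ a : {v // v ∈ H} → Bool,
          (univ.filter fun ω : ν → Fin L =>
            ¬ LocalOn (C * Γ') ω (fun x => f (glue H a x))).card * 2 ^ Γ'
            ≤ k * L ^ Fintype.card ν := fun a => ih ν Γ' _ (dnf_glue hG hf H hmeet a)
      have h3 : (univ.filter fun ω : ν → Fin L => ¬ LocalOn w ω f).card * 2 ^ Γ' ≤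
          2 ^ ((k + 1) * q * Γ) * (k * L ^ Fintype.card ν) := by
        calc (univ.filter fun ω : ν → Fin L => ¬ LocalOn w ω f).card * 2 ^ Γ'
            ≤ (∑ a : {v // v ∈ H} → Bool, (univ.filter fun ω : ν → Fin L =>
                ¬ LocalOn (C * Γ') ω (fun x => f (glue H a x))).card) * 2 ^ Γ' :=
              Nat.mul_le_mul_right _ ((card_le_card h1).trans card_biUnion_le)
          _ = ∑ a : {v // v ∈ H} → Bool, (univ.filter fun ω : ν → Fin L =>
                ¬ LocalOn (C * Γ') ω (fun x => f (glue H a x))).card * 2 ^ Γ' := by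
              rw [sum_mul]
          _ ≤ ∑ a : {v // v ∈ H} → Bool, k * L ^ Fintype.card ν := sum_le_sum fun a _ => h2 a
          _ = 2 ^ H.card * (k * L ^ Fintype.card ν) := by
              rw [sum_const, card_univ, Fintype.card_fun, Fintype.card_bool, Fintype.card_coe,
                smul_eq_mul]
          _ ≤ 2 ^ ((k + 1) * q * Γ) * (k * L ^ Fintype.card ν) := by
              apply Nat.mul_le_mul_right
              exact Nat.pow_le_pow_right (by norm_num) hHcard
      refine le_trans ?_ hmono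
      have hpos : 0 < 2 ^ ((k + 1) * q * Γ) := by positivity
      apply Nat.le_of_mul_le_mul_left _ hpos
      calc 2 ^ ((k + 1) * q * Γ) *
            ((univ.filter fun ω : ν → Fin L => ¬ LocalOn w ω f).card * 2 ^ Γ)
          = (univ.filter fun ω : ν → Fin L => ¬ LocalOn w ω f).card * 2 ^ Γ' := by
            rw [hΓ', pow_add]
            ring
        _ ≤ _ := h3

end Switchx

/-- Row SWITCH -/
theorem switch : Switch := by
  intro k L hL
  exact Switchx.main hL k

end Pool.Agent.BW
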