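import Pool.Agent.Lib.SL.R1g
import Pool.Agent.Lib.SL.R2
import Pool.Agent.Lib.SL.R3
import Pool.Agent.Lib.SL.R4
import Pool.Agent.Lib.SL.R5
import Pool.Agent.Lib.SL.R5bc
import Pool.Agent.Lib.BW.Core2
import Pool.Agent.Lib.BW.Spread
import Pool.Agent.Lib.BW.Switch
import Pool.Agent.Lib.BW.Kill3
import Pool.Agent.Lib.BW.Main
import Pool.Agent.Lib.BW.Cells5
import Pool.Agent.Lib.BWP.Fam
import Pool.Agent.Lib.BW.LastP5

/-!
# Bounded workspace: assembly (fallback)

helper97. All the rows of `last4` are proved.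
-/

namespace Pool.Agent.BW

open Pool.Agent.SL

theorem core2' : Core2 := core2 r1g (r3 r2) (r5 r4) r5b r5c

theorem all4 : Last4 := last4 core2' spreadC (kill3 switch) mainA cells5 BWP.family3

end Pool.Agent.BW
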