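import Pool.Agent.Lib.BW.Defs3

/-!
# Bounded workspace (MP_e81270_lc): row BRIDGE (helper68)
-/

set_option autoImplicit false

namespace Pool.Agent.BW

open Finset Pool.Agent.SL

namespace BridgeX

lemma half {b : ℕ} (u : Fin b) (s : Bool) (V : Finset (Fin b → Bool))
    (h : ∀ a : Fin b → Bool, a u = s → a ∈ V) : 2 ^ b ≤ 2 * V.card := by
  have h1 : (univ.filter fun a : Fin b → Bool => ¬ a u = s).card ≤
      (univ.filter fun a : Fin b → Bool => a u = s).card := by
    refine card_le_card_of_injOn (fun a => Function.update a u (!(a u))) ?_ ?_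
    · intro a ha
      simp only [coe_filter, mem_univ, true_and, Set.mem_ofPred_eq] at ha ⊢
      rw [Function.update_self]
      cases h2 : a u <;> cases s <;> simp_all
    · intro a _ a' _ haa
      have h2 : ∀ v, Function.update a u (!(a u)) v = Function.update a' u (!(a' u)) v := fun v =>
        congrFun haa v
      funext v
      by_cases hv : v = u
      · subst hv
        have h3 := h2 v
        rw [Function.update_self, Function.update_self] at h3
        cases h4 : a v <;> cases h5 : a' v <;> simp_all
      · have h3 := h2 v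
        rwa [Function.update_of_ne hv, Function.update_of_ne hv] at h3
  have h2 : (univ.filter fun a : Fin b → Bool => a u = s).card +
      (univ.filter fun a : Fin b → Bool => ¬ a u = s).card = 2 ^ b := by
    rw [card_filter_add_card_filter_not, card_univ, Fintype.card_fun, Fintype.card_bool,
      Fintype.card_fin]
  have h3 : (univ.filter fun a : Fin b → Bool => a u = s).card ≤ V.card :=
    card_le_card fun a ha => h a (mem_filter.1 ha).2
  omega

end BridgeX

theorem bridge : Bridge := by
  intro n b C
  refine ⟨fun i => ?_, fun x => ?_⟩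
  · by_cases h : ∃ u s, ((i, u), s) ∈ C
    · obtain ⟨u, s, hus⟩ := h
      exact Or.inr (BridgeX.half u s _ fun a ha =>
        mem_filter.2 ⟨mem_univ _, u, s, hus, ha⟩)
    · refine Or.inl ?_
      rw [vals, filter_eq_empty_iff]
      rintro a - ⟨u, s, hus, -⟩
      exact h ⟨u, s, hus⟩
  · constructor
    · rintro ⟨⟨⟨i, u⟩, s⟩, hl, hx⟩
      exact ⟨i, mem_filter.2 ⟨mem_univ _, u, s, hl, hx⟩⟩
    · rintro ⟨i, hi⟩
      obtain ⟨u, s, hl, hx⟩ := (mem_filter.1 hi).2
      exact ⟨((i, u), s), hl, hx⟩

end Pool.Agent.BW
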