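import Pool.Agent.Lib.BW.Defs3

/-! Row CELLS (helper32). -/

set_option autoImplicit false

namespace Pool.Agent.BW

open Finset Pool.Agent.SL

/-- Row CELLS -/
theorem cells : Cells := by
  classical
  intro n m α _ _ _ g κ base cl T0 a0 T W τ s gap hT hT0 hbase hcl hgap hW
  have hmem : ∀ (B : Finset (Fin n)) (a x : Fin n → α), x ∈ Fib B a ↔ ∀ i ∈ B, x i = a i := by
    intro B a x
    simp [Fib]
  refine ⟨{i // i ∈ T} → α, inferInstance, inferInstance, fun x i => x i.1, ?_, ?_, ?_, ?_⟩
  · rw [Fintype.card_fun, Fintype.card_coe]
    exact Nat.pow_le_pow_right Fintype.card_pos hT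
  · intro v
    have e : (univ.filter fun x : Fin n → α => (fun i : {i // i ∈ T} => x i.1) = v)
        = Fib T (fun i => if h : i ∈ T then v ⟨i, h⟩ else a0 i) := by
      ext x
      rw [hmem, mem_filter]
      simp only [mem_univ, true_and]
      constructor
      · intro h i hi
        have := congrFun h ⟨i, hi⟩
        simpa [hi] using this
      · intro h
        funext i
        have := h i.1 i.2
        simpa using this
    rw [e]
    exact hbase _ _
  · intro x _ y _ hxy
    exact hW x y fun i hi => congrFun hxy ⟨i, hi⟩
  · intro v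
    set a : Fin n → α := fun i => if h : i ∈ T then v ⟨i, h⟩ else a0 i with ha
    have haT : ∀ i (hi : i ∈ T), a i = v ⟨i, hi⟩ := by
      intro i hi
      rw [ha]
      simp [hi]
    by_cases hag : ∀ i ∈ T0, a i = a0 i
    · right
      have hfib : ∀ x, (x ∈ Fib T0 a0 ∧ (fun i : {i // i ∈ T} => x i.1) = v)
          ↔ x ∈ Fib (T0 ∪ T) a := by
        intro x
        rw [hmem, hmem]
        constructor
        · rintro ⟨h1, h2⟩ i hi
          by_cases hiT : i ∈ T
          · rw [haT i hiT]
            exact congrFun h2 ⟨i, hiT⟩
          · have hi0 := (mem_union.1 hi).resolve_right hiT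
            rw [hag i hi0]
            exact h1 i hi0
        · intro h
          refine ⟨fun i hi => ?_, ?_⟩
          · rw [h i (mem_union_left _ hi)]
            exact hag i hi
          · funext i
            rw [h i.1 (mem_union_right _ i.2)]
            exact haT i.1 i.2
      by_cases hd : Dead g (T0 ∪ T) a
      · left
        obtain ⟨i, hi, j, hj, hij, hgg⟩ := hd
        refine ⟨_, hcl i j (a i) (a j) hij hgg, fun x hx hc => ?_⟩
        have hx' := (hmem _ _ _).1 ((hfib x).1 ⟨hx, hc⟩)
        rw [mem_filter]
        exact ⟨mem_univ _, hx' i hi, hx' j hj⟩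
      · right
        have hcard : (T0 ∪ T).card ≤ τ + s := by
          have := card_union_le T0 T
          omega
        refine (hgap (T0 ∪ T) a hcard hd).trans (le_of_eq ?_)
        unfold Sg
        refine sum_congr ?_ fun _ _ => rfl
        ext x
        rw [R6x.mem_Inter, ← hfib]
        simp
    · left
      push Not at hag
      obtain ⟨i, hi0, hne⟩ := hag
      intro x hx hc
      have hiT : i ∈ T := by
        by_contra hiT
        exact hne (by rw [ha]; simp [hiT])
      apply hne
      rw [haT i hiT, ← congrFun hc ⟨i, hiT⟩]
      exact (hmem _ _ _).1 hx i hi0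

end Pool.Agent.BW
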