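import Pool.Agent.Lib.BW.Defs5

/-!
# Bounded workspace, bit version: row CELLS2
-/

set_option autoImplicit false

namespace Pool.Agent.BW

open Finset Pool.Agent.SL

/-- Row CELLS2 -/
theorem cells2 : Cells2 := by
  classical
  intro n m b g κ base cl E0 y0 Pos W f τ t s gap hf hE0 hE0s hPos hPost hbase hcl hgap hW
  have hmem : ∀ (E : Finset (Fin n × Fin b)) (a x : Fin n → Fin b → Bool),
      x ∈ Cube E a ↔ ∀ v ∈ E, x v.1 v.2 = a v.1 v.2 := by
    intro E a x
    simp [Cube]
  obtain ⟨T, hT⟩ : ∃ T : Finset (Fin n), T =
      univ.filter (fun i => f < (univ.filter fun u : Fin b => (i, u) ∈ Pos).card) := ⟨_, rfl⟩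
  obtain ⟨P, hP⟩ : ∃ P : Finset (Fin n × Fin b), P = Pos ∪ (T ×ˢ univ) := ⟨_, rfl⟩
  -- sizes
  have hTf : T.card * f ≤ Pos.card := by
    have e1 : Pos.card = ∑ i : Fin n, (univ.filter fun u : Fin b => (i, u) ∈ Pos).card := by
      have e2 : Pos = (univ : Finset (Fin n × Fin b)).filter (fun v => v ∈ Pos) := by
        ext v
        simp
      conv_lhs => rw [e2]
      rw [card_filter, ← univ_product_univ, sum_product]
      refine sum_congr rfl fun i _ => ?_
      rw [card_filter]
    rw [e1, ← smul_eq_mul, ← sum_const]
    refine le_trans (sum_le_sum fun i hi => ?_) (sum_le_sum_of_subset (subset_univ T))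
    rw [hT, mem_filter] at hi
    exact hi.2.le
  have hTt : T.card ≤ t := Nat.le_of_mul_le_mul_right (hTf.trans hPost) hf
  have hPc : P.card ≤ Pos.card + T.card * b := by
    rw [hP]
    refine (card_union_le _ _).trans ?_
    rw [card_product, card_univ, Fintype.card_fin]
  have hPτ : P.card ≤ τ := by
    refine Nat.le_of_mul_le_mul_right ?_ hf
    calc P.card * f ≤ (Pos.card + T.card * b) * f := Nat.mul_le_mul_right _ hPc
      _ = Pos.card * f + (T.card * f) * b := by ring
      _ ≤ Pos.card * f + Pos.card * b := by gcongr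
      _ = Pos.card * (b + f) := by ring
      _ ≤ τ * f := hPos
  have hTP : ∀ i ∈ T, ∀ u, (i, u) ∈ P := by
    intro i hi u
    rw [hP, mem_union, mem_product]
    exact Or.inr ⟨hi, mem_univ _⟩
  have hPosP : Pos ⊆ P := by
    rw [hP]
    exact subset_union_left
  have hfits : Fits (2 * f) T (E0 ∪ P) := by
    refine ⟨fun i hi u => mem_union_right _ (hTP i hi u), fun i hi => ?_⟩
    have e1 : (univ.filter fun u : Fin b => (i, u) ∈ E0 ∪ P) ⊆
        (univ.filter fun u : Fin b => (i, u) ∈ E0) ∪
          (univ.filter fun u : Fin b => (i, u) ∈ Pos) := by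
      intro u hu
      rw [mem_filter, mem_union] at hu
      rw [mem_union, mem_filter, mem_filter]
      rcases hu.2 with h | h
      · exact Or.inl ⟨mem_univ _, h⟩
      · rw [hP, mem_union, mem_product] at h
        rcases h with h | h
        · exact Or.inr ⟨mem_univ _, h⟩
        · exact absurd h.1 hi
    have e2 := (card_le_card e1).trans (card_union_le _ _)
    have e3 := hE0.2 i (notMem_empty i)
    have e4 : (univ.filter fun u : Fin b => (i, u) ∈ Pos).card ≤ f := by
      rw [hT, mem_filter] at hi
      by_contra hcon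
      exact hi ⟨mem_univ _, not_le.1 hcon⟩
    omega
  refine ⟨{v // v ∈ P} → Bool, inferInstance, inferInstance,
    fun x v => x v.1.1 v.1.2, ?_, ?_, ?_, ?_⟩
  · rw [Fintype.card_fun, Fintype.card_coe, Fintype.card_bool]
    exact Nat.pow_le_pow_right (by norm_num) hPτ
  · intro v
    have e : (univ.filter fun x : Fin n → Fin b → Bool =>
        (fun w : {v // v ∈ P} => x w.1.1 w.1.2) = v)
        = Cube P (fun i u => if h : (i, u) ∈ P then v ⟨(i, u), h⟩ else y0 i u) := by
      ext x
      rw [hmem, mem_filter]
      simp only [mem_univ, true_and]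
      constructor
      · intro h w hw
        have := congrFun h ⟨w, hw⟩
        simpa [hw] using this
      · intro h
        funext w
        have := h w.1 w.2
        simpa using this
    rw [e]
    exact hbase _ _
  · intro x _ y _ hxy
    exact hW x y fun w hw => congrFun hxy ⟨w, hPosP hw⟩
  · intro v
    set a : Fin n → Fin b → Bool := fun i u =>
      if h : (i, u) ∈ P then v ⟨(i, u), h⟩ else y0 i u with ha
    have haP : ∀ w (hw : w ∈ P), a w.1 w.2 = v ⟨w, hw⟩ := by
      intro w hw
      rw [ha]
      simp [hw]
    by_cases hag : ∀ w ∈ E0, a w.1 w.2 = y0 w.1 w.2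
    · right
      have hfib : ∀ x, (x ∈ Cube E0 y0 ∧ (fun w : {v // v ∈ P} => x w.1.1 w.1.2) = v)
          ↔ x ∈ Cube (E0 ∪ P) a := by
        intro x
        rw [hmem, hmem]
        constructor
        · rintro ⟨h1, h2⟩ w hw
          by_cases hwP : w ∈ P
          · rw [haP w hwP]
            exact congrFun h2 ⟨w, hwP⟩
          · have hw0 := (mem_union.1 hw).resolve_right hwP
            rw [hag w hw0]
            exact h1 w hw0
        · intro h
          refine ⟨fun w hw => ?_, ?_⟩
          · rw [h w (mem_union_left _ hw)]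
            exact hag w hw
          · funext w
            rw [h w.1 (mem_union_right _ w.2)]
            exact haP w.1 w.2
      by_cases hd : Dead g T a
      · left
        obtain ⟨i, hi, j, hj, hij, hgg⟩ := hd
        refine ⟨_, hcl i j (a i) (a j) hij hgg, fun x hx hc => ?_⟩
        have hx' := (hmem _ _ _).1 ((hfib x).1 ⟨hx, hc⟩)
        rw [mem_filter]
        refine ⟨mem_univ _, ?_, ?_⟩
        · funext u
          exact hx' (i, u) (mem_union_right _ (hTP i hi u))
        · funext u
          exact hx' (j, u) (mem_union_right _ (hTP j hj u))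
      · right
        have hcard : (E0 ∪ P).card ≤ τ + s := by
          have := card_union_le E0 P
          omega
        refine (hgap T (E0 ∪ P) a hTt hfits hcard hd).trans (le_of_eq ?_)
        unfold Sg
        refine sum_congr ?_ fun _ _ => rfl
        ext x
        rw [R6x.mem_Inter, ← hfib]
        simp
    · left
      push Not at hag
      obtain ⟨w, hw0, hne⟩ := hag
      intro x hx hc
      have hwP : w ∈ P := by
        by_contra hwP
        exact hne (by rw [ha]; simp [hwP])
      apply hne
      rw [haP w hwP, ← congrFun hc ⟨w, hwP⟩]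
      exact (hmem _ _ _).1 hx w hw0

end Pool.Agent.BW
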