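import Pool.Agent.Lib.BW.Defs

/-!
# Bounded workspace: rows CELLS and BRIDGE

Project BW (helper10).
-/

set_option autoImplicit false

namespace Pool.Agent.BW

open Finset Pool.Agent.SL

/-- Row CELLS: a set which depends on the blocks of `T`, inside of the cube `Fib T0 a0` -/
def Cells : Prop :=
  ∀ (n m : ℕ) (α : Type) [Fintype α] [DecidableEq α] [Nonempty α] (g : Fin n → α → Fin m)
    (κ : (Fin n → α) → ℝ) (base cl : Finset (Finset (Fin n → α))) (T0 : Finset (Fin n))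
    (a0 : Fin n → α) (T : Finset (Fin n)) (W : Finset (Fin n → α)) (τ s : ℕ) (gap : ℝ),
    T.card ≤ τ → T0.card ≤ s → (∀ T a, Fib T a ∈ base) →
    (∀ i j a a', i ≠ j → g i a = g j a' →
      (univ.filter fun ω : Fin n → α => ω i = a ∧ ω j = a') ∈ cl) →
    (∀ (T : Finset (Fin n)) (a : Fin n → α), T.card ≤ τ + s → ¬ Dead g T a →
      gap ≤ ∑ x ∈ Fib T a, κ x) →
    (∀ x y, (∀ i ∈ T, x i = y i) → x ∈ W → y ∈ W) →
    ∃ (ι : Type) (_ : Fintype ι) (_ : DecidableEq ι) (c : (Fin n → α) → ι),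
      Fintype.card ι ≤ Fintype.card α ^ τ ∧ (∀ i, (univ.filter fun x => c x = i) ∈ base) ∧
      (∀ x ∈ Fib T0 a0, ∀ y ∈ Fib T0 a0, c x = c y → x ∈ W → y ∈ W) ∧
      ∀ i, (∀ x ∈ Fib T0 a0, c x ≠ i) ∨ (∃ C ∈ cl, ∀ x ∈ Fib T0 a0, c x = i → x ∈ C) ∨
        gap ≤ Sg κ (Fib T0 a0) [univ.filter fun x => c x = i]

/-- the values of block `i` which satisfy the clause `C` -/
def vals {n b : ℕ} (C : Clause (Fin n × Fin b)) (i : Fin n) : Finset (Fin b → Bool) :=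
  univ.filter fun a => ∃ u s, ((i, u), s) ∈ C ∧ a u = s

/-- Row BRIDGE: clauses with blocks -/
def Bridge : Prop :=
  ∀ (n b : ℕ) (C : Clause (Fin n × Fin b)),
    (∀ i, vals C i = ∅ ∨ 2 ^ b ≤ 2 * (vals C i).card) ∧
    ∀ x : Fin n × Fin b → Bool, Holds C x ↔ ∃ i, (fun u => x (i, u)) ∈ vals C i

end Pool.Agent.BW
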