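import Pool.Agent.Lib.SL.R8b
import Pool.Agent.Lib.BW.Defs3

/-!
# The formula and the walk combined

Project BW (helper10), after `Pool.Agent.Lib.SL.R8b`.
-/

set_option autoImplicit false

namespace Pool.Agent.BW

open Finset Pool.Agent.SL

variable {n m b : ℕ}

theorem comb (hCore : Core) (hKill : Kill) (hMain : MainA) (hCells : Cells) (hBridge : Bridge)
    (r0 R0 k t s q r τ τ1 t0 sk : ℕ) (hn : 8 ≤ n) (hm : n = m + 1) (ht1 : 1 ≤ t)
    (ht : 2 * t ≤ m)
    (hα : 2 ^ b = r0 * R0) (hk : 1 ≤ k) (hs : 4 ≤ s)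
    (hkr : 32 * k * n ^ 2 * n ^ (2 * s) ≤ r0) (hR1 : n ^ (s + 2) ≤ R0)
    (hτ : τ1 + t0 ≤ τ) (hτt : τ + sk ≤ t) (hsk : 2 * sk ≤ τ1) (hskm : 16 * sk ≤ m)
    (Lset : Finset (((Fin n × Fin b) → Bool) → Bool))
    (hU : (((2 * (Lset.card + 2 ^ n * (2 ^ b) ^ n) + 1) ^ (q + 8) *
      (2 * (n ^ 2 * (2 ^ b) ^ 2) + 1) ^ r + 1)
      * (2 ^ n * (2 ^ b) ^ n) + 1) * 2 ^ n * m ^ n < 4 ^ k) :
    ∃ F : Finset (Clause (Fin n × Fin b)),
      (∀ x, ∃ C ∈ F, ¬ Holds C x) ∧ F.card ≤ n ^ 2 * (2 ^ b) ^ 2 ∧ (∀ C ∈ F, C.card ≤ 2 * b) ∧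
      ∀ S D P : ℕ, D ≤ P * q → (S : ℝ) * (1 - 3 * (τ1 : ℝ) / (16 * n)) ^ sk < 1 →
        Nonempty (Refutation F (fun f => f ∈ Lset) t0 r S D) →
        1 / (4 * ((2 : ℝ) ^ b) ^ (τ + sk)) ≤
          2 * ((P + 1) * (S : ℝ) ^ (P + 1) * (2 ^ (q + 1) *
            ((((2 ^ b) ^ τ : ℕ) : ℝ) ^ 2 * (r + 4) * (6 / (n : ℝ) ^ ((s - 2) * t)))))
          + 2 * ((((2 ^ b) ^ τ : ℕ) : ℝ) ^ 2 * (r + 4) * (6 / (n : ℝ) ^ ((s - 2) * t))) := by
  classical
  have hcα : Fintype.card (Fin b → Bool) = r0 * R0 := by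
    rw [Fintype.card_fun, Fintype.card_bool, Fintype.card_fin, hα]
  have hcα' : Fintype.card (Fin b → Bool) = 2 ^ b := by
    rw [Fintype.card_fun, Fintype.card_bool, Fintype.card_fin]
  have hcΩ : Fintype.card (Fin n → Fin b → Bool) = (2 ^ b) ^ n := by
    rw [Fintype.card_fun, Fintype.card_fun, Fintype.card_bool, Fintype.card_fin, Fintype.card_fin]
  let fs : (((Fin n × Fin b) → Bool) → Bool) → Finset (Fin n → Fin b → Bool) :=
    fun f => univ.filter (fun ω => f (R8x.toA ω) = false)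
  let cs : (Fin n × Fin n) × ((Fin b → Bool) × (Fin b → Bool)) →
      Finset (Fin n → Fin b → Bool) :=
    fun z => univ.filter (fun ω => ω z.1.1 = z.2.1 ∧ ω z.1.2 = z.2.2)
  set cubes : Finset (Finset (Fin n → Fin b → Bool)) :=
    (univ : Finset (Finset (Fin n) × (Fin n → Fin b → Bool))).image (fun p => Fib p.1 p.2)
    with hcubes
  set base : Finset (Finset (Fin n → Fin b → Bool)) := Lset.image fs ∪ cubes with hbase
  set clAll : Finset (Finset (Fin n → Fin b → Bool)) := univ.image cs with hclAll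
  have hcube : ∀ T a, Fib T a ∈ base := fun T a =>
    mem_union_right _ (mem_image_of_mem (fun p : Finset (Fin n) × (Fin n → Fin b → Bool) =>
      Fib p.1 p.2) (mem_univ (T, a)))
  have hbc : (base ∪ base.image compl).card + 1 ≤ 2 * (Lset.card + 2 ^ n * (2 ^ b) ^ n) + 1 := by
    have e0 : cubes.card ≤ 2 ^ n * (2 ^ b) ^ n := by
      refine le_trans card_image_le ?_
      rw [card_univ, Fintype.card_prod, Fintype.card_finset, Fintype.card_fin, hcΩ]
    have e4 : (Lset.image fs).card ≤ Lset.card := card_image_le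
    have e1 : base.card ≤ Lset.card + 2 ^ n * (2 ^ b) ^ n :=
      (card_union_le _ _).trans (Nat.add_le_add e4 e0)
    have e2 : (base.image compl).card ≤ base.card := card_image_le
    have e3 := card_union_le base (base.image compl)
    omega
  have hcc : (clAll ∪ clAll.image compl).card + 1 ≤ 2 * (n ^ 2 * (2 ^ b) ^ 2) + 1 := by
    have e1 : clAll.card ≤ n ^ 2 * (2 ^ b) ^ 2 := by
      refine le_trans card_image_le ?_
      simp only [card_univ, Fintype.card_prod, Fintype.card_fin, Fintype.card_fun,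
        Fintype.card_bool]
      apply le_of_eq
      ring
    have e2 : (clAll.image compl).card ≤ clAll.card := card_image_le
    have e3 := card_union_le clAll (clAll.image compl)
    omega
  obtain ⟨G1, hG1, hG1'⟩ := R8x.fam_inter (base ∪ base.image compl) (q + 8)
  obtain ⟨G2, hG2, hG2'⟩ := R8x.fam_inter (clAll ∪ clAll.image compl) r
  set 𝓤 : Finset (Finset (Fin n → Fin b → Bool)) := Finset.image₂ (fun A B => A ∩ B) G1 G2
    with h𝓤
  have hUc : 𝓤.card ≤ (2 * (Lset.card + 2 ^ n * (2 ^ b) ^ n) + 1) ^ (q + 8) *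
      (2 * (n ^ 2 * (2 ^ b) ^ 2) + 1) ^ r := by
    refine le_trans (Finset.card_image₂_le _ _ _) ?_
    apply Nat.mul_le_mul
    · exact le_trans hG1 (Nat.pow_le_pow_left hbc _)
    · exact le_trans hG2 (Nat.pow_le_pow_left hcc _)
  obtain ⟨g, hg1, hg2, hg3, hg4⟩ := hCore n m (Fin b → Bool)
    r0 R0 k t s hn hm ht1 ht hcα hk hs hkr hR1 𝓤 (by
      rw [hcΩ]
      refine lt_of_le_of_lt ?_ hU
      gcongr)
  rw [hcα'] at hg1 hg4
  set Ωc : ℝ := (Fintype.card (Fin n → Fin b → Bool) : ℝ) with hΩc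
  have hΩpos : 0 < Ωc := by
    rw [hΩc, hcΩ]; positivity
  set ε : ℝ := 6 / (n : ℝ) ^ ((s - 2) * t) with hε
  have hnpos : (0 : ℝ) < n := by
    have : 0 < n := by omega
    exact_mod_cast this
  have hε0 : 0 ≤ ε := by positivity
  refine ⟨R8x.FF g, R8x.FF_unsat (by omega) g, R8x.FF_card g, R8x.FF_width g, ?_⟩
  intro S D P hDP hSk hne
  obtain ⟨Rf⟩ := hne
  set κ : (Fin n → Fin b → Bool) → ℝ := fun ω => Ker (2 * t) g ω / Ωc with hκ
  have hκsum : ∀ U : Finset (Fin n → Fin b → Bool),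
      ∑ x ∈ U, κ x = (∑ x ∈ U, Ker (2 * t) g x) / Ωc := by
    intro U
    rw [hκ, Finset.sum_div]
  let viol : Clause (Fin n × Fin b) → Finset (Fin n → Fin b → Bool) :=
    fun C => univ.filter (fun ω => ¬ Holds C (R8x.toA ω))
  set cl : Finset (Finset (Fin n → Fin b → Bool)) := (R8x.FF g).image viol with hcl
  have hviol : ∀ i j : Fin n, ∀ a a' : Fin b → Bool,
      viol (R8x.cla i j a a') = cs ((i, j), (a, a')) := by
    intro i j a a'
    ext ω
    simp only [viol, cs, mem_filter, mem_univ, true_and]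
    rw [R8x.holds_cla, not_not]
    exact Iff.rfl
  -- elements of cl
  have hclform : ∀ C ∈ cl, ∃ i j : Fin n, ∃ a a' : Fin b → Bool, i ≠ j ∧ g i a = g j a' ∧
      C = cs ((i, j), (a, a')) := by
    intro C hC
    rw [hcl, mem_image] at hC
    obtain ⟨C', hC', rfl⟩ := hC
    unfold R8x.FF at hC'
    rw [mem_image] at hC'
    obtain ⟨z, hz, rfl⟩ := hC'
    rw [mem_filter] at hz
    exact ⟨z.1.1, z.1.2, z.2.1, z.2.2, hz.2.1, hz.2.2, hviol _ _ _ _⟩
  have hclmem : ∀ i j : Fin n, ∀ a a' : Fin b → Bool, i ≠ j → g i a = g j a' →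
      (univ.filter fun ω : Fin n → Fin b → Bool => ω i = a ∧ ω j = a') ∈ cl := by
    intro i j a a' hij hgg
    have h1 : R8x.cla i j a a' ∈ R8x.FF g := by
      unfold R8x.FF
      rw [mem_image]
      exact ⟨((i, j), (a, a')), by simp [hij, hgg], rfl⟩
    have h2 := mem_image_of_mem viol h1
    rw [hviol] at h2
    exact h2
  have hclsub : cl ⊆ clAll := by
    intro C hC
    obtain ⟨i, j, a, a', _, _, rfl⟩ := hclform C hC
    exact mem_image_of_mem _ (mem_univ _)
  have hmem1 : ∀ V : Finset (Fin n → Fin b → Bool), V ∈ base ∨ Vᶜ ∈ base →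
      V ∈ base ∪ base.image compl := by
    intro V hV
    rcases hV with hV | hV
    · exact mem_union_left _ hV
    · apply mem_union_right
      rw [mem_image]
      exact ⟨Vᶜ, hV, compl_compl V⟩
  have hmem2 : ∀ V : Finset (Fin n → Fin b → Bool), V ∈ cl ∨ Vᶜ ∈ cl →
      V ∈ clAll ∪ clAll.image compl := by
    intro V hV
    rcases hV with hV | hV
    · exact mem_union_left _ (hclsub hV)
    · apply mem_union_right
      rw [mem_image]
      exact ⟨Vᶜ, hclsub hV, compl_compl V⟩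
  have hin : ∀ h₁ h₂ : List (Finset (Fin n → Fin b → Bool)), h₁.length ≤ q + 8 →
      (∀ V ∈ h₁, V ∈ base ∨ Vᶜ ∈ base) → h₂.length ≤ r → (∀ V ∈ h₂, V ∈ cl ∨ Vᶜ ∈ cl) →
      Inter h₁ ∩ Inter h₂ ∈ 𝓤 := by
    intro h₁ h₂ hl1 hb1 hl2 hb2
    rw [h𝓤, Finset.mem_image₂]
    exact ⟨Inter h₁, hG1' h₁ hl1 (fun V hV => hmem1 V (hb1 V hV)),
      Inter h₂, hG2' h₂ hl2 (fun V hV => hmem2 V (hb2 V hV)), rfl⟩
  have hPs : R6x.Pseudo κ ε base cl (q + 8) r := by
    refine ⟨hε0, ?_, ?_⟩
    · intro h₁ h₂ hl1 hb1 hl2 hb2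
      have := hg2 _ (hin h₁ h₂ hl1 hb1 hl2 hb2)
      rw [hκsum, le_div_iff₀ hΩpos]
      linarith
    · intro h₁ h₂ hl1 hb1 hl2 hb2 C hC hsub
      obtain ⟨i, j, a, a', hij, hgg, rfl⟩ := hclform C hC
      have := hg3 _ (hin h₁ h₂ hl1 hb1 hl2 hb2) i j a a' hij hgg (by
        intro x hx
        have := hsub hx
        simpa [cs] using this)
      rw [hκsum, div_le_iff₀ hΩpos]
      exact this
  -- values of cubes
  set gap : ℝ := 1 / (4 * ((2 : ℝ) ^ b) ^ (τ + sk)) with hgapdef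
  have hgap : ∀ (T : Finset (Fin n)) (a : Fin n → Fin b → Bool), T.card ≤ τ + sk →
      ¬ Dead g T a → gap ≤ ∑ x ∈ Fib T a, κ x := by
    intro T a hT hd
    have h1 := hg1 T a (hT.trans hτt) hd
    rw [hκsum, le_div_iff₀ hΩpos]
    refine le_trans ?_ h1
    rw [hgapdef, div_mul_eq_mul_div, one_mul]
    have h2 : (((2 ^ b : ℕ) : ℝ)) ^ T.card ≤ ((2 : ℝ) ^ b) ^ (τ + sk) := by
      push_cast
      exact pow_le_pow_right₀ (one_le_pow₀ (by norm_num)) hT
    have h3 : (0 : ℝ) < ((2 ^ b : ℕ) : ℝ) ^ T.card := by positivity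
    gcongr
  -- the simple lines
  have hsl : ∀ k : Fin S, ∃ (C : Clause (Fin n × Fin b)) (T : Finset (Fin n × Fin b))
      (h : (Fin n × Fin b → Bool) → Bool), T.card ≤ t0 ∧
      (∀ x y, (∀ v ∈ T, x v = y v) → h x = h y) ∧
      (k ∈ Rf.simple → ∀ x, Rf.line k x = true ↔ Holds C x ∨ h x = true) := by
    intro k
    by_cases hk : k ∈ Rf.simple
    · obtain ⟨C, T, h, h1, h2, h3⟩ := Rf.isSimple k hk
      exact ⟨C, T, h, h1, h2, fun _ => h3⟩
    · exact ⟨∅, ∅, fun _ => false, by simp, fun _ _ _ => rfl, fun h => absurd h hk⟩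
  choose Cc Tc hc hTc hdep hline using hsl
  obtain ⟨T0, a0, hT0, hd0, hkill⟩ := hKill n m S sk τ1 (Fin b → Bool) g (by omega)
    (by rw [hcα']; exact hg4) hsk hskm (fun k i => vals (Cc k) i)
    (by rw [hcα']; exact fun k i => (hBridge n b (Cc k)).1 i) hSk
  have hfsm : ∀ (k : Fin S) (x : Fin n → Fin b → Bool),
      x ∈ fs (Rf.line k) ↔ Rf.line k (R8x.toA x) = false := by
    intro k x
    simp only [fs, mem_filter, mem_univ, true_and]
  have hR0 : Fib T0 a0 ∈ base := hcube T0 a0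
  have hc0 : 1 ≤ (2 ^ b) ^ τ := Nat.one_le_pow _ _ (by positivity)
  obtain ⟨k₀, hk₀⟩ := Rf.last
  refine hMain (Fin n → Fin b → Bool) κ ε gap base cl r ((2 ^ b) ^ τ) S D q P (Fib T0 a0)
    (fun k => fs (Rf.line k)) Rf.simple Rf.rank hPs hR0 hc0
    (fun k hk => mem_union_left _ (mem_image_of_mem _ (Rf.isLine k hk))) ?_ Rf.rank_le hDP ?_
    ⟨k₀, fun x _ => (hfsm k₀ x).2 (hk₀ _)⟩ (hgap T0 a0 (by omega) hd0)
  · intro k hk
    by_cases hw : τ1 ≤ (univ.filter fun i => vals (Cc k) i ≠ ∅).card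
    · -- killed line
      obtain ⟨i, hi, hai⟩ := hkill k hw
      obtain ⟨ι, i1, i2, c, h1, h2, -, h4⟩ := hCells n m (Fin b → Bool) g κ base cl T0 a0 ∅ ∅ τ sk
        gap (by simp) hT0 hcube hclmem hgap (fun _ _ _ h => by simp at h)
      refine ⟨ι, i1, i2, c, by rw [hcα'] at h1; exact h1, h2, ?_, h4⟩
      intro x hx y _ _ hxW
      exfalso
      rw [hfsm] at hxW
      have h5 : Holds (Cc k) (R8x.toA x) := by
        rw [(hBridge n b (Cc k)).2]
        refine ⟨i, ?_⟩
        have h6 : x i = a0 i := (mem_filter.1 hx).2 i hi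
        have h7 : (fun u => R8x.toA x (i, u)) = a0 i := by
          rw [← h6]
          rfl
        rw [h7]
        exact hai
      rw [(hline k hk _).2 (Or.inl h5)] at hxW
      exact absurd hxW (by simp)
    · -- local line
      set T : Finset (Fin n) := (univ.filter fun i => vals (Cc k) i ≠ ∅) ∪
        (Tc k).image Prod.fst with hTdef
      have hTcard : T.card ≤ τ := by
        have e1 := card_union_le (univ.filter fun i => vals (Cc k) i ≠ ∅) ((Tc k).image Prod.fst)
        have e2 : ((Tc k).image Prod.fst).card ≤ (Tc k).card := card_image_le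
        have e3 := hTc k
        rw [← hTdef] at e1
        omega
      have hdepW : ∀ x y : Fin n → Fin b → Bool, (∀ i ∈ T, x i = y i) → x ∈ fs (Rf.line k) →
          y ∈ fs (Rf.line k) := by
        intro x y hxy hx
        rw [hfsm] at hx ⊢
        by_contra hcon
        have hcon' : Rf.line k (R8x.toA y) = true := by simpa using hcon
        rw [hline k hk] at hcon'
        have h8 : Rf.line k (R8x.toA x) = true := by
          rw [hline k hk]
          rcases hcon' with h9 | h9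
          · left
            rw [(hBridge n b (Cc k)).2] at h9 ⊢
            obtain ⟨i, hi⟩ := h9
            refine ⟨i, ?_⟩
            have h10 : i ∈ T := by
              rw [hTdef, mem_union]
              left
              rw [mem_filter]
              exact ⟨mem_univ _, fun h => by rw [h] at hi; simp at hi⟩
            have h11 : (fun u => R8x.toA x (i, u)) = fun u => R8x.toA y (i, u) := by
              funext u
              show x i u = y i u
              rw [hxy i h10]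
            rw [h11]
            exact hi
          · right
            rw [← h9]
            refine hdep k _ _ fun v hv => ?_
            show x v.1 v.2 = y v.1 v.2
            rw [hxy v.1 (by
              rw [hTdef, mem_union]
              exact Or.inr (mem_image_of_mem _ hv))]
        rw [h8] at hx
        exact absurd hx (by simp)
      obtain ⟨ι, i1, i2, c, h1, h2, h3, h4⟩ := hCells n m (Fin b → Bool) g κ base cl T0 a0 T
        (fs (Rf.line k)) τ sk gap hTcard hT0 hcube hclmem hgap hdepW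
      exact ⟨ι, i1, i2, c, by rw [hcα'] at h1; exact h1, h2, h3, h4⟩
  · intro k
    obtain ⟨R, hRF, hRc, Q, hQ, hQlt, hR, hrk⟩ := Rf.infer k
    refine ⟨R.image viol, image_subset_image hRF, le_trans card_image_le hRc, Q, hQ, hQlt, ?_,
      hrk⟩
    intro ω _ hω
    by_contra hcon
    rw [not_or] at hcon
    obtain ⟨hc1, hc2⟩ := hcon
    rw [hfsm] at hω
    have h1 := hR (R8x.toA ω) (by
      intro C hC
      by_contra hcon
      apply hc2
      rw [mem_biUnion]
      exact ⟨viol C, mem_image_of_mem _ hC, by simp [viol, hcon]⟩) (by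
      intro i hi
      by_contra hcon
      refine hc1 ⟨i, hi, ?_⟩
      rw [hfsm]
      simpa using hcon)
    rw [h1] at hω
    exact absurd hω (by simp)

end Pool.Agent.BW
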