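import Pool.Agent.Lib.BW.Model2

/-!
# Large inferences, local dag size against local tree size (MP_e81270_lc): the definition of a
refutation

Project BW (helper10). Circuits, clauses: `Pool.Agent.Lib.SL.Model`; simple lines:
`Pool.Agent.Lib.BW.Model2`.
-/

set_option autoImplicit false

namespace Pool.Agent.BW

open Pool.Agent.SL

/-- A refutation of the CNF `F` with `M` lines. The lines are Boolean functions satisfying `Line`;
the lines in the set `simple` satisfy `Simple`, the other ones are called complex. One line is
constantly false, and every line is implied by at most `p` earlier lines together with at most `r`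
clauses of `F`. For a complex line `k`, the set `anc k` contains every complex premise `i` of `k`
and the set `anc i`, and `size k` is greater than the sum of the `size` of its complex premises.
So `S` bounds, for every complex line, the number of complex lines in its derivation from simple
lines (the line itself is not counted), and `T` the number of nodes of the tree which one obtains
by unfolding this derivation. -/
structure BRefutation {ν : Type} (F : Finset (Clause ν))
    (Line Simple : ((ν → Bool) → Bool) → Prop) (p r M S T : ℕ) where
  line : Fin M → (ν → Bool) → Bool
  isLine : ∀ k, Line (line k)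
  simple : Finset (Fin M)
  isSimple : ∀ k ∈ simple, Simple (line k)
  anc : Fin M → Finset (Fin M)
  anc_card : ∀ k ∉ simple, (anc k).card ≤ S
  size : Fin M → ℕ
  size_le : ∀ k ∉ simple, size k ≤ T
  last : ∃ k, ∀ x, line k x = false
  infer : ∀ k, ∃ R ⊆ F, R.card ≤ r ∧ ∃ P : Finset (Fin M), P.card ≤ p ∧ (∀ i ∈ P, i < k) ∧
    (∀ x, (∀ C ∈ R, Holds C x) → (∀ i ∈ P, line i x = true) → line k x = true) ∧
    (k ∉ simple → (∀ i ∈ P \ simple, insert i (anc i) ⊆ anc k) ∧
      ∑ i ∈ P \ simple, size i < size k)

end Pool.Agent.BW
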