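import Pool.Agent.Lib.BW.Defs7
import Pool.Agent.Lib.BWP.Defs
import Pool.Agent.Lib.BW.Model5

/-!
# Large inferences, local sizes: rows WALKP, MAINP, LAST8

Project BW (helper10).
-/

set_option autoImplicit false

namespace Pool.Agent.BW

open Finset Pool.Agent.SL

/-- Row WALKP: the walk, for inferences from at most `p` lines -/
def WalkP : Prop :=
  ∀ (Ω : Type) [Fintype Ω] [DecidableEq Ω] (κ : Ω → ℝ) (ε E : ℝ) (base : Finset (Finset Ω))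
    (R0 : Finset Ω) (M S T p q P j : ℕ) (W : Fin M → Finset Ω) (act : Finset (Fin M))
    (anc : Fin M → Finset (Fin M)) (size : Fin M → ℕ),
    0 ≤ ε → 0 ≤ E → 1 ≤ p → (∀ Q ⊆ act, Q.card ≤ p → Q.biUnion W ∈ base) →
    (∀ h : List (Finset Ω), h.length ≤ j + 4 → R6x.Adm base h → -ε ≤ Sg κ R0 h) →
    (∀ k ∈ act, (anc k).card ≤ S) → (∀ k ∈ act, size k ≤ T) → T ≤ 2 ^ (q * P) →
    (2 * p + 2) * M * 2 ^ q * 3 ^ j ≤ 4 ^ j →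
    (∀ k ∈ act, ∃ Q ⊆ act, Q.card ≤ p ∧ (∀ i ∈ Q, i < k ∧ insert i (anc i) ⊆ anc k) ∧
      ∑ i ∈ Q, size i < size k ∧
      ∀ h : List (Finset Ω), h.length ≤ j → R6x.Adm base h →
        Sg κ R0 (W k :: h) ≤ Sg κ R0 (Q.biUnion W :: h) + E) →
    ∀ k ∈ act, Sg κ R0 [W k] ≤ ((S : ℝ) + 1) ^ P * (2 ^ (j + 2) * (E + ε))

/-- Row MAINP: all simple lines are dead, so the last line is impossible -/
def MainP : Prop :=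
  ∀ (Ω : Type) [Fintype Ω] [DecidableEq Ω] (κ : Ω → ℝ) (ε gap : ℝ)
    (base cl : Finset (Finset Ω)) (r c0 M S T p q P j : ℕ) (R0 : Finset Ω)
    (W : Fin M → Finset Ω) (simple : Finset (Fin M)) (anc : Fin M → Finset (Fin M))
    (size : Fin M → ℕ),
    R6x.Pseudo κ ε base cl (j + 8) r → R0 ∈ base → 1 ≤ c0 → 1 ≤ p →
    (∀ Q : Finset (Fin M), Q.card ≤ p → Q.biUnion W ∈ base) →
    (∀ k ∈ simple, ∃ (ι : Type) (_ : Fintype ι) (_ : DecidableEq ι) (c : Ω → ι),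
      Fintype.card ι ≤ c0 ∧ (∀ i, (univ.filter fun x => c x = i) ∈ base) ∧
      (∀ x ∈ R0, ∀ y ∈ R0, c x = c y → x ∈ W k → y ∈ W k) ∧
      ∀ i, (∀ x ∈ R0, c x ≠ i) ∨ (∃ C ∈ cl, ∀ x ∈ R0, c x = i → x ∈ C) ∨
        gap ≤ Sg κ R0 [univ.filter fun x => c x = i]) →
    (∀ k ∉ simple, (anc k).card ≤ S) → (∀ k ∉ simple, size k ≤ T) → T ≤ 2 ^ (q * P) →
    (2 * p + 2) * M * 2 ^ q * 3 ^ j ≤ 4 ^ j →
    (∀ k, ∃ R ⊆ cl, R.card ≤ r ∧ ∃ Q : Finset (Fin M), Q.card ≤ p ∧ (∀ i ∈ Q, i < k) ∧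
      (∀ x ∈ R0, x ∈ W k → (∃ i ∈ Q, x ∈ W i) ∨ x ∈ R.biUnion id) ∧
      (k ∉ simple → (∀ i ∈ Q \ simple, insert i (anc i) ⊆ anc k) ∧
        ∑ i ∈ Q \ simple, size i < size k)) →
    (∃ k, ∀ x ∈ R0, x ∈ W k) → gap ≤ ∑ x ∈ R0, κ x →
    gap ≤ (2 * p + 1) * (((S : ℝ) + 1) ^ P * (2 ^ (j + 2) * ((p * c0 + r + 2) * ε)))

/-- Row LAST8: the statement of the hand-in -/
def Last8 : Prop :=
  ∀ c k A : ℕ, 2 ≤ c → ∃ (δ : ℝ) (K ℓ₀ : ℕ), 0 < δ ∧ 0 < K ∧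
    ∀ ℓ n b N : ℕ, ℓ₀ ≤ ℓ → n = 2 ^ ℓ → b = K * ℓ → N = n * b →
      ∀ V : Finset ((Fin n × Fin b → Bool) → Bool), V.card ≤ 2 ^ (N ^ c) →
        ∃ F : Finset (Clause (Fin n × Fin b)),
          (∀ x, ∃ C ∈ F, ¬ Holds C x) ∧ F.card ≤ N ^ (4 * c + 42) ∧ (∀ C ∈ F, C.card ≤ 2 * b) ∧
          ∀ t M S T : ℕ, (t : ℝ) ≤ δ * N → (M : ℝ) < 2 ^ (δ * N) →
            Nonempty (BRefutation F (fun f => f ∈ V ∨ HasCircuit (N ^ c) f) (IsSimple2 k A t)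
              (N ^ c) (N ^ c) M S T) →
              δ * (N : ℝ) ^ 2 ≤ Real.logb 2 ((S : ℝ) + 1) * Real.logb 2 ((T : ℝ) + 1)

end Pool.Agent.BW
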