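import Pool.Agent.Lib.BW.Model5

/-!
# Simple lines which are constant on cells (MP_e81270_lc): the definition

Project BW (helper10). `k`-DNFs, parities: `Pool.Agent.Lib.BW.Model2`.
-/

set_option autoImplicit false

namespace Pool.Agent.BW

/-- A simple line: there are `B` `k`-DNFs `g i`, and for every input `x` a set `D x` of at most
`A` of them and a set `P x` of at most `t` parities, such that every `y` on which they have the
same values as on `x` has the same sets, and `f y = f x`. So the cube is divided into cells, every
cell is given by the values of at most `A` of the `B` `k`-DNFs and of at most `t` parities, and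
`f` is constant on the cells. Examples: all Boolean functions of `A = B` `k`-DNFs and `t`
parities, and decision trees over parities and `k`-DNFs. -/
def IsSimple3 {ν : Type} (k A B t : ℕ) (f : (ν → Bool) → Bool) : Prop :=
  ∃ (g : Fin B → (ν → Bool) → Bool) (D : (ν → Bool) → Finset (Fin B))
    (P : (ν → Bool) → Finset (Finset ν)),
    (∀ i, IsDnf k (g i)) ∧ ∀ x, (D x).card ≤ A ∧ (P x).card ≤ t ∧
      ∀ y, (∀ i ∈ D x, g i x = g i y) → (∀ R ∈ P x, par R x = par R y) →
        D y = D x ∧ P y = P x ∧ f y = f x

end Pool.Agent.BW
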