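import Pool.Agent.Lib.BW.Defs7
import Pool.Agent.Lib.BW.Defs10
import Pool.Agent.Lib.BW.Model6

/-!
# Simple lines which are constant on cells: rows CELLS6, LAST12

Project BW (helper10).
-/

set_option autoImplicit false

namespace Pool.Agent.BW

open Finset Pool.Agent.SL Pool.Agent.BWP

/-- Row CELLS6: as `Cells5`, the system `L x` of parities may depend on `x`. -/
def Cells6 : Prop :=
  ∀ (n m b : ℕ) (g : Fin n → (Fin b → Bool) → Fin m) (κ : (Fin n → Fin b → Bool) → ℝ)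
    (base cl : Finset (Finset (Fin n → Fin b → Bool))) (E0 : Finset (Fin n × Fin b))
    (y0 : Fin n → Fin b → Bool)
    (L : (Fin n → Fin b → Bool) → Finset (Finset (Fin n × Fin b)))
    (W : Finset (Fin n → Fin b → Bool)) (r f τ t w : ℕ) (gap : ℝ),
    1 ≤ f → 1 ≤ r → r * 2 ^ f ≤ 2 ^ b → (∀ x, ∀ v ∈ E0, {v} ∈ L x) →
    (∀ x, (L x).card ≤ w) →
    (∀ x x', (∀ P ∈ L x, BWP.par P (R8x.toA x') = BWP.par P (R8x.toA x)) → L x' = L x) →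
    w * (b + f) ≤ τ * f → w ≤ t * f →
    (∀ (L' : Finset (Finset (Fin n × Fin b))) (y : Fin n → Fin b → Bool), L'.card ≤ τ →
      AffL L' y ∈ base) →
    (∀ i j a a', i ≠ j → g i a = g j a' →
      (univ.filter fun ω : Fin n → Fin b → Bool => ω i = a ∧ ω j = a') ∈ cl) →
    (∀ (T : Finset (Fin n)) (L' : Finset (Finset (Fin n × Fin b))) (y : Fin n → Fin b → Bool),
      T.card ≤ t → L'.card ≤ τ → Spread r T (AffL L' y) → AffL L' y ⊆ Fib T y →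
      ¬ Dead g T y → gap ≤ ∑ x ∈ AffL L' y, κ x) →
    (∀ x ∈ Cube E0 y0, ∀ y ∈ Cube E0 y0,
      (∀ P ∈ L y, BWP.par P (R8x.toA x) = BWP.par P (R8x.toA y)) → x ∈ W → y ∈ W) →
    ∃ (ι : Type) (_ : Fintype ι) (_ : DecidableEq ι) (c : (Fin n → Fin b → Bool) → ι),
      Fintype.card ι ≤ 2 ^ τ ∧ (∀ i, (univ.filter fun x => c x = i) ∈ base) ∧
      (∀ x ∈ Cube E0 y0, ∀ y ∈ Cube E0 y0, c x = c y → x ∈ W → y ∈ W) ∧
      ∀ i, (∀ x ∈ Cube E0 y0, c x ≠ i) ∨ (∃ C ∈ cl, ∀ x ∈ Cube E0 y0, c x = i → x ∈ C) ∨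
        gap ≤ Sg κ (Cube E0 y0) [univ.filter fun x => c x = i]

/-- Row LAST12: the statement of the hand-in -/
def Last12 : Prop :=
  ∀ c d k : ℕ, 2 ≤ c → ∃ (δ : ℝ) (K ℓ₀ : ℕ), 0 < δ ∧ 0 < K ∧
    ∀ ℓ n b N : ℕ, ℓ₀ ≤ ℓ → n = 2 ^ ℓ → b = K * ℓ → N = n * b →
      ∀ V : Finset ((Fin n × Fin b → Bool) → Bool), V.card ≤ 2 ^ (N ^ c) →
        ∃ F : Finset (Clause (Fin n × Fin b)),
          (∀ x, ∃ C ∈ F, ¬ Holds C x) ∧ F.card ≤ N ^ (2 * c + 2 * d + 42) ∧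
          (∀ C ∈ F, C.card ≤ 2 * b) ∧
          ∀ A B t M S T : ℕ, (t : ℝ) ≤ δ * N →
            ((A : ℝ) + 1) * Real.logb 2 ((M : ℝ) + B) ≤ δ * N →
            Nonempty (BRefutation F (fun f => f ∈ V ∨ HasCircuit (N ^ c) f)
              (IsSimple3 k A B t) (N ^ d) (N ^ (c + d)) M S T) →
              δ * (N : ℝ) ^ 2 ≤ Real.logb 2 ((S : ℝ) + 1) * Real.logb 2 ((T : ℝ) + 1)

end Pool.Agent.BW
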