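import Pool.Agent.Lib.BW.Defs3

/-!
# Bounded workspace, bit version: rows CORE2, SPREADC, CUBECARD, KILL2, CELLS2, FAMILY2, LAST2

Project BW (helper10). The cubes fix bits and not blocks, so a simple line is the disjunction of a
clause of any width and of a function of `δ N` variables, and the bound is
`(D + N) log₂ (S + 1) ≥ δ N ^ 2`.
-/

set_option autoImplicit false

namespace Pool.Agent.BW

open Finset Pool.Agent.SL

section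

variable {n b : ℕ}

/-- the subcube `x v = y v` for the positions `v ∈ E` -/
def Cube (E : Finset (Fin n × Fin b)) (y : Fin n → Fin b → Bool) :
    Finset (Fin n → Fin b → Bool) :=
  univ.filter fun x => ∀ v ∈ E, x v.1 v.2 = y v.1 v.2

/-- the blocks of `T` are full, every other block contains at most `f` positions of `E` -/
def Fits (f : ℕ) (T : Finset (Fin n)) (E : Finset (Fin n × Fin b)) : Prop :=
  (∀ i ∈ T, ∀ u, (i, u) ∈ E) ∧ ∀ i ∉ T, (univ.filter fun u => (i, u) ∈ E).card ≤ f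

end

/-- Row CORE2: as `Core`, for a family `𝓟` of spread sets instead of the cubes -/
def Core2 : Prop :=
  ∀ (n m : ℕ) (α : Type) [Fintype α] [DecidableEq α] [Nonempty α] (r R k t s : ℕ),
    8 ≤ n → n = m + 1 → 1 ≤ t → 2 * t ≤ m → Fintype.card α = r * R → 1 ≤ k → 4 ≤ s →
    32 * k * n ^ 2 * n ^ (2 * s) ≤ r → n ^ (s + 2) ≤ R →
    ∀ (𝓤 : Finset (Finset (Fin n → α)))
      (𝓟 : Finset (Finset (Fin n) × Finset (Fin n → α))),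
    (∀ P ∈ 𝓟, P.1.card ≤ t ∧ Spread r P.1 P.2) →
    (𝓤.card * (2 ^ n * Fintype.card (Fin n → α)) + 𝓟.card + 1) * 2 ^ n * m ^ n < 4 ^ k →
    ∃ g : Fin n → α → Fin m,
      (∀ P ∈ 𝓟, ∀ a, P.2 ⊆ Fib P.1 a → ¬ Dead g P.1 a →
        (P.2.card : ℝ) / 4 ≤ ∑ x ∈ P.2, Ker (2 * t) g x) ∧
      (∀ U ∈ 𝓤, -(6 / (n : ℝ) ^ ((s - 2) * t) * Fintype.card (Fin n → α))
        ≤ ∑ x ∈ U, Ker (2 * t) g x) ∧
      (∀ U ∈ 𝓤, ∀ i j : Fin n, ∀ a a' : α, i ≠ j → g i a = g j a' →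
        (∀ x ∈ U, x i = a ∧ x j = a') →
        ∑ x ∈ U, Ker (2 * t) g x ≤ 6 / (n : ℝ) ^ ((s - 2) * t) * Fintype.card (Fin n → α))

/-- Row SPREADC -/
def SpreadC : Prop :=
  ∀ (n b f r : ℕ) (T : Finset (Fin n)) (E : Finset (Fin n × Fin b)) (y : Fin n → Fin b → Bool),
    Fits f T E → f ≤ b → r ≤ 2 ^ (b - f) → Spread r T (Cube E y)

/-- Row CUBECARD -/
def CubeCard : Prop :=
  ∀ (n b : ℕ) (E : Finset (Fin n × Fin b)) (y : Fin n → Fin b → Bool),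
    (Cube E y).card * 2 ^ E.card = (2 ^ b) ^ n

/-- Row KILL2: few bits satisfy all wide clauses (greedy: choose the literal, in a block which has
less than `f` fixed positions, which satisfies most of the wide clauses) -/
def Kill2 : Prop :=
  ∀ (n b S s w f : ℕ) (C : Fin S → Clause (Fin n × Fin b)), 1 ≤ n → 1 ≤ b → 1 ≤ f →
    w ≤ n * b → 4 * (s * f + s * b) ≤ w * f →
    (S : ℝ) * (1 - (w : ℝ) / (4 * (n * b))) ^ s < 1 →
    ∃ (E : Finset (Fin n × Fin b)) (y : Fin n → Fin b → Bool), E.card ≤ s ∧ Fits f ∅ E ∧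
      ∀ k, w ≤ (C k).card → ∃ l ∈ C k, l.1 ∈ E ∧ y l.1.1 l.1.2 = l.2

/-- Row CELLS2: a set which depends on the positions `Pos`, inside of `Cube E0 y0`. `ι` = bit
values on `Pos` and on all the blocks with more than `f` positions in `Pos`. -/
def Cells2 : Prop :=
  ∀ (n m b : ℕ) (g : Fin n → (Fin b → Bool) → Fin m) (κ : (Fin n → Fin b → Bool) → ℝ)
    (base cl : Finset (Finset (Fin n → Fin b → Bool))) (E0 : Finset (Fin n × Fin b))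
    (y0 : Fin n → Fin b → Bool) (Pos : Finset (Fin n × Fin b))
    (W : Finset (Fin n → Fin b → Bool)) (f τ t s : ℕ) (gap : ℝ),
    1 ≤ f → Fits f ∅ E0 → E0.card ≤ s → Pos.card * (b + f) ≤ τ * f → Pos.card ≤ t * f →
    (∀ E y, Cube E y ∈ base) →
    (∀ i j a a', i ≠ j → g i a = g j a' →
      (univ.filter fun ω : Fin n → Fin b → Bool => ω i = a ∧ ω j = a') ∈ cl) →
    (∀ (T : Finset (Fin n)) (E : Finset (Fin n × Fin b)) (y : Fin n → Fin b → Bool),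
      T.card ≤ t → Fits (2 * f) T E → E.card ≤ τ + s → ¬ Dead g T y →
      gap ≤ ∑ x ∈ Cube E y, κ x) →
    (∀ x y : Fin n → Fin b → Bool, (∀ v ∈ Pos, x v.1 v.2 = y v.1 v.2) → x ∈ W → y ∈ W) →
    ∃ (ι : Type) (_ : Fintype ι) (_ : DecidableEq ι) (c : (Fin n → Fin b → Bool) → ι),
      Fintype.card ι ≤ 2 ^ τ ∧ (∀ i, (univ.filter fun x => c x = i) ∈ base) ∧
      (∀ x ∈ Cube E0 y0, ∀ y ∈ Cube E0 y0, c x = c y → x ∈ W → y ∈ W) ∧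
      ∀ i, (∀ x ∈ Cube E0 y0, c x ≠ i) ∨ (∃ C ∈ cl, ∀ x ∈ Cube E0 y0, c x = i → x ∈ C) ∨
        gap ≤ Sg κ (Cube E0 y0) [univ.filter fun x => c x = i]

/-- Row FAMILY2 -/
def Family2 : Prop :=
  ∀ (c ℓ n B N M : ℕ), 1 ≤ c → 3 ≤ ℓ → n = 2 ^ ℓ → N = n * B → M = N ^ c → 1 ≤ B → ℓ ≤ B →
    B ≤ 2 ^ ℓ → (200 * c + 600) * B ^ (c + 2) ≤ 2 ^ ℓ → ∀ Lc q : ℕ, q ≤ N →
    Lc ≤ 2 ^ M + M * ((N + M) ^ 2) ^ M →
    ((2 * (Lc + 4 ^ N) + 1) ^ (q + 8) * (2 * (n ^ 2 * (2 ^ B) ^ 2) + 1) ^ M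
      * (2 ^ n * (2 ^ B) ^ n) + 2 ^ n * 4 ^ N + 1) * 2 ^ n * (n - 1) ^ n < 4 ^ (2 ^ ((c + 2) * ℓ))

/-- Row LAST2: the statement of the hand-in -/
def Last2 : Prop :=
  ∀ c : ℕ, 1 ≤ c → ∃ (δ : ℝ) (K ℓ₀ : ℕ), 0 < δ ∧ 0 < K ∧
    ∀ ℓ n b N : ℕ, ℓ₀ ≤ ℓ → n = 2 ^ ℓ → b = K * ℓ → N = n * b →
      ∀ V : Finset ((Fin n × Fin b → Bool) → Bool), V.card ≤ 2 ^ (N ^ c) →
        ∃ F : Finset (Clause (Fin n × Fin b)),
          (∀ x, ∃ C ∈ F, ¬ Holds C x) ∧ F.card ≤ N ^ (2 * c + 40) ∧ (∀ C ∈ F, C.card ≤ 2 * b) ∧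
          ∀ t S D : ℕ, (t : ℝ) ≤ δ * N →
            Nonempty (Refutation F (fun f => f ∈ V ∨ HasCircuit (N ^ c) f) t (N ^ c) S D) →
              δ * (N : ℝ) ^ 2 ≤ ((D : ℝ) + N) * Real.logb 2 ((S : ℝ) + 1)

end Pool.Agent.BW
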