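import Pool.Agent.Lib.SL.R8b
import Pool.Agent.Lib.BW.Defs5

/-!
# The formula and the walk combined, bit version

Project BW (helper10), after `Pool.Agent.Lib.SL.R8b`.
-/

set_option autoImplicit false

namespace Pool.Agent.BW

open Finset Pool.Agent.SL

variable {n m b : ℕ}

theorem comb2 (hCore : Core2) (hSp : SpreadC) (hCC : CubeCard) (hKill : Kill2) (hMain : MainA)
    (hCells : Cells2)
    (r0 R0 k t s q r f w tv τ sk : ℕ) (hn : 8 ≤ n) (hm : n = m + 1) (hb : 1 ≤ b) (ht1 : 1 ≤ t)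
    (ht : 2 * t ≤ m)
    (hα : 2 ^ b = r0 * R0) (hk : 1 ≤ k) (hs : 4 ≤ s)
    (hkr : 32 * k * n ^ 2 * n ^ (2 * s) ≤ r0) (hR1 : n ^ (s + 2) ≤ R0)
    (hf1 : 1 ≤ f) (hf : 2 * f ≤ b) (hr0 : r0 ≤ 2 ^ (b - 2 * f)) (hw : w ≤ n * b)
    (hsk : 4 * (sk * f + sk * b) ≤ w * f) (hτ : (w + tv) * (b + f) ≤ τ * f)
    (hτt : w + tv ≤ t * f)
    (Lset : Finset (((Fin n × Fin b) → Bool) → Bool))
    (hU : ((2 * (Lset.card + 4 ^ (n * b)) + 1) ^ (q + 8) *
      (2 * (n ^ 2 * (2 ^ b) ^ 2) + 1) ^ r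
      * (2 ^ n * (2 ^ b) ^ n) + 2 ^ n * 4 ^ (n * b) + 1) * 2 ^ n * m ^ n < 4 ^ k) :
    ∃ F : Finset (Clause (Fin n × Fin b)),
      (∀ x, ∃ C ∈ F, ¬ Holds C x) ∧ F.card ≤ n ^ 2 * (2 ^ b) ^ 2 ∧ (∀ C ∈ F, C.card ≤ 2 * b) ∧
      ∀ S D P : ℕ, D ≤ P * q → (S : ℝ) * (1 - (w : ℝ) / (4 * (n * b))) ^ sk < 1 →
        Nonempty (Refutation F (fun f => f ∈ Lset) tv r S D) →
        1 / (4 * (2 : ℝ) ^ (τ + sk)) ≤
          2 * ((P + 1) * (S : ℝ) ^ (P + 1) * (2 ^ (q + 1) *
            (((2 ^ τ : ℕ) : ℝ) ^ 2 * (r + 4) * (6 / (n : ℝ) ^ ((s - 2) * t)))))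
          + 2 * (((2 ^ τ : ℕ) : ℝ) ^ 2 * (r + 4) * (6 / (n : ℝ) ^ ((s - 2) * t))) := by
  classical
  have hcα : Fintype.card (Fin b → Bool) = r0 * R0 := by
    rw [Fintype.card_fun, Fintype.card_bool, Fintype.card_fin, hα]
  have hcΩ : Fintype.card (Fin n → Fin b → Bool) = (2 ^ b) ^ n := by
    rw [Fintype.card_fun, Fintype.card_fun, Fintype.card_bool, Fintype.card_fin, Fintype.card_fin]
  have h4 : 2 ^ (n * b) * (2 ^ b) ^ n = 4 ^ (n * b) := by
    rw [← pow_mul, mul_comm b n, ← mul_pow]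
    norm_num
  let fs : (((Fin n × Fin b) → Bool) → Bool) → Finset (Fin n → Fin b → Bool) :=
    fun f => univ.filter (fun ω => f (R8x.toA ω) = false)
  let cs : (Fin n × Fin n) × ((Fin b → Bool) × (Fin b → Bool)) →
      Finset (Fin n → Fin b → Bool) :=
    fun z => univ.filter (fun ω => ω z.1.1 = z.2.1 ∧ ω z.1.2 = z.2.2)
  set cubes : Finset (Finset (Fin n → Fin b → Bool)) :=
    (univ : Finset (Finset (Fin n × Fin b) × (Fin n → Fin b → Bool))).image
      (fun p => Cube p.1 p.2) with hcubes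
  set base : Finset (Finset (Fin n → Fin b → Bool)) := Lset.image fs ∪ cubes with hbase
  set clAll : Finset (Finset (Fin n → Fin b → Bool)) := univ.image cs with hclAll
  have hcube : ∀ E y, Cube E y ∈ base := fun E y =>
    mem_union_right _ (mem_image_of_mem
      (fun p : Finset (Fin n × Fin b) × (Fin n → Fin b → Bool) => Cube p.1 p.2) (mem_univ (E, y)))
  have hbc : (base ∪ base.image compl).card + 1 ≤ 2 * (Lset.card + 4 ^ (n * b)) + 1 := by
    have e0 : cubes.card ≤ 4 ^ (n * b) := by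
      refine le_trans card_image_le ?_
      rw [card_univ, Fintype.card_prod, Fintype.card_finset, Fintype.card_prod, Fintype.card_fin,
        Fintype.card_fin, hcΩ, h4]
    have e4 : (Lset.image fs).card ≤ Lset.card := card_image_le
    have e1 : base.card ≤ Lset.card + 4 ^ (n * b) :=
      (card_union_le _ _).trans (Nat.add_le_add e4 e0)
    have e2 : (base.image compl).card ≤ base.card := card_image_le
    have e3 := card_union_le base (base.image compl)
    omega
  have hcc : (clAll ∪ clAll.image compl).card + 1 ≤ 2 * (n ^ 2 * (2 ^ b) ^ 2) + 1 := by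
    have e1 : clAll.card ≤ n ^ 2 * (2 ^ b) ^ 2 := by
      refine le_trans card_image_le ?_
      simp only [card_univ, Fintype.card_prod, Fintype.card_fin, Fintype.card_fun,
        Fintype.card_bool]
      apply le_of_eq
      ring
    have e2 : (clAll.image compl).card ≤ clAll.card := card_image_le
    have e3 := card_union_le clAll (clAll.image compl)
    omega
  obtain ⟨G1, hG1, hG1'⟩ := R8x.fam_inter (base ∪ base.image compl) (q + 8)
  obtain ⟨G2, hG2, hG2'⟩ := R8x.fam_inter (clAll ∪ clAll.image compl) r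
  set 𝓤 : Finset (Finset (Fin n → Fin b → Bool)) := Finset.image₂ (fun A B => A ∩ B) G1 G2
    with h𝓤
  have hUc : 𝓤.card ≤ (2 * (Lset.card + 4 ^ (n * b)) + 1) ^ (q + 8) *
      (2 * (n ^ 2 * (2 ^ b) ^ 2) + 1) ^ r := by
    refine le_trans (Finset.card_image₂_le _ _ _) ?_
    apply Nat.mul_le_mul
    · exact le_trans hG1 (Nat.pow_le_pow_left hbc _)
    · exact le_trans hG2 (Nat.pow_le_pow_left hcc _)
  -- the spread cubes
  set idx : Finset (Finset (Fin n) × (Finset (Fin n × Fin b) × (Fin n → Fin b → Bool))) :=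
    univ.filter (fun z => z.1.card ≤ t ∧ Fits (2 * f) z.1 z.2.1) with hidx
  set 𝓟 : Finset (Finset (Fin n) × Finset (Fin n → Fin b → Bool)) :=
    idx.image (fun z => (z.1, Cube z.2.1 z.2.2)) with h𝓟
  have hPc : 𝓟.card ≤ 2 ^ n * 4 ^ (n * b) := by
    refine le_trans card_image_le ((card_filter_le _ _).trans ?_)
    rw [card_univ, Fintype.card_prod, Fintype.card_prod, Fintype.card_finset, Fintype.card_finset,
      Fintype.card_prod, Fintype.card_fin, Fintype.card_fin, hcΩ, h4]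
  have hPs : ∀ P ∈ 𝓟, P.1.card ≤ t ∧ Spread r0 P.1 P.2 := by
    intro P hP
    rw [h𝓟, mem_image] at hP
    obtain ⟨z, hz, rfl⟩ := hP
    rw [hidx, mem_filter] at hz
    exact ⟨hz.2.1, hSp n b (2 * f) r0 z.1 z.2.1 z.2.2 hz.2.2 hf hr0⟩
  obtain ⟨g, hg1, hg2, hg3⟩ := hCore n m (Fin b → Bool)
    r0 R0 k t s hn hm ht1 ht hcα hk hs hkr hR1 𝓤 𝓟 hPs (by
      rw [hcΩ]
      refine lt_of_le_of_lt ?_ hU
      gcongr)
  set Ωc : ℝ := (Fintype.card (Fin n → Fin b → Bool) : ℝ) with hΩc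
  have hΩpos : 0 < Ωc := by
    rw [hΩc, hcΩ]; positivity
  set ε : ℝ := 6 / (n : ℝ) ^ ((s - 2) * t) with hε
  have hnpos : (0 : ℝ) < n := by
    have : 0 < n := by omega
    exact_mod_cast this
  have hε0 : 0 ≤ ε := by positivity
  refine ⟨R8x.FF g, R8x.FF_unsat (by omega) g, R8x.FF_card g, R8x.FF_width g, ?_⟩
  intro S D P hDP hSk hne
  obtain ⟨Rf⟩ := hne
  set κ : (Fin n → Fin b → Bool) → ℝ := fun ω => Ker (2 * t) g ω / Ωc with hκ
  have hκsum : ∀ U : Finset (Fin n → Fin b → Bool),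
      ∑ x ∈ U, κ x = (∑ x ∈ U, Ker (2 * t) g x) / Ωc := by
    intro U
    rw [hκ, Finset.sum_div]
  let viol : Clause (Fin n × Fin b) → Finset (Fin n → Fin b → Bool) :=
    fun C => univ.filter (fun ω => ¬ Holds C (R8x.toA ω))
  set cl : Finset (Finset (Fin n → Fin b → Bool)) := (R8x.FF g).image viol with hcl
  have hviol : ∀ i j : Fin n, ∀ a a' : Fin b → Bool,
      viol (R8x.cla i j a a') = cs ((i, j), (a, a')) := by
    intro i j a a'
    ext ω
    simp only [viol, cs, mem_filter, mem_univ, true_and]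
    rw [R8x.holds_cla, not_not]
    exact Iff.rfl
  -- elements of cl
  have hclform : ∀ C ∈ cl, ∃ i j : Fin n, ∃ a a' : Fin b → Bool, i ≠ j ∧ g i a = g j a' ∧
      C = cs ((i, j), (a, a')) := by
    intro C hC
    rw [hcl, mem_image] at hC
    obtain ⟨C', hC', rfl⟩ := hC
    unfold R8x.FF at hC'
    rw [mem_image] at hC'
    obtain ⟨z, hz, rfl⟩ := hC'
    rw [mem_filter] at hz
    exact ⟨z.1.1, z.1.2, z.2.1, z.2.2, hz.2.1, hz.2.2, hviol _ _ _ _⟩
  have hclmem : ∀ i j : Fin n, ∀ a a' : Fin b → Bool, i ≠ j → g i a = g j a' →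
      (univ.filter fun ω : Fin n → Fin b → Bool => ω i = a ∧ ω j = a') ∈ cl := by
    intro i j a a' hij hgg
    have h1 : R8x.cla i j a a' ∈ R8x.FF g := by
      unfold R8x.FF
      rw [mem_image]
      exact ⟨((i, j), (a, a')), by simp [hij, hgg], rfl⟩
    have h2 := mem_image_of_mem viol h1
    rw [hviol] at h2
    exact h2
  have hclsub : cl ⊆ clAll := by
    intro C hC
    obtain ⟨i, j, a, a', _, _, rfl⟩ := hclform C hC
    exact mem_image_of_mem _ (mem_univ _)
  have hmem1 : ∀ V : Finset (Fin n → Fin b → Bool), V ∈ base ∨ Vᶜ ∈ base →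
      V ∈ base ∪ base.image compl := by
    intro V hV
    rcases hV with hV | hV
    · exact mem_union_left _ hV
    · apply mem_union_right
      rw [mem_image]
      exact ⟨Vᶜ, hV, compl_compl V⟩
  have hmem2 : ∀ V : Finset (Fin n → Fin b → Bool), V ∈ cl ∨ Vᶜ ∈ cl →
      V ∈ clAll ∪ clAll.image compl := by
    intro V hV
    rcases hV with hV | hV
    · exact mem_union_left _ (hclsub hV)
    · apply mem_union_right
      rw [mem_image]
      exact ⟨Vᶜ, hclsub hV, compl_compl V⟩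
  have hin : ∀ h₁ h₂ : List (Finset (Fin n → Fin b → Bool)), h₁.length ≤ q + 8 →
      (∀ V ∈ h₁, V ∈ base ∨ Vᶜ ∈ base) → h₂.length ≤ r → (∀ V ∈ h₂, V ∈ cl ∨ Vᶜ ∈ cl) →
      Inter h₁ ∩ Inter h₂ ∈ 𝓤 := by
    intro h₁ h₂ hl1 hb1 hl2 hb2
    rw [h𝓤, Finset.mem_image₂]
    exact ⟨Inter h₁, hG1' h₁ hl1 (fun V hV => hmem1 V (hb1 V hV)),
      Inter h₂, hG2' h₂ hl2 (fun V hV => hmem2 V (hb2 V hV)), rfl⟩
  have hPse : R6x.Pseudo κ ε base cl (q + 8) r := by
    refine ⟨hε0, ?_, ?_⟩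
    · intro h₁ h₂ hl1 hb1 hl2 hb2
      have := hg2 _ (hin h₁ h₂ hl1 hb1 hl2 hb2)
      rw [hκsum, le_div_iff₀ hΩpos]
      linarith
    · intro h₁ h₂ hl1 hb1 hl2 hb2 C hC hsub
      obtain ⟨i, j, a, a', hij, hgg, rfl⟩ := hclform C hC
      have := hg3 _ (hin h₁ h₂ hl1 hb1 hl2 hb2) i j a a' hij hgg (by
        intro x hx
        have := hsub hx
        simpa [cs] using this)
      rw [hκsum, div_le_iff₀ hΩpos]
      exact this
  -- values of cubes
  set gap : ℝ := 1 / (4 * (2 : ℝ) ^ (τ + sk)) with hgapdef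
  have hgap : ∀ (T : Finset (Fin n)) (E : Finset (Fin n × Fin b)) (y : Fin n → Fin b → Bool),
      T.card ≤ t → Fits (2 * f) T E → E.card ≤ τ + sk → ¬ Dead g T y →
      gap ≤ ∑ x ∈ Cube E y, κ x := by
    intro T E y hT hF hE hd
    have hP : (T, Cube E y) ∈ 𝓟 := by
      rw [h𝓟, mem_image]
      exact ⟨(T, (E, y)), by rw [hidx, mem_filter]; exact ⟨mem_univ _, hT, hF⟩, rfl⟩
    have h1 := hg1 _ hP y (by
      intro x hx
      have hx' := (mem_filter.1 hx).2
      refine mem_filter.2 ⟨mem_univ _, fun i hi => ?_⟩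
      funext u
      exact hx' (i, u) (hF.1 i hi u)) hd
    rw [hκsum, le_div_iff₀ hΩpos]
    refine le_trans ?_ h1
    have hcc2 := hCC n b E y
    rw [← hcΩ] at hcc2
    have hcc3 : ((Cube E y).card : ℝ) * 2 ^ E.card = Ωc := by
      rw [hΩc, ← hcc2]
      push_cast
      rfl
    rw [← hcc3, hgapdef]
    have h2 : (2 : ℝ) ^ E.card ≤ (2 : ℝ) ^ (τ + sk) := pow_le_pow_right₀ (by norm_num) hE
    have h3 : (0 : ℝ) < (2 : ℝ) ^ (τ + sk) := by positivity
    have h5 : (0 : ℝ) ≤ ((Cube E y).card : ℝ) := Nat.cast_nonneg _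
    rw [div_mul_eq_mul_div, one_mul, div_le_div_iff₀ (by positivity) (by norm_num)]
    calc ((Cube E y).card : ℝ) * 2 ^ E.card * 4 ≤ ((Cube E y).card : ℝ) * 2 ^ (τ + sk) * 4 := by
          gcongr
      _ = _ := by ring
  -- the simple lines
  have hsl : ∀ k : Fin S, ∃ (C : Clause (Fin n × Fin b)) (T : Finset (Fin n × Fin b))
      (h : (Fin n × Fin b → Bool) → Bool), T.card ≤ tv ∧
      (∀ x y, (∀ v ∈ T, x v = y v) → h x = h y) ∧
      (k ∈ Rf.simple → ∀ x, Rf.line k x = true ↔ Holds C x ∨ h x = true) := by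
    intro k
    by_cases hk : k ∈ Rf.simple
    · obtain ⟨C, T, h, h1, h2, h3⟩ := Rf.isSimple k hk
      exact ⟨C, T, h, h1, h2, fun _ => h3⟩
    · exact ⟨∅, ∅, fun _ => false, by simp, fun _ _ _ => rfl, fun h => absurd h hk⟩
  choose Cc Tc hc hTc hdep hline using hsl
  obtain ⟨E0, y0, hE0, hF0, hkill⟩ := hKill n b S sk w f Cc (by omega) hb hf1 hw hsk hSk
  have hfsm : ∀ (k : Fin S) (x : Fin n → Fin b → Bool),
      x ∈ fs (Rf.line k) ↔ Rf.line k (R8x.toA x) = false := by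
    intro k x
    simp only [fs, mem_filter, mem_univ, true_and]
  have hR0 : Cube E0 y0 ∈ base := hcube E0 y0
  have hc0 : 1 ≤ 2 ^ τ := Nat.one_le_two_pow
  have hF0' : Fits (2 * f) ∅ E0 := ⟨hF0.1, fun i hi => (hF0.2 i hi).trans (by omega)⟩
  have hnd : ¬ Dead g ∅ y0 := by
    rintro ⟨i, hi, _⟩
    simp at hi
  obtain ⟨k₀, hk₀⟩ := Rf.last
  refine hMain (Fin n → Fin b → Bool) κ ε gap base cl r (2 ^ τ) S D q P (Cube E0 y0)
    (fun k => fs (Rf.line k)) Rf.simple Rf.rank hPse hR0 hc0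
    (fun k hk => mem_union_left _ (mem_image_of_mem _ (Rf.isLine k hk))) ?_ Rf.rank_le hDP ?_
    ⟨k₀, fun x _ => (hfsm k₀ x).2 (hk₀ _)⟩ (hgap ∅ E0 y0 (by simp) hF0' (by omega) hnd)
  · intro k hk
    by_cases hwk : w ≤ (Cc k).card
    · -- killed line
      obtain ⟨l, hl, hlE, hly⟩ := hkill k hwk
      obtain ⟨ι, i1, i2, c, h1, h2, -, h4⟩ := hCells n m b g κ base cl E0 y0 ∅ ∅ f τ t sk
        gap hf1 hF0 hE0 (by simp) (by simp) hcube hclmem hgap (fun _ _ _ h => by simp at h)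
      refine ⟨ι, i1, i2, c, h1, h2, ?_, h4⟩
      intro x hx y _ _ hxW
      exfalso
      rw [hfsm] at hxW
      have h5 : Holds (Cc k) (R8x.toA x) := by
        refine ⟨l, hl, ?_⟩
        have h6 := (mem_filter.1 hx).2 l.1 hlE
        show x l.1.1 l.1.2 = l.2
        rw [h6, hly]
      rw [(hline k hk _).2 (Or.inl h5)] at hxW
      exact absurd hxW (by simp)
    · -- local line
      set Pos : Finset (Fin n × Fin b) := (Cc k).image Prod.fst ∪ Tc k with hPos
      have hPosc : Pos.card ≤ w + tv := by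
        have e1 := card_union_le ((Cc k).image Prod.fst) (Tc k)
        have e2 : ((Cc k).image Prod.fst).card ≤ (Cc k).card := card_image_le
        have e3 := hTc k
        rw [← hPos] at e1
        omega
      have hdepW : ∀ x y : Fin n → Fin b → Bool, (∀ v ∈ Pos, x v.1 v.2 = y v.1 v.2) →
          x ∈ fs (Rf.line k) → y ∈ fs (Rf.line k) := by
        intro x y hxy hx
        rw [hfsm] at hx ⊢
        by_contra hcon
        have hcon' : Rf.line k (R8x.toA y) = true := by simpa using hcon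
        rw [hline k hk] at hcon'
        have h8 : Rf.line k (R8x.toA x) = true := by
          rw [hline k hk]
          rcases hcon' with ⟨l, hl, h9⟩ | h9
          · left
            refine ⟨l, hl, ?_⟩
            rw [← h9]
            show x l.1.1 l.1.2 = y l.1.1 l.1.2
            exact hxy l.1 (by
              rw [hPos, mem_union]
              exact Or.inl (mem_image_of_mem _ hl))
          · right
            rw [← h9]
            refine hdep k _ _ fun v hv => ?_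
            show x v.1 v.2 = y v.1 v.2
            exact hxy v (by
              rw [hPos, mem_union]
              exact Or.inr hv)
        rw [h8] at hx
        exact absurd hx (by simp)
      exact hCells n m b g κ base cl E0 y0 Pos
        (fs (Rf.line k)) f τ t sk gap hf1 hF0 hE0
        (le_trans (Nat.mul_le_mul_right _ hPosc) hτ) (hPosc.trans hτt) hcube hclmem hgap hdepW
  · intro k
    obtain ⟨R, hRF, hRc, Q, hQ, hQlt, hR, hrk⟩ := Rf.infer k
    refine ⟨R.image viol, image_subset_image hRF, le_trans card_image_le hRc, Q, hQ, hQlt, ?_,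
      hrk⟩
    intro ω _ hω
    by_contra hcon
    rw [not_or] at hcon
    obtain ⟨hc1, hc2⟩ := hcon
    rw [hfsm] at hω
    have h1 := hR (R8x.toA ω) (by
      intro C hC
      by_contra hcon
      apply hc2
      rw [mem_biUnion]
      exact ⟨viol C, mem_image_of_mem _ hC, by simp [viol, hcon]⟩) (by
      intro i hi
      by_contra hcon
      refine hc1 ⟨i, hi, ?_⟩
      rw [hfsm]
      simpa using hcon)
    rw [h1] at hω
    exact absurd hω (by simp)

end Pool.Agent.BW
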