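import Pool.Agent.Lib.BW.Defs6
import Pool.Agent.Lib.BWP.Aff

/-!
# Bounded workspace, DNF and parity version: row CELLS5

Project BW (helper10, helper70).
-/

set_option autoImplicit false

namespace Pool.Agent.BW

open Finset Pool.Agent.SL Pool.Agent.BWP

/-- Row CELLS5 (replaces `Pool.Agent.BWP.Cells3`, which is the case of a constant `Q`, and
`Cells4` of Defs6): a set which is decided inside of `Cube E0 y0` by a decision tree `Q` together
with the parities in `L`. `ι` = set of the `AffL (L x) x`, where `L x` = `L`, the singletons of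
`Q x`, and the singletons of the blocks of `T (Q x)`, `T (Q x)` from `closure` for the system
`L ∪ sing (Q x)`. `L` contains the singletons of `E0`, so every cell is contained in `Cube E0 y0`
or disjoint from it. All cells have at least `(2 ^ b) ^ n / 2 ^ τ` elements, so there are at
most `2 ^ τ` of them. -/
def Cells5 : Prop :=
  ∀ (n m b : ℕ) (g : Fin n → (Fin b → Bool) → Fin m) (κ : (Fin n → Fin b → Bool) → ℝ)
    (base cl : Finset (Finset (Fin n → Fin b → Bool))) (E0 : Finset (Fin n × Fin b))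
    (y0 : Fin n → Fin b → Bool) (Q : (Fin n → Fin b → Bool) → Finset (Fin n × Fin b))
    (L : Finset (Finset (Fin n × Fin b)))
    (W : Finset (Fin n → Fin b → Bool)) (r f τ t w : ℕ) (gap : ℝ),
    1 ≤ f → 1 ≤ r → r * 2 ^ f ≤ 2 ^ b → (∀ v ∈ E0, {v} ∈ L) →
    (∀ x, (Q x).card ≤ w) →
    (∀ x x', (∀ v ∈ Q x, x v.1 v.2 = x' v.1 v.2) → Q x' = Q x) →
    (w + L.card) * (b + f) ≤ τ * f → w + L.card ≤ t * f →
    (∀ (L' : Finset (Finset (Fin n × Fin b))) (y : Fin n → Fin b → Bool), L'.card ≤ τ →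
      AffL L' y ∈ base) →
    (∀ i j a a', i ≠ j → g i a = g j a' →
      (univ.filter fun ω : Fin n → Fin b → Bool => ω i = a ∧ ω j = a') ∈ cl) →
    (∀ (T : Finset (Fin n)) (L' : Finset (Finset (Fin n × Fin b))) (y : Fin n → Fin b → Bool),
      T.card ≤ t → L'.card ≤ τ → Spread r T (AffL L' y) → AffL L' y ⊆ Fib T y →
      ¬ Dead g T y → gap ≤ ∑ x ∈ AffL L' y, κ x) →
    (∀ x ∈ Cube E0 y0, ∀ y ∈ Cube E0 y0, (∀ v ∈ Q x, x v.1 v.2 = y v.1 v.2) →
      (∀ P ∈ L, BWP.par P (R8x.toA x) = BWP.par P (R8x.toA y)) → x ∈ W → y ∈ W) →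
    ∃ (ι : Type) (_ : Fintype ι) (_ : DecidableEq ι) (c : (Fin n → Fin b → Bool) → ι),
      Fintype.card ι ≤ 2 ^ τ ∧ (∀ i, (univ.filter fun x => c x = i) ∈ base) ∧
      (∀ x ∈ Cube E0 y0, ∀ y ∈ Cube E0 y0, c x = c y → x ∈ W → y ∈ W) ∧
      ∀ i, (∀ x ∈ Cube E0 y0, c x ≠ i) ∨ (∃ C ∈ cl, ∀ x ∈ Cube E0 y0, c x = i → x ∈ C) ∨
        gap ≤ Sg κ (Cube E0 y0) [univ.filter fun x => c x = i]

end Pool.Agent.BW
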