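import Pool.Agent.Lib.SL.R8b
import Pool.Agent.Lib.BW.Defs7
import Pool.Agent.Lib.BWP.Defs

/-!
# The formula and the walk combined, version with DNFs and parities

Project BW (helper10), after `Pool.Agent.Lib.SL.R8b`.
-/

set_option autoImplicit false

namespace Pool.Agent.BW

open Finset Pool.Agent.SL Pool.Agent.BWP

variable {n m b : ℕ}

theorem comb5 (hCore : Core2) (hSp : SpreadC) (hMain : MainA)
    (hCells : Cells5) (kD A L C : ℕ) (hKill : Kill3B kD L C)
    (r0 R0 k t s q r f Γ tv τ sk : ℕ) (hn : 8 ≤ n) (hm : n = m + 1) (hb : 1 ≤ b) (ht1 : 1 ≤ t)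
    (ht : 2 * t ≤ m)
    (hα : 2 ^ b = r0 * R0) (hk : 1 ≤ k) (hs : 4 ≤ s)
    (hkr : 32 * k * n ^ 2 * n ^ (2 * s) ≤ r0) (hR1 : n ^ (s + 2) ≤ R0)
    (hf1 : 1 ≤ f) (hfb : f ≤ b) (hr0 : r0 * 2 ^ f ≤ 2 ^ b)
    (hsk : 8 * (n * b) ≤ sk * L) (hL : 4 * n * 2 ^ b * 2 ^ f ≤ L ^ f)
    (hτ : (A * (C * Γ) + (sk + tv)) * (b + f) ≤ τ * f)
    (hτt : A * (C * Γ) + (sk + tv) ≤ t * f) (hτN : τ ≤ n * b)
    (Lset : Finset (((Fin n × Fin b) → Bool) → Bool))
    (hU : ((2 * (Lset.card + 2 ^ ((n * b) * (n * b) + n * b)) + 1) ^ (q + 8) *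
      (2 * (n ^ 2 * (2 ^ b) ^ 2) + 1) ^ r
      * (2 ^ n * (2 ^ b) ^ n) + 2 ^ n * 2 ^ ((n * b) * (n * b) + n * b) + 1) * 2 ^ n * m ^ n
      < 4 ^ k) :
    ∃ F : Finset (Clause (Fin n × Fin b)),
      (∀ x, ∃ C ∈ F, ¬ Holds C x) ∧ F.card ≤ n ^ 2 * (2 ^ b) ^ 2 ∧ (∀ C ∈ F, C.card ≤ 2 * b) ∧
      ∀ S D P : ℕ, D ≤ P * q → 2 * (S * A) * kD < 2 ^ Γ →
        Nonempty (WRefutation F (IsSimple2 kD A tv) (fun f => f ∈ Lset) r S D) →
        1 / (4 * (2 : ℝ) ^ τ) ≤
          2 * ((P + 1) * (S : ℝ) ^ (P + 1) * (2 ^ (q + 1) *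
            (((2 ^ τ : ℕ) : ℝ) ^ 2 * (r + 4) * (6 / (n : ℝ) ^ ((s - 2) * t)))))
          + 2 * (((2 ^ τ : ℕ) : ℝ) ^ 2 * (r + 4) * (6 / (n : ℝ) ^ ((s - 2) * t))) := by
  classical
  have hcα : Fintype.card (Fin b → Bool) = r0 * R0 := by
    rw [Fintype.card_fun, Fintype.card_bool, Fintype.card_fin, hα]
  have hcΩ : Fintype.card (Fin n → Fin b → Bool) = (2 ^ b) ^ n := by
    rw [Fintype.card_fun, Fintype.card_fun, Fintype.card_bool, Fintype.card_fin, Fintype.card_fin]
  have h4 : Fintype.card ((Fin (n * b) → Finset (Fin n × Fin b)) × (Fin n → Fin b → Bool)) =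
      2 ^ ((n * b) * (n * b) + n * b) := by
    rw [Fintype.card_prod, Fintype.card_fun, Fintype.card_finset, Fintype.card_prod,
      Fintype.card_fin, Fintype.card_fin, Fintype.card_fin, hcΩ, pow_add, ← pow_mul, ← pow_mul,
      mul_comm b n]
  let fs : (((Fin n × Fin b) → Bool) → Bool) → Finset (Fin n → Fin b → Bool) :=
    fun f => univ.filter (fun ω => f (R8x.toA ω) = false)
  let cs : (Fin n × Fin n) × ((Fin b → Bool) × (Fin b → Bool)) →
      Finset (Fin n → Fin b → Bool) :=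
    fun z => univ.filter (fun ω => ω z.1.1 = z.2.1 ∧ ω z.1.2 = z.2.2)
  set affs : Finset (Finset (Fin n → Fin b → Bool)) :=
    (univ : Finset ((Fin (n * b) → Finset (Fin n × Fin b)) × (Fin n → Fin b → Bool))).image
      (fun p => AffL (univ.image p.1) p.2) with haffs
  set base : Finset (Finset (Fin n → Fin b → Bool)) := Lset.image fs ∪ affs with hbase
  set clAll : Finset (Finset (Fin n → Fin b → Bool)) := univ.image cs with hclAll
  have hnb1 : 1 ≤ n * b := Nat.mul_pos (by omega) (by omega)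
  have haff : ∀ (L' : Finset (Finset (Fin n × Fin b))) (y : Fin n → Fin b → Bool),
      L'.card ≤ τ → AffL L' y ∈ base := by
    intro L' y hL'
    obtain ⟨R, hR⟩ := code L' (n * b) (hL'.trans hτN) hnb1
    refine mem_union_right _ ?_
    rw [haffs, mem_image]
    exact ⟨(R, y), mem_univ _, (hR y).symm⟩
  have hbc : (base ∪ base.image compl).card + 1 ≤
      2 * (Lset.card + 2 ^ ((n * b) * (n * b) + n * b)) + 1 := by
    have e0 : affs.card ≤ 2 ^ ((n * b) * (n * b) + n * b) := by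
      refine le_trans card_image_le ?_
      rw [card_univ, h4]
    have e4 : (Lset.image fs).card ≤ Lset.card := card_image_le
    have e1 : base.card ≤ Lset.card + 2 ^ ((n * b) * (n * b) + n * b) :=
      (card_union_le _ _).trans (Nat.add_le_add e4 e0)
    have e2 : (base.image compl).card ≤ base.card := card_image_le
    have e3 := card_union_le base (base.image compl)
    omega
  have hcc : (clAll ∪ clAll.image compl).card + 1 ≤ 2 * (n ^ 2 * (2 ^ b) ^ 2) + 1 := by
    have e1 : clAll.card ≤ n ^ 2 * (2 ^ b) ^ 2 := by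
      refine le_trans card_image_le ?_
      simp only [card_univ, Fintype.card_prod, Fintype.card_fin, Fintype.card_fun,
        Fintype.card_bool]
      apply le_of_eq
      ring
    have e2 : (clAll.image compl).card ≤ clAll.card := card_image_le
    have e3 := card_union_le clAll (clAll.image compl)
    omega
  obtain ⟨G1, hG1, hG1'⟩ := R8x.fam_inter (base ∪ base.image compl) (q + 8)
  obtain ⟨G2, hG2, hG2'⟩ := R8x.fam_inter (clAll ∪ clAll.image compl) r
  set 𝓤 : Finset (Finset (Fin n → Fin b → Bool)) := Finset.image₂ (fun A B => A ∩ B) G1 G2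
    with h𝓤
  have hUc : 𝓤.card ≤ (2 * (Lset.card + 2 ^ ((n * b) * (n * b) + n * b)) + 1) ^ (q + 8) *
      (2 * (n ^ 2 * (2 ^ b) ^ 2) + 1) ^ r := by
    refine le_trans (Finset.card_image₂_le _ _ _) ?_
    apply Nat.mul_le_mul
    · exact le_trans hG1 (Nat.pow_le_pow_left hbc _)
    · exact le_trans hG2 (Nat.pow_le_pow_left hcc _)
  -- the spread affine sets
  set idx : Finset (Finset (Fin n) ×
      ((Fin (n * b) → Finset (Fin n × Fin b)) × (Fin n → Fin b → Bool))) :=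
    univ.filter (fun z => z.1.card ≤ t ∧ Spread r0 z.1 (AffL (univ.image z.2.1) z.2.2))
    with hidx
  set 𝓟 : Finset (Finset (Fin n) × Finset (Fin n → Fin b → Bool)) :=
    idx.image (fun z => (z.1, AffL (univ.image z.2.1) z.2.2)) with h𝓟
  have hPc : 𝓟.card ≤ 2 ^ n * 2 ^ ((n * b) * (n * b) + n * b) := by
    refine le_trans card_image_le ((card_filter_le _ _).trans ?_)
    rw [card_univ, Fintype.card_prod, h4, Fintype.card_finset, Fintype.card_fin]
  have hPs : ∀ P ∈ 𝓟, P.1.card ≤ t ∧ Spread r0 P.1 P.2 := by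
    intro P hP
    rw [h𝓟, mem_image] at hP
    obtain ⟨z, hz, rfl⟩ := hP
    rw [hidx, mem_filter] at hz
    exact hz.2
  obtain ⟨g, hg1, hg2, hg3⟩ := hCore n m (Fin b → Bool)
    r0 R0 k t s hn hm ht1 ht hcα hk hs hkr hR1 𝓤 𝓟 hPs (by
      rw [hcΩ]
      refine lt_of_le_of_lt ?_ hU
      gcongr)
  set Ωc : ℝ := (Fintype.card (Fin n → Fin b → Bool) : ℝ) with hΩc
  have hΩpos : 0 < Ωc := by
    rw [hΩc, hcΩ]; positivity
  set ε : ℝ := 6 / (n : ℝ) ^ ((s - 2) * t) with hε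
  have hnpos : (0 : ℝ) < n := by
    have : 0 < n := by omega
    exact_mod_cast this
  have hε0 : 0 ≤ ε := by positivity
  refine ⟨R8x.FF g, R8x.FF_unsat (by omega) g, R8x.FF_card g, R8x.FF_width g, ?_⟩
  intro S D P hDP hSk hne
  obtain ⟨Rf⟩ := hne
  set κ : (Fin n → Fin b → Bool) → ℝ := fun ω => Ker (2 * t) g ω / Ωc with hκ
  have hκsum : ∀ U : Finset (Fin n → Fin b → Bool),
      ∑ x ∈ U, κ x = (∑ x ∈ U, Ker (2 * t) g x) / Ωc := by
    intro U
    rw [hκ, Finset.sum_div]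
  let viol : Clause (Fin n × Fin b) → Finset (Fin n → Fin b → Bool) :=
    fun C => univ.filter (fun ω => ¬ Holds C (R8x.toA ω))
  set cl : Finset (Finset (Fin n → Fin b → Bool)) := (R8x.FF g).image viol with hcl
  have hviol : ∀ i j : Fin n, ∀ a a' : Fin b → Bool,
      viol (R8x.cla i j a a') = cs ((i, j), (a, a')) := by
    intro i j a a'
    ext ω
    simp only [viol, cs, mem_filter, mem_univ, true_and]
    rw [R8x.holds_cla, not_not]
    exact Iff.rfl
  -- elements of cl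
  have hclform : ∀ C ∈ cl, ∃ i j : Fin n, ∃ a a' : Fin b → Bool, i ≠ j ∧ g i a = g j a' ∧
      C = cs ((i, j), (a, a')) := by
    intro C hC
    rw [hcl, mem_image] at hC
    obtain ⟨C', hC', rfl⟩ := hC
    unfold R8x.FF at hC'
    rw [mem_image] at hC'
    obtain ⟨z, hz, rfl⟩ := hC'
    rw [mem_filter] at hz
    exact ⟨z.1.1, z.1.2, z.2.1, z.2.2, hz.2.1, hz.2.2, hviol _ _ _ _⟩
  have hclmem : ∀ i j : Fin n, ∀ a a' : Fin b → Bool, i ≠ j → g i a = g j a' →
      (univ.filter fun ω : Fin n → Fin b → Bool => ω i = a ∧ ω j = a') ∈ cl := by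
    intro i j a a' hij hgg
    have h1 : R8x.cla i j a a' ∈ R8x.FF g := by
      unfold R8x.FF
      rw [mem_image]
      exact ⟨((i, j), (a, a')), by simp [hij, hgg], rfl⟩
    have h2 := mem_image_of_mem viol h1
    rw [hviol] at h2
    exact h2
  have hclsub : cl ⊆ clAll := by
    intro C hC
    obtain ⟨i, j, a, a', _, _, rfl⟩ := hclform C hC
    exact mem_image_of_mem _ (mem_univ _)
  have hmem1 : ∀ V : Finset (Fin n → Fin b → Bool), V ∈ base ∨ Vᶜ ∈ base →
      V ∈ base ∪ base.image compl := by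
    intro V hV
    rcases hV with hV | hV
    · exact mem_union_left _ hV
    · apply mem_union_right
      rw [mem_image]
      exact ⟨Vᶜ, hV, compl_compl V⟩
  have hmem2 : ∀ V : Finset (Fin n → Fin b → Bool), V ∈ cl ∨ Vᶜ ∈ cl →
      V ∈ clAll ∪ clAll.image compl := by
    intro V hV
    rcases hV with hV | hV
    · exact mem_union_left _ (hclsub hV)
    · apply mem_union_right
      rw [mem_image]
      exact ⟨Vᶜ, hclsub hV, compl_compl V⟩
  have hin : ∀ h₁ h₂ : List (Finset (Fin n → Fin b → Bool)), h₁.length ≤ q + 8 →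
      (∀ V ∈ h₁, V ∈ base ∨ Vᶜ ∈ base) → h₂.length ≤ r → (∀ V ∈ h₂, V ∈ cl ∨ Vᶜ ∈ cl) →
      Inter h₁ ∩ Inter h₂ ∈ 𝓤 := by
    intro h₁ h₂ hl1 hb1 hl2 hb2
    rw [h𝓤, Finset.mem_image₂]
    exact ⟨Inter h₁, hG1' h₁ hl1 (fun V hV => hmem1 V (hb1 V hV)),
      Inter h₂, hG2' h₂ hl2 (fun V hV => hmem2 V (hb2 V hV)), rfl⟩
  have hPse : R6x.Pseudo κ ε base cl (q + 8) r := by
    refine ⟨hε0, ?_, ?_⟩
    · intro h₁ h₂ hl1 hb1 hl2 hb2
      have := hg2 _ (hin h₁ h₂ hl1 hb1 hl2 hb2)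
      rw [hκsum, le_div_iff₀ hΩpos]
      linarith
    · intro h₁ h₂ hl1 hb1 hl2 hb2 C hC hsub
      obtain ⟨i, j, a, a', hij, hgg, rfl⟩ := hclform C hC
      have := hg3 _ (hin h₁ h₂ hl1 hb1 hl2 hb2) i j a a' hij hgg (by
        intro x hx
        have := hsub hx
        simpa [cs] using this)
      rw [hκsum, div_le_iff₀ hΩpos]
      exact this
  -- values of the affine sets
  set gap : ℝ := 1 / (4 * (2 : ℝ) ^ τ) with hgapdef
  have hgap : ∀ (T : Finset (Fin n)) (L' : Finset (Finset (Fin n × Fin b)))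
      (y : Fin n → Fin b → Bool), T.card ≤ t → L'.card ≤ τ → Spread r0 T (AffL L' y) →
      AffL L' y ⊆ Fib T y → ¬ Dead g T y → gap ≤ ∑ x ∈ AffL L' y, κ x := by
    intro T L' y hT hL' hsp hsub hd
    have hP : (T, AffL L' y) ∈ 𝓟 := by
      obtain ⟨R, hR⟩ := code L' (n * b) (hL'.trans hτN) hnb1
      rw [hR y] at hsp ⊢
      rw [h𝓟, mem_image]
      exact ⟨(T, (R, y)), by rw [hidx, mem_filter]; exact ⟨mem_univ _, hT, hsp⟩, rfl⟩
    have h1 := hg1 _ hP y hsub hd
    rw [hκsum, le_div_iff₀ hΩpos]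
    refine le_trans ?_ h1
    have hcc2 := aff_card_lower L' y
    rw [← hcΩ] at hcc2
    have hcc3 : Ωc ≤ ((AffL L' y).card : ℝ) * 2 ^ L'.card := by
      rw [hΩc]
      exact_mod_cast hcc2
    have h2 : (2 : ℝ) ^ L'.card ≤ (2 : ℝ) ^ τ := pow_le_pow_right₀ (by norm_num) hL'
    have h3 : (0 : ℝ) < (2 : ℝ) ^ τ := by positivity
    have h5 : (0 : ℝ) ≤ ((AffL L' y).card : ℝ) := Nat.cast_nonneg _
    rw [hgapdef, div_mul_eq_mul_div, one_mul, div_le_div_iff₀ (by positivity) (by norm_num)]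
    calc Ωc * 4 ≤ ((AffL L' y).card : ℝ) * 2 ^ L'.card * 4 := by gcongr
      _ ≤ ((AffL L' y).card : ℝ) * 2 ^ τ * 4 := by gcongr
      _ = _ := by ring
  -- the simple lines
  have hsl : ∀ k : Fin S, ∃ (g' : Fin A → (Fin n × Fin b → Bool) → Bool)
      (Pk : Fin tv → Finset (Fin n × Fin b)) (h : (Fin A → Bool) → (Fin tv → Bool) → Bool),
      (∀ i, IsDnf kD (g' i)) ∧
      (k ∈ Rf.simple → ∀ x, Rf.line k x = h (fun i => g' i x) (fun j => BW.par (Pk j) x)) := by
    intro k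
    by_cases hk : k ∈ Rf.simple
    · obtain ⟨g', Pk, h, h1, h2⟩ := Rf.isSimple k hk
      exact ⟨g', Pk, h, h1, fun _ => h2⟩
    · exact ⟨fun _ _ => false, fun _ => ∅, fun _ _ => false,
        fun _ => ⟨∅, by simp, by simp⟩, fun h => absurd h hk⟩
  choose gk Pk hk' hdnf hline using hsl
  obtain ⟨E0, y0, hE0, hF0, hkill⟩ := hKill n b sk f Γ (Fin S × Fin A) (fun z => gk z.1 z.2)
    (fun z => hdnf z.1 z.2) (by omega) hb hsk hL (by
      rw [Fintype.card_prod, Fintype.card_fin, Fintype.card_fin]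
      exact hSk)
  choose Qk hQc hQt hQl using hkill
  have hfsm : ∀ (k : Fin S) (x : Fin n → Fin b → Bool),
      x ∈ fs (Rf.line k) ↔ Rf.line k (R8x.toA x) = false := by
    intro k x
    simp only [fs, mem_filter, mem_univ, true_and]
  have hskτ : sk ≤ τ := by
    have h1 : sk * f ≤ τ * f := by
      refine le_trans ?_ hτ
      calc sk * f ≤ (A * (C * Γ) + (sk + tv)) * f := Nat.mul_le_mul_right _ (by omega)
        _ ≤ _ := Nat.mul_le_mul_left _ (by omega)
    exact Nat.le_of_mul_le_mul_right h1 (by omega)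
  have hcubeAff : Cube E0 y0 = AffL (sing E0) y0 := by
    ext x
    have h1 := mem_AffL_sing (L := ∅) (E := E0) (x := x) (y := y0)
    rw [empty_union] at h1
    rw [h1]
    simp [Cube]
  have hsing : (sing E0).card ≤ τ := (sing_card E0).trans (hE0.trans hskτ)
  have hR0 : Cube E0 y0 ∈ base := by
    rw [hcubeAff]
    exact haff _ _ hsing
  have hc0 : 1 ≤ 2 ^ τ := Nat.one_le_two_pow
  have hspR0 : Spread r0 ∅ (Cube E0 y0) := by
    refine hSp n b f r0 ∅ E0 y0 hF0 hfb ?_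
    have h1 : r0 * 2 ^ f ≤ 2 ^ (b - f) * 2 ^ f := by
      rw [← pow_add, Nat.sub_add_cancel hfb]
      exact hr0
    exact Nat.le_of_mul_le_mul_right h1 (by positivity)
  have hnd : ¬ Dead g ∅ y0 := by
    rintro ⟨i, hi, _⟩
    simp at hi
  obtain ⟨k₀, hk₀⟩ := Rf.last
  refine hMain (Fin n → Fin b → Bool) κ ε gap base cl r (2 ^ τ) S D q P (Cube E0 y0)
    (fun k => fs (Rf.line k)) Rf.simple Rf.rank hPse hR0 hc0
    (fun k hk => mem_union_left _ (mem_image_of_mem _ (Rf.isComplex k hk))) ?_ Rf.rank_le hDP ?_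
    ⟨k₀, fun x _ => (hfsm k₀ x).2 (hk₀ _)⟩ (by
      rw [hcubeAff] at hspR0 ⊢
      exact hgap ∅ (sing E0) y0 (by simp) hsing hspR0
        (fun x _ => mem_filter.2 ⟨mem_univ _, fun i hi => by simp at hi⟩) hnd)
  · intro k hk
    set Lk : Finset (Finset (Fin n × Fin b)) := sing E0 ∪ univ.image (Pk k) with hLk
    have hLkc : Lk.card ≤ sk + tv := by
      have e1 := card_union_le (sing E0) (univ.image (Pk k))
      have e2 : (univ.image (Pk k)).card ≤ tv := card_image_le.trans (by simp)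
      have e3 := sing_card E0
      rw [← hLk] at e1
      omega
    refine hCells n m b g κ base cl E0 y0 (fun x => univ.biUnion fun i : Fin A => Qk (k, i) x)
      Lk (fs (Rf.line k)) r0 f τ t (A * (C * Γ)) gap hf1 ?_ hr0 ?_ ?_ ?_ ?_ ?_ haff hclmem hgap ?_
    · have : 0 < 2 ^ b := by positivity
      rw [hα] at this
      rcases Nat.eq_zero_or_pos r0 with h | h
      · rw [h, zero_mul] at this
        omega
      · exact h
    · intro v hv
      rw [hLk]
      exact mem_union_left _ (mem_image_of_mem _ hv)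
    · intro x
      refine card_biUnion_le.trans ?_
      calc ∑ i : Fin A, (Qk (k, i) x).card ≤ ∑ _i : Fin A, C * Γ :=
            sum_le_sum fun i _ => hQc (k, i) x
        _ = A * (C * Γ) := by rw [sum_const, smul_eq_mul, card_univ, Fintype.card_fin]
    · intro x x' hxx'
      refine biUnion_congr rfl fun i _ => ?_
      exact hQt (k, i) x x' fun v hv => hxx' v (mem_biUnion.2 ⟨i, mem_univ _, hv⟩)
    · exact le_trans (Nat.mul_le_mul_right _ (Nat.add_le_add_left hLkc _)) hτ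
    · exact le_trans (Nat.add_le_add_left hLkc _) hτt
    · intro x hx y hy hxy hpar hxW
      rw [hfsm] at hxW ⊢
      rw [← hxW, hline k hk, hline k hk]
      congr 1
      · funext i
        exact (hQl (k, i) x hx y hy fun v hv => hxy v (mem_biUnion.2 ⟨i, mem_univ _, hv⟩)).symm
      · funext j
        exact (hpar (Pk k j) (by
          rw [hLk]
          exact mem_union_right _ (mem_image_of_mem _ (mem_univ j)))).symm
  · intro k
    obtain ⟨R, hRF, hRc, Q, hQ, hQlt, hR, hrk⟩ := Rf.infer k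
    refine ⟨R.image viol, image_subset_image hRF, le_trans card_image_le hRc, Q, hQ, hQlt, ?_,
      hrk⟩
    intro ω _ hω
    by_contra hcon
    rw [not_or] at hcon
    obtain ⟨hc1, hc2⟩ := hcon
    rw [hfsm] at hω
    have h1 := hR (R8x.toA ω) (by
      intro C hC
      by_contra hcon
      apply hc2
      rw [mem_biUnion]
      exact ⟨viol C, mem_image_of_mem _ hC, by simp [viol, hcon]⟩) (by
      intro i hi
      by_contra hcon
      refine hc1 ⟨i, hi, ?_⟩
      rw [hfsm]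
      simpa using hcon)
    rw [h1] at hω
    exact absurd hω (by simp)

end Pool.Agent.BW
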