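import Pool.Agent.Lib.BW.Model2

/-!
# Dag size against tree size (MP_e81270_lc): the definition of a refutation

Project BW (helper10). Circuits, clauses: `Pool.Agent.Lib.SL.Model`; simple lines:
`Pool.Agent.Lib.BW.Model2`.
-/

set_option autoImplicit false

namespace Pool.Agent.BW

open Pool.Agent.SL

/-- A refutation of the CNF `F` with `M` lines. The lines are Boolean functions; the lines in the
set `simple` satisfy `Simple`, the at most `S` other lines, the complex lines, satisfy `Complex`.
One line is constantly false, and every line is implied by at most two earlier lines together with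
at most `r` clauses of `F`. For a complex line, `size` is greater than the sum of the `size` of
its complex premises. So `T` bounds, for every complex line, the number of nodes of the tree which
one obtains by unfolding the derivation of this line, where simple lines are not unfolded. -/
structure SRefutation {ν : Type} (F : Finset (Clause ν))
    (Simple Complex : ((ν → Bool) → Bool) → Prop) (r M S T : ℕ) where
  line : Fin M → (ν → Bool) → Bool
  simple : Finset (Fin M)
  isSimple : ∀ k ∈ simple, Simple (line k)
  isComplex : ∀ k ∉ simple, Complex (line k)
  complex_card : simpleᶜ.card ≤ S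
  size : Fin M → ℕ
  size_le : ∀ k ∉ simple, size k ≤ T
  last : ∃ k, ∀ x, line k x = false
  infer : ∀ k, ∃ R ⊆ F, R.card ≤ r ∧ ∃ P : Finset (Fin M), P.card ≤ 2 ∧ (∀ i ∈ P, i < k) ∧
    (∀ x, (∀ C ∈ R, Holds C x) → (∀ i ∈ P, line i x = true) → line k x = true) ∧
    (k ∉ simple → ∑ i ∈ P \ simple, size i < size k)

end Pool.Agent.BW
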