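import Pool.Agent.Lib.BW.Defs7
import Pool.Agent.Lib.BWP.Defs
import Pool.Agent.Lib.BW.Model4

/-!
# Dag size against tree size: rows WALKS, MAINS, LAST7

Project BW (helper10).
-/

set_option autoImplicit false

namespace Pool.Agent.BW

open Finset Pool.Agent.SL

open Classical in
/-- Row WALKS: as `WalkT`, `Sc` bounds the number of active lines -/
def WalkS : Prop :=
  ∀ (Ω : Type) [Fintype Ω] [DecidableEq Ω] (κ : Ω → ℝ) (ε E : ℝ) (base : Finset (Finset Ω))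
    (R0 : Finset Ω) (S Sc T q P j : ℕ) (W : Fin S → Finset Ω) (act : Fin S → Prop)
    (size : Fin S → ℕ),
    0 ≤ ε → 0 ≤ E → (∀ k, act k → W k ∈ base) →
    (∀ h : List (Finset Ω), h.length ≤ j + 4 → R6x.Adm base h → -ε ≤ Sg κ R0 h) →
    (univ.filter fun k => act k).card ≤ Sc →
    (∀ k, act k → size k ≤ T) → T ≤ 2 ^ (q * P) → 3 * S * 2 ^ q * 3 ^ j ≤ 4 ^ j →
    (∀ k, act k →
      (1 ≤ size k ∧
        ∀ h : List (Finset Ω), h.length ≤ j → R6x.Adm base h → Sg κ R0 (W k :: h) ≤ E) ∨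
      (∃ i, i < k ∧ act i ∧ size i + 1 ≤ size k ∧
        ∀ h : List (Finset Ω), h.length ≤ j → R6x.Adm base h →
          Sg κ R0 (W k :: h) ≤ Sg κ R0 (W i :: h) + E) ∨
      (∃ i i', i < k ∧ i' < k ∧ act i ∧ act i' ∧ size i + size i' + 1 ≤ size k ∧
        ∀ h : List (Finset Ω), h.length ≤ j → R6x.Adm base h →
          Sg κ R0 (W k :: h) ≤ Sg κ R0 (W i :: h) + Sg κ R0 (W i' :: (W i)ᶜ :: h) + E)) →
    ∀ k, act k → Sg κ R0 [W k] ≤ (P + 1) * (Sc : ℝ) ^ (P + 1) * (2 ^ (j + 2) * (E + ε))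

/-- Row MAINS: as `MainT` -/
def MainS : Prop :=
  ∀ (Ω : Type) [Fintype Ω] [DecidableEq Ω] (κ : Ω → ℝ) (ε gap : ℝ)
    (base cl : Finset (Finset Ω)) (r c0 S Sc T q P j : ℕ) (R0 : Finset Ω) (W : Fin S → Finset Ω)
    (simple : Finset (Fin S)) (size : Fin S → ℕ),
    R6x.Pseudo κ ε base cl (j + 8) r → R0 ∈ base → 1 ≤ c0 →
    (∀ k ∉ simple, W k ∈ base) →
    (∀ k ∈ simple, ∃ (ι : Type) (_ : Fintype ι) (_ : DecidableEq ι) (c : Ω → ι),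
      Fintype.card ι ≤ c0 ∧ (∀ i, (univ.filter fun x => c x = i) ∈ base) ∧
      (∀ x ∈ R0, ∀ y ∈ R0, c x = c y → x ∈ W k → y ∈ W k) ∧
      ∀ i, (∀ x ∈ R0, c x ≠ i) ∨ (∃ C ∈ cl, ∀ x ∈ R0, c x = i → x ∈ C) ∨
        gap ≤ Sg κ R0 [univ.filter fun x => c x = i]) →
    simpleᶜ.card ≤ Sc →
    (∀ k ∉ simple, size k ≤ T) → T ≤ 2 ^ (q * P) → 3 * S * 2 ^ q * 3 ^ j ≤ 4 ^ j →
    (∀ k, ∃ R ⊆ cl, R.card ≤ r ∧ ∃ Q : Finset (Fin S), Q.card ≤ 2 ∧ (∀ i ∈ Q, i < k) ∧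
      (∀ x ∈ R0, x ∈ W k → (∃ i ∈ Q, x ∈ W i) ∨ x ∈ R.biUnion id) ∧
      (k ∉ simple → ∑ i ∈ Q \ simple, size i < size k)) →
    (∃ k, ∀ x ∈ R0, x ∈ W k) → gap ≤ ∑ x ∈ R0, κ x →
    gap ≤ 2 * ((P + 1) * (Sc : ℝ) ^ (P + 1) * (2 ^ (j + 2) * (c0 ^ 2 * (r + 4) * ε)))
      + 2 * (c0 ^ 2 * (r + 4) * ε)

/-- Row LAST7: the statement of the hand-in -/
def Last7 : Prop :=
  ∀ c k A : ℕ, 2 ≤ c → ∃ (δ : ℝ) (K ℓ₀ : ℕ), 0 < δ ∧ 0 < K ∧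
    ∀ ℓ n b N : ℕ, ℓ₀ ≤ ℓ → n = 2 ^ ℓ → b = K * ℓ → N = n * b →
      ∀ V : Finset ((Fin n × Fin b → Bool) → Bool), V.card ≤ 2 ^ (N ^ c) →
        ∃ F : Finset (Clause (Fin n × Fin b)),
          (∀ x, ∃ C ∈ F, ¬ Holds C x) ∧ F.card ≤ N ^ (2 * c + 40) ∧ (∀ C ∈ F, C.card ≤ 2 * b) ∧
          ∀ t M S T : ℕ, (t : ℝ) ≤ δ * N → (M : ℝ) < 2 ^ (δ * N) →
            Nonempty (SRefutation F (IsSimple2 k A t) (fun f => f ∈ V ∨ HasCircuit (N ^ c) f)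
              (N ^ c) M S T) →
              δ * (N : ℝ) ^ 2 ≤ Real.logb 2 ((S : ℝ) + 1) * Real.logb 2 ((T : ℝ) + 1)

end Pool.Agent.BW
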