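import Pool.Agent.Lib.BW.Defs10

/-!
# Short derivations of complex lines are single inferences

Project BW (helper10).
-/

set_option autoImplicit false

namespace Pool.Agent.BW

open Finset Pool.Agent.SL

theorem mono_pr {ν : Type} {F : Finset (Clause ν)} {Line Simple : ((ν → Bool) → Bool) → Prop}
    {p r M S T : ℕ} (Rf : BRefutation F Line Simple p r M S T) (q q' : ℕ) (hp : p ≤ q)
    (hr : r ≤ q') : Nonempty (BRefutation F Line Simple q q' M S T) := by
  refine ⟨⟨Rf.line, Rf.isLine, Rf.simple, Rf.isSimple, Rf.anc, Rf.anc_card, Rf.size, Rf.size_le,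
    Rf.last, fun k => ?_⟩⟩
  obtain ⟨R, h1, h2, P, h3, h4⟩ := Rf.infer k
  exact ⟨R, h1, h2.trans hr, P, h3.trans hp, h4⟩

theorem compress {ν : Type} {F : Finset (Clause ν)} {Line Simple : ((ν → Bool) → Bool) → Prop}
    {p r M S T : ℕ} (Rf : BRefutation F Line Simple p r M S T) (q q' : ℕ)
    (hp : p * (S + 1) ≤ q) (hr : r * (S + 1) ≤ q') :
    Nonempty (BRefutation F Line Simple q q' M 0 1) := by
  classical
  choose R hRF hRc P hPc hPlt hPi hPa using Rf.infer
  have hpq : p ≤ q := le_trans (Nat.le_mul_of_pos_right _ (by omega)) hp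
  have hrq : r ≤ q' := le_trans (Nat.le_mul_of_pos_right _ (by omega)) hr
  refine ⟨⟨Rf.line, Rf.isLine, Rf.simple, Rf.isSimple, fun _ => ∅, fun _ _ => by simp,
    fun _ => 1, fun _ _ => le_refl 1, Rf.last, fun k => ?_⟩⟩
  by_cases hk : k ∈ Rf.simple
  · exact ⟨R k, hRF k, (hRc k).trans hrq, P k, (hPc k).trans hpq, hPlt k, hPi k,
      fun h => absurd hk h⟩
  -- the complex lines in the derivation of `k`
  obtain ⟨D, hD⟩ : ∃ D : Finset (Fin M),
      D = (insert k (Rf.anc k)).filter (fun i => i ≤ k) := ⟨_, rfl⟩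
  have hDc : D.card ≤ S + 1 := by
    rw [hD]
    refine (card_filter_le _ _).trans ((card_insert_le _ _).trans ?_)
    have := Rf.anc_card k hk
    omega
  have hDk : ∀ i ∈ D, i ≤ k := fun i hi => by
    rw [hD] at hi
    exact (mem_filter.1 hi).2
  refine ⟨D.biUnion R, ?_, ?_, (D.biUnion P) ∩ Rf.simple, ?_, ?_, ?_, fun _ => ⟨?_, ?_⟩⟩
  · intro C hC
    obtain ⟨i, _, hi⟩ := mem_biUnion.1 hC
    exact hRF i hi
  · refine card_biUnion_le.trans ?_
    calc ∑ i ∈ D, (R i).card ≤ ∑ _i ∈ D, r := sum_le_sum fun i _ => hRc i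
      _ = D.card * r := by rw [sum_const, smul_eq_mul]
      _ ≤ (S + 1) * r := Nat.mul_le_mul_right _ hDc
      _ = r * (S + 1) := Nat.mul_comm _ _
      _ ≤ q' := hr
  · refine (card_le_card inter_subset_left).trans (card_biUnion_le.trans ?_)
    calc ∑ i ∈ D, (P i).card ≤ ∑ _i ∈ D, p := sum_le_sum fun i _ => hPc i
      _ = D.card * p := by rw [sum_const, smul_eq_mul]
      _ ≤ (S + 1) * p := Nat.mul_le_mul_right _ hDc
      _ = p * (S + 1) := Nat.mul_comm _ _
      _ ≤ q := hp
  · intro i hi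
    obtain ⟨a, ha, hi'⟩ := mem_biUnion.1 (mem_inter.1 hi).1
    exact lt_of_lt_of_le (hPlt a i hi') (hDk a ha)
  · intro x hR hP
    have key : ∀ (N : ℕ) (i : Fin M), (i : ℕ) < N → i ∉ Rf.simple → i ≤ k →
        insert i (Rf.anc i) ⊆ insert k (Rf.anc k) → Rf.line i x = true := by
      intro N
      induction N with
      | zero => intro i hi; omega
      | succ N ih =>
        intro i hiN his hik hsub
        have hiD : i ∈ D := by
          rw [hD]
          exact mem_filter.2 ⟨hsub (mem_insert_self _ _), hik⟩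
        refine hPi i x (fun C hC => hR C (mem_biUnion.2 ⟨i, hiD, hC⟩)) fun j hj => ?_
        by_cases hjs : j ∈ Rf.simple
        · exact hP j (mem_inter.2 ⟨mem_biUnion.2 ⟨i, hiD, hj⟩, hjs⟩)
        · have hji : (j : ℕ) < i := hPlt i j hj
          refine ih j (by omega) hjs ((hPlt i j hj).le.trans hik) ?_
          exact ((hPa i his).1 j (mem_sdiff.2 ⟨hj, hjs⟩)).trans
            ((subset_insert _ _).trans hsub)
    exact key ((k : ℕ) + 1) k (by omega) hk le_rfl (Finset.Subset.refl _)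
  · intro i hi
    exact absurd (mem_inter.1 (mem_sdiff.1 hi).1).2 (mem_sdiff.1 hi).2
  · have : (D.biUnion P ∩ Rf.simple) \ Rf.simple = ∅ := by
      rw [sdiff_eq_empty_iff_subset]
      exact inter_subset_right
    rw [this, sum_empty]
    exact Nat.one_pos

end Pool.Agent.BW
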