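import Mathlib

/-!
# Conjunctions of functions from a family

Project BW (helper32, for helper10).
-/

set_option autoImplicit false

namespace Pool.Agent.BW

open Finset

/-- the conjunctions of at most `p` functions from `L` -/
theorem conj_family {ν : Type} [Fintype ν] [DecidableEq ν] (L : Finset ((ν → Bool) → Bool))
    (p : ℕ) : ∃ L' : Finset ((ν → Bool) → Bool), L'.card ≤ (L.card + 1) ^ p ∧
      ∀ (ι : Type) (Q : Finset ι) (f : ι → (ν → Bool) → Bool), (∀ a ∈ Q, f a ∈ L) →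
        Q.card ≤ p → ∃ g ∈ L', ∀ x, g x = true ↔ ∀ a ∈ Q, f a x = true := by
  classical
  induction p with
  | zero =>
    refine ⟨{fun _ => true}, by simp, ?_⟩
    intro ι Q f _ hQ
    have h : Q = ∅ := Finset.card_eq_zero.1 (Nat.le_zero.1 hQ)
    subst h
    exact ⟨fun _ => true, mem_singleton_self _, by simp⟩
  | succ p ih =>
    obtain ⟨L', hL', h'⟩ := ih
    refine ⟨L' ∪ Finset.image₂ (fun (g h : (ν → Bool) → Bool) x => g x && h x) L L', ?_, ?_⟩
    · calc (L' ∪ Finset.image₂ (fun (g h : (ν → Bool) → Bool) x => g x && h x) L L').card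
          ≤ L'.card + (Finset.image₂ (fun (g h : (ν → Bool) → Bool) x => g x && h x) L L').card :=
            card_union_le _ _
        _ ≤ L'.card + L.card * L'.card := by
            gcongr
            exact Finset.card_image₂_le _ _ _
        _ = (L.card + 1) * L'.card := by ring
        _ ≤ (L.card + 1) * (L.card + 1) ^ p := by gcongr
        _ = (L.card + 1) ^ (p + 1) := by ring
    · intro ι Q f hf hQ
      rcases Q.eq_empty_or_nonempty with h0 | ⟨a, ha⟩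
      · obtain ⟨g, hg, hg'⟩ := h' ι Q f hf (by rw [h0]; simp)
        exact ⟨g, mem_union_left _ hg, hg'⟩
      · obtain ⟨g, hg, hg'⟩ := h' ι (Q.erase a) f (fun b hb => hf b (mem_of_mem_erase hb))
          (by rw [card_erase_of_mem ha]; omega)
        refine ⟨fun x => f a x && g x, mem_union_right _ (Finset.mem_image₂.2
          ⟨f a, hf a ha, g, hg, rfl⟩), fun x => ?_⟩
        rw [Bool.and_eq_true, hg' x]
        constructor
        · rintro ⟨h1, h2⟩ b hb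
          by_cases e : b = a
          · rw [e]; exact h1
          · exact h2 b (mem_erase.2 ⟨e, hb⟩)
        · intro h1
          exact ⟨h1 a ha, fun b hb => h1 b (mem_of_mem_erase hb)⟩

theorem conj_num (c ℓ N b n L : ℕ) (hc : 2 ≤ c) (hn : n = 2 ^ ℓ) (hN : N = n * b) (hlb : ℓ ≤ b)
    (hl : 10 ≤ ℓ) (hb : b ≤ 2 ^ ℓ) (hK : 6 * c + 10 ≤ n)
    (hL : L ≤ 2 ^ (N ^ c) + N ^ c * ((N + N ^ c) ^ 2) ^ (N ^ c)) :
    (L + 1) ^ (N ^ c) ≤ 2 ^ (N ^ (2 * c + 1)) := by
  have hb1 : 1 ≤ b := by omega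
  have hn1 : 1 ≤ n := by omega
  have hN1 : 1 ≤ N := by
    rw [hN]
    exact Nat.mul_pos hn1 hb1
  have hNle : N ≤ 2 ^ (2 * ℓ) := by
    rw [hN, hn, two_mul, pow_add]
    exact Nat.mul_le_mul_left _ hb
  obtain ⟨M, hM⟩ : ∃ M, M = N ^ c := ⟨_, rfl⟩
  have hM1 : 1 ≤ M := by
    rw [hM]
    exact Nat.one_le_pow _ _ hN1
  have hMle : M ≤ 2 ^ (2 * ℓ * c) := by
    rw [hM, pow_mul]
    exact Nat.pow_le_pow_left hNle c
  have hNM : N ≤ M := by
    rw [hM]
    calc N = N ^ 1 := (pow_one N).symm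
      _ ≤ N ^ c := Nat.pow_le_pow_right hN1 (by omega)
  rw [← hM] at hL ⊢
  have h1 : N + M ≤ 2 ^ (2 * ℓ * c + 1) := by
    rw [pow_succ]
    omega
  have h2 : ((N + M) ^ 2) ^ M ≤ 2 ^ ((4 * ℓ * c + 2) * M) := by
    calc ((N + M) ^ 2) ^ M ≤ ((2 ^ (2 * ℓ * c + 1)) ^ 2) ^ M :=
          Nat.pow_le_pow_left (Nat.pow_le_pow_left h1 2) M
      _ = 2 ^ ((4 * ℓ * c + 2) * M) := by
          rw [← pow_mul, ← pow_mul]
          congr 1
          ring
  have h3 : M * ((N + M) ^ 2) ^ M ≤ 2 ^ (2 * ℓ * c + (4 * ℓ * c + 2) * M) := by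
    rw [pow_add]
    exact Nat.mul_le_mul hMle h2
  obtain ⟨e, he⟩ : ∃ e, e = 2 * ℓ * c + (4 * ℓ * c + 2) * M := ⟨_, rfl⟩
  rw [← he] at h3
  have h4 : 2 ^ M ≤ 2 ^ e := by
    apply Nat.pow_le_pow_right two_pos
    rw [he]
    calc M = 1 * M := (one_mul M).symm
      _ ≤ (4 * ℓ * c + 2) * M := Nat.mul_le_mul_right _ (by omega)
      _ ≤ _ := Nat.le_add_left _ _
  have h5 : L + 1 ≤ 2 ^ (e + 2) := by
    have h6 : 1 ≤ 2 ^ e := Nat.one_le_two_pow
    rw [pow_add]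
    omega
  have h7 : e + 2 ≤ N * M := by
    have hNb : n * ℓ ≤ N := by
      rw [hN]
      exact Nat.mul_le_mul_left _ hlb
    have h8 : (6 * c + 10) * ℓ ≤ N := (Nat.mul_le_mul_right _ hK).trans hNb
    have h9 : 6 * ℓ * c + 4 ≤ N := by
      have : (6 * c + 10) * ℓ = 6 * ℓ * c + 10 * ℓ := by ring
      omega
    have h10 : 2 * ℓ * c + 2 ≤ (2 * ℓ * c + 2) * M := Nat.le_mul_of_pos_right _ hM1
    calc e + 2 = (2 * ℓ * c + 2) + (4 * ℓ * c + 2) * M := by rw [he]; ring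
      _ ≤ (2 * ℓ * c + 2) * M + (4 * ℓ * c + 2) * M := Nat.add_le_add_right h10 _
      _ = (6 * ℓ * c + 4) * M := by ring
      _ ≤ N * M := Nat.mul_le_mul_right _ h9
  calc (L + 1) ^ M ≤ (2 ^ (e + 2)) ^ M := Nat.pow_le_pow_left h5 M
    _ = 2 ^ ((e + 2) * M) := by rw [← pow_mul]
    _ ≤ 2 ^ (N * M * M) := Nat.pow_le_pow_right two_pos (Nat.mul_le_mul_right _ h7)
    _ = 2 ^ (N ^ (2 * c + 1)) := by
        congr 1
        rw [hM, pow_succ, two_mul, pow_add]
        ring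

end Pool.Agent.BW
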