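import Mathlib

/-!
# The number of conjunctions of at most `N ^ d` lines

Project BW (helper10).
-/

set_option autoImplicit false

namespace Pool.Agent.BW

theorem conj_num2 (c d ℓ N b n L : ℕ) (hc : 2 ≤ c) (hn : n = 2 ^ ℓ) (hN : N = n * b)
    (hlb : ℓ ≤ b) (hl : 10 ≤ ℓ) (hb : b ≤ 2 ^ ℓ) (hK : 6 * c + 10 ≤ n)
    (hL : L ≤ 2 ^ (N ^ c) + N ^ c * ((N + N ^ c) ^ 2) ^ (N ^ c)) :
    (L + 1) ^ (N ^ d) ≤ 2 ^ (N ^ (c + d + 1)) := by
  have hNpos : 0 < N := by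
    rw [hN]
    exact Nat.mul_pos (by omega) (by omega)
  have hN2 : N ≤ 2 ^ (2 * ℓ) := by
    rw [hN, hn, two_mul, pow_add]
    exact Nat.mul_le_mul_left _ hb
  have hNbig : 6 * (c * ℓ) + 4 ≤ N := by
    rw [hN]
    calc 6 * (c * ℓ) + 4 ≤ (6 * c + 10) * ℓ := by
          have : (6 * c + 10) * ℓ = 6 * (c * ℓ) + 10 * ℓ := by ring
          omega
      _ ≤ n * b := Nat.mul_le_mul hK hlb
  obtain ⟨m, hm⟩ : ∃ m, m = N ^ c := ⟨_, rfl⟩
  have hm1 : 1 ≤ m := by rw [hm]; exact Nat.one_le_pow _ _ hNpos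
  have hNm : N ≤ m := by
    rw [hm]
    exact Nat.le_self_pow (by omega) N
  obtain ⟨e, he⟩ : ∃ e, e = c * ℓ := ⟨_, rfl⟩
  have hm2 : m ≤ 2 ^ (2 * e) := by
    rw [hm, he]
    calc N ^ c ≤ (2 ^ (2 * ℓ)) ^ c := Nat.pow_le_pow_left hN2 c
      _ = 2 ^ (2 * (c * ℓ)) := by rw [← pow_mul]; congr 1; ring
  rw [← he] at hNbig
  rw [← hm] at hL
  have h1 : (N + m) ^ 2 ≤ 2 ^ (4 * e + 2) := by
    calc (N + m) ^ 2 ≤ (2 * 2 ^ (2 * e)) ^ 2 := Nat.pow_le_pow_left (by omega) 2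
      _ = 2 ^ (4 * e + 2) := by
          rw [← pow_succ', ← pow_mul]
          congr 1
          ring
  have h2 : m * ((N + m) ^ 2) ^ m ≤ 2 ^ ((4 * e + 2) * m + 2 * e) := by
    calc m * ((N + m) ^ 2) ^ m ≤ 2 ^ (2 * e) * (2 ^ (4 * e + 2)) ^ m :=
          Nat.mul_le_mul hm2 (Nat.pow_le_pow_left h1 m)
      _ = 2 ^ ((4 * e + 2) * m + 2 * e) := by
          rw [← pow_mul, ← pow_add]
          congr 1
          ring
  have h3 : 2 ^ m ≤ 2 ^ ((4 * e + 2) * m + 2 * e) := by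
    apply Nat.pow_le_pow_right (by norm_num)
    calc m = 1 * m := (one_mul m).symm
      _ ≤ (4 * e + 2) * m := Nat.mul_le_mul_right _ (by omega)
      _ ≤ _ := Nat.le_add_right _ _
  have h4 : L + 1 ≤ 2 ^ (N * m) := by
    have h5 : 1 ≤ 2 ^ ((4 * e + 2) * m + 2 * e) := Nat.one_le_two_pow
    calc L + 1 ≤ 4 * 2 ^ ((4 * e + 2) * m + 2 * e) := by omega
      _ = 2 ^ ((4 * e + 2) * m + 2 * e + 2) := by
          rw [pow_add _ _ 2]
          ring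
      _ ≤ 2 ^ (N * m) := by
          apply Nat.pow_le_pow_right (by norm_num)
          refine le_trans ?_ (Nat.mul_le_mul_right m hNbig)
          have h6 : (6 * e + 4) * m = (4 * e + 2) * m + (2 * e + 2) * m := by ring
          have h7 : (2 * e + 2) * 1 ≤ (2 * e + 2) * m := Nat.mul_le_mul_left _ hm1
          omega
  calc (L + 1) ^ (N ^ d) ≤ (2 ^ (N * m)) ^ (N ^ d) := Nat.pow_le_pow_left h4 _
    _ = 2 ^ (N ^ (c + d + 1)) := by
        rw [← pow_mul, hm]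
        congr 1
        ring

end Pool.Agent.BW
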