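import Pool.Agent.Lib.SL.R6
import Pool.Agent.Lib.SL.R8a
import Pool.Agent.Lib.BW.Model

/-!
# Bounded workspace: rows

Project BW (helper10). Notation of `Pool.Agent.Lib.SL.Defs`.
-/

set_option autoImplicit false

namespace Pool.Agent.BW

open Finset Pool.Agent.SL

/-- two pigeons of `T` have the same label under `a` -/
def Dead {n m : ℕ} {α : Type} (g : Fin n → α → Fin m) (T : Finset (Fin n)) (a : Fin n → α) :
    Prop :=
  ∃ i ∈ T, ∃ j ∈ T, i ≠ j ∧ g i (a i) = g j (a j)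

/-- Row CORE: as `Pool.Agent.SL.R8x.core`, with the values of the subcubes and with balanced
labels -/
def Core : Prop :=
  ∀ (n m : ℕ) (α : Type) [Fintype α] [DecidableEq α] [Nonempty α] (r R k t s : ℕ),
    8 ≤ n → n = m + 1 → 1 ≤ t → 2 * t ≤ m → Fintype.card α = r * R → 1 ≤ k → 4 ≤ s →
    32 * k * n ^ 2 * n ^ (2 * s) ≤ r → n ^ (s + 2) ≤ R →
    ∀ 𝓤 : Finset (Finset (Fin n → α)),
    ((𝓤.card + 1) * (2 ^ n * Fintype.card (Fin n → α)) + 1) * 2 ^ n * m ^ n < 4 ^ k →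
    ∃ g : Fin n → α → Fin m,
      (∀ (T : Finset (Fin n)) (a : Fin n → α), T.card ≤ t → ¬ Dead g T a →
        (Fintype.card (Fin n → α) : ℝ) / (4 * (Fintype.card α : ℝ) ^ T.card)
          ≤ ∑ x ∈ Fib T a, Ker (2 * t) g x) ∧
      (∀ U ∈ 𝓤, -(6 / (n : ℝ) ^ ((s - 2) * t) * Fintype.card (Fin n → α))
        ≤ ∑ x ∈ U, Ker (2 * t) g x) ∧
      (∀ U ∈ 𝓤, ∀ i j : Fin n, ∀ a a' : α, i ≠ j → g i a = g j a' →
        (∀ x ∈ U, x i = a ∧ x j = a') →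
        ∑ x ∈ U, Ker (2 * t) g x ≤ 6 / (n : ℝ) ^ ((s - 2) * t) * Fintype.card (Fin n → α)) ∧
      (∀ (i : Fin n) (c : Fin m),
        (univ.filter fun a : α => g i a = c).card * m ≤ 2 * Fintype.card α)

/-- Row KILL: a partial assignment with different labels which satisfies all wide clauses.
`A k i` = the values of pigeon `i` which satisfy clause `k`. -/
def Kill : Prop :=
  ∀ (n m S s τ : ℕ) (α : Type) [Fintype α] [DecidableEq α] [Nonempty α]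
    (g : Fin n → α → Fin m), 1 ≤ n →
    (∀ (i : Fin n) (c : Fin m),
      (univ.filter fun a : α => g i a = c).card * m ≤ 2 * Fintype.card α) →
    2 * s ≤ τ → 16 * s ≤ m →
    ∀ A : Fin S → Fin n → Finset α,
    (∀ k i, A k i = ∅ ∨ Fintype.card α ≤ 2 * (A k i).card) →
    (S : ℝ) * (1 - 3 * (τ : ℝ) / (16 * n)) ^ s < 1 →
    ∃ (T : Finset (Fin n)) (a : Fin n → α), T.card ≤ s ∧ ¬ Dead g T a ∧
      ∀ k, τ ≤ (univ.filter fun i => A k i ≠ ∅).card → ∃ i ∈ T, a i ∈ A k i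

/-! ## The walk -/

section

variable {Ω : Type} [Fintype Ω] [DecidableEq Ω]

/-- `∑ κ` over the intersection of the list `h` and of `R0` -/
noncomputable def Sg (κ : Ω → ℝ) (R0 : Finset Ω) (h : List (Finset Ω)) : ℝ :=
  ∑ x ∈ Inter (R0 :: h), κ x

/-- `D` is a dead set: there is a partition of `Ω` into at most `c0` cells in `base`, each of them
does not meet `D` inside of `R0`, or is contained in some `C ∈ cl` inside of `R0` -/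
def DeadSet (base cl : Finset (Finset Ω)) (R0 : Finset Ω) (c0 : ℕ) (D : Finset Ω) : Prop :=
  ∃ (ι : Type) (_ : Fintype ι) (_ : DecidableEq ι) (c : Ω → ι), Fintype.card ι ≤ c0 ∧
    (∀ i, (univ.filter fun x => c x = i) ∈ base) ∧
    ∀ i, (∀ x ∈ R0, c x = i → x ∉ D) ∨ ∃ C ∈ cl, ∀ x ∈ R0, c x = i → x ∈ C

end

/-- Row WALKA: the walk for the active lines, starting with `R0` -/
def WalkA : Prop :=
  ∀ (Ω : Type) [Fintype Ω] [DecidableEq Ω] (κ : Ω → ℝ) (ε E : ℝ) (base : Finset (Finset Ω))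
    (R0 : Finset Ω) (S D q P : ℕ) (W : Fin S → Finset Ω) (act : Fin S → Prop)
    (rank : Fin S → ℕ),
    0 ≤ ε → 0 ≤ E → (∀ k, act k → W k ∈ base) →
    (∀ h : List (Finset Ω), h.length ≤ q + 4 → R6x.Adm base h → -ε ≤ Sg κ R0 h) →
    (∀ k, act k → rank k ≤ D) → D ≤ P * q →
    (∀ k, act k →
      (∀ h : List (Finset Ω), h.length ≤ q → R6x.Adm base h → Sg κ R0 (W k :: h) ≤ E) ∨
      (∃ i, i < k ∧ act i ∧ rank i ≤ rank k ∧
        ∀ h : List (Finset Ω), h.length ≤ q → R6x.Adm base h →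
          Sg κ R0 (W k :: h) ≤ Sg κ R0 (W i :: h) + E) ∨
      (∃ i j, i < k ∧ j < k ∧ act i ∧ act j ∧ rank i < rank k ∧ rank j < rank k ∧
        ∀ h : List (Finset Ω), h.length ≤ q → R6x.Adm base h →
          Sg κ R0 (W k :: h) ≤ Sg κ R0 (W i :: h) + Sg κ R0 (W j :: (W i)ᶜ :: h) + E)) →
    ∀ k, act k → Sg κ R0 [W k] ≤ (P + 1) * (S : ℝ) ^ (P + 1) * (2 ^ (q + 1) * (E + ε))

/-- Row STEP: one inference, `V` = false set of the conclusion -/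
def Step : Prop :=
  ∀ (Ω : Type) [Fintype Ω] [DecidableEq Ω] (κ : Ω → ℝ) (ε : ℝ) (base cl : Finset (Finset Ω))
    (M r c0 : ℕ) (R0 : Finset Ω), R6x.Pseudo κ ε base cl M r → R0 ∈ base → 1 ≤ c0 →
    ∀ (R : Finset (Finset Ω)), R ⊆ cl → R.card ≤ r → ∀ V ∈ base,
    (∀ D₁ D₂ : Finset Ω, DeadSet base cl R0 c0 D₁ → DeadSet base cl R0 c0 D₂ →
      (∀ x ∈ R0, x ∈ V → x ∈ D₁ ∨ x ∈ D₂ ∨ x ∈ R.biUnion id) →
      ∀ h : List (Finset Ω), h.length + 6 ≤ M → R6x.Adm base h →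
        Sg κ R0 (V :: h) ≤ c0 ^ 2 * (r + 3) * ε) ∧
    (∀ D₁ : Finset Ω, DeadSet base cl R0 c0 D₁ → ∀ U ∈ base,
      (∀ x ∈ R0, x ∈ V → x ∈ U ∨ x ∈ D₁ ∨ x ∈ R.biUnion id) →
      ∀ h : List (Finset Ω), h.length + 6 ≤ M → R6x.Adm base h →
        Sg κ R0 (V :: h) ≤ Sg κ R0 (U :: h) + c0 ^ 2 * (r + 3) * ε) ∧
    (∀ U ∈ base, ∀ T ∈ base,
      (∀ x ∈ R0, x ∈ V → x ∈ U ∨ x ∈ T ∨ x ∈ R.biUnion id) →
      ∀ h : List (Finset Ω), h.length + 6 ≤ M → R6x.Adm base h →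
        Sg κ R0 (V :: h) ≤ Sg κ R0 (U :: h) + Sg κ R0 (T :: Uᶜ :: h) + c0 ^ 2 * (r + 3) * ε)

/-- Row MAINA: all simple lines are dead, so the last line is impossible. -/
def MainA : Prop :=
  ∀ (Ω : Type) [Fintype Ω] [DecidableEq Ω] (κ : Ω → ℝ) (ε gap : ℝ)
    (base cl : Finset (Finset Ω)) (r c0 S D q P : ℕ) (R0 : Finset Ω) (W : Fin S → Finset Ω)
    (simple : Finset (Fin S)) (rank : Fin S → ℕ),
    R6x.Pseudo κ ε base cl (q + 8) r → R0 ∈ base → 1 ≤ c0 →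
    (∀ k ∉ simple, W k ∈ base) →
    (∀ k ∈ simple, ∃ (ι : Type) (_ : Fintype ι) (_ : DecidableEq ι) (c : Ω → ι),
      Fintype.card ι ≤ c0 ∧ (∀ i, (univ.filter fun x => c x = i) ∈ base) ∧
      (∀ x ∈ R0, ∀ y ∈ R0, c x = c y → x ∈ W k → y ∈ W k) ∧
      ∀ i, (∀ x ∈ R0, c x ≠ i) ∨ (∃ C ∈ cl, ∀ x ∈ R0, c x = i → x ∈ C) ∨
        gap ≤ Sg κ R0 [univ.filter fun x => c x = i]) →
    (∀ k ∉ simple, rank k ≤ D) → D ≤ P * q →
    (∀ k, ∃ R ⊆ cl, R.card ≤ r ∧ ∃ Q : Finset (Fin S), Q.card ≤ 2 ∧ (∀ i ∈ Q, i < k) ∧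
      (∀ x ∈ R0, x ∈ W k → (∃ i ∈ Q, x ∈ W i) ∨ x ∈ R.biUnion id) ∧
      (k ∉ simple → (∀ i ∈ Q \ simple, rank i ≤ rank k) ∧
        (2 ≤ (Q \ simple).card → ∀ i ∈ Q \ simple, rank i < rank k))) →
    (∃ k, ∀ x ∈ R0, x ∈ W k) → gap ≤ ∑ x ∈ R0, κ x →
    gap ≤ 2 * ((P + 1) * (S : ℝ) ^ (P + 1) * (2 ^ (q + 1) * (c0 ^ 2 * (r + 4) * ε)))
      + 2 * (c0 ^ 2 * (r + 4) * ε)

end Pool.Agent.BW
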