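import Pool.Agent.Lib.BW.Defs10

/-!
# Large inferences, local sizes: row LAST9

Project BW (helper10).
-/

set_option autoImplicit false

namespace Pool.Agent.BW

open Finset Pool.Agent.SL

/-- Row LAST9: the statement of the hand-in -/
def Last9 : Prop :=
  ∀ c d k A : ℕ, 2 ≤ c → ∃ (δ : ℝ) (K ℓ₀ : ℕ), 0 < δ ∧ 0 < K ∧
    ∀ ℓ n b N : ℕ, ℓ₀ ≤ ℓ → n = 2 ^ ℓ → b = K * ℓ → N = n * b →
      ∀ V : Finset ((Fin n × Fin b → Bool) → Bool), V.card ≤ 2 ^ (N ^ c) →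
        ∃ F : Finset (Clause (Fin n × Fin b)),
          (∀ x, ∃ C ∈ F, ¬ Holds C x) ∧ F.card ≤ N ^ (2 * c + 2 * d + 42) ∧
          (∀ C ∈ F, C.card ≤ 2 * b) ∧
          ∀ t M S T : ℕ, (t : ℝ) ≤ δ * N → (M : ℝ) < 2 ^ (δ * N) →
            Nonempty (BRefutation F (fun f => f ∈ V ∨ HasCircuit (N ^ c) f) (IsSimple2 k A t)
              (N ^ d) (N ^ (c + d)) M S T) →
              δ * (N : ℝ) ^ 2 ≤ Real.logb 2 ((S : ℝ) + 1) * Real.logb 2 ((T : ℝ) + 1)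

end Pool.Agent.BW
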