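import Pool.Agent.Lib.SL.R8c
import Pool.Agent.Lib.BW.Model

/-!
# Bounded workspace: row FAMILY (numbers)

Project BW (helper10).
-/

set_option autoImplicit false

namespace Pool.Agent.BW

open Finset Pool.Agent.SL

/-- Row FAMILY: exponents of the family, as `Pool.Agent.SL.R8x.family` -/
def Family : Prop :=
  ∀ (c ℓ n B N M : ℕ), 1 ≤ c → 3 ≤ ℓ → n = 2 ^ ℓ → N = n * B → M = N ^ c → 1 ≤ B → ℓ ≤ B →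
    B ≤ 2 ^ ℓ → (100 * c + 300) * B ^ (c + 2) ≤ 2 ^ ℓ → ∀ Lc q : ℕ, q ≤ N →
    Lc ≤ 2 ^ M + M * ((N + M) ^ 2) ^ M →
    (((2 * (Lc + 2 ^ n * (2 ^ B) ^ n) + 1) ^ (q + 8) * (2 * (n ^ 2 * (2 ^ B) ^ 2) + 1) ^ M + 1)
      * (2 ^ n * (2 ^ B) ^ n) + 1) * 2 ^ n * (n - 1) ^ n < 4 ^ (2 ^ ((c + 2) * ℓ))

end Pool.Agent.BW
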