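import Pool.Agent.Lib.BW.Model

/-!
# Row LAST: the statement of the result

Project BW (helper10).
-/

set_option autoImplicit false

namespace Pool.Agent.BW

open Pool.Agent.SL

/-- Row LAST: the statement -/
def Last : Prop :=
  ∀ c : ℕ, 1 ≤ c → ∃ (δ : ℝ) (K ℓ₀ : ℕ), 0 < δ ∧ 0 < K ∧
    ∀ ℓ n b N : ℕ, ℓ₀ ≤ ℓ → n = 2 ^ ℓ → b = K * ℓ → N = n * b →
      ∀ V : Finset ((Fin n × Fin b → Bool) → Bool), V.card ≤ 2 ^ (N ^ c) →
        ∃ F : Finset (Clause (Fin n × Fin b)),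
          (∀ x, ∃ C ∈ F, ¬ Holds C x) ∧ F.card ≤ N ^ (2 * c + 40) ∧ (∀ C ∈ F, C.card ≤ 2 * b) ∧
          ∀ t S D : ℕ, (t : ℝ) ≤ δ * N / Real.logb 2 N →
            Nonempty (Refutation F (fun f => f ∈ V ∨ HasCircuit (N ^ c) f) t (N ^ c) S D) →
              δ * (N : ℝ) ^ 2 ≤ ((D : ℝ) + N * Real.logb 2 N) * Real.logb 2 ((S : ℝ) + 1)

end Pool.Agent.BW
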