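import Pool.Agent.Lib.SL.Model

/-!
# Simple lines for free (MP_e81270_lc): the definitions used by the statement

Project BW (helper10). Circuits, clauses: `Pool.Agent.Lib.SL.Model`.
-/

set_option autoImplicit false

namespace Pool.Agent.BW

open Pool.Agent.SL

/-- `f` is a `k`-DNF: the disjunction of any number of terms, a term is a conjunction of at most
`k` literals, the literal `(v, s)` is true under `x` iff `x v = s`. A clause of any width is a
`1`-DNF, the negation of a `k`-CNF is a `k`-DNF. -/
def IsDnf {ν : Type} (k : ℕ) (f : (ν → Bool) → Bool) : Prop :=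
  ∃ G : Finset (Finset (ν × Bool)), (∀ T ∈ G, T.card ≤ k) ∧
    ∀ x, f x = true ↔ ∃ T ∈ G, ∀ l ∈ T, x l.1 = l.2

/-- the sum mod 2 of the variables in `P` -/
def par {ν : Type} (P : Finset ν) (x : ν → Bool) : Bool :=
  decide (Odd (P.filter fun v => x v = true).card)

/-- A simple line: an arbitrary Boolean function of `A` `k`-DNFs and of `t` parities. -/
def IsSimple2 {ν : Type} (k A t : ℕ) (f : (ν → Bool) → Bool) : Prop :=
  ∃ (g : Fin A → (ν → Bool) → Bool) (P : Fin t → Finset ν)
    (h : (Fin A → Bool) → (Fin t → Bool) → Bool),
    (∀ i, IsDnf k (g i)) ∧ ∀ x, f x = h (fun i => g i x) (fun j => par (P j) x)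

/-- A refutation of the CNF `F` with `S` lines. The lines are Boolean functions; the lines in the
set `simple` satisfy `Simple`, the other ones, the complex lines, satisfy `Complex`. One line is
constantly false, and every line is implied by at most two earlier lines together with at most `r`
clauses of `F`. For a complex line, `rank` is not less than for its complex premises, and it is
greater than for both of them if there are two complex premises. So `D` bounds the number of
inferences from two complex lines on every path of the proof which consists of complex lines. -/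
structure WRefutation {ν : Type} (F : Finset (Clause ν))
    (Simple Complex : ((ν → Bool) → Bool) → Prop) (r S D : ℕ) where
  line : Fin S → (ν → Bool) → Bool
  simple : Finset (Fin S)
  isSimple : ∀ k ∈ simple, Simple (line k)
  isComplex : ∀ k ∉ simple, Complex (line k)
  rank : Fin S → ℕ
  rank_le : ∀ k ∉ simple, rank k ≤ D
  last : ∃ k, ∀ x, line k x = false
  infer : ∀ k, ∃ R ⊆ F, R.card ≤ r ∧ ∃ P : Finset (Fin S), P.card ≤ 2 ∧ (∀ i ∈ P, i < k) ∧
    (∀ x, (∀ C ∈ R, Holds C x) → (∀ i ∈ P, line i x = true) → line k x = true) ∧
    (k ∉ simple → (∀ i ∈ P \ simple, rank i ≤ rank k) ∧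
      (2 ≤ (P \ simple).card → ∀ i ∈ P \ simple, rank i < rank k))

end Pool.Agent.BW
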