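import Pool.Agent.Lib.BW.Defs5
import Pool.Agent.Lib.BW.Model2

/-!
# Bounded workspace, DNF and parity version: rows SWITCH, KILL3, CELLS4, FAMILY4, LAST4

Project BW (helper10, helper70: parities). Simple line = Boolean function of `A` `k`-DNFs and of
`δ N` parities.
Random restrictions which set few bits (Segerlind, Buss, Impagliazzo): `ω v = 0` sets the
variable `v` to false, `ω v = 1` sets it to true, the other values of `ω v : Fin L` leave it free.
-/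

set_option autoImplicit false

namespace Pool.Agent.BW

open Finset Pool.Agent.SL

section

variable {ν : Type}

/-- `Q x` = set of the variables which a decision tree of depth `w` reads on the input `x` -/
def IsTree (w : ℕ) (Q : (ν → Bool) → Finset ν) : Prop :=
  (∀ x, (Q x).card ≤ w) ∧ ∀ x y, (∀ v ∈ Q x, x v = y v) → Q y = Q x

/-- `x` agrees with the restriction `ω` -/
def Agrees {L : ℕ} (ω : ν → Fin L) (x : ν → Bool) : Prop :=
  ∀ v, ((ω v : ℕ) = 0 → x v = false) ∧ ((ω v : ℕ) = 1 → x v = true)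

/-- under the restriction `ω`, `f` is computed by a decision tree of depth `w` -/
def LocalOn {L : ℕ} (w : ℕ) (ω : ν → Fin L) (f : (ν → Bool) → Bool) : Prop :=
  ∃ Q : (ν → Bool) → Finset ν, IsTree w Q ∧
    ∀ x y, Agrees ω x → Agrees ω y → (∀ v ∈ Q x, x v = y v) → f x = f y

end

open Classical in
/-- Row SWITCH. Induction on `k` for all `Γ`: `C 0 = 0`, and with `r = Γ * L ^ (k + 1)`: take a
maximal set of terms with pairwise disjoint variables. If it has at least `r` elements, one of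
them is satisfied by `ω`, up to a fraction `(1 - L ^ (-(k + 1))) ^ r ≤ 2 ^ (- Γ)`. Otherwise read
the set `H` of its variables, `H.card ≤ (k + 1) r`, for all values on `H` there remains a `k`-DNF,
use the induction hypothesis for `Γ + (k + 1) r`. -/
def Switch : Prop :=
  ∀ (k L : ℕ), 2 ≤ L → ∃ C : ℕ, ∀ (ν : Type) [Fintype ν] [DecidableEq ν] (Γ : ℕ)
    (f : (ν → Bool) → Bool), IsDnf k f →
    (univ.filter fun ω : ν → Fin L => ¬ LocalOn (C * Γ) ω f).card * 2 ^ Γ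
      ≤ k * L ^ Fintype.card ν

/-- Row KILL3, the property of the constant `C` of Row SWITCH -/
def Kill3B (k L C : ℕ) : Prop :=
  ∀ (n b s f Γ : ℕ) (I : Type) [Fintype I] (G : I → (Fin n × Fin b → Bool) → Bool),
    (∀ i, IsDnf k (G i)) → 1 ≤ n → 1 ≤ b → 8 * (n * b) ≤ s * L → 4 * n * 2 ^ b * 2 ^ f ≤ L ^ f →
    2 * Fintype.card I * k < 2 ^ Γ →
    ∃ (E : Finset (Fin n × Fin b)) (y : Fin n → Fin b → Bool), E.card ≤ s ∧ Fits f ∅ E ∧
      ∀ i, ∃ Q : (Fin n → Fin b → Bool) → Finset (Fin n × Fin b), (∀ x, (Q x).card ≤ C * Γ) ∧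
        (∀ x x', (∀ v ∈ Q x, x v.1 v.2 = x' v.1 v.2) → Q x' = Q x) ∧
        ∀ x ∈ Cube E y, ∀ x' ∈ Cube E y, (∀ v ∈ Q x, x v.1 v.2 = x' v.1 v.2) →
          G i (fun p => x p.1 p.2) = G i (fun p => x' p.1 p.2)

/-- Row KILL3 (from SWITCH): some `ω` sets at most `s` bits (Markov), at most `f` in every block
(union bound), and it makes all the `G i` local -/
def Kill3 : Prop := ∀ k L : ℕ, 2 ≤ L → ∃ C : ℕ, Kill3B k L C

/-- the affine subspace of the `x` with the same parities as `y` -/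
def Aff {n b N : ℕ} (R : Fin N → Finset (Fin n × Fin b)) (y : Fin n → Fin b → Bool) :
    Finset (Fin n → Fin b → Bool) :=
  univ.filter fun x => ∀ j, par (R j) (fun p => x p.1 p.2) = par (R j) (fun p => y p.1 p.2)

/-- Row CELLS4: as `Cells2`, for a set which is decided inside of `Cube E0 y0` by a decision tree
`Q` together with the parities `P`. `ι` = set of the affine subspaces of the `x'` with the same
bits as `x` on `Q x`, on `E0` and on the blocks of `T`, and the same parities `P`, `T` from the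
closure lemma of helper70 for the system (bits on `Q x`, bits on `E0`, `P`), which has at most
`w + tv + s` parities: `T.card * f ≤ w + tv + s`, the spaces are spread outside `T` with parameter
`2 ^ (b - f)`. They have at least `2 ^ (n * b - τ)` elements, so their number is at most `2 ^ τ`.
Each of them is contained in `Cube E0 y0` or disjoint from it. -/
def Cells4 : Prop :=
  ∀ (n m b : ℕ) (g : Fin n → (Fin b → Bool) → Fin m) (κ : (Fin n → Fin b → Bool) → ℝ)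
    (base cl : Finset (Finset (Fin n → Fin b → Bool))) (E0 : Finset (Fin n × Fin b))
    (y0 : Fin n → Fin b → Bool) (Q : (Fin n → Fin b → Bool) → Finset (Fin n × Fin b)) (tv : ℕ)
    (P : Fin tv → Finset (Fin n × Fin b))
    (W : Finset (Fin n → Fin b → Bool)) (f τ t s w r : ℕ) (gap : ℝ),
    1 ≤ f → f ≤ b → r ≤ 2 ^ (b - f) → E0.card ≤ s → (∀ x, (Q x).card ≤ w) →
    (w + tv + s) * (b + f) ≤ τ * f → w + tv + s ≤ t * f → τ ≤ n * b →
    (∀ x x', (∀ v ∈ Q x, x v.1 v.2 = x' v.1 v.2) → Q x' = Q x) →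
    (∀ (R : Fin (n * b) → Finset (Fin n × Fin b)) (y : Fin n → Fin b → Bool), Aff R y ∈ base) →
    (∀ i j a a', i ≠ j → g i a = g j a' →
      (univ.filter fun ω : Fin n → Fin b → Bool => ω i = a ∧ ω j = a') ∈ cl) →
    (∀ (T : Finset (Fin n)) (R : Fin (n * b) → Finset (Fin n × Fin b))
      (y : Fin n → Fin b → Bool), T.card ≤ t → Spread r T (Aff R y) → Aff R y ⊆ Fib T y →
      ¬ Dead g T y → 2 ^ (n * b) ≤ (Aff R y).card * 2 ^ τ → gap ≤ ∑ x ∈ Aff R y, κ x) →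
    (∀ x ∈ Cube E0 y0, ∀ x' ∈ Cube E0 y0, (∀ v ∈ Q x, x v.1 v.2 = x' v.1 v.2) →
      (∀ j, par (P j) (fun p => x p.1 p.2) = par (P j) (fun p => x' p.1 p.2)) →
      x ∈ W → x' ∈ W) →
    ∃ (ι : Type) (_ : Fintype ι) (_ : DecidableEq ι) (c : (Fin n → Fin b → Bool) → ι),
      Fintype.card ι ≤ 2 ^ τ ∧ (∀ i, (univ.filter fun x => c x = i) ∈ base) ∧
      (∀ x ∈ Cube E0 y0, ∀ y ∈ Cube E0 y0, c x = c y → x ∈ W → y ∈ W) ∧
      ∀ i, (∀ x ∈ Cube E0 y0, c x ≠ i) ∨ (∃ C ∈ cl, ∀ x ∈ Cube E0 y0, c x = i → x ∈ C) ∨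
        gap ≤ Sg κ (Cube E0 y0) [univ.filter fun x => c x = i]

/-- Row FAMILY4 -/
def Family4 : Prop :=
  ∀ (c ℓ n B N M : ℕ), 2 ≤ c → 3 ≤ ℓ → n = 2 ^ ℓ → N = n * B → M = N ^ c → 1 ≤ B → ℓ ≤ B →
    B ≤ 2 ^ ℓ → (200 * c + 1000) * B ^ (c + 2) ≤ 2 ^ ℓ → ∀ Lc q : ℕ, q ≤ N →
    Lc ≤ 2 ^ M + M * ((N + M) ^ 2) ^ M →
    ((2 * (Lc + 2 ^ (N ^ 2 + N)) + 1) ^ (q + 8) * (2 * (n ^ 2 * (2 ^ B) ^ 2) + 1) ^ M
      * (2 ^ n * (2 ^ B) ^ n) + 2 ^ n * 2 ^ (N ^ 2 + N) + 1) * 2 ^ n * (n - 1) ^ n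
      < 4 ^ (2 ^ ((c + 2) * ℓ))

/-- Row LAST4: the statement of the hand-in -/
def Last4 : Prop :=
  ∀ c k A : ℕ, 2 ≤ c → ∃ (δ : ℝ) (K ℓ₀ : ℕ), 0 < δ ∧ 0 < K ∧
    ∀ ℓ n b N : ℕ, ℓ₀ ≤ ℓ → n = 2 ^ ℓ → b = K * ℓ → N = n * b →
      ∀ V : Finset ((Fin n × Fin b → Bool) → Bool), V.card ≤ 2 ^ (N ^ c) →
        ∃ F : Finset (Clause (Fin n × Fin b)),
          (∀ x, ∃ C ∈ F, ¬ Holds C x) ∧ F.card ≤ N ^ (2 * c + 40) ∧ (∀ C ∈ F, C.card ≤ 2 * b) ∧
          ∀ t S D : ℕ, (t : ℝ) ≤ δ * N →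
            Nonempty (WRefutation F (IsSimple2 k A t) (fun f => f ∈ V ∨ HasCircuit (N ^ c) f)
              (N ^ c) S D) →
              δ * (N : ℝ) ^ 2 ≤ ((D : ℝ) + N) * Real.logb 2 ((S : ℝ) + 1)

end Pool.Agent.BW
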