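import Pool.Agent.Lib.SL.R8c
import Pool.Agent.Lib.SL.R7
import Pool.Agent.Lib.BW.Comb
import Pool.Agent.Lib.BW.Defs2

/-!
# Final assembly

Project BW (helper10), after `Pool.Agent.Lib.SL.Final`.
-/

set_option autoImplicit false

namespace Pool.Agent.BW

open Finset Filter Pool.Agent.SL

/-- the kill condition fails only if there are many lines -/
theorem numA (S sk τ1 n : ℕ) (hn : 0 < n) (hτ1 : τ1 ≤ n)
    (h : ¬ (S : ℝ) * (1 - 3 * (τ1 : ℝ) / (16 * n)) ^ sk < 1) :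
    3 * (τ1 : ℝ) * sk / (16 * n) ≤ Real.log ((S : ℝ) + 1) := by
  have hn0 : (0 : ℝ) < n := by exact_mod_cast hn
  have hτ : (τ1 : ℝ) ≤ n := by exact_mod_cast hτ1
  push Not at h
  have hx1 : 3 * (τ1 : ℝ) / (16 * n) ≤ 1 := by
    rw [div_le_one (by positivity)]
    linarith
  have h0 : 0 ≤ 1 - 3 * (τ1 : ℝ) / (16 * n) := by linarith
  have h1 : 1 - 3 * (τ1 : ℝ) / (16 * n) ≤ Real.exp (-(3 * (τ1 : ℝ) / (16 * n))) := by
    have := Real.add_one_le_exp (-(3 * (τ1 : ℝ) / (16 * n)))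
    linarith
  have h2 : (1 - 3 * (τ1 : ℝ) / (16 * n)) ^ sk ≤ Real.exp (-(3 * (τ1 : ℝ) * sk / (16 * n))) := by
    refine (pow_le_pow_left₀ h0 h1 sk).trans (le_of_eq ?_)
    rw [← Real.exp_nat_mul]
    congr 1
    ring
  have hS0 : (0 : ℝ) ≤ S := Nat.cast_nonneg _
  have h3 : 1 ≤ (S : ℝ) * Real.exp (-(3 * (τ1 : ℝ) * sk / (16 * n))) :=
    h.trans (mul_le_mul_of_nonneg_left h2 hS0)
  rw [Real.exp_neg, ← div_eq_mul_inv, le_div_iff₀ (Real.exp_pos _), one_mul] at h3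
  rw [Real.le_log_iff_exp_le (by linarith)]
  linarith

theorem IsSimple.mono {ν : Type} {t t' : ℕ} (h : t ≤ t') {f : (ν → Bool) → Bool}
    (hf : IsSimple t f) : IsSimple t' f := by
  obtain ⟨C, T, g, h1, h2, h3⟩ := hf
  exact ⟨C, T, g, h1.trans h, h2, h3⟩

/-- the theorem with explicit parameters -/
theorem final_aux (hCore : Core) (hKill : Kill) (hMain : MainA) (hCells : Cells)
    (hBridge : Bridge) (hFam : Family)
    (c ℓ u n B N X τ1 sk : ℕ) (hc : 1 ≤ c) (hn : n = 2 ^ ℓ) (hℓu : ℓ = u + 2)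
    (hB : B = (c + 19) * ℓ) (hN : N = n * B) (hX : X = ℓ * (2 * 2 ^ u))
    (hu8 : 8 ≤ u) (hE3 : B ≤ 2 ^ ℓ) (hE2 : (100 * c + 300) * B ^ (c + 2) ≤ 2 ^ ℓ)
    (hE4 : Real.logb 2 (48 * (((4 * N ^ c + 12 : ℕ) : ℝ) + 4)) ≤ (X : ℝ) / 200)
    (hτ : 64 * (c + 19) * τ1 ≤ n) (hsk : 2 * sk ≤ τ1)
    (V : Finset (((Fin n × Fin B) → Bool) → Bool)) (hV : V.card ≤ 2 ^ (N ^ c)) :
    ∃ F : Finset (Clause (Fin n × Fin B)),
      (∀ x, ∃ C ∈ F, ¬ Holds C x) ∧
      F.card ≤ N ^ (2 * c + 40) ∧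
      (∀ C ∈ F, C.card ≤ 2 * B) ∧
      ∀ t S D : ℕ, t ≤ τ1 →
        Nonempty (Refutation F (fun f => f ∈ V ∨ HasCircuit (N ^ c) f) t (N ^ c) S D) →
        3 * (τ1 : ℝ) * sk / (16 * n) ≤ Real.log ((S : ℝ) + 1) ∨
        0.06 * (X : ℝ) ^ 2 ≤ ((D : ℝ) + (N : ℝ)) * Real.logb 2 ((S : ℝ) + 1) := by
  classical
  have hℓ10 : 10 ≤ ℓ := by omega
  have hℓB : ℓ ≤ B := by
    rw [hB]
    exact Nat.le_mul_of_pos_left _ (by omega)
  have hB1 : 1 ≤ B := by omega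
  obtain ⟨Lset, hLset⟩ : ∃ Lset : Finset (((Fin n × Fin B) → Bool) → Bool),
      Lset = V ∪ univ.filter (fun f => HasCircuit (N ^ c) f) := ⟨_, rfl⟩
  have hLcard : Lset.card ≤ 2 ^ (N ^ c) + N ^ c * ((N + N ^ c) ^ 2) ^ (N ^ c) := by
    rw [hLset]
    refine le_trans (card_union_le _ _) (Nat.add_le_add hV ?_)
    have h := r7 (Fin n × Fin B) (N ^ c)
    rw [Fintype.card_prod, Fintype.card_fin, Fintype.card_fin, ← hN] at h
    exact h
  have hu1 : n = 4 * 2 ^ u := by rw [hn, hℓu, pow_add]; ring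
  have hpu : 2 ^ 8 ≤ 2 ^ u := Nat.pow_le_pow_right (by norm_num) hu8
  have hXN : X ≤ N := by
    rw [hX, hN, hu1, hB]
    calc ℓ * (2 * 2 ^ u) = 2 ^ u * (2 * ℓ) := by ring
      _ ≤ 4 * 2 ^ u * ((c + 19) * ℓ) := by
          apply Nat.mul_le_mul (by omega)
          apply Nat.mul_le_mul_right
          omega
  -- the exponent lost for the cubes
  obtain ⟨e0, he0⟩ : ∃ e0, e0 = B * (6 * τ1 + sk) := ⟨_, rfl⟩
  have hcτ : 16 * ((c + 19) * τ1) ≤ 2 ^ u := by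
    have : 64 * ((c + 19) * τ1) ≤ 4 * 2 ^ u := by
      calc 64 * ((c + 19) * τ1) = 64 * (c + 19) * τ1 := by ring
        _ ≤ n := hτ
        _ = 4 * 2 ^ u := hu1
    omega
  have hτu : 16 * (20 * τ1) ≤ 2 ^ u := by
    refine le_trans ?_ hcτ
    apply Nat.mul_le_mul_left
    apply Nat.mul_le_mul_right
    omega
  have he0X : 4 * e0 ≤ X := by
    rw [he0, hX, hB]
    calc 4 * ((c + 19) * ℓ * (6 * τ1 + sk)) ≤ 4 * ((c + 19) * ℓ * (7 * τ1)) := by
          apply Nat.mul_le_mul_left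
          apply Nat.mul_le_mul_left
          omega
      _ = ℓ * (28 * ((c + 19) * τ1)) := by ring
      _ ≤ ℓ * (2 * (16 * ((c + 19) * τ1))) := by
          apply Nat.mul_le_mul_left
          omega
      _ ≤ ℓ * (2 * 2 ^ u) := by
          apply Nat.mul_le_mul_left
          apply Nat.mul_le_mul_left
          exact hcτ
  obtain ⟨Y, hY⟩ : ∃ Y, Y = X - e0 := ⟨_, rfl⟩
  have hXY : X = e0 + Y := by omega
  have hY34 : 3 * X ≤ 4 * Y := by omega
  obtain ⟨q, hq⟩ : ∃ q, q = Y / 2 := ⟨_, rfl⟩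
  have hqN : q ≤ N := by omega
  have hfam := hFam c ℓ n B N (N ^ c) hc (by omega) hn hN rfl hB1 hℓB hE3 hE2
    Lset.card q hqN hLcard
  obtain ⟨F, hF1, hF2, hF3, hF4⟩ := comb (n := n) (m := n - 1) (b := B)
    hCore hKill hMain hCells hBridge (2 ^ ((c + 5 + 2 * 4) * ℓ)) (2 ^ ((4 + 2) * ℓ))
    (2 ^ ((c + 2) * ℓ)) (2 ^ u) 4 q (N ^ c) (2 * τ1) τ1 τ1 sk
    (by omega) (by omega) (by omega) (by omega)
    (by rw [← pow_add, hB]; congr 1; ring) Nat.one_le_two_pow (le_refl 4)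
    (by
      rw [hn, ← pow_mul, ← pow_mul]
      calc 32 * 2 ^ ((c + 2) * ℓ) * 2 ^ (ℓ * 2) * 2 ^ (ℓ * (2 * 4))
          = 2 ^ (5 + (c + 2) * ℓ + ℓ * 2 + ℓ * (2 * 4)) := by
            rw [pow_add, pow_add, pow_add]; norm_num
        _ ≤ 2 ^ ((c + 5 + 2 * 4) * ℓ) := by
            apply Nat.pow_le_pow_right (by norm_num)
            calc 5 + (c + 2) * ℓ + ℓ * 2 + ℓ * (2 * 4)
                ≤ ℓ + (c + 2) * ℓ + ℓ * 2 + ℓ * (2 * 4) := by omega
              _ = (c + 5 + 2 * 4) * ℓ := by ring)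
    (by rw [hn, ← pow_mul, mul_comm ℓ (4 + 2)])
    (by omega) (by omega) hsk (by omega)
    Lset hfam
  refine ⟨F, hF1, ?_, hF3, ?_⟩
  · -- number of clauses
    refine le_trans hF2 ?_
    have e1 : n ^ 2 * (2 ^ B) ^ 2 = n ^ (2 * c + 40) := by
      rw [hn, ← pow_mul, ← pow_mul, ← pow_mul, ← pow_add, hB]
      congr 1
      ring
    rw [e1, hN]
    apply Nat.pow_le_pow_left
    exact Nat.le_mul_of_pos_right _ hB1
  · intro t S D ht hR
    obtain ⟨Rf⟩ := hR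
    by_cases hkc : (S : ℝ) * (1 - 3 * (τ1 : ℝ) / (16 * n)) ^ sk < 1
    swap
    · left
      exact numA S sk τ1 n (by omega) (by omega) hkc
    right
    have hR' : Nonempty (Refutation F (fun f => f ∈ Lset) τ1 (N ^ c) S D) := by
      refine ⟨⟨Rf.line, Rf.simple, fun k hk => (Rf.isSimple k hk).mono ht, ?_, Rf.rank,
        Rf.rank_le, Rf.last, Rf.infer⟩⟩
      intro k hk
      rw [hLset, mem_union, mem_filter]
      rcases Rf.isLine k hk with h | h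
      · left; exact h
      · right; exact ⟨mem_univ _, h⟩
    have hX100 : 200 ≤ X := by
      rw [hX]
      calc 200 ≤ 1 * (2 * 2 ^ u) := by omega
        _ ≤ ℓ * (2 * 2 ^ u) := Nat.mul_le_mul (by omega) (le_refl _)
    have hY100 : 100 ≤ Y := by omega
    have hq0 : 0 < q := by rw [hq]; omega
    have hDP : D ≤ (D / q + 1) * q := by
      have := Nat.lt_div_mul_add (a := D) hq0
      rw [Nat.add_mul, one_mul]
      omega
    have h := hF4 S D (D / q + 1) hDP hkc hR'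
    have hS1 : (1 : ℝ) ≤ S := by
      obtain ⟨k, _⟩ := Rf.last
      have : 0 < S := k.pos
      exact_mod_cast this
    have hpow : (2 : ℝ) ^ Y ≤ 48 * (((4 * N ^ c + 12 : ℕ) : ℝ) + 4) * 2 ^ q *
        ((((D / q + 1 : ℕ) : ℝ) + 1) * (S : ℝ) ^ (D / q + 1 + 1)) := by
      have hnt : (2 : ℝ) ^ X = (n : ℝ) ^ ((4 - 2) * 2 ^ u) := by
        rw [hn]
        push_cast
        rw [← pow_mul, hX]
      have hnpos : (0 : ℝ) < n := by
        have : 0 < n := by omega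
        exact_mod_cast this
      have hpos : (0 : ℝ) < (n : ℝ) ^ ((4 - 2) * 2 ^ u) := by positivity
      have hr0 : (0 : ℝ) ≤ ((N ^ c : ℕ) : ℝ) := Nat.cast_nonneg _
      have hr1 : ((4 * N ^ c + 12 : ℕ) : ℝ) = 4 * ((N ^ c : ℕ) : ℝ) + 12 := by push_cast; ring
      rw [hr1]
      generalize ((N ^ c : ℕ) : ℝ) = r at h hr0
      set W : ℝ := (((D / q + 1 : ℕ) : ℝ) + 1) * (S : ℝ) ^ (D / q + 1 + 1) with hW
      have hW1 : 1 ≤ W := by
        have e1 : (1 : ℝ) ≤ ((D / q + 1 : ℕ) : ℝ) + 1 := by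
          have : (0 : ℝ) ≤ ((D / q + 1 : ℕ) : ℝ) := Nat.cast_nonneg _
          linarith
        have e2 : (1 : ℝ) ≤ (S : ℝ) ^ (D / q + 1 + 1) := one_le_pow₀ hS1
        nlinarith
      rw [← hnt] at h
      -- h : 1 / (4 * (2^B)^(2 τ1 + sk)) ≤ ...
      have e2 : ((((2 ^ B) ^ (2 * τ1) : ℕ) : ℝ)) ^ 2 = (2 : ℝ) ^ (B * (4 * τ1)) := by
        push_cast
        rw [← pow_mul, ← pow_mul]
        congr 1
        ring
      have e3 : ((2 : ℝ) ^ B) ^ (2 * τ1 + sk) = (2 : ℝ) ^ (B * (2 * τ1 + sk)) := by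
        rw [← pow_mul]
      rw [e2, e3] at h
      have e4 : (2 : ℝ) ^ X = (2 : ℝ) ^ (B * (4 * τ1)) * (2 : ℝ) ^ (B * (2 * τ1 + sk)) *
          (2 : ℝ) ^ Y := by
        rw [← pow_add, ← pow_add]
        congr 1
        rw [hXY, he0]
        ring
      rw [e4] at h
      have hP1 : (0 : ℝ) < (2 : ℝ) ^ (B * (4 * τ1)) := by positivity
      have hP2 : (0 : ℝ) < (2 : ℝ) ^ (B * (2 * τ1 + sk)) := by positivity
      have hP3 : (0 : ℝ) < (2 : ℝ) ^ Y := by positivity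
      generalize (2 : ℝ) ^ (B * (4 * τ1)) = A1 at h hP1
      generalize (2 : ℝ) ^ (B * (2 * τ1 + sk)) = A2 at h hP2
      generalize (2 : ℝ) ^ Y = Z at h hP3 ⊢
      have h2q : (1 : ℝ) ≤ 2 ^ q := one_le_pow₀ (by norm_num)
      have h' := mul_le_mul_of_nonneg_right h (show (0 : ℝ) ≤ 4 * A2 * Z by positivity)
      have e5 : 1 / (4 * A2) * (4 * A2 * Z) = Z := by
        field_simp
      have e6 : (2 * (W * (2 ^ (q + 1) * (A1 * (r + 4) * (6 / (A1 * A2 * Z))))) +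
          2 * (A1 * (r + 4) * (6 / (A1 * A2 * Z)))) * (4 * A2 * Z)
          = 48 * (r + 4) * (2 * 2 ^ q * W + 1) := by
        rw [pow_succ (2 : ℝ) q]
        field_simp
        ring
      rw [e5, e6] at h'
      refine h'.trans ?_
      have h7 : 2 * 2 ^ q * W + 1 ≤ 4 * (2 ^ q * W) := by nlinarith
      calc 48 * (r + 4) * (2 * 2 ^ q * W + 1) ≤ 48 * (r + 4) * (4 * (2 ^ q * W)) := by gcongr
        _ = _ := by ring
    have hE4' : Real.logb 2 (48 * (((4 * N ^ c + 12 : ℕ) : ℝ) + 4)) ≤ (Y : ℝ) / 100 := by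
      refine hE4.trans ?_
      have : 3 * (X : ℝ) ≤ 4 * Y := by exact_mod_cast hY34
      linarith
    have key := R8x.final_ineq Y S D (4 * N ^ c + 12) hY100 hE4' (D / q + 1) q hq rfl hpow
    have hS0 : (0 : ℝ) ≤ S := Nat.cast_nonneg _
    have hlog0 : 0 ≤ Real.logb 2 ((S : ℝ) + 1) := Real.logb_nonneg (by norm_num) (by linarith)
    have hYNR : (Y : ℝ) ≤ N := by
      have : Y ≤ N := by omega
      exact_mod_cast this
    have hXYR : 3 * (X : ℝ) ≤ 4 * Y := by exact_mod_cast hY34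
    have hX0 : (0 : ℝ) ≤ X := Nat.cast_nonneg _
    calc 0.06 * (X : ℝ) ^ 2 ≤ 0.12 * (Y : ℝ) ^ 2 := by nlinarith
      _ ≤ ((D : ℝ) + Y) * Real.logb 2 (S + 1) := key
      _ ≤ ((D : ℝ) + (N : ℝ)) * Real.logb 2 ((S : ℝ) + 1) := by
          apply mul_le_mul_of_nonneg_right _ hlog0
          linarith

end Pool.Agent.BW
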