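import Pool.Agent.Lib.BW.Num7

/-!
# Numbers for the theorem with large inferences

Project BW (helper10).
-/

set_option autoImplicit false

namespace Pool.Agent.BW

theorem num8a (A2 Z p r s : ℝ) (j : ℕ) (h2 : 1 ≤ A2) (h3 : 0 < Z) (hp : 0 ≤ p) (hr : 0 ≤ r)
    (hs : 0 ≤ s)
    (h : 1 / (4 * A2) ≤ (2 * p + 1) * (s * (2 ^ (j + 2) *
      ((p * A2 + r + 2) * (6 / (A2 * A2 * A2 * Z)))))) :
    Z ≤ 24 * (2 * p + 1) * (p + r + 2) * (2 ^ (j + 2) * s) := by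
  have hA : 0 < A2 := by linarith
  have h' := mul_le_mul_of_nonneg_right h (show (0 : ℝ) ≤ 4 * A2 * Z by positivity)
  have e5 : 1 / (4 * A2) * (4 * A2 * Z) = Z := by
    field_simp
  have e6 : (2 * p + 1) * (s * (2 ^ (j + 2) * ((p * A2 + r + 2) *
      (6 / (A2 * A2 * A2 * Z))))) * (4 * A2 * Z)
      = 24 * (2 * p + 1) * (2 ^ (j + 2) * s) * ((p * A2 + r + 2) / (A2 * A2)) := by
    generalize (2 : ℝ) ^ (j + 2) = D
    field_simp
    ring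
  rw [e5, e6] at h'
  refine h'.trans ?_
  have h7 : (p * A2 + r + 2) / (A2 * A2) ≤ p + r + 2 := by
    rw [div_le_iff₀ (by positivity)]
    have h8 : p * A2 + r + 2 ≤ (p + r + 2) * A2 := by nlinarith
    refine h8.trans ?_
    have h9 : A2 * 1 ≤ A2 * A2 := mul_le_mul_of_nonneg_left h2 hA.le
    rw [mul_one] at h9
    exact mul_le_mul_of_nonneg_left h9 (by linarith)
  have h8 : 0 ≤ 24 * (2 * p + 1) * (2 ^ (j + 2) * s) := by positivity
  calc 24 * (2 * p + 1) * (2 ^ (j + 2) * s) * ((p * A2 + r + 2) / (A2 * A2))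
      ≤ 24 * (2 * p + 1) * (2 ^ (j + 2) * s) * (p + r + 2) := mul_le_mul_of_nonneg_left h7 h8
    _ = 24 * (2 * p + 1) * (p + r + 2) * (2 ^ (j + 2) * s) := by ring

theorem num8c (Y j P S : ℕ) (R : ℝ) (hR : 0 < R) (hE : Real.logb 2 R ≤ (Y : ℝ) / 100)
    (h : (2 : ℝ) ^ Y ≤ R * (2 ^ (j + 2) * ((S : ℝ) + 1) ^ P)) :
    (Y : ℝ) ≤ Y / 100 + (j + 2) + P * Real.logb 2 ((S : ℝ) + 1) := by
  have hS : (0 : ℝ) ≤ S := Nat.cast_nonneg _
  have hS1 : (0 : ℝ) < (S : ℝ) + 1 := by linarith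
  have h2 := Real.logb_le_logb_of_le (b := 2) (by norm_num) (by positivity) h
  rw [Real.logb_pow, Real.logb_self_eq_one (by norm_num), Real.logb_mul hR.ne' (by positivity),
    Real.logb_mul (by positivity) (by positivity), Real.logb_pow, Real.logb_pow,
    Real.logb_self_eq_one (by norm_num)] at h2
  push_cast at h2
  linarith

theorem num8d (Y q P T : ℕ) (L : ℝ) (hY : 100 ≤ Y) (hq : q = Y / 20) (hP : P = Nat.log 2 T / q + 1)
    (hL0 : 0 ≤ L) (hL : L ≤ q + 1)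
    (h : (Y : ℝ) ≤ Y / 100 + (((9 * q : ℕ) : ℝ) + 2) + P * L) :
    0.005 * (Y : ℝ) ^ 2 ≤ L * Real.logb 2 ((T : ℝ) + 1) := by
  refine num7d Y q P T L hY hq hP hL0 hL ?_
  have h1 : 0 ≤ (P : ℝ) * L := mul_nonneg (Nat.cast_nonneg _) hL0
  have h2 : 2 * ((P : ℝ) + 1) * L = P * L + P * L + 2 * L := by ring
  rw [h2]
  linarith

theorem num8e (p M q : ℕ) (hp : 2 * p + 2 ≤ 2 ^ q) (hM : M ≤ 2 ^ q) :
    (2 * p + 2) * M * 2 ^ q * 3 ^ (9 * q) ≤ 4 ^ (9 * q) := by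
  calc (2 * p + 2) * M * 2 ^ q * 3 ^ (9 * q) ≤ 2 ^ q * 2 ^ q * 2 ^ q * 3 ^ (9 * q) := by
        apply Nat.mul_le_mul_right
        apply Nat.mul_le_mul_right
        exact Nat.mul_le_mul hp hM
    _ = (2 ^ 3 * 3 ^ 9) ^ q := by
        rw [mul_pow, ← pow_mul, ← pow_mul]
        congr 1
        rw [← pow_add, ← pow_add]
        congr 1
        ring
    _ ≤ (4 ^ 9) ^ q := Nat.pow_le_pow_left (by norm_num) _
    _ = 4 ^ (9 * q) := by rw [← pow_mul]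

end Pool.Agent.BW
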