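import Mathlib

/-!
# Numbers for the dag against tree size theorem

Project BW (helper10).
-/

set_option autoImplicit false

namespace Pool.Agent.BW

theorem num7a (A1 A2 Z W r : ℝ) (j : ℕ) (h1 : 0 < A1) (h2 : 0 < A2) (h3 : 0 < Z) (hW : 0 ≤ W)
    (hr : 0 ≤ r)
    (h : 1 / (4 * A2) ≤ 2 * (W * (2 ^ (j + 2) * (A1 * (r + 4) * (6 / (A1 * A2 * Z))))) +
      2 * (A1 * (r + 4) * (6 / (A1 * A2 * Z)))) :
    Z ≤ 48 * (r + 4) * (2 ^ (j + 2) * (W + 1)) := by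
  have h' := mul_le_mul_of_nonneg_right h (show (0 : ℝ) ≤ 4 * A2 * Z by positivity)
  have e5 : 1 / (4 * A2) * (4 * A2 * Z) = Z := by
    field_simp
  have e6 : (2 * (W * (2 ^ (j + 2) * (A1 * (r + 4) * (6 / (A1 * A2 * Z))))) +
      2 * (A1 * (r + 4) * (6 / (A1 * A2 * Z)))) * (4 * A2 * Z)
      = 48 * (r + 4) * (2 ^ (j + 2) * W + 1) := by
    generalize (2 : ℝ) ^ (j + 2) = D
    field_simp
    ring
  rw [e5, e6] at h'
  refine h'.trans ?_
  have h2q : (1 : ℝ) ≤ 2 ^ (j + 2) := one_le_pow₀ (by norm_num)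
  have h7 : 2 ^ (j + 2) * W + 1 ≤ 2 ^ (j + 2) * (W + 1) := by
    rw [mul_add, mul_one]
    linarith
  exact mul_le_mul_of_nonneg_left h7 (by linarith)

theorem num7b (S P : ℕ) :
    ((P : ℝ) + 1) * (S : ℝ) ^ (P + 1) + 1 ≤ ((S : ℝ) + 1) ^ (2 * (P + 1)) := by
  have key : (P + 1) * S ^ (P + 1) + 1 ≤ (S + 1) ^ (2 * (P + 1)) := by
    rcases Nat.eq_zero_or_pos S with h | h
    · subst h
      simp
    · have h1 : P + 1 < 2 ^ (P + 1) := Nat.lt_two_pow_self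
      have h2 : 2 ^ (P + 1) ≤ (S + 1) ^ (P + 1) := Nat.pow_le_pow_left (by omega) _
      have h3 : S ^ (P + 1) ≤ (S + 1) ^ (P + 1) := Nat.pow_le_pow_left (by omega) _
      have h4 : 1 ≤ (S + 1) ^ (P + 1) := Nat.pos_of_ne_zero (by positivity)
      have h5 : (S + 1) ^ (2 * (P + 1)) = (S + 1) ^ (P + 1) * (S + 1) ^ (P + 1) := by
        rw [← pow_add]
        congr 1
        ring
      rw [h5]
      calc (P + 1) * S ^ (P + 1) + 1 ≤ (P + 1) * (S + 1) ^ (P + 1) + (S + 1) ^ (P + 1) :=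
            Nat.add_le_add (Nat.mul_le_mul_left _ h3) h4
        _ = (P + 1 + 1) * (S + 1) ^ (P + 1) := by ring
        _ ≤ (S + 1) ^ (P + 1) * (S + 1) ^ (P + 1) := Nat.mul_le_mul_right _ (by omega)
  exact_mod_cast key

theorem num7c (Y j P S : ℕ) (r : ℝ) (hr : 0 ≤ r)
    (hE : Real.logb 2 (48 * (r + 4)) ≤ (Y : ℝ) / 100)
    (h : (2 : ℝ) ^ Y ≤ 48 * (r + 4) * (2 ^ (j + 2) * (((P : ℝ) + 1) * (S : ℝ) ^ (P + 1) + 1))) :
    (Y : ℝ) ≤ Y / 100 + (j + 2) + 2 * (P + 1) * Real.logb 2 ((S : ℝ) + 1) := by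
  have hS : (0 : ℝ) ≤ S := Nat.cast_nonneg _
  have hS1 : (0 : ℝ) < (S : ℝ) + 1 := by linarith
  have hr1 : 0 < 48 * (r + 4) := by linarith
  have h1 : (2 : ℝ) ^ Y ≤ 48 * (r + 4) * (2 ^ (j + 2) * ((S : ℝ) + 1) ^ (2 * (P + 1))) := by
    refine h.trans ?_
    refine mul_le_mul_of_nonneg_left ?_ hr1.le
    exact mul_le_mul_of_nonneg_left (num7b S P) (by positivity)
  generalize 48 * (r + 4) = R at h1 hr1 hE
  have h2 := Real.logb_le_logb_of_le (b := 2) (by norm_num) (by positivity) h1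
  rw [Real.logb_pow, Real.logb_self_eq_one (by norm_num), Real.logb_mul hr1.ne' (by positivity),
    Real.logb_mul (by positivity) (by positivity), Real.logb_pow, Real.logb_pow,
    Real.logb_self_eq_one (by norm_num)] at h2
  push_cast at h2
  linarith

theorem num7d (Y q P T : ℕ) (L : ℝ) (hY : 100 ≤ Y) (hq : q = Y / 20) (hP : P = Nat.log 2 T / q + 1)
    (hL0 : 0 ≤ L) (hL : L ≤ q + 1)
    (h : (Y : ℝ) ≤ Y / 100 + (((9 * q : ℕ) : ℝ) + 2) + 2 * (P + 1) * L) :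
    0.005 * (Y : ℝ) ^ 2 ≤ L * Real.logb 2 ((T : ℝ) + 1) := by
  have hYR : (100 : ℝ) ≤ Y := by exact_mod_cast hY
  have hq1 : 20 * q ≤ Y := by rw [hq]; exact Nat.mul_div_le _ _
  have hq2 : Y < 20 * (q + 1) := by rw [hq]; exact Nat.lt_mul_div_succ _ (by omega)
  have hq1R : (20 : ℝ) * q ≤ Y := by exact_mod_cast hq1
  have hq2R : (Y : ℝ) < 20 * (q + 1) := by exact_mod_cast hq2
  have hq0 : (0 : ℝ) < q := by linarith
  have hT0 : (0 : ℝ) ≤ T := Nat.cast_nonneg _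
  have hl0 : 0 ≤ Real.logb 2 ((T : ℝ) + 1) := Real.logb_nonneg (by norm_num) (by linarith)
  have hlT : (Nat.log 2 T : ℝ) ≤ Real.logb 2 ((T : ℝ) + 1) := by
    rcases Nat.eq_zero_or_pos T with h0 | h0
    · subst h0
      simp
    · have h1 : 2 ^ Nat.log 2 T ≤ T := Nat.pow_log_le_self 2 (by omega)
      have h2 : (2 : ℝ) ^ Nat.log 2 T ≤ (T : ℝ) + 1 := by
        have : (2 : ℝ) ^ Nat.log 2 T ≤ (T : ℝ) := by exact_mod_cast h1
        linarith
      have h3 := Real.logb_le_logb_of_le (b := 2) (by norm_num) (by positivity) h2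
      rw [Real.logb_pow, Real.logb_self_eq_one (by norm_num)] at h3
      linarith
  generalize Real.logb 2 ((T : ℝ) + 1) = lT at hlT hl0 ⊢
  have hPR : (P : ℝ) ≤ lT / q + 1 := by
    have h1 : ((Nat.log 2 T / q : ℕ) : ℝ) ≤ (Nat.log 2 T : ℝ) / q := Nat.cast_div_le
    have h2 : (Nat.log 2 T : ℝ) / q ≤ lT / q := div_le_div_of_nonneg_right hlT hq0.le
    rw [hP]
    push_cast
    linarith
  push_cast at h
  have h1 : 0.26 * (Y : ℝ) ≤ (P + 1) * L := by linarith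
  have h2 : ((P : ℝ) + 1) * L ≤ (lT / q + 2) * L :=
    mul_le_mul_of_nonneg_right (by linarith) hL0
  have h3 : 0.14 * (Y : ℝ) ≤ lT / q * L := by
    have : (lT / q + 2) * L = lT / q * L + 2 * L := by ring
    linarith
  have h4 : 0.14 * (Y : ℝ) * q ≤ L * lT := by
    have h5 := mul_le_mul_of_nonneg_right h3 hq0.le
    have e : lT / q * L * q = L * lT := by
      field_simp
    linarith
  have h5 : 0.04 * (Y : ℝ) ≤ q := by linarith
  have h6 : 0.14 * (Y : ℝ) * (0.04 * Y) ≤ 0.14 * (Y : ℝ) * q :=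
    mul_le_mul_of_nonneg_left h5 (by linarith)
  have h7 : 0.14 * (Y : ℝ) * (0.04 * Y) = 0.0056 * (Y : ℝ) ^ 2 := by ring
  have h8 : 0 ≤ (Y : ℝ) ^ 2 := by positivity
  linarith

theorem num7e (M q : ℕ) (hq : 2 ≤ q) (hM : M ≤ 2 ^ q) :
    3 * M * 2 ^ q * 3 ^ (9 * q) ≤ 4 ^ (9 * q) := by
  have h1 : 4 ≤ 2 ^ q := by
    calc 4 = 2 ^ 2 := by norm_num
      _ ≤ 2 ^ q := Nat.pow_le_pow_right (by norm_num) hq
  calc 3 * M * 2 ^ q * 3 ^ (9 * q) ≤ 2 ^ q * 2 ^ q * 2 ^ q * 3 ^ (9 * q) := by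
        apply Nat.mul_le_mul_right
        apply Nat.mul_le_mul_right
        exact Nat.mul_le_mul (by omega) hM
    _ = (2 ^ 3 * 3 ^ 9) ^ q := by
        rw [mul_pow, ← pow_mul, ← pow_mul]
        congr 1
        rw [← pow_add, ← pow_add]
        congr 1
        ring
    _ ≤ (4 ^ 9) ^ q := Nat.pow_le_pow_left (by norm_num) _
    _ = 4 ^ (9 * q) := by rw [← pow_mul]

theorem num7f (T q : ℕ) (hq : 0 < q) : T ≤ 2 ^ (q * (Nat.log 2 T / q + 1)) := by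
  have h1 : T < 2 ^ (Nat.log 2 T + 1) := Nat.lt_pow_succ_log_self (by norm_num) T
  refine h1.le.trans (Nat.pow_le_pow_right (by norm_num) ?_)
  have := Nat.lt_div_mul_add (a := Nat.log 2 T) hq
  have e : q * (Nat.log 2 T / q + 1) = Nat.log 2 T / q * q + q := by ring
  omega

end Pool.Agent.BW
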