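import Pool.Agent.Lib.BW.Final5
import Pool.Agent.Lib.BW.Comb7
import Pool.Agent.Lib.BW.Num7

/-!
# Final assembly, dag size against tree size

Project BW (helper10), after `Pool.Agent.Lib.SL.Final`.
-/

set_option autoImplicit false

namespace Pool.Agent.BW

open Finset Filter Pool.Agent.SL Pool.Agent.BWP

/-- the theorem with explicit parameters -/
theorem final_aux7 (hCore : Core2) (hSp : SpreadC) (hMain : MainS) (hCells : Cells5)
    (hFam : BWP.Family3) (kD A C : ℕ)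
    (c ℓ u n B N X w sk Γ tm : ℕ) (hKill : Kill3B kD (2 ^ (c + 19)) C)
    (hc : 2 ≤ c) (hn : n = 2 ^ ℓ) (hℓu : ℓ = u + 2)
    (hB : B = (c + 19) * ℓ) (hN : N = n * B) (hX : X = ℓ * (2 * 2 ^ u))
    (hu8 : 8 ≤ u) (hE3 : B ≤ 2 ^ ℓ) (hE2 : (200 * c + 600) * B ^ (c + 2) ≤ 2 ^ ℓ)
    (hE4 : Real.logb 2 (48 * (((4 * N ^ c + 12 : ℕ) : ℝ) + 4)) ≤ (X : ℝ) / 200)
    (hw : 6 * (c + 19) * w ≤ ℓ * 2 ^ u)
    (hsk : 32 * (c + 19) * (ℓ * 2 ^ u) ≤ sk * 2 ^ (c + 19))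
    (hsum : A * (C * Γ) + (sk + tm) ≤ w)
    (V : Finset (((Fin n × Fin B) → Bool) → Bool)) (hV : V.card ≤ 2 ^ (N ^ c)) :
    ∃ F : Finset (Clause (Fin n × Fin B)),
      (∀ x, ∃ C ∈ F, ¬ Holds C x) ∧
      F.card ≤ N ^ (2 * c + 40) ∧
      (∀ C ∈ F, C.card ≤ 2 * B) ∧
      ∀ t M S T : ℕ, t ≤ tm → M ≤ 2 ^ (X / 40) → 2 * (M * A) * kD < 2 ^ Γ →
        Nonempty (SRefutation F (IsSimple2 kD A t) (fun f => f ∈ V ∨ HasCircuit (N ^ c) f)
          (N ^ c) M S T) →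
        0.002 * (X : ℝ) ^ 2 ≤ Real.logb 2 ((S : ℝ) + 1) * Real.logb 2 ((T : ℝ) + 1) := by
  classical
  have hℓ10 : 10 ≤ ℓ := by omega
  have hℓB : ℓ ≤ B := by
    rw [hB]
    exact Nat.le_mul_of_pos_left _ (by omega)
  have hB1 : 1 ≤ B := by omega
  obtain ⟨Lset, hLset⟩ : ∃ Lset : Finset (((Fin n × Fin B) → Bool) → Bool),
      Lset = V ∪ univ.filter (fun f => HasCircuit (N ^ c) f) := ⟨_, rfl⟩
  have hLcard : Lset.card ≤ 2 ^ (N ^ c) + N ^ c * ((N + N ^ c) ^ 2) ^ (N ^ c) := by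
    rw [hLset]
    refine le_trans (card_union_le _ _) (Nat.add_le_add hV ?_)
    have h := r7 (Fin n × Fin B) (N ^ c)
    rw [Fintype.card_prod, Fintype.card_fin, Fintype.card_fin, ← hN] at h
    exact h
  have hu1 : n = 4 * 2 ^ u := by rw [hn, hℓu, pow_add]; ring
  have hpu : 2 ^ 8 ≤ 2 ^ u := Nat.pow_le_pow_right (by norm_num) hu8
  have hXN : X ≤ N := by
    rw [hX, hN, hu1, hB]
    calc ℓ * (2 * 2 ^ u) = 2 ^ u * (2 * ℓ) := by ring
      _ ≤ 4 * 2 ^ u * ((c + 19) * ℓ) := by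
          apply Nat.mul_le_mul (by omega)
          apply Nat.mul_le_mul_right
          omega
  -- the exponent lost for the cubes
  obtain ⟨K, hK⟩ : ∃ K, K = c + 19 := ⟨_, rfl⟩
  have hK20 : 20 ≤ K := by omega
  rw [← hK] at hw hsk hKill
  have hwKw : w ≤ K * w := Nat.le_mul_of_pos_left _ (by omega)
  obtain ⟨G, hG⟩ : ∃ G, G = ℓ * 2 ^ u := ⟨_, rfl⟩
  have hXG : X = 2 * G := by rw [hX, hG]; ring
  have hwG : 6 * (K * w) ≤ G := by
    rw [hG]
    calc 6 * (K * w) = 6 * K * w := by ring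
      _ ≤ ℓ * 2 ^ u := hw
  obtain ⟨e0, he0⟩ : ∃ e0, e0 = 3 * (K * w) := ⟨_, rfl⟩
  have he0X : 4 * e0 ≤ X := by omega
  have hNG : N = 4 * K * G := by
    rw [hN, hu1, hB, hG, hK]
    ring
  have hGN : G ≤ N := by
    rw [hNG]
    exact Nat.le_mul_of_pos_left _ (by omega)
  have hG0 : 0 < G := by
    rw [hG]
    exact Nat.mul_pos (by omega) (by positivity)
  obtain ⟨Y, hY⟩ : ∃ Y, Y = X - e0 := ⟨_, rfl⟩
  have hXY : X = e0 + Y := by omega
  have hY34 : 3 * X ≤ 4 * Y := by omega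
  obtain ⟨q, hq⟩ : ∃ q, q = Y / 20 := ⟨_, rfl⟩
  have hqN : 9 * q ≤ N := by omega
  have hfam := hFam c ℓ n B N (N ^ c) hc (by omega) hn hN rfl hB1 hℓB hE3 hE2
    Lset.card (9 * q) hqN hLcard
  obtain ⟨F, hF1, hF2, hF3, hF4⟩ := comb7 (n := n) (m := n - 1) (b := B)
    hCore hSp hMain hCells kD A (2 ^ K) C hKill (2 ^ ((c + 5 + 2 * 4) * ℓ))
    (2 ^ ((4 + 2) * ℓ)) (2 ^ ((c + 2) * ℓ)) (2 ^ u) 4 (9 * q) (N ^ c) (3 * ℓ) Γ tm (K * w) sk
    (by omega) (by omega) (by omega) (by omega) (by omega)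
    (by rw [← pow_add, hB]; congr 1; ring) Nat.one_le_two_pow (le_refl 4)
    (by
      rw [hn, ← pow_mul, ← pow_mul]
      calc 32 * 2 ^ ((c + 2) * ℓ) * 2 ^ (ℓ * 2) * 2 ^ (ℓ * (2 * 4))
          = 2 ^ (5 + (c + 2) * ℓ + ℓ * 2 + ℓ * (2 * 4)) := by
            rw [pow_add, pow_add, pow_add]; norm_num
        _ ≤ 2 ^ ((c + 5 + 2 * 4) * ℓ) := by
            apply Nat.pow_le_pow_right (by norm_num)
            calc 5 + (c + 2) * ℓ + ℓ * 2 + ℓ * (2 * 4)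
                ≤ ℓ + (c + 2) * ℓ + ℓ * 2 + ℓ * (2 * 4) := by omega
              _ = (c + 5 + 2 * 4) * ℓ := by ring)
    (by rw [hn, ← pow_mul, mul_comm ℓ (4 + 2)])
    (by omega)
    (by
      rw [hB]
      exact Nat.mul_le_mul_right _ (by omega))
    (by
      rw [← pow_add, hB]
      apply Nat.pow_le_pow_right (by norm_num)
      calc (c + 5 + 2 * 4) * ℓ + 3 * ℓ = (c + 16) * ℓ := by ring
        _ ≤ (c + 19) * ℓ := Nat.mul_le_mul_right _ (by omega))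
    (by
      rw [← hN, hNG, hG]
      calc 8 * (4 * K * (ℓ * 2 ^ u)) = 32 * K * (ℓ * 2 ^ u) := by ring
        _ ≤ sk * 2 ^ K := hsk)
    (by
      rw [hn, hB, ← hK, ← pow_mul]
      calc 4 * 2 ^ ℓ * 2 ^ (K * ℓ) * 2 ^ (3 * ℓ) = 2 ^ (2 + ℓ + K * ℓ + 3 * ℓ) := by
            rw [pow_add, pow_add, pow_add]; norm_num
        _ ≤ 2 ^ (K * (3 * ℓ)) := by
            apply Nat.pow_le_pow_right (by norm_num)
            have e1 : 20 * ℓ ≤ K * ℓ := Nat.mul_le_mul_right _ hK20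
            have e2 : K * (3 * ℓ) = 3 * (K * ℓ) := by ring
            omega)
    (by
      rw [hB, ← hK]
      calc (A * (C * Γ) + (sk + tm)) * (K * ℓ + 3 * ℓ) ≤ w * (K * ℓ + 3 * ℓ) :=
            Nat.mul_le_mul_right _ hsum
        _ = (K * w + 3 * w) * ℓ := by ring
        _ ≤ (3 * (K * w)) * ℓ := by
            apply Nat.mul_le_mul_right
            have e1 : 20 * w ≤ K * w := Nat.mul_le_mul_right _ hK20
            omega
        _ = K * w * (3 * ℓ) := by ring)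
    (by
      have e1 : 2 ^ u * (3 * ℓ) = 3 * G := by rw [hG]; ring
      omega)
    (by rw [← hN]; omega)
    Lset (by rw [← hN]; exact hfam)
  refine ⟨F, hF1, ?_, hF3, ?_⟩
  · -- number of clauses
    refine le_trans hF2 ?_
    have e1 : n ^ 2 * (2 ^ B) ^ 2 = n ^ (2 * c + 40) := by
      rw [hn, ← pow_mul, ← pow_mul, ← pow_mul, ← pow_add, hB]
      congr 1
      ring
    rw [e1, hN]
    apply Nat.pow_le_pow_left
    exact Nat.le_mul_of_pos_right _ hB1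
  · intro t M S T ht hM hkc hR
    obtain ⟨Rf⟩ := hR
    obtain ⟨S', hS'⟩ : ∃ S', S' = Rf.simpleᶜ.card := ⟨_, rfl⟩
    have hS'S : S' ≤ S := hS'.le.trans Rf.complex_card
    have hS'M : S' ≤ M := by
      rw [hS']
      exact (card_le_univ _).trans (by rw [Fintype.card_fin])
    have hR' : Nonempty (SRefutation F (IsSimple2 kD A tm) (fun f => f ∈ Lset) (N ^ c) M S' T) := by
      refine ⟨⟨Rf.line, Rf.simple, fun k hk => (Rf.isSimple k hk).mono ht, ?_, hS'.ge, Rf.size,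
        Rf.size_le, Rf.last, Rf.infer⟩⟩
      intro k hk
      rw [hLset, mem_union, mem_filter]
      rcases Rf.isComplex k hk with h | h
      · left; exact h
      · right; exact ⟨mem_univ _, h⟩
    have hX100 : 200 ≤ X := by
      rw [hX]
      calc 200 ≤ 1 * (2 * 2 ^ u) := by omega
        _ ≤ ℓ * (2 * 2 ^ u) := Nat.mul_le_mul (by omega) (le_refl _)
    have hY100 : 100 ≤ Y := by omega
    have hq2 : 2 ≤ q := by rw [hq]; omega
    have hXq : X / 40 ≤ q := by rw [hq]; omega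
    have hMq : M ≤ 2 ^ q := hM.trans (Nat.pow_le_pow_right (by norm_num) hXq)
    have h := hF4 M S' T (Nat.log 2 T / q + 1) q (num7f T q (by omega)) (num7e M q hq2 hMq) hkc hR'
    have hr0 : (0 : ℝ) ≤ ((N ^ c : ℕ) : ℝ) := Nat.cast_nonneg _
    have hpow : (2 : ℝ) ^ Y ≤ 48 * (((N ^ c : ℕ) : ℝ) + 4) * (2 ^ (9 * q + 2) *
        ((((Nat.log 2 T / q + 1 : ℕ) : ℝ) + 1) * (S' : ℝ) ^ (Nat.log 2 T / q + 1 + 1) + 1)) := by
      have hnt : (2 : ℝ) ^ X = (n : ℝ) ^ ((4 - 2) * 2 ^ u) := by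
        rw [hn]
        push_cast
        rw [← pow_mul, hX]
      have e2 : (((2 ^ (K * w) : ℕ) : ℝ)) ^ 2 = (2 : ℝ) ^ (2 * (K * w)) := by
        push_cast
        rw [← pow_mul]
        congr 1
        ring
      have e4 : (2 : ℝ) ^ X = (2 : ℝ) ^ (2 * (K * w)) * (2 : ℝ) ^ (K * w) *
          (2 : ℝ) ^ Y := by
        rw [← pow_add, ← pow_add]
        congr 1
        omega
      rw [← hnt, e2, e4] at h
      refine num7a ((2 : ℝ) ^ (2 * (K * w))) ((2 : ℝ) ^ (K * w)) ((2 : ℝ) ^ Y) _ _ (9 * q)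
        (pow_pos (by norm_num) _) (pow_pos (by norm_num) _) (pow_pos (by norm_num) _) ?_ hr0 h
      exact mul_nonneg (add_nonneg (Nat.cast_nonneg _) zero_le_one)
        (pow_nonneg (Nat.cast_nonneg _) _)
    have hE4' : Real.logb 2 (48 * (((N ^ c : ℕ) : ℝ) + 4)) ≤ (Y : ℝ) / 100 := by
      have h1 : Real.logb 2 (48 * (((N ^ c : ℕ) : ℝ) + 4)) ≤
          Real.logb 2 (48 * (((4 * N ^ c + 12 : ℕ) : ℝ) + 4)) := by
        apply Real.logb_le_logb_of_le (by norm_num) (by linarith)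
        have : (((4 * N ^ c + 12 : ℕ) : ℝ)) = 4 * ((N ^ c : ℕ) : ℝ) + 12 := by push_cast; ring
        rw [this]
        linarith
      refine (h1.trans hE4).trans ?_
      have : 3 * (X : ℝ) ≤ 4 * Y := by exact_mod_cast hY34
      linarith
    have h2 := num7c Y (9 * q) (Nat.log 2 T / q + 1) S' _ hr0 hE4' hpow
    have hS0 : (0 : ℝ) ≤ S' := Nat.cast_nonneg _
    have hL0 : 0 ≤ Real.logb 2 ((S' : ℝ) + 1) := Real.logb_nonneg (by norm_num) (by linarith)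
    have hL1 : Real.logb 2 ((S' : ℝ) + 1) ≤ q + 1 := by
      have h3 : S' + 1 ≤ 2 ^ (q + 1) := by
        have : 1 ≤ 2 ^ q := Nat.one_le_two_pow
        rw [pow_succ]
        omega
      have h4 : (S' : ℝ) + 1 ≤ (2 : ℝ) ^ (q + 1) := by exact_mod_cast h3
      have h5 := Real.logb_le_logb_of_le (b := 2) (by norm_num) (by linarith) h4
      rw [Real.logb_pow, Real.logb_self_eq_one (by norm_num), mul_one] at h5
      push_cast at h5
      exact h5
    have h3 := num7d Y q (Nat.log 2 T / q + 1) T _ hY100 hq rfl hL0 hL1 h2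
    have hLL : Real.logb 2 ((S' : ℝ) + 1) ≤ Real.logb 2 ((S : ℝ) + 1) := by
      apply Real.logb_le_logb_of_le (by norm_num) (by linarith)
      have : (S' : ℝ) ≤ S := by exact_mod_cast hS'S
      linarith
    have hT0 : (0 : ℝ) ≤ T := Nat.cast_nonneg _
    have hlT : 0 ≤ Real.logb 2 ((T : ℝ) + 1) := Real.logb_nonneg (by norm_num) (by linarith)
    have hXYR : 3 * (X : ℝ) ≤ 4 * Y := by exact_mod_cast hY34
    have hX0 : (0 : ℝ) ≤ X := Nat.cast_nonneg _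
    have h4 : (3 * (X : ℝ)) ^ 2 ≤ (4 * Y) ^ 2 := pow_le_pow_left₀ (by linarith) hXYR 2
    have h5 : 0 ≤ (X : ℝ) ^ 2 := by positivity
    have h6 : 0.002 * (X : ℝ) ^ 2 ≤ 0.005 * (Y : ℝ) ^ 2 := by linarith
    exact (h6.trans h3).trans (mul_le_mul_of_nonneg_right hLL hlT)

end Pool.Agent.BW
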