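import Pool.Agent.Lib.BW.Final5
import Pool.Agent.Lib.BW.Comb8
import Pool.Agent.Lib.BW.Num8
import Pool.Agent.Lib.BW.Conj

/-!
# Final assembly, large inferences

Project BW (helper10), after `Pool.Agent.Lib.SL.Final`.
-/

set_option autoImplicit false

namespace Pool.Agent.BW

open Finset Filter Pool.Agent.SL Pool.Agent.BWP

/-- the theorem with explicit parameters -/
theorem final_aux8 (hCore : Core2) (hSp : SpreadC) (hMain : MainP) (hCells : Cells5)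
    (hFam : BWP.Family3) (kD A C : ℕ)
    (c0 c ℓ u n B N X w sk Γ tm : ℕ) (hKill : Kill3B kD (2 ^ (c + 19)) C)
    (hc0 : 2 ≤ c0) (hc00 : c = 2 * c0 + 1) (hn : n = 2 ^ ℓ) (hℓu : ℓ = u + 2)
    (hB : B = (c + 19) * ℓ) (hN : N = n * B) (hX : X = ℓ * (2 * 2 ^ u))
    (hu8 : 8 ≤ u) (hE3 : B ≤ 2 ^ ℓ) (hE2 : (200 * c + 600) * B ^ (c + 2) ≤ 2 ^ ℓ)
    (hE4 : Real.logb 2 (24 * (2 * ((N ^ c0 : ℕ) : ℝ) + 1) *
      (((N ^ c0 : ℕ) : ℝ) + ((N ^ c : ℕ) : ℝ) + 2)) ≤ (X : ℝ) / 200)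
    (hE5 : 2 * N ^ c0 + 2 ≤ 2 ^ (X / 40))
    (hw : 6 * (c + 19) * w ≤ ℓ * 2 ^ u)
    (hsk : 32 * (c + 19) * (ℓ * 2 ^ u) ≤ sk * 2 ^ (c + 19))
    (hsum : A * (C * Γ) + (sk + tm) ≤ w)
    (V : Finset (((Fin n × Fin B) → Bool) → Bool)) (hV : V.card ≤ 2 ^ (N ^ c0)) :
    ∃ F : Finset (Clause (Fin n × Fin B)),
      (∀ x, ∃ C ∈ F, ¬ Holds C x) ∧
      F.card ≤ N ^ (2 * c + 40) ∧
      (∀ C ∈ F, C.card ≤ 2 * B) ∧
      ∀ t M S T : ℕ, t ≤ tm → M ≤ 2 ^ (X / 40) → 2 * (M * A) * kD < 2 ^ Γ →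
        Nonempty (BRefutation F (fun f => f ∈ V ∨ HasCircuit (N ^ c0) f) (IsSimple2 kD A t)
          (N ^ c0) (N ^ c0) M S T) →
        0.002 * (X : ℝ) ^ 2 ≤ Real.logb 2 ((S : ℝ) + 1) * Real.logb 2 ((T : ℝ) + 1) := by
  classical
  have hℓ10 : 10 ≤ ℓ := by omega
  have hℓB : ℓ ≤ B := by
    rw [hB]
    exact Nat.le_mul_of_pos_left _ (by omega)
  have hB1 : 1 ≤ B := by omega
  have hc : 2 ≤ c := by omega
  have hNpos : 0 < N := by
    rw [hN, hn]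
    exact Nat.mul_pos (by positivity) (by omega)
  obtain ⟨L0, hL0⟩ : ∃ L0 : Finset (((Fin n × Fin B) → Bool) → Bool),
      L0 = V ∪ univ.filter (fun f => HasCircuit (N ^ c0) f) := ⟨_, rfl⟩
  have hL0card : L0.card ≤ 2 ^ (N ^ c0) + N ^ c0 * ((N + N ^ c0) ^ 2) ^ (N ^ c0) := by
    rw [hL0]
    refine le_trans (card_union_le _ _) (Nat.add_le_add hV ?_)
    have h := r7 (Fin n × Fin B) (N ^ c0)
    rw [Fintype.card_prod, Fintype.card_fin, Fintype.card_fin, ← hN] at h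
    exact h
  have h6c : 6 * c0 + 10 ≤ n := by
    rw [hn]
    refine le_trans ?_ hE2
    calc 6 * c0 + 10 ≤ (200 * c + 600) * 1 := by omega
      _ ≤ (200 * c + 600) * B ^ (c + 2) := Nat.mul_le_mul_left _ (Nat.one_le_pow _ _ hB1)
  obtain ⟨Lset, hLc, hconj⟩ := conj_family L0 (N ^ c0)
  have hLcard : Lset.card ≤ 2 ^ (N ^ c) + N ^ c * ((N + N ^ c) ^ 2) ^ (N ^ c) := by
    have h1 := conj_num c0 ℓ N B n L0.card hc0 hn hN hℓB hℓ10 hE3 h6c hL0card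
    rw [← hc00] at h1
    exact (hLc.trans h1).trans (Nat.le_add_right _ _)
  have hu1 : n = 4 * 2 ^ u := by rw [hn, hℓu, pow_add]; ring
  have hpu : 2 ^ 8 ≤ 2 ^ u := Nat.pow_le_pow_right (by norm_num) hu8
  have hXN : X ≤ N := by
    rw [hX, hN, hu1, hB]
    calc ℓ * (2 * 2 ^ u) = 2 ^ u * (2 * ℓ) := by ring
      _ ≤ 4 * 2 ^ u * ((c + 19) * ℓ) := by
          apply Nat.mul_le_mul (by omega)
          apply Nat.mul_le_mul_right
          omega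
  -- the exponent lost for the cubes
  obtain ⟨K, hK⟩ : ∃ K, K = c + 19 := ⟨_, rfl⟩
  have hK20 : 20 ≤ K := by omega
  rw [← hK] at hw hsk hKill
  have hwKw : w ≤ K * w := Nat.le_mul_of_pos_left _ (by omega)
  obtain ⟨G, hG⟩ : ∃ G, G = ℓ * 2 ^ u := ⟨_, rfl⟩
  have hXG : X = 2 * G := by rw [hX, hG]; ring
  have hwG : 6 * (K * w) ≤ G := by
    rw [hG]
    calc 6 * (K * w) = 6 * K * w := by ring
      _ ≤ ℓ * 2 ^ u := hw
  obtain ⟨e0, he0⟩ : ∃ e0, e0 = 3 * (K * w) := ⟨_, rfl⟩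
  have he0X : 4 * e0 ≤ X := by omega
  have hNG : N = 4 * K * G := by
    rw [hN, hu1, hB, hG, hK]
    ring
  have hGN : G ≤ N := by
    rw [hNG]
    exact Nat.le_mul_of_pos_left _ (by omega)
  have hG0 : 0 < G := by
    rw [hG]
    exact Nat.mul_pos (by omega) (by positivity)
  obtain ⟨Y, hY⟩ : ∃ Y, Y = X - e0 := ⟨_, rfl⟩
  have hXY : X = e0 + Y := by omega
  have hY34 : 3 * X ≤ 4 * Y := by omega
  obtain ⟨q, hq⟩ : ∃ q, q = Y / 20 := ⟨_, rfl⟩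
  have hqN : 9 * q ≤ N := by omega
  have hfam := hFam c ℓ n B N (N ^ c) hc (by omega) hn hN rfl hB1 hℓB hE3 hE2
    Lset.card (9 * q) hqN hLcard
  obtain ⟨F, hF1, hF2, hF3, hF4⟩ := comb8 (n := n) (m := n - 1) (b := B)
    hCore hSp hMain hCells kD A (2 ^ K) C hKill (2 ^ ((c + 5 + 2 * 4) * ℓ))
    (2 ^ ((4 + 2) * ℓ)) (2 ^ ((c + 2) * ℓ)) (2 ^ u) 4 (9 * q) (N ^ c) (N ^ c0) (3 * ℓ) Γ tm (K * w) sk
    (Nat.one_le_pow _ _ hNpos)
    (by omega) (by omega) (by omega) (by omega) (by omega)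
    (by rw [← pow_add, hB]; congr 1; ring) Nat.one_le_two_pow (le_refl 4)
    (by
      rw [hn, ← pow_mul, ← pow_mul]
      calc 32 * 2 ^ ((c + 2) * ℓ) * 2 ^ (ℓ * 2) * 2 ^ (ℓ * (2 * 4))
          = 2 ^ (5 + (c + 2) * ℓ + ℓ * 2 + ℓ * (2 * 4)) := by
            rw [pow_add, pow_add, pow_add]; norm_num
        _ ≤ 2 ^ ((c + 5 + 2 * 4) * ℓ) := by
            apply Nat.pow_le_pow_right (by norm_num)
            calc 5 + (c + 2) * ℓ + ℓ * 2 + ℓ * (2 * 4)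
                ≤ ℓ + (c + 2) * ℓ + ℓ * 2 + ℓ * (2 * 4) := by omega
              _ = (c + 5 + 2 * 4) * ℓ := by ring)
    (by rw [hn, ← pow_mul, mul_comm ℓ (4 + 2)])
    (by omega)
    (by
      rw [hB]
      exact Nat.mul_le_mul_right _ (by omega))
    (by
      rw [← pow_add, hB]
      apply Nat.pow_le_pow_right (by norm_num)
      calc (c + 5 + 2 * 4) * ℓ + 3 * ℓ = (c + 16) * ℓ := by ring
        _ ≤ (c + 19) * ℓ := Nat.mul_le_mul_right _ (by omega))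
    (by
      rw [← hN, hNG, hG]
      calc 8 * (4 * K * (ℓ * 2 ^ u)) = 32 * K * (ℓ * 2 ^ u) := by ring
        _ ≤ sk * 2 ^ K := hsk)
    (by
      rw [hn, hB, ← hK, ← pow_mul]
      calc 4 * 2 ^ ℓ * 2 ^ (K * ℓ) * 2 ^ (3 * ℓ) = 2 ^ (2 + ℓ + K * ℓ + 3 * ℓ) := by
            rw [pow_add, pow_add, pow_add]; norm_num
        _ ≤ 2 ^ (K * (3 * ℓ)) := by
            apply Nat.pow_le_pow_right (by norm_num)
            have e1 : 20 * ℓ ≤ K * ℓ := Nat.mul_le_mul_right _ hK20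
            have e2 : K * (3 * ℓ) = 3 * (K * ℓ) := by ring
            omega)
    (by
      rw [hB, ← hK]
      calc (A * (C * Γ) + (sk + tm)) * (K * ℓ + 3 * ℓ) ≤ w * (K * ℓ + 3 * ℓ) :=
            Nat.mul_le_mul_right _ hsum
        _ = (K * w + 3 * w) * ℓ := by ring
        _ ≤ (3 * (K * w)) * ℓ := by
            apply Nat.mul_le_mul_right
            have e1 : 20 * w ≤ K * w := Nat.mul_le_mul_right _ hK20
            omega
        _ = K * w * (3 * ℓ) := by ring)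
    (by
      have e1 : 2 ^ u * (3 * ℓ) = 3 * G := by rw [hG]; ring
      omega)
    (by rw [← hN]; omega)
    L0 Lset hconj (by rw [← hN]; exact hfam)
  refine ⟨F, hF1, ?_, hF3, ?_⟩
  · -- number of clauses
    refine le_trans hF2 ?_
    have e1 : n ^ 2 * (2 ^ B) ^ 2 = n ^ (2 * c + 40) := by
      rw [hn, ← pow_mul, ← pow_mul, ← pow_mul, ← pow_add, hB]
      congr 1
      ring
    rw [e1, hN]
    apply Nat.pow_le_pow_left
    exact Nat.le_mul_of_pos_right _ hB1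
  · intro t M S T ht hM hkc hR
    obtain ⟨Rf⟩ := hR
    obtain ⟨S', hS'⟩ : ∃ S', S' = min S M := ⟨_, rfl⟩
    have hS'S : S' ≤ S := by rw [hS']; exact min_le_left _ _
    have hS'M : S' ≤ M := by rw [hS']; exact min_le_right _ _
    have hcc0 : N ^ c0 ≤ N ^ c := Nat.pow_le_pow_right hNpos (by omega)
    have hR' : Nonempty (BRefutation F (fun f => f ∈ L0) (IsSimple2 kD A tm) (N ^ c0) (N ^ c)
        M S' T) := by
      refine ⟨⟨Rf.line, ?_, Rf.simple, fun k hk => (Rf.isSimple k hk).mono ht, Rf.anc, ?_,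
        Rf.size, Rf.size_le, Rf.last, ?_⟩⟩
      · intro k
        rw [hL0, mem_union, mem_filter]
        rcases Rf.isLine k with h | h
        · left; exact h
        · right; exact ⟨mem_univ _, h⟩
      · intro k hk
        rw [hS']
        exact le_min (Rf.anc_card k hk) ((card_le_univ _).trans (by rw [Fintype.card_fin]))
      · intro k
        obtain ⟨R, hRF, hRc, h⟩ := Rf.infer k
        exact ⟨R, hRF, hRc.trans hcc0, h⟩
    have hX100 : 200 ≤ X := by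
      rw [hX]
      calc 200 ≤ 1 * (2 * 2 ^ u) := by omega
        _ ≤ ℓ * (2 * 2 ^ u) := Nat.mul_le_mul (by omega) (le_refl _)
    have hY100 : 100 ≤ Y := by omega
    have hq2 : 2 ≤ q := by rw [hq]; omega
    have hXq : X / 40 ≤ q := by rw [hq]; omega
    have hMq : M ≤ 2 ^ q := hM.trans (Nat.pow_le_pow_right (by norm_num) hXq)
    have hpq : 2 * N ^ c0 + 2 ≤ 2 ^ q := hE5.trans (Nat.pow_le_pow_right (by norm_num) hXq)
    have h := hF4 M S' T (Nat.log 2 T / q + 1) q (num7f T q (by omega))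
      (num8e (N ^ c0) M q hpq hMq) hkc hR'
    have hr0 : (0 : ℝ) ≤ ((N ^ c : ℕ) : ℝ) := Nat.cast_nonneg _
    have hp0 : (0 : ℝ) ≤ ((N ^ c0 : ℕ) : ℝ) := Nat.cast_nonneg _
    have hS0 : (0 : ℝ) ≤ S' := Nat.cast_nonneg _
    have hpow : (2 : ℝ) ^ Y ≤ 24 * (2 * ((N ^ c0 : ℕ) : ℝ) + 1) *
        (((N ^ c0 : ℕ) : ℝ) + ((N ^ c : ℕ) : ℝ) + 2) *
        (2 ^ (9 * q + 2) * ((S' : ℝ) + 1) ^ (Nat.log 2 T / q + 1)) := by
      have hnt : (2 : ℝ) ^ X = (n : ℝ) ^ ((4 - 2) * 2 ^ u) := by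
        rw [hn]
        push_cast
        rw [← pow_mul, hX]
      have e2 : (((2 ^ (K * w) : ℕ) : ℝ)) = (2 : ℝ) ^ (K * w) := by
        push_cast
        rfl
      have e4 : (2 : ℝ) ^ X = (2 : ℝ) ^ (K * w) * (2 : ℝ) ^ (K * w) * (2 : ℝ) ^ (K * w) *
          (2 : ℝ) ^ Y := by
        rw [← pow_add, ← pow_add, ← pow_add]
        congr 1
        omega
      rw [← hnt, e2, e4] at h
      exact num8a ((2 : ℝ) ^ (K * w)) ((2 : ℝ) ^ Y) _ _ _ (9 * q)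
        (one_le_pow₀ (by norm_num)) (pow_pos (by norm_num) _) hp0 hr0
        (pow_nonneg (by linarith) _) h
    have hE4' : Real.logb 2 (24 * (2 * ((N ^ c0 : ℕ) : ℝ) + 1) *
        (((N ^ c0 : ℕ) : ℝ) + ((N ^ c : ℕ) : ℝ) + 2)) ≤ (Y : ℝ) / 100 := by
      refine hE4.trans ?_
      have : 3 * (X : ℝ) ≤ 4 * Y := by exact_mod_cast hY34
      linarith
    have h2 := num8c Y (9 * q) (Nat.log 2 T / q + 1) S' _
      (mul_pos (mul_pos (by norm_num) (by linarith)) (by linarith)) hE4' hpow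
    have hLL0 : 0 ≤ Real.logb 2 ((S' : ℝ) + 1) := Real.logb_nonneg (by norm_num) (by linarith)
    have hL1 : Real.logb 2 ((S' : ℝ) + 1) ≤ q + 1 := by
      have h3 : S' + 1 ≤ 2 ^ (q + 1) := by
        have : 1 ≤ 2 ^ q := Nat.one_le_two_pow
        rw [pow_succ]
        omega
      have h4 : (S' : ℝ) + 1 ≤ (2 : ℝ) ^ (q + 1) := by exact_mod_cast h3
      have h5 := Real.logb_le_logb_of_le (b := 2) (by norm_num) (by linarith) h4
      rw [Real.logb_pow, Real.logb_self_eq_one (by norm_num), mul_one] at h5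
      push_cast at h5
      exact h5
    have h3 := num8d Y q (Nat.log 2 T / q + 1) T _ hY100 hq rfl hLL0 hL1 h2
    have hLL : Real.logb 2 ((S' : ℝ) + 1) ≤ Real.logb 2 ((S : ℝ) + 1) := by
      apply Real.logb_le_logb_of_le (by norm_num) (by linarith)
      have : (S' : ℝ) ≤ S := by exact_mod_cast hS'S
      linarith
    have hT0 : (0 : ℝ) ≤ T := Nat.cast_nonneg _
    have hlT : 0 ≤ Real.logb 2 ((T : ℝ) + 1) := Real.logb_nonneg (by norm_num) (by linarith)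
    have hXYR : 3 * (X : ℝ) ≤ 4 * Y := by exact_mod_cast hY34
    have hX0 : (0 : ℝ) ≤ X := Nat.cast_nonneg _
    have h4 : (3 * (X : ℝ)) ^ 2 ≤ (4 * Y) ^ 2 := pow_le_pow_left₀ (by linarith) hXYR 2
    have h5 : 0 ≤ (X : ℝ) ^ 2 := by positivity
    have h6 : 0.002 * (X : ℝ) ^ 2 ≤ 0.005 * (Y : ℝ) ^ 2 := by linarith
    exact (h6.trans h3).trans (mul_le_mul_of_nonneg_right hLL hlT)

end Pool.Agent.BW
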