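import Pool.Agent.Lib.BW.Defs

/-!
# Bounded workspace (MP_e81270_lc): row KILL (helper68)
-/

set_option autoImplicit false

namespace Pool.Agent.BW

open Finset Pool.Agent.SL

namespace KillX

variable {n m S : ℕ} {α : Type} [Fintype α] [DecidableEq α]

/-- wide clauses which are not satisfied -/
def bad (τ : ℕ) (A : Fin S → Fin n → Finset α) (T : Finset (Fin n)) (a : Fin n → α) :
    Finset (Fin S) :=
  univ.filter fun k => τ ≤ (univ.filter fun i => A k i ≠ ∅).card ∧ ∀ i ∈ T, a i ∉ A k i

omit [DecidableEq α] in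
lemma card_prod (P : Fin n × α → Prop) [DecidablePred P] :
    (univ.filter P).card = ∑ i, (univ.filter fun v => P (i, v)).card := by
  simp only [Finset.card_filter, Fintype.sum_prod_type]

lemma forb {g : Fin n → α → Fin m}
    (hg : ∀ (i : Fin n) (c : Fin m),
      (univ.filter fun a : α => g i a = c).card * m ≤ 2 * Fintype.card α)
    {s : ℕ} (hs : 16 * s ≤ m) {T : Finset (Fin n)} (hT : T.card ≤ s) (a : Fin n → α)
    (i : Fin n) :
    8 * (univ.filter fun v => ∃ i' ∈ T, g i v = g i' (a i')).card ≤ Fintype.card α := by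
  rcases Nat.eq_zero_or_pos m with h0 | h0
  · have h1 : T = ∅ := card_eq_zero.1 (by omega)
    subst h1
    simp
  · have h1 : (univ.filter fun v => ∃ i' ∈ T, g i v = g i' (a i')).card * m
        ≤ T.card * (2 * Fintype.card α) := by
      have h2 : (univ.filter fun v => ∃ i' ∈ T, g i v = g i' (a i')) ⊆
          T.biUnion fun i' => univ.filter fun v => g i v = g i' (a i') := by
        intro v hv
        simp only [mem_filter, mem_univ, true_and] at hv
        obtain ⟨i', h3, h4⟩ := hv
        exact mem_biUnion.2 ⟨i', h3, by simp [h4]⟩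
      calc _ ≤ (∑ i' ∈ T, (univ.filter fun v => g i v = g i' (a i')).card) * m :=
            Nat.mul_le_mul_right _ ((card_le_card h2).trans card_biUnion_le)
        _ = ∑ i' ∈ T, (univ.filter fun v => g i v = g i' (a i')).card * m := sum_mul _ _ _
        _ ≤ ∑ i' ∈ T, 2 * Fintype.card α := sum_le_sum fun i' _ => hg i _
        _ = _ := by rw [sum_const, smul_eq_mul]
    refine Nat.le_of_mul_le_mul_right ?_ h0
    calc 8 * (univ.filter fun v => ∃ i' ∈ T, g i v = g i' (a i')).card * m
        = 8 * ((univ.filter fun v => ∃ i' ∈ T, g i v = g i' (a i')).card * m) := by ring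
      _ ≤ 8 * (T.card * (2 * Fintype.card α)) := Nat.mul_le_mul_left _ h1
      _ ≤ 8 * (s * (2 * Fintype.card α)) := by gcongr
      _ = (16 * s) * Fintype.card α := by ring
      _ ≤ m * Fintype.card α := Nat.mul_le_mul_right _ hs
      _ = _ := mul_comm _ _

lemma step [Nonempty α] {g : Fin n → α → Fin m} (hn : 1 ≤ n)
    (hg : ∀ (i : Fin n) (c : Fin m),
      (univ.filter fun a : α => g i a = c).card * m ≤ 2 * Fintype.card α)
    {s τ : ℕ} (hsτ : 2 * s ≤ τ) (hs : 16 * s ≤ m) {A : Fin S → Fin n → Finset α}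
    (hA : ∀ k i, A k i = ∅ ∨ Fintype.card α ≤ 2 * (A k i).card)
    {T : Finset (Fin n)} {a : Fin n → α} (hT : T.card < s) (hd : ¬ Dead g T a) :
    ∃ (T' : Finset (Fin n)) (a' : Fin n → α), T'.card ≤ T.card + 1 ∧ ¬ Dead g T' a' ∧
      ((bad τ A T' a').card : ℝ) ≤ (bad τ A T a).card * (1 - 3 * (τ : ℝ) / (16 * n)) := by
  by_cases hB : (bad τ A T a) = ∅
  · exact ⟨T, a, by omega, hd, by rw [hB]; simp⟩
  have hB0 : 0 < (bad τ A T a).card := card_pos.2 (nonempty_iff_ne_empty.2 hB)
  have hα0 : 0 < Fintype.card α := Fintype.card_pos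
  have hτ0 : 0 < τ := by omega
  set B := bad τ A T a with hBdef
  set Al : Finset (Fin n × α) :=
    univ.filter fun p => p.1 ∉ T ∧ ∀ i' ∈ T, g p.1 p.2 ≠ g i' (a i') with hAl
  -- one clause
  have h1 : ∀ k ∈ B, 3 * τ * Fintype.card α ≤ 16 * (Al.filter fun p => p.2 ∈ A k p.1).card := by
    intro k hk
    have hk' : τ ≤ (univ.filter fun i => A k i ≠ ∅).card := by
      rw [hBdef, bad, mem_filter] at hk
      exact hk.2.1
    rw [hAl, filter_filter, card_prod]
    set I : Finset (Fin n) := (univ.filter fun i => A k i ≠ ∅) \ T with hI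
    have hIc : τ ≤ 2 * I.card := by
      have h2 : (univ.filter fun i => A k i ≠ ∅).card ≤ I.card + T.card :=
        card_le_card_sdiff_add_card
      omega
    have h3 : ∀ i ∈ I, 3 * Fintype.card α ≤ 8 * (univ.filter fun v =>
        ((i, v).1 ∉ T ∧ ∀ i' ∈ T, g (i, v).1 (i, v).2 ≠ g i' (a i')) ∧
          (i, v).2 ∈ A k (i, v).1).card := by
      intro i hi
      rw [hI, mem_sdiff, mem_filter] at hi
      have h4 := forb hg hs hT.le a i
      have h5 : Fintype.card α ≤ 2 * (A k i).card := (hA k i).resolve_left hi.1.2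
      have h6 : (A k i) \ (univ.filter fun v => ∃ i' ∈ T, g i v = g i' (a i')) ⊆
          (univ.filter fun v => ((i, v).1 ∉ T ∧ ∀ i' ∈ T, g (i, v).1 (i, v).2 ≠ g i' (a i')) ∧
          (i, v).2 ∈ A k (i, v).1) := by
        intro v hv
        rw [mem_sdiff, mem_filter] at hv
        rw [mem_filter]
        refine ⟨mem_univ _, ⟨hi.2, fun i' hi' h => hv.2 ⟨mem_univ _, i', hi', h⟩⟩, hv.1⟩
      have h7 := card_le_card h6
      have h8 : (A k i).card ≤ ((A k i) \ (univ.filter fun v => ∃ i' ∈ T, g i v = g i' (a i'))).card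
          + (univ.filter fun v => ∃ i' ∈ T, g i v = g i' (a i')).card :=
        card_le_card_sdiff_add_card
      omega
    have h4 : I.card * (3 * Fintype.card α) ≤ 8 * ∑ i, (univ.filter fun v =>
        ((i, v).1 ∉ T ∧ ∀ i' ∈ T, g (i, v).1 (i, v).2 ≠ g i' (a i')) ∧
          (i, v).2 ∈ A k (i, v).1).card := by
      calc I.card * (3 * Fintype.card α) = ∑ i ∈ I, 3 * Fintype.card α := by
            rw [sum_const, smul_eq_mul]
        _ ≤ ∑ i ∈ I, 8 * (univ.filter fun v =>
            ((i, v).1 ∉ T ∧ ∀ i' ∈ T, g (i, v).1 (i, v).2 ≠ g i' (a i')) ∧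
            (i, v).2 ∈ A k (i, v).1).card := sum_le_sum h3
        _ ≤ ∑ i, 8 * (univ.filter fun v =>
            ((i, v).1 ∉ T ∧ ∀ i' ∈ T, g (i, v).1 (i, v).2 ≠ g i' (a i')) ∧
            (i, v).2 ∈ A k (i, v).1).card :=
            sum_le_sum_of_subset (subset_univ _)
        _ = _ := (mul_sum _ _ _).symm
    calc 3 * τ * Fintype.card α = τ * (3 * Fintype.card α) := by ring
      _ ≤ 2 * I.card * (3 * Fintype.card α) := Nat.mul_le_mul_right _ hIc
      _ = 2 * (I.card * (3 * Fintype.card α)) := by ring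
      _ ≤ 2 * (8 * _) := Nat.mul_le_mul_left _ h4
      _ = _ := by ring
  -- all clauses
  have h2 : B.card * (3 * τ * Fintype.card α) ≤
      16 * ∑ p ∈ Al, (B.filter fun k => p.2 ∈ A k p.1).card := by
    have h3 : ∑ p ∈ Al, (B.filter fun k => p.2 ∈ A k p.1).card =
        ∑ k ∈ B, (Al.filter fun p => p.2 ∈ A k p.1).card := by
      simp only [Finset.card_filter]
      exact sum_comm
    rw [h3, mul_sum]
    calc B.card * (3 * τ * Fintype.card α) = ∑ k ∈ B, 3 * τ * Fintype.card α := by
          rw [sum_const, smul_eq_mul]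
      _ ≤ _ := sum_le_sum h1
  have hpos : 0 < B.card * (3 * τ * Fintype.card α) := by positivity
  have hAlne : Al.Nonempty := by
    rw [nonempty_iff_ne_empty]
    intro h
    rw [h, sum_empty] at h2
    omega
  have hAlc : Al.card ≤ n * Fintype.card α := by
    refine (card_le_univ _).trans (le_of_eq ?_)
    rw [Fintype.card_prod, Fintype.card_fin]
  -- the pair
  obtain ⟨p, hp, hpc⟩ : ∃ p ∈ Al, B.card * (3 * τ) ≤
      16 * n * (B.filter fun k => p.2 ∈ A k p.1).card := by
    by_contra hcon
    push Not at hcon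
    have h3 := sum_lt_sum_of_nonempty hAlne hcon
    rw [sum_const, smul_eq_mul, ← mul_sum] at h3
    have h4 : Al.card * (B.card * (3 * τ)) ≤ n * Fintype.card α * (B.card * (3 * τ)) :=
      Nat.mul_le_mul_right _ hAlc
    have h5 := Nat.mul_le_mul_left n h2
    have h6 : n * (B.card * (3 * τ * Fintype.card α)) = n * Fintype.card α * (B.card * (3 * τ)) := by
      ring
    have h7 : n * (16 * ∑ p ∈ Al, (B.filter fun k => p.2 ∈ A k p.1).card) =
        16 * n * ∑ p ∈ Al, (B.filter fun k => p.2 ∈ A k p.1).card := by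
      ring
    omega
  obtain ⟨i, v⟩ := p
  rw [hAl, mem_filter] at hp
  obtain ⟨-, hiT, hlab⟩ := hp
  dsimp only at hiT hlab hpc
  refine ⟨insert i T, Function.update a i v, card_insert_le _ _, ?_, ?_⟩
  · rintro ⟨i₁, h1', i₂, h2', hne, heq⟩
    have hup : ∀ j ∈ T, Function.update a i v j = a j := fun j hj =>
      Function.update_of_ne (fun h : j = i => hiT (h ▸ hj)) _ _
    rcases mem_insert.1 h1' with h3 | h3
    · rcases mem_insert.1 h2' with h4 | h4
      · exact hne (h3.trans h4.symm)
      · subst h3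
        rw [Function.update_self, hup i₂ h4] at heq
        exact hlab i₂ h4 heq
    · rcases mem_insert.1 h2' with h4 | h4
      · subst h4
        rw [Function.update_self, hup i₁ h3] at heq
        exact hlab i₁ h3 heq.symm
      · rw [hup i₁ h3, hup i₂ h4] at heq
        exact hd ⟨i₁, h3, i₂, h4, hne, heq⟩
  · have h3 : bad τ A (insert i T) (Function.update a i v) ⊆ B \ (B.filter fun k => v ∈ A k i) := by
      intro k hk
      rw [bad, mem_filter] at hk
      have h4 : k ∈ B := by
        rw [hBdef, bad, mem_filter]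
        refine ⟨mem_univ _, hk.2.1, fun j hj => ?_⟩
        have h5 := hk.2.2 j (mem_insert_of_mem hj)
        rwa [Function.update_of_ne (fun h : j = i => hiT (h ▸ hj))] at h5
      have h6 := hk.2.2 i (mem_insert_self _ _)
      rw [Function.update_self] at h6
      rw [mem_sdiff, mem_filter]
      exact ⟨h4, fun h => h6 h.2⟩
    have h4 := card_le_card h3
    have h5 : (B \ (B.filter fun k => v ∈ A k i)).card + (B.filter fun k => v ∈ A k i).card = B.card :=
      card_sdiff_add_card_eq_card (filter_subset _ _)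
    have h6 : ((bad τ A (insert i T) (Function.update a i v)).card : ℝ)
        + (B.filter fun k => v ∈ A k i).card ≤ B.card := by exact_mod_cast (by omega)
    have h7 : (B.card : ℝ) * (3 * τ) ≤ 16 * n * (B.filter fun k => v ∈ A k i).card := by
      exact_mod_cast hpc
    have hn0 : (0 : ℝ) < 16 * n := by
      have : (0 : ℝ) < n := by exact_mod_cast hn
      linarith
    have h8 : (B.card : ℝ) * (3 * (τ : ℝ) / (16 * n)) ≤ (B.filter fun k => v ∈ A k i).card := by
      rw [← mul_div_assoc, div_le_iff₀ hn0]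
      linarith
    rw [mul_sub, mul_one]
    linarith

end KillX

open KillX in
theorem kill : Kill := by
  intro n m S s τ α _ _ _ g hn hg hsτ hs A hA hlt
  rcases Nat.lt_or_ge n τ with hτ | hτ
  · refine ⟨∅, fun _ => Classical.arbitrary α, by simp, ?_, fun k hk => ?_⟩
    · rintro ⟨i, h1, -⟩
      simp at h1
    · exfalso
      have h1 : (univ.filter fun i => A k i ≠ ∅).card ≤ n :=
        (card_le_univ _).trans (le_of_eq (Fintype.card_fin n))
      omega
  have hn0 : (0 : ℝ) < 16 * n := by
    have : (0 : ℝ) < n := by exact_mod_cast hn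
    linarith
  have hρ : 0 ≤ 1 - 3 * (τ : ℝ) / (16 * n) := by
    have h1 : (τ : ℝ) ≤ n := by exact_mod_cast hτ
    have h2 : 3 * (τ : ℝ) / (16 * n) ≤ 1 := by
      rw [div_le_one hn0]
      have : (0 : ℝ) ≤ n := Nat.cast_nonneg _
      linarith
    linarith
  have key : ∀ j : ℕ, j ≤ s → ∃ (T : Finset (Fin n)) (a : Fin n → α), T.card ≤ j ∧ ¬ Dead g T a ∧
      ((bad τ A T a).card : ℝ) ≤ S * (1 - 3 * (τ : ℝ) / (16 * n)) ^ j := by
    intro j
    induction j with
    | zero =>
      intro _
      refine ⟨∅, fun _ => Classical.arbitrary α, by simp, ?_, ?_⟩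
      · rintro ⟨i, h1, -⟩
        simp at h1
      · rw [pow_zero, mul_one]
        have h1 : (bad τ A ∅ fun _ => Classical.arbitrary α).card ≤ S :=
          (card_le_univ _).trans (le_of_eq (Fintype.card_fin S))
        exact_mod_cast h1
    | succ j ih =>
      intro hj
      obtain ⟨T, a, h1, h2, h3⟩ := ih (by omega)
      obtain ⟨T', a', h4, h5, h6⟩ := step hn hg hsτ hs hA (by omega : T.card < s) h2
      refine ⟨T', a', by omega, h5, h6.trans ?_⟩
      rw [pow_succ, ← mul_assoc]
      exact mul_le_mul_of_nonneg_right h3 hρ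
  obtain ⟨T, a, h1, h2, h3⟩ := key s le_rfl
  refine ⟨T, a, h1, h2, fun k hk => ?_⟩
  have h4 : (bad τ A T a).card = 0 := by
    have h5 : ((bad τ A T a).card : ℝ) < 1 := lt_of_le_of_lt h3 hlt
    have h6 : (bad τ A T a).card < 1 := by exact_mod_cast h5
    omega
  by_contra hcon
  push Not at hcon
  have h5 : k ∈ bad τ A T a := by
    rw [bad, mem_filter]
    exact ⟨mem_univ _, hk, hcon⟩
  rw [card_eq_zero] at h4
  rw [h4] at h5
  simp at h5

end Pool.Agent.BW
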