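import Pool.Agent.Lib.BW.Defs5

/-!
# Row KILL2

Project BW (helper10).
-/

set_option autoImplicit false

namespace Pool.Agent.BW

open Finset Pool.Agent.SL

namespace Kill2x

variable {n b S : ℕ}

/-- the wide clauses which are not yet satisfied -/
noncomputable def alive (w : ℕ) (C : Fin S → Clause (Fin n × Fin b)) (E : Finset (Fin n × Fin b))
    (y : Fin n → Fin b → Bool) : Finset (Fin S) := by
  classical
  exact univ.filter fun k => w ≤ (C k).card ∧ ¬ ∃ l ∈ C k, l.1 ∈ E ∧ y l.1.1 l.1.2 = l.2

/-- the full blocks -/
def sat (f : ℕ) (E : Finset (Fin n × Fin b)) : Finset (Fin n) :=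
  univ.filter fun i => f ≤ (univ.filter fun u => (i, u) ∈ E).card

theorem sat_card (f : ℕ) (E : Finset (Fin n × Fin b)) : (sat f E).card * f ≤ E.card := by
  classical
  have h1 : E.card = ∑ i : Fin n, (univ.filter fun u => (i, u) ∈ E).card := by
    rw [card_eq_sum_card_fiberwise (f := Prod.fst) (t := univ) (fun _ _ => by simp)]
    refine sum_congr rfl fun i _ => ?_
    refine card_nbij' (fun v => v.2) (fun u => (i, u)) ?_ ?_ ?_ ?_
    · rintro ⟨j, u⟩ hv
      simp only [mem_coe, mem_filter] at hv
      obtain ⟨hv, rfl⟩ := hv
      simpa using hv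
    · intro u hu
      simpa using hu
    · rintro ⟨j, u⟩ hv
      simp only [mem_coe, mem_filter] at hv
      obtain ⟨hv, rfl⟩ := hv
      rfl
    · intro u hu
      rfl
  rw [h1]
  calc (sat f E).card * f = ∑ _i ∈ sat f E, f := by rw [sum_const, smul_eq_mul]
    _ ≤ ∑ i ∈ sat f E, (univ.filter fun u => (i, u) ∈ E).card :=
        sum_le_sum fun i hi => (mem_filter.1 hi).2
    _ ≤ ∑ i : Fin n, (univ.filter fun u => (i, u) ∈ E).card :=
        sum_le_sum_of_subset (subset_univ _)

/-- the literals which may be chosen -/
def ok (f : ℕ) (E : Finset (Fin n × Fin b)) : Finset ((Fin n × Fin b) × Bool) :=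
  univ.filter fun l => l.1 ∉ E ∧ l.1.1 ∉ sat f E

theorem ok_card (f : ℕ) (E : Finset (Fin n × Fin b)) : (ok f E).card ≤ 2 * (n * b) := by
  refine (card_le_univ _).trans ?_
  simp only [Fintype.card_prod, Fintype.card_fin, Fintype.card_bool]
  exact le_of_eq (mul_comm _ _)

theorem clause_ok (s w f : ℕ) (hf : 1 ≤ f) (hsw : 4 * (s * f + s * b) ≤ w * f)
    (E : Finset (Fin n × Fin b)) (hE : E.card ≤ s) (C : Clause (Fin n × Fin b))
    (hC : w ≤ C.card) : w ≤ 2 * (C ∩ ok f E).card := by
  classical
  have h1 : C ⊆ (C ∩ ok f E) ∪ (E ×ˢ (univ : Finset Bool) ∪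
      (sat f E ×ˢ (univ : Finset (Fin b))) ×ˢ (univ : Finset Bool)) := by
    intro l hl
    by_cases h : l.1 ∈ E
    · simp [h]
    · by_cases h' : l.1.1 ∈ sat f E
      · simp [h']
      · refine mem_union_left _ (mem_inter.2 ⟨hl, ?_⟩)
        simp only [ok, mem_filter, mem_univ, true_and]
        exact ⟨h, h'⟩
  have h2 := (card_le_card h1).trans (card_union_le _ _)
  have h3 := card_union_le (E ×ˢ (univ : Finset Bool))
    ((sat f E ×ˢ (univ : Finset (Fin b))) ×ˢ (univ : Finset Bool))
  rw [card_product, card_product, card_product, card_univ, card_univ, Fintype.card_bool,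
    Fintype.card_fin] at h3
  set A := (E ×ˢ (univ : Finset Bool) ∪
      (sat f E ×ˢ (univ : Finset (Fin b))) ×ˢ (univ : Finset Bool)).card with hA
  have h4 := sat_card f E
  have h5 : 2 * A ≤ w := by
    have h6 : (2 * A) * f ≤ w * f := by
      refine le_trans ?_ hsw
      calc (2 * A) * f ≤ (2 * (E.card * 2 + (sat f E).card * b * 2)) * f := by gcongr
        _ = 4 * (E.card * f + ((sat f E).card * f) * b) := by ring
        _ ≤ 4 * (s * f + s * b) := by
            gcongr
            exact h4.trans hE
    exact Nat.le_of_mul_le_mul_right h6 (by omega)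
  omega

theorem choose_lit (s w f : ℕ) (hnb : 0 < n * b) (hf : 1 ≤ f) (hw : 0 < w)
    (hsw : 4 * (s * f + s * b) ≤ w * f)
    (E : Finset (Fin n × Fin b)) (hE : E.card ≤ s) (C : Fin S → Clause (Fin n × Fin b))
    (Al : Finset (Fin S)) (hAl : ∀ k ∈ Al, w ≤ (C k).card) (hne : Al.Nonempty) :
    ∃ l ∈ ok f E, Al.card * w ≤ 4 * (n * b) * (Al.filter fun k => l ∈ C k).card := by
  classical
  by_contra hcon
  push Not at hcon
  have hsum : ∑ l ∈ ok f E, (Al.filter fun k => l ∈ C k).card = ∑ k ∈ Al, (C k ∩ ok f E).card := by
    simp only [card_filter]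
    rw [sum_comm]
    refine sum_congr rfl fun k _ => ?_
    rw [← card_filter, filter_mem_eq_inter, inter_comm]
  have h1 : Al.card * w ≤ 2 * ∑ k ∈ Al, (C k ∩ ok f E).card := by
    rw [mul_sum, ← smul_eq_mul, ← sum_const]
    exact sum_le_sum fun k hk => clause_ok s w f hf hsw E hE (C k) (hAl k hk)
  have hokne : (ok f E).Nonempty := by
    obtain ⟨k, hk⟩ := hne
    have h2 := clause_ok s w f hf hsw E hE (C k) (hAl k hk)
    have h3 : 0 < (C k ∩ ok f E).card := by omega
    obtain ⟨l, hl⟩ := card_pos.1 h3
    exact ⟨l, (mem_inter.1 hl).2⟩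
  have h2 := sum_lt_sum_of_nonempty hokne hcon
  rw [← mul_sum, hsum, sum_const, smul_eq_mul] at h2
  have h3 : (ok f E).card * (Al.card * w) ≤ 2 * (n * b) * (Al.card * w) :=
    Nat.mul_le_mul_right _ (ok_card f E)
  have h4 : 2 * (n * b) * (Al.card * w) ≤ 4 * (n * b) * ∑ k ∈ Al, (C k ∩ ok f E).card := by
    calc 2 * (n * b) * (Al.card * w) ≤ 2 * (n * b) * (2 * ∑ k ∈ Al, (C k ∩ ok f E).card) :=
          Nat.mul_le_mul_left _ h1
      _ = _ := by ring
  omega

end Kill2x

open Kill2x in
theorem kill2 : Kill2 := by
  classical
  intro n b S s w f C hn hb hf hw hsw hS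
  have hnb : 0 < n * b := Nat.mul_pos (by omega) (by omega)
  have hnbR : (0 : ℝ) < n * b := by exact_mod_cast hnb
  have hx1 : (w : ℝ) / (4 * (n * b)) ≤ 1 := by
    rw [div_le_one (by positivity)]
    have : (w : ℝ) ≤ n * b := by exact_mod_cast hw
    linarith
  have key : ∀ j ≤ s, ∃ (E : Finset (Fin n × Fin b)) (y : Fin n → Fin b → Bool),
      E.card ≤ j ∧ Fits f ∅ E ∧
      ((alive w C E y).card : ℝ) ≤ S * (1 - (w : ℝ) / (4 * (n * b))) ^ j := by
    intro j
    induction j with
    | zero =>
      intro _
      refine ⟨∅, fun _ _ => false, by simp, ⟨by simp, by simp⟩, ?_⟩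
      rw [pow_zero, mul_one]
      have : (alive w C ∅ (fun _ _ => false)).card ≤ S := (card_le_univ _).trans (by simp)
      exact_mod_cast this
    | succ j ih =>
      intro hj
      obtain ⟨E, y, hE, hF, hal⟩ := ih (by omega)
      have h0 : 0 ≤ 1 - (w : ℝ) / (4 * (n * b)) := by linarith
      rcases (alive w C E y).eq_empty_or_nonempty with he | hne
      · refine ⟨E, y, by omega, hF, ?_⟩
        rw [he]
        simp only [card_empty, Nat.cast_zero]
        positivity
      · have hw0 : 0 < w := by
          by_contra hcon
          have : w = 0 := by omega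
          rw [this, zero_mul] at hsw
          have h1 : s * f = 0 := by omega
          rcases Nat.mul_eq_zero.1 h1 with h2 | h2 <;> omega
        have hAl : ∀ k ∈ alive w C E y, w ≤ (C k).card := fun k hk => by
          unfold alive at hk
          exact (mem_filter.1 hk).2.1
        obtain ⟨l, hl, hcnt⟩ := choose_lit s w f hnb hf hw0 hsw E (by omega) C
          (alive w C E y) hAl hne
        simp only [ok, mem_filter, mem_univ, true_and] at hl
        obtain ⟨hlE, hls⟩ := hl
        have hlf : (univ.filter fun u => (l.1.1, u) ∈ E).card < f := by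
          simp only [sat, mem_filter, mem_univ, true_and, not_le] at hls
          exact hls
        refine ⟨insert l.1 E, fun i u => if (i, u) = l.1 then l.2 else y i u, ?_, ⟨by simp, ?_⟩, ?_⟩
        · rw [card_insert_of_notMem hlE]
          omega
        · intro i _
          by_cases hi : i = l.1.1
          · subst hi
            have h1 : (univ.filter fun u => (l.1.1, u) ∈ insert l.1 E) ⊆
                insert l.1.2 (univ.filter fun u => (l.1.1, u) ∈ E) := by
              intro u hu
              simp only [mem_filter, mem_univ, true_and, mem_insert] at hu ⊢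
              rcases hu with h | h
              · left
                rw [← h]
              · exact Or.inr h
            have h2 := (card_le_card h1).trans (card_insert_le _ _)
            omega
          · have h1 : (univ.filter fun u => (i, u) ∈ insert l.1 E) =
                univ.filter fun u => (i, u) ∈ E := by
              refine filter_congr fun u _ => ?_
              rw [mem_insert]
              constructor
              · rintro (h | h)
                · exact absurd (by rw [← h]) hi
                · exact h
              · exact Or.inr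
            rw [h1]
            exact hF.2 i (by simp)
        · have hsub : alive w C (insert l.1 E) (fun i u => if (i, u) = l.1 then l.2 else y i u) ⊆
              (alive w C E y) \ ((alive w C E y).filter fun k => l ∈ C k) := by
            intro k hk
            unfold alive at hk ⊢
            simp only [mem_filter, mem_univ, true_and, mem_sdiff, not_and, not_exists] at hk ⊢
            obtain ⟨hk1, hk2⟩ := hk
            refine ⟨⟨hk1, ?_⟩, ?_⟩
            · intro l' hl' hl'E hy
              have hne' : (l'.1.1, l'.1.2) ≠ l.1 := by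
                intro h
                apply hlE
                rw [← h]
                exact hl'E
              refine hk2 l' hl' (mem_insert_of_mem hl'E) ?_
              rw [if_neg hne']
              exact hy
            · intro _ hlC
              refine hk2 l hlC (mem_insert_self _ _) ?_
              simp
          have h1 := card_le_card hsub
          rw [card_sdiff_of_subset (filter_subset _ _)] at h1
          have h2 := card_filter_le (alive w C E y) (fun k => l ∈ C k)
          have h3 : ((alive w C (insert l.1 E)
              (fun i u => if (i, u) = l.1 then l.2 else y i u)).card : ℝ) ≤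
              ((alive w C E y).card : ℝ) - (((alive w C E y).filter fun k => l ∈ C k).card : ℝ) := by
            rw [← Nat.cast_sub h2]
            exact_mod_cast h1
          have h4 : ((alive w C E y).card : ℝ) * w ≤
              4 * (n * b) * (((alive w C E y).filter fun k => l ∈ C k).card : ℝ) := by
            exact_mod_cast hcnt
          have h5 : ((alive w C E y).card : ℝ) * (w / (4 * (n * b))) ≤
              (((alive w C E y).filter fun k => l ∈ C k).card : ℝ) := by
            rw [← mul_div_assoc, div_le_iff₀ (by positivity)]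
            linarith
          calc ((alive w C (insert l.1 E)
              (fun i u => if (i, u) = l.1 then l.2 else y i u)).card : ℝ)
              ≤ ((alive w C E y).card : ℝ) * (1 - (w : ℝ) / (4 * (n * b))) := by
                rw [mul_sub, mul_one]
                linarith
            _ ≤ (S * (1 - (w : ℝ) / (4 * (n * b))) ^ j) * (1 - (w : ℝ) / (4 * (n * b))) :=
                mul_le_mul_of_nonneg_right hal h0
            _ = _ := by rw [pow_succ]; ring
  obtain ⟨E, y, hE, hF, hal⟩ := key s le_rfl
  refine ⟨E, y, hE, hF, fun k hk => ?_⟩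
  by_contra hcon
  have h1 : k ∈ alive w C E y := by
    unfold alive
    rw [mem_filter]
    exact ⟨mem_univ _, hk, hcon⟩
  have h2 : 0 < (alive w C E y).card := card_pos.2 ⟨k, h1⟩
  have h3 : (1 : ℝ) ≤ ((alive w C E y).card : ℝ) := by exact_mod_cast h2
  linarith

end Pool.Agent.BW
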