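import Pool.Agent.Lib.BW.Final
import Pool.Agent.Lib.BW.Defs4

/-!
# Row LAST: the proof

Project BW (helper10).
-/

set_option autoImplicit false

namespace Pool.Agent.BW

open Finset Filter Pool.Agent.SL

theorem last (hCore : Core) (hKill : Kill) (hMain : MainA) (hCells : Cells)
    (hBridge : Bridge) (hFam : Family) : Last := by
  intro c hc
  obtain ⟨K, hK⟩ : ∃ K, K = c + 19 := ⟨_, rfl⟩
  have hK20 : 20 ≤ K := by omega
  have ev1 := R8x.ev_pow 1 (c + 19) 1 2 (by norm_num)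
  have ev2 := R8x.ev_pow (100 * c + 300) (c + 19) (c + 2) 2 (by norm_num)
  have hr1 : (1 : ℝ) < 2 ^ ((1 : ℝ) / 200) := by
    apply Real.one_lt_rpow (by norm_num) (by norm_num)
  have ev3 := R8x.ev_pow 960 (2 * (c + 19)) c (2 ^ ((1 : ℝ) / 200)) hr1
  obtain ⟨a1, ha1⟩ := Filter.eventually_atTop.mp ev1
  obtain ⟨a2, ha2⟩ := Filter.eventually_atTop.mp ev2
  obtain ⟨a3, ha3⟩ := Filter.eventually_atTop.mp ev3
  refine ⟨1 / (400000 * (K : ℝ) ^ 3), K, max (max a1 a2) (max (a3 + 3) (max 10 (128 * K))),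
    by positivity, by omega, ?_⟩
  intro ℓ n b N hℓ hn hb hN V hV
  have hℓ1 : a1 ≤ ℓ := by omega
  have hℓ2 : a2 ≤ ℓ := by omega
  have hℓ3 : a3 + 3 ≤ ℓ := by omega
  have hℓ10 : 10 ≤ ℓ := by omega
  have hℓK : 128 * K ≤ ℓ := by omega
  have hE3 : b ≤ 2 ^ ℓ := by
    have := ha1 ℓ hℓ1
    have h2 : ((b : ℕ) : ℝ) ≤ ((2 ^ ℓ : ℕ) : ℝ) := by
      rw [hb, hK]
      push_cast
      push_cast at this
      linarith
    exact_mod_cast h2
  have hE2 : (100 * c + 300) * b ^ (c + 2) ≤ 2 ^ ℓ := by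
    have := ha2 ℓ hℓ2
    have h2 : (((100 * c + 300) * b ^ (c + 2) : ℕ) : ℝ) ≤ ((2 ^ ℓ : ℕ) : ℝ) := by
      rw [hb, hK]
      push_cast
      push_cast at this
      linarith
    exact_mod_cast h2
  obtain ⟨u, hu⟩ : ∃ u, ℓ = u + 2 := ⟨ℓ - 2, by omega⟩
  obtain ⟨X, hX⟩ : ∃ X, X = ℓ * (2 * 2 ^ u) := ⟨_, rfl⟩
  have hnu : n = 4 * 2 ^ u := by rw [hn, hu, pow_add]; ring
  have hNX : N = 2 * K * X := by
    rw [hN, hnu, hb, hX]; ring
  have hX3 : a3 ≤ X := by
    rw [hX]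
    have h4 : 1 ≤ 2 * 2 ^ u := by
      have := Nat.one_le_two_pow (n := u)
      omega
    have := Nat.le_mul_of_pos_right ℓ h4
    omega
  have hX1 : 1 ≤ X := by
    rw [hX]
    exact Nat.mul_pos (by omega) (by positivity)
  have hN1 : 1 ≤ N := by
    rw [hNX]
    exact Nat.mul_pos (by omega) hX1
  have hE4 : Real.logb 2 (48 * (((4 * N ^ c + 12 : ℕ) : ℝ) + 4)) ≤ (X : ℝ) / 200 := by
    have h3 := ha3 X hX3
    have hN1' : (1 : ℝ) ≤ (N : ℝ) ^ c := by
      apply one_le_pow₀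
      exact_mod_cast hN1
    have h4 : 48 * (((4 * N ^ c + 12 : ℕ) : ℝ) + 4) ≤ (2 ^ ((1 : ℝ) / 200)) ^ X := by
      refine le_trans ?_ h3
      have e : ((2 * (c + 19) : ℕ) : ℝ) * (X : ℝ) = (N : ℝ) := by
        rw [hNX, hK]; push_cast; ring
      rw [e]
      push_cast
      nlinarith
    have h5 := Real.logb_le_logb_of_le (b := 2) (by norm_num) (by positivity) h4
    rw [Real.logb_pow, Real.logb_rpow (by norm_num) (by norm_num)] at h5
    linarith
  -- the parameters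
  obtain ⟨τ1, hτ1⟩ : ∃ τ1, τ1 = n / (64 * K) := ⟨_, rfl⟩
  obtain ⟨sk, hsk⟩ : ∃ sk, sk = τ1 / 2 := ⟨_, rfl⟩
  have hnℓ : ℓ ≤ n := by
    rw [hn]
    exact Nat.lt_two_pow_self.le
  have h64 : 0 < 64 * K := by omega
  have hτn : 64 * K * τ1 ≤ n := by
    rw [hτ1]
    exact Nat.mul_div_le n (64 * K)
  have hτn' : n < 64 * K * (τ1 + 1) := by
    rw [hτ1]
    exact Nat.lt_mul_div_succ n h64
  have hτ2 : 2 ≤ τ1 := by
    rw [hτ1, Nat.le_div_iff_mul_le h64]
    omega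
  have hτlow : n ≤ 128 * K * τ1 := by
    have : 64 * K * (τ1 + 1) ≤ 64 * K * (2 * τ1) := Nat.mul_le_mul_left _ (by omega)
    calc n ≤ 64 * K * (2 * τ1) := by omega
      _ = 128 * K * τ1 := by ring
  have hsk2 : 2 * sk ≤ τ1 := by omega
  have hsk4 : τ1 ≤ 4 * sk := by omega
  obtain ⟨F, hF1, hF2, hF3, hF4⟩ := final_aux hCore hKill hMain hCells hBridge hFam
    c ℓ u n b N X τ1 sk hc hn hu (by rw [hb, hK]) hN hX (by omega) hE3 hE2 hE4
    (by rw [← hK]; exact hτn) hsk2 V hV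
  refine ⟨F, hF1, hF2, hF3, ?_⟩
  intro t S D ht hR
  -- reals
  have hKR : (20 : ℝ) ≤ K := by exact_mod_cast hK20
  have hK0 : (0 : ℝ) < K := by linarith
  have hn0 : (0 : ℝ) < n := by
    have : 0 < n := by omega
    exact_mod_cast this
  have hN0 : (0 : ℝ) < N := by exact_mod_cast hN1
  have hℓR : (10 : ℝ) ≤ ℓ := by exact_mod_cast hℓ10
  have hℓ0 : (0 : ℝ) < ℓ := by linarith
  have hNR : (N : ℝ) = n * (K * ℓ) := by rw [hN, hb]; push_cast; ring
  have hlogN : (ℓ : ℝ) ≤ Real.logb 2 N := by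
    rw [Real.le_logb_iff_rpow_le (by norm_num) hN0, Real.rpow_natCast]
    have : n ≤ N := by
      rw [hN]
      exact Nat.le_mul_of_pos_right _ (by rw [hb]; exact Nat.mul_pos (by omega) (by omega))
    rw [hn] at this
    exact_mod_cast this
  have hlog0 : 0 < Real.logb 2 N := by linarith
  have hτR : (n : ℝ) ≤ 128 * K * τ1 := by exact_mod_cast hτlow
  have hskR : (τ1 : ℝ) ≤ 4 * sk := by exact_mod_cast hsk4
  have htτ : t ≤ τ1 := by
    have h1 : (t : ℝ) ≤ τ1 := by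
      refine ht.trans ?_
      rw [div_le_iff₀ hlog0]
      have h2 : 1 / (400000 * (K : ℝ) ^ 3) * N = n * ℓ / (400000 * (K : ℝ) ^ 2) := by
        rw [hNR]
        field_simp
      rw [h2, div_le_iff₀ (by positivity)]
      have h3 : (n : ℝ) * ℓ ≤ 128 * K * τ1 * Real.logb 2 N :=
        mul_le_mul hτR hlogN hℓ0.le (by positivity)
      refine h3.trans ?_
      have h4 : 128 * (K : ℝ) ≤ 400000 * (K : ℝ) ^ 2 := by nlinarith
      have h5 : 0 ≤ (τ1 : ℝ) * Real.logb 2 N := by positivity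
      nlinarith [mul_le_mul_of_nonneg_right h4 h5]
    exact_mod_cast h1
  have hS0 : (0 : ℝ) ≤ S := Nat.cast_nonneg _
  have hD0 : (0 : ℝ) ≤ D := Nat.cast_nonneg _
  have hlogS0 : 0 ≤ Real.logb 2 ((S : ℝ) + 1) := Real.logb_nonneg (by norm_num) (by linarith)
  rcases hF4 t S D htτ hR with h | h
  · -- many lines
    have hln : Real.log ((S : ℝ) + 1) ≤ Real.logb 2 ((S : ℝ) + 1) := by
      rw [Real.logb, le_div_iff₀ (Real.log_pos (by norm_num))]
      have h1 : 0 ≤ Real.log ((S : ℝ) + 1) := Real.log_nonneg (by linarith)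
      have h2 : Real.log 2 ≤ 1 := by
        have := Real.log_two_lt_d9
        linarith
      nlinarith
    have h1 : (n : ℝ) / (400000 * K ^ 2) ≤ Real.logb 2 ((S : ℝ) + 1) := by
      refine le_trans ?_ (h.trans hln)
      rw [div_le_div_iff₀ (by positivity) (by positivity)]
      have h2 : (n : ℝ) * n ≤ (128 * K * τ1) * (128 * K * (4 * sk)) := by
        refine mul_le_mul hτR ?_ hn0.le (by positivity)
        refine hτR.trans ?_
        gcongr
      nlinarith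
    have h2 : 1 / (400000 * (K : ℝ) ^ 3) * (N : ℝ) ^ 2 = N * ℓ * (n / (400000 * K ^ 2)) := by
      rw [sq]
      nth_rewrite 2 [hNR]
      field_simp
    rw [h2]
    calc (N : ℝ) * ℓ * (n / (400000 * K ^ 2))
        ≤ (N * Real.logb 2 N) * Real.logb 2 ((S : ℝ) + 1) := by
          refine mul_le_mul ?_ h1 (by positivity) (by positivity)
          gcongr
      _ ≤ ((D : ℝ) + N * Real.logb 2 N) * Real.logb 2 ((S : ℝ) + 1) := by
          apply mul_le_mul_of_nonneg_right _ hlogS0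
          linarith
  · have hXR : (N : ℝ) = 2 * K * X := by exact_mod_cast hNX
    have h1 : 1 / (400000 * (K : ℝ) ^ 3) * (N : ℝ) ^ 2 ≤ 0.06 * (X : ℝ) ^ 2 := by
      rw [hXR]
      have e : 1 / (400000 * (K : ℝ) ^ 3) * (2 * K * (X : ℝ)) ^ 2 =
          (X : ℝ) ^ 2 / (100000 * K) := by
        field_simp
        ring
      rw [e, div_le_iff₀ (by positivity)]
      have h0 : 0 ≤ (X : ℝ) ^ 2 := sq_nonneg _
      nlinarith [mul_nonneg h0 (show (0 : ℝ) ≤ K - 20 by linarith)]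
    refine h1.trans (h.trans ?_)
    apply mul_le_mul_of_nonneg_right _ hlogS0
    have : (N : ℝ) ≤ N * Real.logb 2 N := by nlinarith
    linarith

end Pool.Agent.BW
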