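import Mathlib

/-!
# A numerical lemma for row LAST12

Project BW (helper10).
-/

set_option autoImplicit false

namespace Pool.Agent.BW

theorem num12 (A' A C J Γ a w : ℕ) (lg g : ℝ) (hA' : A' ≤ A) (ha : a = (C + 1) * (J + 4))
    (hg : g * a ≤ 7 * w) (hlg2 : 1 ≤ lg) (hΓ : (Γ : ℝ) ≤ ((J : ℝ) + 4) * lg)
    (hM : ((A : ℝ) + 1) * lg ≤ g / 500) : 4 * (A' * (C * Γ)) ≤ w := by
  have h2 : (A' : ℝ) ≤ (A : ℝ) + 1 := by
    have h3 : (A' : ℝ) ≤ (A : ℝ) := by exact_mod_cast hA'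
    linarith
  have haR : (a : ℝ) = ((C : ℝ) + 1) * ((J : ℝ) + 4) := by
    rw [ha]
    push_cast
    ring
  have hC0 : (0 : ℝ) ≤ C := Nat.cast_nonneg _
  have hJ0 : (0 : ℝ) ≤ J := Nat.cast_nonneg _
  have hA0 : (0 : ℝ) ≤ A := Nat.cast_nonneg _
  have hG0 : (0 : ℝ) ≤ Γ := Nat.cast_nonneg _
  have hw0 : (0 : ℝ) ≤ w := Nat.cast_nonneg _
  have hq0 : 0 ≤ ((J : ℝ) + 4) * lg := mul_nonneg (by linarith) (by linarith)
  have e1 : (C : ℝ) * Γ ≤ ((C : ℝ) + 1) * (((J : ℝ) + 4) * lg) :=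
    mul_le_mul (by linarith) hΓ hG0 (by linarith)
  have e2 : (A' : ℝ) * ((C : ℝ) * Γ) ≤
      ((A : ℝ) + 1) * (((C : ℝ) + 1) * (((J : ℝ) + 4) * lg)) :=
    mul_le_mul h2 e1 (mul_nonneg hC0 hG0) (by linarith)
  have e3 : ((A : ℝ) + 1) * (((C : ℝ) + 1) * (((J : ℝ) + 4) * lg)) = a * (((A : ℝ) + 1) * lg) := by
    rw [haR]
    ring
  have e4 : (a : ℝ) * (((A : ℝ) + 1) * lg) ≤ a * (g / 500) :=
    mul_le_mul_of_nonneg_left hM (Nat.cast_nonneg _)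
  have e5 : (a : ℝ) * (g / 500) = (g * a) / 500 := by ring
  have h4 : 4 * ((A' : ℝ) * ((C : ℝ) * Γ)) ≤ w := by linarith
  have h5 : ((4 * (A' * (C * Γ)) : ℕ) : ℝ) ≤ w := by
    push_cast
    exact h4
  exact_mod_cast h5

end Pool.Agent.BW
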