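import Pool.Agent.Lib.BW.Final8
import Pool.Agent.Lib.BW.LastP5

/-!
# Row LAST8

Project BW (helper10), after `Pool.Agent.Lib.SL.Final`.
-/

set_option autoImplicit false

namespace Pool.Agent.BW

open Finset Filter Pool.Agent.SL

theorem last8 (hCore : Core2) (hSp : SpreadC) (hKill : Kill3) (hMain : MainP)
    (hCells : Cells5) (hFam : BWP.Family3) : Last8 := by
  intro c0 kD A hc0
  obtain ⟨c, hcc⟩ : ∃ c, c = 2 * c0 + 1 := ⟨_, rfl⟩
  have hc : 2 ≤ c := by omega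
  obtain ⟨K, hK⟩ : ∃ K, K = c + 19 := ⟨_, rfl⟩
  have hK20 : 20 ≤ K := by omega
  obtain ⟨C, hC⟩ := hKill kD (2 ^ K) (by
    calc 2 = 2 ^ 1 := by norm_num
      _ ≤ 2 ^ K := Nat.pow_le_pow_right (by norm_num) (by omega))
  have hKR : (20 : ℝ) ≤ K := by exact_mod_cast hK20
  have hKpos : (0 : ℝ) < K := by linarith
  obtain ⟨a, ha⟩ : ∃ a, a = A * C + 1 := ⟨_, rfl⟩
  have ha1 : 1 ≤ a := by omega
  have haR : (1 : ℝ) ≤ a := by exact_mod_cast ha1
  -- asymptotic facts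
  have ev1 := R8x.ev_pow 1 K 1 2 (by norm_num)
  have ev2 := R8x.ev_pow (200 * c + 600) K (c + 2) 2 (by norm_num)
  have hr1 : (1 : ℝ) < 2 ^ ((1 : ℝ) / 100) := by
    apply Real.one_lt_rpow (by norm_num) (by norm_num)
  have ev3 := R8x.ev_pow 288 (4 * K) (c0 + c) (2 ^ ((1 : ℝ) / 100)) hr1
  obtain ⟨a1, ha1'⟩ := Filter.eventually_atTop.mp ev1
  obtain ⟨a2, ha2⟩ := Filter.eventually_atTop.mp ev2
  obtain ⟨a3, ha3⟩ := Filter.eventually_atTop.mp ev3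
  -- the constant for the number of DNFs
  obtain ⟨J, hJ⟩ : ∃ J : ℕ, J = 2 * A * kD + 1 := ⟨_, rfl⟩
  refine ⟨1 / (2000 * (K : ℝ) ^ 2 * a), K,
    max (max a1 a2) (max (a3 + 3) (10000 * K ^ 2 * a * J)), by positivity, by omega, ?_⟩
  intro ℓ n b N hℓ hn hb hN V hV
  have hℓ1 : a1 ≤ ℓ := le_trans (le_trans (le_max_left _ _) (le_max_left _ _)) hℓ
  have hℓ2 : a2 ≤ ℓ := le_trans (le_trans (le_max_right _ _) (le_max_left _ _)) hℓ
  have hℓ3 : a3 + 3 ≤ ℓ := le_trans (le_trans (le_max_left _ _) (le_max_right _ _)) hℓ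
  have hℓ4 : 10000 * K ^ 2 * a * J ≤ ℓ :=
    le_trans (le_trans (le_max_right _ _) (le_max_right _ _)) hℓ
  have hK2 : 1 ≤ K ^ 2 * a := Nat.mul_pos (Nat.pow_pos (by omega)) ha1
  have hJ1 : 1 ≤ J := by omega
  have hℓ5 : 10000 * (K ^ 2 * a) ≤ ℓ := by
    refine le_trans ?_ hℓ4
    calc 10000 * (K ^ 2 * a) = 10000 * K ^ 2 * a * 1 := by ring
      _ ≤ 10000 * K ^ 2 * a * J := Nat.mul_le_mul_left _ hJ1
  have hℓ10 : 10 ≤ ℓ := by omega
  have hE3 : b ≤ 2 ^ ℓ := by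
    have := ha1' ℓ hℓ1
    have h2 : ((b : ℕ) : ℝ) ≤ ((2 ^ ℓ : ℕ) : ℝ) := by
      rw [hb]
      push_cast
      push_cast at this
      linarith
    exact_mod_cast h2
  have hE2 : (200 * c + 600) * b ^ (c + 2) ≤ 2 ^ ℓ := by
    have := ha2 ℓ hℓ2
    have h2 : (((200 * c + 600) * b ^ (c + 2) : ℕ) : ℝ) ≤ ((2 ^ ℓ : ℕ) : ℝ) := by
      rw [hb]
      push_cast
      push_cast at this
      linarith
    exact_mod_cast h2
  obtain ⟨u, hu⟩ : ∃ u, ℓ = u + 2 := ⟨ℓ - 2, by omega⟩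
  obtain ⟨G, hG⟩ : ∃ G, G = ℓ * 2 ^ u := ⟨_, rfl⟩
  obtain ⟨X, hX⟩ : ∃ X, X = ℓ * (2 * 2 ^ u) := ⟨_, rfl⟩
  have hXG : X = 2 * G := by rw [hX, hG]; ring
  have hnu : n = 4 * 2 ^ u := by rw [hn, hu, pow_add]; ring
  have hNG : N = 4 * K * G := by rw [hN, hnu, hb, hG]; ring
  have hGℓ : ℓ ≤ G := by
    rw [hG]
    exact Nat.le_mul_of_pos_right _ (by positivity)
  have hGpos : 0 < G := by omega
  have hN0 : 0 < N := by
    rw [hNG]
    exact Nat.mul_pos (by omega) hGpos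
  have h3 := ha3 G (by omega)
  have hNe : ((4 * K : ℕ) : ℝ) * (G : ℝ) = (N : ℝ) := by
    rw [hNG]; push_cast; ring
  rw [hNe] at h3
  have hN1 : (1 : ℝ) ≤ (N : ℝ) := by exact_mod_cast hN0
  have hp1 : (1 : ℝ) ≤ (N : ℝ) ^ c0 := one_le_pow₀ hN1
  have hp2 : (1 : ℝ) ≤ (N : ℝ) ^ c := one_le_pow₀ hN1
  have hp3 : (N : ℝ) ^ c0 ≤ (N : ℝ) ^ c := pow_le_pow_right₀ hN1 (by omega)
  have hX1R : (X : ℝ) = 2 * G := by rw [hXG]; push_cast; ring
  have hE4 : Real.logb 2 (24 * (2 * ((N ^ c0 : ℕ) : ℝ) + 1) *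
      (((N ^ c0 : ℕ) : ℝ) + ((N ^ c : ℕ) : ℝ) + 2)) ≤ (X : ℝ) / 200 := by
    have h4 : 24 * (2 * ((N ^ c0 : ℕ) : ℝ) + 1) *
        (((N ^ c0 : ℕ) : ℝ) + ((N ^ c : ℕ) : ℝ) + 2) ≤ (2 ^ ((1 : ℝ) / 100)) ^ G := by
      refine le_trans ?_ h3
      push_cast
      calc 24 * (2 * (N : ℝ) ^ c0 + 1) * ((N : ℝ) ^ c0 + (N : ℝ) ^ c + 2)
          ≤ 24 * (3 * (N : ℝ) ^ c0) * (4 * (N : ℝ) ^ c) := by
            refine mul_le_mul (by linarith) (by linarith) (by linarith) (by linarith)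
        _ = 288 * (N : ℝ) ^ (c0 + c) := by rw [pow_add]; ring
    have h5 := Real.logb_le_logb_of_le (b := 2) (by norm_num) (by positivity) h4
    rw [Real.logb_pow, Real.logb_rpow (by norm_num) (by norm_num)] at h5
    linarith
  have hE5 : 2 * N ^ c0 + 2 ≤ 2 ^ (X / 40) := by
    have h1 : X < 40 * (X / 40 + 1) := Nat.lt_mul_div_succ _ (by omega)
    have h2 : (X : ℝ) < 40 * (((X / 40 : ℕ) : ℝ) + 1) := by exact_mod_cast h1
    have hG100 : (100 : ℝ) ≤ G := by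
      have : 100 ≤ G := by omega
      exact_mod_cast this
    have h4 : (2 : ℝ) * (N : ℝ) ^ c0 + 2 ≤ (2 : ℝ) ^ (X / 40) := by
      have h5 : (2 : ℝ) * (N : ℝ) ^ c0 + 2 ≤ 288 * (N : ℝ) ^ (c0 + c) := by
        rw [pow_add]
        have h6 : (N : ℝ) ^ c0 * 1 ≤ (N : ℝ) ^ c0 * (N : ℝ) ^ c :=
          mul_le_mul_of_nonneg_left hp2 (by linarith)
        linarith
      refine h5.trans ?_
      push_cast at h3
      refine h3.trans ?_
      rw [← Real.rpow_natCast (2 ^ ((1 : ℝ) / 100)) G, ← Real.rpow_mul (by norm_num),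
        ← Real.rpow_natCast 2 (X / 40)]
      apply Real.rpow_le_rpow_of_exponent_le (by norm_num)
      linarith
    exact_mod_cast h4
  -- the parameters
  obtain ⟨w, hw⟩ : ∃ w, w = G / (6 * K) := ⟨_, rfl⟩
  obtain ⟨sk, hsk⟩ : ∃ sk, sk = w / 2 := ⟨_, rfl⟩
  obtain ⟨Γ, hΓ⟩ : ∃ Γ, Γ = w / (4 * a) := ⟨_, rfl⟩
  obtain ⟨tm, htm⟩ : ∃ tm, tm = w / 4 := ⟨_, rfl⟩
  have hw1 : 6 * (c + 19) * w ≤ ℓ * 2 ^ u := by
    rw [← hK, ← hG, hw]
    exact Nat.mul_div_le _ _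
  have hw2 : G < 6 * K * (w + 1) := by
    rw [hw]
    exact Nat.lt_mul_div_succ _ (by omega)
  have hwbig : 1000 * (K * a) ≤ w := by
    by_contra hcon
    push Not at hcon
    have h1 : 6 * K * (w + 1) ≤ 6 * K * (1000 * (K * a)) := Nat.mul_le_mul_left _ (by omega)
    have h2 : 6 * K * (1000 * (K * a)) = 6000 * (K ^ 2 * a) := by ring
    omega
  have hKa : 20 ≤ K * a := by
    calc 20 = 20 * 1 := by norm_num
      _ ≤ K * a := Nat.mul_le_mul hK20 ha1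
  have hskK : 32 * (c + 19) * (ℓ * 2 ^ u) ≤ sk * 2 ^ (c + 19) := by
    rw [← hK, ← hG]
    have h1 : w ≤ 2 * sk + 1 := by omega
    have h3 : 1000 * 20 ≤ w := (Nat.mul_le_mul_left 1000 hKa).trans hwbig
    have h2 := pow_768 K hK20
    calc 32 * K * G ≤ 32 * K * (6 * K * (w + 1)) := Nat.mul_le_mul_left _ hw2.le
      _ = 192 * K ^ 2 * (w + 1) := by ring
      _ ≤ 192 * K ^ 2 * (4 * sk) := Nat.mul_le_mul_left _ (by omega)
      _ = sk * (768 * K ^ 2) := by ring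
      _ ≤ sk * 2 ^ K := Nat.mul_le_mul_left _ h2
  have hΓ1 : 4 * a * Γ ≤ w := by
    rw [hΓ]
    exact Nat.mul_div_le _ _
  have hΓ2 : w < 4 * a * (Γ + 1) := by
    rw [hΓ]
    exact Nat.lt_mul_div_succ _ (by omega)
  have hsum : A * (C * Γ) + (sk + tm) ≤ w := by
    have h1 : 4 * (A * (C * Γ)) ≤ w := by
      calc 4 * (A * (C * Γ)) = 4 * (A * C) * Γ := by ring
        _ ≤ 4 * a * Γ := Nat.mul_le_mul_right _ (by omega)
        _ ≤ w := hΓ1
    omega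
  obtain ⟨F, hF1, hF2, hF3, hF4⟩ := final_aux8 hCore hSp hMain hCells hFam kD A C
    c0 c ℓ u n b N X w sk Γ tm (by rw [← hK]; exact hC) hc0 hcc hn hu (by rw [hb, hK]) hN hX
    (by omega) hE3 hE2 hE4 hE5 hw1 hskK hsum V hV
  refine ⟨F, hF1, by rwa [show 4 * c0 + 42 = 2 * c + 40 by omega], hF3, ?_⟩
  intro t M S T ht hM hR
  have hNR : (N : ℝ) = 4 * K * G := by rw [hNG]; push_cast; ring
  have hG0 : (0 : ℝ) < G := by exact_mod_cast hGpos
  have hw2R : (G : ℝ) < 6 * K * (w + 1) := by exact_mod_cast hw2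
  have hwbR : (1000 : ℝ) * (K * a) ≤ w := by exact_mod_cast hwbig
  have hKaR : (20 : ℝ) ≤ K * a := by exact_mod_cast hKa
  have hKa0 : (0 : ℝ) < K * a := by linarith
  have hw3 : (G : ℝ) ≤ 7 * K * w := by
    have h6 : (6 : ℝ) ≤ w := by linarith
    have h7 : (K : ℝ) * 6 ≤ K * w := mul_le_mul_of_nonneg_left h6 hKpos.le
    have h8 : 6 * (K : ℝ) * (w + 1) = 6 * (K * w) + K * 6 := by ring
    have h9 : 7 * (K : ℝ) * w = 7 * (K * w) := by ring
    rw [h9]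
    rw [h8] at hw2R
    linarith
  -- the value of δ N
  obtain ⟨g, hg⟩ : ∃ g : ℝ, g = G / (K * a) := ⟨_, rfl⟩
  have hδg : 1 / (2000 * (K : ℝ) ^ 2 * a) * N = g / 500 := by
    rw [hNR, hg]
    field_simp
    ring
  rw [hδg] at ht hM
  have hgG : 20 * g ≤ G := by
    rw [hg, ← mul_div_assoc, div_le_iff₀ hKa0]
    calc 20 * (G : ℝ) ≤ (K * a) * G := mul_le_mul_of_nonneg_right hKaR hG0.le
      _ = G * (K * a) := by ring
  have hgw : g * a ≤ 7 * w := by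
    have h1 : g * a * K ≤ 7 * w * K := by
      have : g * a * K = G := by
        rw [hg]
        field_simp
      rw [this]
      linarith
    exact le_of_mul_le_mul_right h1 hKpos
  have hgJ : (10000 : ℝ) * J ≤ g := by
    have h5 : 10000 * K ^ 2 * a * J ≤ G := hℓ4.trans hGℓ
    have h6 : (10000 : ℝ) * (K : ℝ) ^ 2 * a * J ≤ G := by exact_mod_cast h5
    rw [hg, le_div_iff₀ hKa0]
    have hJ0 : (0 : ℝ) ≤ J := Nat.cast_nonneg _
    have h7 : (1 : ℝ) * (10000 * J * (K * a)) ≤ K * (10000 * J * (K * a)) :=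
      mul_le_mul_of_nonneg_right (by linarith) (by positivity)
    have h8 : (K : ℝ) * (10000 * J * (K * a)) = 10000 * (K : ℝ) ^ 2 * a * J := by ring
    linarith
  have hJR : (1 : ℝ) ≤ J := by exact_mod_cast hJ1
  have hw0 : (0 : ℝ) ≤ w := Nat.cast_nonneg _
  have hg0 : 0 ≤ g := by linarith
  have htt : t ≤ tm := by
    have h0 : g ≤ g * a := by
      calc g = g * 1 := (mul_one g).symm
        _ ≤ g * a := mul_le_mul_of_nonneg_left haR hg0
    have h2 : (5 * t : ℕ) ≤ w := by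
      have : (5 * (t : ℝ)) ≤ w := by linarith
      exact_mod_cast this
    omega
  -- powers of two
  have hMe : ∀ e : ℕ, g / 500 ≤ e → M ≤ 2 ^ e := by
    intro e he
    have h1 : (M : ℝ) < 2 ^ (e : ℝ) :=
      lt_of_lt_of_le hM (Real.rpow_le_rpow_of_exponent_le (by norm_num) he)
    rw [Real.rpow_natCast] at h1
    have h2 : M < 2 ^ e := by exact_mod_cast h1
    exact h2.le
  have hM1 : M ≤ 2 ^ (X / 40) := by
    apply hMe
    have h1 : X < 40 * (X / 40 + 1) := Nat.lt_mul_div_succ _ (by omega)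
    have h2 : (X : ℝ) < 40 * (((X / 40 : ℕ) : ℝ) + 1) := by exact_mod_cast h1
    have hXR : (X : ℝ) = 2 * G := by rw [hXG]; push_cast; ring
    linarith
  have hM2 : 2 * (M * A) * kD < 2 ^ Γ := by
    have hΓ2R : (w : ℝ) < 4 * a * (Γ + 1) := by exact_mod_cast hΓ2
    have h1 : g ≤ 28 * ((Γ : ℝ) + 1) := by
      have h2 : g * a ≤ 28 * ((Γ : ℝ) + 1) * a := by linarith
      exact le_of_mul_le_mul_right h2 (by linarith)
    have h2 : (J : ℝ) ≤ Γ := by linarith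
    have h3 : J ≤ Γ := by exact_mod_cast h2
    have h4 : M ≤ 2 ^ (Γ - J) := by
      apply hMe
      rw [Nat.cast_sub h3]
      linarith
    calc 2 * (M * A) * kD = (2 * A * kD) * M := by ring
      _ ≤ (2 * A * kD) * 2 ^ (Γ - J) := Nat.mul_le_mul_left _ h4
      _ < 2 ^ J * 2 ^ (Γ - J) := by
          apply Nat.mul_lt_mul_of_pos_right _ (by positivity)
          have : J < 2 ^ J := Nat.lt_two_pow_self
          omega
      _ = 2 ^ Γ := by
          rw [← pow_add]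
          congr 1
          omega
  refine le_trans ?_ (hF4 t M S T htt hM1 hM2 hR)
  have hXR : (X : ℝ) = 2 * G := by rw [hXG]; push_cast; ring
  rw [hXR, hNR]
  have h4 : 1 / (2000 * (K : ℝ) ^ 2 * a) * (4 * K * G) ^ 2 = 16 * G ^ 2 / (2000 * a) := by
    field_simp
    ring
  rw [h4, div_le_iff₀ (by positivity)]
  have h6 : 0 ≤ (G : ℝ) ^ 2 := by positivity
  have h7 : (G : ℝ) ^ 2 * 1 ≤ G ^ 2 * a := mul_le_mul_of_nonneg_left haR h6
  have h8 : 0.002 * (2 * (G : ℝ)) ^ 2 * (2000 * a) = 16 * (G ^ 2 * a) := by ring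
  rw [h8]
  linarith

end Pool.Agent.BW
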