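import Pool.Agent.Lib.BW.Main
import Pool.Agent.Lib.BW.Defs10

/-!
# Row MAINP

Project BW (helper10).
-/

set_option autoImplicit false

namespace Pool.Agent.BW

open Finset Pool.Agent.SL

namespace MainPx

variable {Ω : Type} [Fintype Ω] [DecidableEq Ω] {κ : Ω → ℝ} {ε : ℝ}
  {base cl : Finset (Finset Ω)} {L r c0 M p : ℕ} {R0 : Finset Ω} {W : Fin M → Finset Ω}

theorem Sg_empty {h : List (Finset Ω)} {A : Finset Ω} (hA : A ∈ h)
    (hx : ∀ x ∈ R0, x ∈ A → ∃ B ∈ h, x ∉ B) : Sg κ R0 h = 0 := by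
  unfold Sg
  have : Inter (R0 :: h) = ∅ := by
    rw [eq_empty_iff_forall_notMem]
    intro x hx'
    have hx' := R6x.mem_Inter.1 hx'
    obtain ⟨B, hB, hxB⟩ := hx x (hx' R0 (by simp)) (hx' A (by simp [hA]))
    exact hxB (hx' B (by simp [hB]))
  rw [this, sum_empty]

/-- the simple premises, one after the other -/
theorem simplePart (H : R6x.Pseudo κ ε base cl L r) (hR0 : R0 ∈ base) (hp : 1 ≤ p)
    (hB : ∀ Q : Finset (Fin M), Q.card ≤ p → Q.biUnion W ∈ base)
    {h : List (Finset Ω)} (ha : R6x.Adm base h) (hl : h.length + 4 ≤ L) :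
    ∀ Q : Finset (Fin M), Q.card ≤ p → (∀ i ∈ Q, DeadSet base cl R0 c0 (W i)) →
      Sg κ R0 h ≤ Sg κ R0 ((Q.biUnion W)ᶜ :: h) + Q.card * (c0 * ε) := by
  classical
  intro Q
  induction Q using Finset.induction_on with
  | empty =>
    intro _ _
    have e : Sg κ R0 (((∅ : Finset (Fin M)).biUnion W)ᶜ :: h) = Sg κ R0 h := by
      unfold Sg
      congr 1
      ext x
      simp [R6x.mem_Inter]
    rw [e]
    simp
  | insert i Q hi ih =>
    intro hc hd
    rw [card_insert_of_notMem hi] at hc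
    have h1 := ih (by omega) (fun i hi => hd i (mem_insert_of_mem hi))
    have hU := hB Q (by omega)
    have hWi : W i ∈ base := by
      have := hB {i} (by simpa using hp)
      rwa [singleton_biUnion] at this
    have h2 := Sg_split κ R0 (W i) ((Q.biUnion W)ᶜ :: h)
    have h3 : Sg κ R0 (W i :: (Q.biUnion W)ᶜ :: h) ≤ c0 * ε := by
      refine Sg_dead H hR0 (hd i (mem_insert_self _ _)) ((ha.consc hU).cons hWi)
        (by simp only [List.length_cons]; omega) (le_refl ε) ?_
      intro A _ hAD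
      rw [Sg_empty (A := A) (by simp) (fun x hx0 hxA => ⟨W i, by simp, hAD x hx0 hxA⟩)]
      exact H.eps
    have e : Sg κ R0 ((W i)ᶜ :: (Q.biUnion W)ᶜ :: h) =
        Sg κ R0 (((insert i Q).biUnion W)ᶜ :: h) := by
      unfold Sg
      congr 1
      ext x
      simp only [R6x.mem_Inter, List.mem_cons, forall_eq_or_imp, mem_compl, biUnion_insert,
        mem_union, not_or]
      tauto
    rw [e] at h2
    have h4 : (((insert i Q).card : ℕ) : ℝ) * (c0 * ε) = Q.card * (c0 * ε) + c0 * ε := by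
      rw [card_insert_of_notMem hi]
      push_cast
      ring
    rw [h4]
    linarith

/-- one inference -/
theorem stepP (H : R6x.Pseudo κ ε base cl L r) (hR0 : R0 ∈ base) (hp : 1 ≤ p)
    (hB : ∀ Q : Finset (Fin M), Q.card ≤ p → Q.biUnion W ∈ base) (simple : Finset (Fin M))
    {R : Finset (Finset Ω)} (hR : R ⊆ cl) (hr : R.card ≤ r) {V : Finset Ω} (hV : V ∈ base)
    {Q : Finset (Fin M)} (hQ : Q.card ≤ p)
    (hd : ∀ i ∈ Q, i ∈ simple → DeadSet base cl R0 c0 (W i))
    (hs : ∀ x ∈ R0, x ∈ V → (∃ i ∈ Q, x ∈ W i) ∨ x ∈ R.biUnion id)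
    {h : List (Finset Ω)} (hl : h.length + 6 ≤ L) (ha : R6x.Adm base h) :
    Sg κ R0 (V :: h) ≤ Sg κ R0 ((Q \ simple).biUnion W :: h) + (p * c0 + r + 1) * ε := by
  classical
  have hε := H.eps
  have hU : (Q \ simple).biUnion W ∈ base := hB _ ((card_le_card sdiff_subset).trans hQ)
  have hQs : (Q ∩ simple).card ≤ p := (card_le_card inter_subset_left).trans hQ
  have h1 := Sg_split κ R0 ((Q \ simple).biUnion W) (V :: h)
  have h2 := Sg_drop H hR0 hV (Or.inl hU) ha (by omega)
  have h3 := simplePart (c0 := c0) H hR0 hp hB (h := ((Q \ simple).biUnion W)ᶜ :: V :: h)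
    ((ha.cons hV).consc hU) (by simp only [List.length_cons]; omega) (Q ∩ simple) hQs
    (fun i hi => hd i (mem_inter.1 hi).1 (mem_inter.1 hi).2)
  have h4 : Sg κ R0 (((Q ∩ simple).biUnion W)ᶜ :: ((Q \ simple).biUnion W)ᶜ :: V :: h) ≤
      r * ε := by
    refine Sg_clauses H hR0 hR hr (((ha.cons hV).consc hU).consc (hB _ hQs))
      (by simp only [List.length_cons]; omega) ?_
    intro x hx0 hxV
    rcases hs x hx0 (hxV V (by simp)) with ⟨i, hi, hx⟩ | h3
    · exfalso
      by_cases his : i ∈ simple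
      · refine mem_compl.1 (hxV ((Q ∩ simple).biUnion W)ᶜ (by simp)) ?_
        exact mem_biUnion.2 ⟨i, mem_inter.2 ⟨hi, his⟩, hx⟩
      · refine mem_compl.1 (hxV ((Q \ simple).biUnion W)ᶜ (by simp)) ?_
        exact mem_biUnion.2 ⟨i, mem_sdiff.2 ⟨hi, his⟩, hx⟩
    · exact h3
  have h5 : ((Q ∩ simple).card : ℝ) * (c0 * ε) ≤ p * (c0 * ε) := by
    refine mul_le_mul_of_nonneg_right (by exact_mod_cast hQs) ?_
    exact mul_nonneg (Nat.cast_nonneg _) hε
  have e : ((p : ℝ) * c0 + r + 1) * ε = p * (c0 * ε) + r * ε + ε := by ring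
  rw [e]
  linarith

/-- the false set of a conjunction of lines -/
theorem unionP (H : R6x.Pseudo κ ε base cl L r) (hR0 : R0 ∈ base) (hL : 3 ≤ L) (hp : 1 ≤ p)
    (hB : ∀ Q : Finset (Fin M), Q.card ≤ p → Q.biUnion W ∈ base) {β : ℝ} :
    ∀ Q : Finset (Fin M), Q.card ≤ p → (∀ i ∈ Q, Sg κ R0 [W i] ≤ β) →
      Sg κ R0 [Q.biUnion W] ≤ Q.card * (β + ε) := by
  classical
  intro Q
  induction Q using Finset.induction_on with
  | empty =>
    intro _ _
    have e : Sg κ R0 [(∅ : Finset (Fin M)).biUnion W] = 0 := by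
      unfold Sg
      have : Inter (R0 :: [(∅ : Finset (Fin M)).biUnion W]) = ∅ := by
        rw [eq_empty_iff_forall_notMem]
        intro x hx
        have hx := R6x.mem_Inter.1 hx
        have := hx ((∅ : Finset (Fin M)).biUnion W) (by simp)
        simp at this
      rw [this, sum_empty]
    rw [e]
    simp
  | insert i Q hi ih =>
    intro hc hβ
    rw [card_insert_of_notMem hi] at hc
    have h1 := ih (by omega) (fun i hi => hβ i (mem_insert_of_mem hi))
    have hU := hB Q (by omega)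
    have hWi : W i ∈ base := by
      have := hB {i} (by simpa using hp)
      rwa [singleton_biUnion] at this
    have h2 := Sg_split κ R0 (W i) [(insert i Q).biUnion W]
    have e1 : Sg κ R0 [W i, (insert i Q).biUnion W] = Sg κ R0 [W i] := by
      unfold Sg
      congr 1
      ext x
      simp only [R6x.mem_Inter, List.mem_cons, List.not_mem_nil, or_false, forall_eq_or_imp,
        forall_eq, biUnion_insert, mem_union]
      tauto
    have e2 : Sg κ R0 [(W i)ᶜ, (insert i Q).biUnion W] = Sg κ R0 [(W i)ᶜ, Q.biUnion W] := by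
      unfold Sg
      congr 1
      ext x
      simp only [R6x.mem_Inter, List.mem_cons, List.not_mem_nil, or_false, forall_eq_or_imp,
        forall_eq, biUnion_insert, mem_union, mem_compl]
      tauto
    rw [e1, e2] at h2
    have h3 := Sg_split κ R0 (W i) [Q.biUnion W]
    have h4 := Sg_low H hR0 (h := [W i, Q.biUnion W]) ((R6x.Adm.nil.cons hU).cons hWi)
      (by simpa using hL)
    have h5 := hβ i (mem_insert_self _ _)
    have h6 : (((insert i Q).card : ℕ) : ℝ) * (β + ε) = Q.card * (β + ε) + (β + ε) := by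
      rw [card_insert_of_notMem hi]
      push_cast
      ring
    rw [h6]
    linarith

end MainPx

open MainPx in
theorem mainP (hwalkP : WalkP) : MainP := by
  classical
  intro Ω _ _ κ ε gap base cl r c0 M S T p q P J R0 W simple anc size H hR0 hc0 hp hB hsimp hanc
    hsize hTP hJ hinf hlast hgap
  have hε := H.eps
  have hc1 : (1:ℝ) ≤ c0 := by exact_mod_cast hc0
  have hp1 : (1:ℝ) ≤ p := by exact_mod_cast hp
  have hr0 : (0:ℝ) ≤ r := Nat.cast_nonneg _
  have hS0 : (0:ℝ) ≤ S := Nat.cast_nonneg _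
  obtain ⟨kl, hkl⟩ := hlast
  have hW : ∀ k, W k ∈ base := by
    intro k
    have := hB {k} (by simpa using hp)
    rwa [singleton_biUnion] at this
  set E : ℝ := (p * c0 + r + 1) * ε with hE
  have hE0 : 0 ≤ E := by positivity
  have hEe : E + ε = (p * c0 + r + 2) * ε := by rw [hE]; ring
  rw [← hEe]
  set β : ℝ := ((S : ℝ) + 1) ^ P * (2 ^ (J + 2) * (E + ε)) with hβ
  have hβ1 : E + ε ≤ β := by
    rw [hβ]
    have h1 : (1:ℝ) ≤ ((S : ℝ) + 1) ^ P := one_le_pow₀ (by linarith)
    have h2 : (1:ℝ) ≤ 2 ^ (J + 2) := one_le_pow₀ (by norm_num)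
    have h3 : 0 ≤ E + ε := by linarith
    have h4 : E + ε ≤ 2 ^ (J + 2) * (E + ε) := by nlinarith
    nlinarith
  have hβ0 : 0 ≤ β := by linarith
  have hβE : E ≤ β := by linarith
  have hβε : ε ≤ β := by linarith
  by_contra hcon
  push Not at hcon
  have hcon' : p * (β + ε) + E < gap := by
    have h1 : p * ε ≤ p * β := mul_le_mul_of_nonneg_left hβε (by linarith)
    have h2 : (2 * (p : ℝ) + 1) * β = p * β + p * β + β := by ring
    have h3 : (p : ℝ) * (β + ε) = p * β + p * ε := by ring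
    linarith
  -- the walk for a prefix of the proof
  have walk : ∀ K : ℕ, (∀ k ∈ simple, (k : ℕ) < K → DeadSet base cl R0 c0 (W k)) →
      ∀ k ∉ simple, (k : ℕ) < K → Sg κ R0 [W k] ≤ β := by
    intro K hK k hk hkK
    refine hwalkP Ω κ ε E base R0 M S T p q P J W
      (univ.filter fun k => k ∉ simple ∧ (k : ℕ) < K) anc size hε hE0 hp
      (fun Q _ hQ => hB Q hQ) (fun h hl ha => Sg_low H hR0 ha (by omega))
      (fun k hk => hanc k (mem_filter.1 hk).2.1) (fun k hk => hsize k (mem_filter.1 hk).2.1)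
      hTP hJ ?_ k (mem_filter.2 ⟨mem_univ _, hk, hkK⟩)
    intro k' hk''
    obtain ⟨_, hk', hk'K⟩ := mem_filter.1 hk''
    obtain ⟨R, hR, hr, Q, hQ, hQlt, hQs, hQr⟩ := hinf k'
    obtain ⟨hQa, hQz⟩ := hQr hk'
    have hltK : ∀ i ∈ Q, (i : ℕ) < K := fun i hi => by
      have : (i : ℕ) < k' := hQlt i hi
      omega
    refine ⟨Q \ simple, ?_, (card_le_card sdiff_subset).trans hQ, ?_, hQz, ?_⟩
    · intro i hi
      have hi' := mem_sdiff.1 hi
      exact mem_filter.2 ⟨mem_univ _, hi'.2, hltK i hi'.1⟩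
    · intro i hi
      exact ⟨hQlt i (mem_sdiff.1 hi).1, hQa i hi⟩
    · intro h hl ha
      exact stepP H hR0 hp hB simple hR hr (hW k') hQ (fun i hi his => hK i his (hltK i hi)) hQs
        (by omega) ha
  -- all simple lines are dead
  have dead : ∀ K : ℕ, ∀ k ∈ simple, (k : ℕ) < K → DeadSet base cl R0 c0 (W k) := by
    intro K
    induction K with
    | zero => intro k _ hk; omega
    | succ K ih =>
      intro k hks hkK
      obtain ⟨ι, i1, i2, c, hc, hcb, hcW, hcell⟩ := hsimp k hks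
      refine ⟨ι, i1, i2, c, hc, hcb, fun i => ?_⟩
      rcases hcell i with h1 | h1 | h1
      · exact Or.inl fun x hx0 hx => absurd hx (h1 x hx0)
      · exact Or.inr h1
      · left
        intro x hx0 hxi hxW
        obtain ⟨R, hR, hr, Q, hQ, hQlt, hQs, _⟩ := hinf k
        have hltK : ∀ i ∈ Q, (i : ℕ) < K := fun i hi => by
          have : (i : ℕ) < k := hQlt i hi
          omega
        have hwalk := walk K ih
        have h2 := stepP (c0 := c0) (V := univ.filter fun x => c x = i) H hR0 hp hB simple hR hr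
          (hcb i) hQ (fun i hi his => ih i his (hltK i hi)) (by
            intro y hy0 hy
            have hyi : c y = i := (mem_filter.1 hy).2
            exact hQs y hy0 (hcW x hx0 y hy0 (hxi.trans hyi.symm) hxW)) (h := [])
          (by simp) R6x.Adm.nil
        have hQ' : (Q \ simple).card ≤ p := (card_le_card sdiff_subset).trans hQ
        have h3 := unionP (β := β) H hR0 (by omega) hp hB (Q \ simple) hQ'
          (fun i hi => hwalk i (mem_sdiff.1 hi).2 (hltK i (mem_sdiff.1 hi).1))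
        have h4 : ((Q \ simple).card : ℝ) * (β + ε) ≤ p * (β + ε) :=
          mul_le_mul_of_nonneg_right (by exact_mod_cast hQ') (by linarith)
        linarith
  -- the last line
  have hSg : Sg κ R0 [] = ∑ x ∈ R0, κ x := by
    unfold Sg
    refine sum_congr ?_ fun _ _ => rfl
    ext x
    simp [R6x.mem_Inter]
  by_cases hks : kl ∈ simple
  · have h1 := dead M kl hks kl.2
    have h2 := Sg_dead H hR0 h1 R6x.Adm.nil (by simp) (le_refl ε) (by
      intro A _ hAD
      rw [Sg_empty (h := [A]) (A := A) (by simp)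
        (fun x hx0 hxA => absurd (hkl x hx0) (hAD x hx0 hxA))]
      exact hε)
    rw [hSg] at h2
    have h3 : (c0 : ℝ) * ε ≤ E := by
      rw [hE]
      have h4 : (c0 : ℝ) ≤ p * c0 + r + 1 := by nlinarith
      exact mul_le_mul_of_nonneg_right h4 hε
    have h5 : 0 ≤ (p : ℝ) * (β + ε) := by positivity
    linarith
  · have h1 := walk M (dead M) kl hks kl.2
    have h2 : Sg κ R0 [W kl] = ∑ x ∈ R0, κ x := by
      unfold Sg
      refine sum_congr ?_ fun _ _ => rfl
      ext x
      simp only [R6x.mem_Inter, List.mem_cons, List.not_mem_nil, or_false, forall_eq_or_imp,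
        forall_eq]
      exact ⟨fun h => h.1, fun h => ⟨h, hkl x h⟩⟩
    have h5 : (1 : ℝ) * β ≤ p * β := mul_le_mul_of_nonneg_right hp1 hβ0
    have h6 : 0 ≤ (p : ℝ) * ε := by positivity
    have h3 : (p : ℝ) * (β + ε) = p * β + p * ε := by ring
    linarith

end Pool.Agent.BW
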