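import Pool.Agent.Lib.BW.MainT
import Pool.Agent.Lib.BW.Defs9

/-!
# Row MAINS

Project BW (helper10).
-/

set_option autoImplicit false

namespace Pool.Agent.BW

open Finset Pool.Agent.SL

theorem card_act {S : ℕ} {simple : Finset (Fin S)} {act : Fin S → Prop}
    (inst : DecidablePred act) (h : ∀ k, act k → k ∉ simple) :
    (@Finset.filter (Fin S) (fun k => act k) inst univ).card ≤ simpleᶜ.card := by
  refine card_le_card fun x hx => mem_compl.2 (h x ?_)
  exact (mem_filter.1 hx).2

theorem mainS (hwalkS : WalkS) : MainS := by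
  classical
  intro Ω _ _ κ ε gap base cl r c0 S Sc T q P J R0 W simple size H hR0 hc0 hWb hsimp hSc hsize
    hTP hJ hinf hlast hgap
  have hε := H.eps
  have hc1 : (1:ℝ) ≤ c0 := by exact_mod_cast hc0
  have hr0 : (0:ℝ) ≤ r := by positivity
  obtain ⟨kl, hkl⟩ := hlast
  set E : ℝ := c0 ^ 2 * (r + 3) * ε with hE
  have hE0 : 0 ≤ E := by positivity
  have hEe : E + ε ≤ c0 ^ 2 * (r + 4) * ε := by
    have h1 : (c0:ℝ) ^ 2 * (r + 3) + 1 ≤ c0 ^ 2 * (r + 4) := by nlinarith
    calc E + ε = (c0 ^ 2 * (r + 3) + 1) * ε := by rw [hE]; ring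
      _ ≤ _ := mul_le_mul_of_nonneg_right h1 hε
  set β : ℝ := (P + 1) * (Sc : ℝ) ^ (P + 1) * (2 ^ (J + 2) * (E + ε)) with hβ
  have hβ0 : 0 ≤ β := by positivity
  have hβ1 : β ≤ (P + 1) * (Sc : ℝ) ^ (P + 1) * (2 ^ (J + 2) * (c0 ^ 2 * (r + 4) * ε)) := by
    rw [hβ]
    gcongr
  by_contra hcon
  push Not at hcon
  have hcon' : 2 * β + 2 * (E + ε) < gap := by linarith
  -- the walk for a prefix of the proof
  have walk : ∀ K : ℕ, (∀ k ∈ simple, (k : ℕ) < K → DeadSet base cl R0 c0 (W k)) →
      ∀ k ∉ simple, (k : ℕ) < K → Sg κ R0 [W k] ≤ β := by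
    intro K hK k hk hkK
    refine hwalkS Ω κ ε E base R0 S Sc T q P J W (fun k => k ∉ simple ∧ (k : ℕ) < K) size hε hE0
      (fun k hk => hWb k hk.1) (fun h hl ha => Sg_low H hR0 ha (by omega)) ?_
      (fun k hk => hsize k hk.1) hTP hJ ?_ k ⟨hk, hkK⟩
    · exact le_trans (card_act _ fun k hk => hk.1) hSc
    rintro k' ⟨hk', hk'K⟩
    obtain ⟨R, hR, hr, Q, hQ, hQlt, hQs, hQr⟩ := hinf k'
    have hsz := hQr hk'
    have hltK : ∀ i ∈ Q, (i : ℕ) < K := fun i hi => by
      have : (i : ℕ) < k' := hQlt i hi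
      omega
    rcases stepQ' (simple := simple) H hR0 hc0 hR hr (hWb k' hk') hQ
      (fun i hi his => hK i his (hltK i hi)) (fun i _ hi => hWb i hi) hQs with
      h1 | ⟨i, hi, h1⟩ | ⟨i, hi, j, hj, hc, h1⟩
    · left
      exact ⟨by omega, fun h hl ha => h1 h (by omega) ha⟩
    · right; left
      have hi' := mem_sdiff.1 hi
      have h2 : size i ≤ ∑ i ∈ Q \ simple, size i :=
        single_le_sum (f := fun i => size i) (fun _ _ => Nat.zero_le _) hi
      exact ⟨i, hQlt i hi'.1, ⟨hi'.2, hltK i hi'.1⟩, by omega, fun h hl ha => h1 h (by omega) ha⟩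
    · right; right
      have hi' := mem_sdiff.1 hi
      have hj' := mem_sdiff.1 hj
      have h2 : size i + size j ≤ ∑ i ∈ Q \ simple, size i := by
        rw [← sum_pair hc]
        refine sum_le_sum_of_subset ?_
        intro x hx
        rcases mem_insert.1 hx with rfl | hx
        · exact hi
        · rw [mem_singleton.1 hx]
          exact hj
      exact ⟨i, j, hQlt i hi'.1, hQlt j hj'.1, ⟨hi'.2, hltK i hi'.1⟩, ⟨hj'.2, hltK j hj'.1⟩,
        by omega, fun h hl ha => h1 h (by omega) ha⟩
  -- all simple lines are dead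
  have dead : ∀ K : ℕ, ∀ k ∈ simple, (k : ℕ) < K → DeadSet base cl R0 c0 (W k) := by
    intro K
    induction K with
    | zero => intro k _ hk; omega
    | succ K ih =>
      intro k hks hkK
      obtain ⟨ι, i1, i2, c, hc, hcb, hcW, hcell⟩ := hsimp k hks
      refine ⟨ι, i1, i2, c, hc, hcb, fun i => ?_⟩
      rcases hcell i with h1 | h1 | h1
      · exact Or.inl fun x hx0 hx => absurd hx (h1 x hx0)
      · exact Or.inr h1
      · left
        intro x hx0 hxi hxW
        obtain ⟨R, hR, hr, Q, hQ, hQlt, hQs, _⟩ := hinf k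
        have hltK : ∀ i ∈ Q, (i : ℕ) < K := fun i hi => by
          have : (i : ℕ) < k := hQlt i hi
          omega
        have hwalk := walk K ih
        have ha : R6x.Adm base ([] : List (Finset Ω)) := R6x.Adm.nil
        rcases stepQ' (simple := simple) (V := univ.filter fun x => c x = i) H hR0 hc0 hR hr
          (hcb i) hQ
          (fun i hi his => ih i his (hltK i hi)) (fun i _ hi => hWb i hi) (by
            intro y hy0 hy
            have hyi : c y = i := (mem_filter.1 hy).2
            exact hQs y hy0 (hcW x hx0 y hy0 (hxi.trans hyi.symm) hxW)) with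
          h2 | ⟨i', hi, h2⟩ | ⟨i', hi, j', hj, _, h2⟩
        · have h3 := h2 [] (by simp) ha
          linarith
        · have hi' := mem_sdiff.1 hi
          have h3 := h2 [] (by simp) ha
          have h4 := hwalk i' hi'.2 (hltK i' hi'.1)
          linarith
        · have hi' := mem_sdiff.1 hi
          have hj' := mem_sdiff.1 hj
          have h3 := h2 [] (by simp) ha
          have h4 := hwalk i' hi'.2 (hltK i' hi'.1)
          have h5 := hwalk j' hj'.2 (hltK j' hj'.1)
          have h6 := Sg_split κ R0 (W i') [W j']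
          rw [Sg_swap κ R0 (W i')ᶜ] at h6
          have h7 := Sg_low H hR0 (h := [W i', W j'])
            ((ha.cons (hWb j' hj'.2)).cons (hWb i' hi'.2)) (by simp)
          linarith
  -- the last line
  have hSg : Sg κ R0 [] = ∑ x ∈ R0, κ x := by
    unfold Sg
    refine sum_congr ?_ fun _ _ => rfl
    ext x
    simp [R6x.mem_Inter]
  by_cases hks : kl ∈ simple
  · have h1 := dead S kl hks kl.2
    have h2 := Sg_dead H hR0 h1 R6x.Adm.nil (by simp) (le_refl ε) (by
      intro A _ hAD
      have : Inter (R0 :: A :: []) = ∅ := by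
        rw [eq_empty_iff_forall_notMem]
        intro x hx
        have hx := R6x.mem_Inter.1 hx
        exact hAD x (hx R0 (by simp)) (hx A (by simp)) (hkl x (hx R0 (by simp)))
      unfold Sg
      rw [this, sum_empty]
      exact hε)
    rw [hSg] at h2
    have h3 : (c0 : ℝ) * ε ≤ E := by
      rw [hE]
      have h4 : (c0 : ℝ) ≤ c0 ^ 2 * (r + 3) := by nlinarith
      exact mul_le_mul_of_nonneg_right h4 hε
    linarith
  · have h1 := walk S (dead S) kl hks kl.2
    have h2 : Sg κ R0 [W kl] = ∑ x ∈ R0, κ x := by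
      unfold Sg
      refine sum_congr ?_ fun _ _ => rfl
      ext x
      simp only [R6x.mem_Inter, List.mem_cons, List.not_mem_nil, or_false, forall_eq_or_imp,
        forall_eq]
      exact ⟨fun h => h.1, fun h => ⟨h, hkl x h⟩⟩
    linarith

end Pool.Agent.BW
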