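import Pool.Agent.Lib.BW.Main
import Pool.Agent.Lib.BW.Defs8

/-!
# Row MAINT

Project BW (helper10).
-/

set_option autoImplicit false

namespace Pool.Agent.BW

open Finset Pool.Agent.SL

variable {Ω : Type} [Fintype Ω] [DecidableEq Ω]

section

variable {κ : Ω → ℝ} {ε : ℝ} {base cl : Finset (Finset Ω)} {M r c0 S : ℕ} {R0 : Finset Ω}
  {W : Fin S → Finset Ω} {simple : Finset (Fin S)}

/-- one inference, in all cases -/
theorem stepQ' (H : R6x.Pseudo κ ε base cl M r) (hR0 : R0 ∈ base) (hc0 : 1 ≤ c0)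
    {R : Finset (Finset Ω)} (hR : R ⊆ cl) (hr : R.card ≤ r) {V : Finset Ω} (hV : V ∈ base)
    {Q : Finset (Fin S)} (hQ : Q.card ≤ 2)
    (hd : ∀ i ∈ Q, i ∈ simple → DeadSet base cl R0 c0 (W i))
    (hb : ∀ i ∈ Q, i ∉ simple → W i ∈ base)
    (hs : ∀ x ∈ R0, x ∈ V → (∃ i ∈ Q, x ∈ W i) ∨ x ∈ R.biUnion id) :
    (∀ h : List (Finset Ω), h.length + 6 ≤ M → R6x.Adm base h →
      Sg κ R0 (V :: h) ≤ c0 ^ 2 * (r + 3) * ε) ∨
    (∃ i ∈ Q \ simple, ∀ h : List (Finset Ω), h.length + 6 ≤ M → R6x.Adm base h →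
      Sg κ R0 (V :: h) ≤ Sg κ R0 (W i :: h) + c0 ^ 2 * (r + 3) * ε) ∨
    (∃ i ∈ Q \ simple, ∃ j ∈ Q \ simple, i ≠ j ∧
      ∀ h : List (Finset Ω), h.length + 6 ≤ M → R6x.Adm base h →
      Sg κ R0 (V :: h) ≤ Sg κ R0 (W i :: h) + Sg κ R0 (W j :: (W i)ᶜ :: h) +
        c0 ^ 2 * (r + 3) * ε) := by
  classical
  have hε := H.eps
  have hc1 : (1:ℝ) ≤ c0 := by exact_mod_cast hc0
  have hr0 : (0:ℝ) ≤ r := by positivity
  obtain ⟨s1, s2, s3⟩ := step Ω κ ε base cl M r c0 R0 H hR0 hc0 R hR hr V hV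
  have hcase : Q = ∅ ∨ (∃ i, Q = {i}) ∨ ∃ i j, i ≠ j ∧ Q = {i, j} := by
    rcases Nat.lt_or_ge Q.card 1 with h1 | h1
    · left
      rw [← card_eq_zero]
      omega
    rcases Nat.lt_or_ge Q.card 2 with h2 | h2
    · right; left
      exact card_eq_one.1 (by omega)
    · right; right
      exact card_eq_two.1 (by omega)
  rcases hcase with rfl | ⟨i, rfl⟩ | ⟨i, j, hij, rfl⟩
  · left
    intro h hl ha
    have h1 : Sg κ R0 (V :: h) ≤ r * ε := by
      refine Sg_clauses H hR0 hR hr (ha.cons hV) (by simp only [List.length_cons]; omega) ?_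
      intro x hx0 hxV
      rcases hs x hx0 (hxV V (by simp)) with ⟨i, hi, _⟩ | h3
      · simp at hi
      · exact h3
    refine h1.trans ?_
    have h4 : (1:ℝ) ≤ c0 ^ 2 := one_le_pow₀ hc1
    have h5 : (r:ℝ) ≤ c0 ^ 2 * (r + 3) := by nlinarith
    exact mul_le_mul_of_nonneg_right h5 hε
  · by_cases hi : i ∈ simple
    · left
      refine s1 (W i) (W i) (hd i (by simp) hi) (hd i (by simp) hi) ?_
      intro x hx0 hxV
      rcases hs x hx0 hxV with ⟨i', hi', hx⟩ | h3
      · rw [mem_singleton] at hi'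
        subst hi'
        exact Or.inl hx
      · exact Or.inr (Or.inr h3)
    · right; left
      refine ⟨i, by simp [hi], fun h hl ha => ?_⟩
      have h1 := s3 (W i) (hb i (by simp) hi) (W i) (hb i (by simp) hi) (by
        intro x hx0 hxV
        rcases hs x hx0 hxV with ⟨i', hi', hx⟩ | h3
        · rw [mem_singleton] at hi'
          subst hi'
          exact Or.inl hx
        · exact Or.inr (Or.inr h3)) h hl ha
      have h2 : Sg κ R0 (W i :: (W i)ᶜ :: h) = 0 := by
        unfold Sg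
        have : Inter (R0 :: W i :: (W i)ᶜ :: h) = ∅ := by
          rw [eq_empty_iff_forall_notMem]
          intro x hx
          have hx := R6x.mem_Inter.1 hx
          exact absurd (hx (W i) (by simp)) (mem_compl.1 (hx (W i)ᶜ (by simp)))
        rw [this, sum_empty]
      linarith
  · have hs' : ∀ x ∈ R0, x ∈ V → x ∈ W i ∨ x ∈ W j ∨ x ∈ R.biUnion id := by
      intro x hx0 hxV
      rcases hs x hx0 hxV with ⟨i', hi', hx⟩ | h3
      · rw [mem_insert, mem_singleton] at hi'
        rcases hi' with rfl | rfl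
        · exact Or.inl hx
        · exact Or.inr (Or.inl hx)
      · exact Or.inr (Or.inr h3)
    by_cases hi : i ∈ simple
    · by_cases hj : j ∈ simple
      · left
        exact s1 (W i) (W j) (hd i (by simp) hi) (hd j (by simp) hj) hs'
      · right; left
        refine ⟨j, by simp [hj], ?_⟩
        refine s2 (W i) (hd i (by simp) hi) (W j) (hb j (by simp) hj) ?_
        intro x hx0 hxV
        rcases hs' x hx0 hxV with h | h | h
        · exact Or.inr (Or.inl h)
        · exact Or.inl h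
        · exact Or.inr (Or.inr h)
    · by_cases hj : j ∈ simple
      · right; left
        refine ⟨i, by simp [hi], ?_⟩
        exact s2 (W j) (hd j (by simp) hj) (W i) (hb i (by simp) hi) hs'
      · right; right
        exact ⟨i, by simp [hi], j, by simp [hj], hij, s3 (W i) (hb i (by simp) hi) (W j)
          (hb j (by simp) hj) hs'⟩

end

theorem mainT (hwalkT : WalkT) : MainT := by
  classical
  intro Ω _ _ κ ε gap base cl r c0 S T q P J R0 W simple size H hR0 hc0 hWb hsimp hsize hTP hJ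
    hinf hlast hgap
  have hε := H.eps
  have hc1 : (1:ℝ) ≤ c0 := by exact_mod_cast hc0
  have hr0 : (0:ℝ) ≤ r := by positivity
  obtain ⟨kl, hkl⟩ := hlast
  have hS : 0 < S := kl.pos
  have hS1 : (1:ℝ) ≤ S := by exact_mod_cast hS
  set E : ℝ := c0 ^ 2 * (r + 3) * ε with hE
  have hE0 : 0 ≤ E := by positivity
  have hEe : E + ε ≤ c0 ^ 2 * (r + 4) * ε := by
    have h1 : (c0:ℝ) ^ 2 * (r + 3) + 1 ≤ c0 ^ 2 * (r + 4) := by nlinarith
    calc E + ε = (c0 ^ 2 * (r + 3) + 1) * ε := by rw [hE]; ring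
      _ ≤ _ := mul_le_mul_of_nonneg_right h1 hε
  set β : ℝ := (P + 1) * (S : ℝ) ^ (P + 1) * (2 ^ (J + 2) * (E + ε)) with hβ
  have hβ0 : 0 ≤ β := by positivity
  have hβ1 : β ≤ (P + 1) * (S : ℝ) ^ (P + 1) * (2 ^ (J + 2) * (c0 ^ 2 * (r + 4) * ε)) := by
    rw [hβ]
    gcongr
  by_contra hcon
  push Not at hcon
  have hcon' : 2 * β + 2 * (E + ε) < gap := by linarith
  -- the walk for a prefix of the proof
  have walk : ∀ K : ℕ, (∀ k ∈ simple, (k : ℕ) < K → DeadSet base cl R0 c0 (W k)) →
      ∀ k ∉ simple, (k : ℕ) < K → Sg κ R0 [W k] ≤ β := by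
    intro K hK k hk hkK
    refine hwalkT Ω κ ε E base R0 S T q P J W (fun k => k ∉ simple ∧ (k : ℕ) < K) size hε hE0
      (fun k hk => hWb k hk.1) (fun h hl ha => Sg_low H hR0 ha (by omega))
      (fun k hk => hsize k hk.1) hTP hJ ?_ k ⟨hk, hkK⟩
    rintro k' ⟨hk', hk'K⟩
    obtain ⟨R, hR, hr, Q, hQ, hQlt, hQs, hQr⟩ := hinf k'
    have hsz := hQr hk'
    have hltK : ∀ i ∈ Q, (i : ℕ) < K := fun i hi => by
      have : (i : ℕ) < k' := hQlt i hi
      omega
    rcases stepQ' (simple := simple) H hR0 hc0 hR hr (hWb k' hk') hQ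
      (fun i hi his => hK i his (hltK i hi)) (fun i _ hi => hWb i hi) hQs with
      h1 | ⟨i, hi, h1⟩ | ⟨i, hi, j, hj, hc, h1⟩
    · left
      exact ⟨by omega, fun h hl ha => h1 h (by omega) ha⟩
    · right; left
      have hi' := mem_sdiff.1 hi
      have h2 : size i ≤ ∑ i ∈ Q \ simple, size i :=
        single_le_sum (f := fun i => size i) (fun _ _ => Nat.zero_le _) hi
      exact ⟨i, hQlt i hi'.1, ⟨hi'.2, hltK i hi'.1⟩, by omega, fun h hl ha => h1 h (by omega) ha⟩
    · right; right
      have hi' := mem_sdiff.1 hi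
      have hj' := mem_sdiff.1 hj
      have h2 : size i + size j ≤ ∑ i ∈ Q \ simple, size i := by
        rw [← sum_pair hc]
        refine sum_le_sum_of_subset ?_
        intro x hx
        rcases mem_insert.1 hx with rfl | hx
        · exact hi
        · rw [mem_singleton.1 hx]
          exact hj
      exact ⟨i, j, hQlt i hi'.1, hQlt j hj'.1, ⟨hi'.2, hltK i hi'.1⟩, ⟨hj'.2, hltK j hj'.1⟩,
        by omega, fun h hl ha => h1 h (by omega) ha⟩
  -- all simple lines are dead
  have dead : ∀ K : ℕ, ∀ k ∈ simple, (k : ℕ) < K → DeadSet base cl R0 c0 (W k) := by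
    intro K
    induction K with
    | zero => intro k _ hk; omega
    | succ K ih =>
      intro k hks hkK
      obtain ⟨ι, i1, i2, c, hc, hcb, hcW, hcell⟩ := hsimp k hks
      refine ⟨ι, i1, i2, c, hc, hcb, fun i => ?_⟩
      rcases hcell i with h1 | h1 | h1
      · exact Or.inl fun x hx0 hx => absurd hx (h1 x hx0)
      · exact Or.inr h1
      · left
        intro x hx0 hxi hxW
        obtain ⟨R, hR, hr, Q, hQ, hQlt, hQs, _⟩ := hinf k
        have hltK : ∀ i ∈ Q, (i : ℕ) < K := fun i hi => by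
          have : (i : ℕ) < k := hQlt i hi
          omega
        have hwalk := walk K ih
        have ha : R6x.Adm base ([] : List (Finset Ω)) := R6x.Adm.nil
        rcases stepQ' (simple := simple) (V := univ.filter fun x => c x = i) H hR0 hc0 hR hr
          (hcb i) hQ
          (fun i hi his => ih i his (hltK i hi)) (fun i _ hi => hWb i hi) (by
            intro y hy0 hy
            have hyi : c y = i := (mem_filter.1 hy).2
            exact hQs y hy0 (hcW x hx0 y hy0 (hxi.trans hyi.symm) hxW)) with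
          h2 | ⟨i', hi, h2⟩ | ⟨i', hi, j', hj, _, h2⟩
        · have h3 := h2 [] (by simp) ha
          linarith
        · have hi' := mem_sdiff.1 hi
          have h3 := h2 [] (by simp) ha
          have h4 := hwalk i' hi'.2 (hltK i' hi'.1)
          linarith
        · have hi' := mem_sdiff.1 hi
          have hj' := mem_sdiff.1 hj
          have h3 := h2 [] (by simp) ha
          have h4 := hwalk i' hi'.2 (hltK i' hi'.1)
          have h5 := hwalk j' hj'.2 (hltK j' hj'.1)
          have h6 := Sg_split κ R0 (W i') [W j']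
          rw [Sg_swap κ R0 (W i')ᶜ] at h6
          have h7 := Sg_low H hR0 (h := [W i', W j'])
            ((ha.cons (hWb j' hj'.2)).cons (hWb i' hi'.2)) (by simp)
          linarith
  -- the last line
  have hSg : Sg κ R0 [] = ∑ x ∈ R0, κ x := by
    unfold Sg
    refine sum_congr ?_ fun _ _ => rfl
    ext x
    simp [R6x.mem_Inter]
  by_cases hks : kl ∈ simple
  · have h1 := dead S kl hks kl.2
    have h2 := Sg_dead H hR0 h1 R6x.Adm.nil (by simp) (le_refl ε) (by
      intro A _ hAD
      have : Inter (R0 :: A :: []) = ∅ := by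
        rw [eq_empty_iff_forall_notMem]
        intro x hx
        have hx := R6x.mem_Inter.1 hx
        exact hAD x (hx R0 (by simp)) (hx A (by simp)) (hkl x (hx R0 (by simp)))
      unfold Sg
      rw [this, sum_empty]
      exact hε)
    rw [hSg] at h2
    have h3 : (c0 : ℝ) * ε ≤ E := by
      rw [hE]
      have h4 : (c0 : ℝ) ≤ c0 ^ 2 * (r + 3) := by nlinarith
      exact mul_le_mul_of_nonneg_right h4 hε
    linarith
  · have h1 := walk S (dead S) kl hks kl.2
    have h2 : Sg κ R0 [W kl] = ∑ x ∈ R0, κ x := by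
      unfold Sg
      refine sum_congr ?_ fun _ _ => rfl
      ext x
      simp only [R6x.mem_Inter, List.mem_cons, List.not_mem_nil, or_false, forall_eq_or_imp,
        forall_eq]
      exact ⟨fun h => h.1, fun h => ⟨h, hkl x h⟩⟩
    linarith

end Pool.Agent.BW
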