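import Pool.Agent.Lib.SL.R8b
import Pool.Agent.Lib.BW.Model2

/-!
# Bounded workspace: the matching upper side (helper70)

A fixed family of `2 ^ (N ^ (c + 21))` functions contains, for all the formulas `F`, the
refutation which writes down one clause after the other.
-/

set_option autoImplicit false

namespace Pool.Agent.BW

open Finset Pool.Agent.SL

namespace Sharpx

open Classical in
/-- the first `t` clauses of `F` hold -/
noncomputable def pre {ν : Type} (F : Finset (Clause ν)) (t : ℕ) : (ν → Bool) → Bool :=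
  fun x => decide (∀ C ∈ F.toList.take t, Holds C x)

theorem pre_iff {ν : Type} (F : Finset (Clause ν)) (t : ℕ) (x : ν → Bool) :
    pre F t x = true ↔ ∀ C ∈ F.toList.take t, Holds C x := by
  classical
  unfold pre
  simp only [decide_eq_true_eq]

/-- every unsatisfiable CNF is refuted by writing down its clauses -/
theorem write {ν : Type} [DecidableEq ν] (F : Finset (Clause ν))
    (hF : ∀ x, ∃ C ∈ F, ¬ Holds C x) (Cx : ((ν → Bool) → Bool) → Prop)
    (hC : ∀ t ≤ F.card, Cx (pre F t)) :
    Nonempty (WRefutation F (fun _ => False) Cx 1 (F.card + 1) 0) := by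
  refine ⟨⟨fun k => pre F k.1, ∅, by simp, fun k _ => hC k.1 (by omega), fun _ => 0, by simp,
    ⟨⟨F.card, by omega⟩, fun x => ?_⟩, fun k => ?_⟩⟩
  · obtain ⟨C, hCF, hx⟩ := hF x
    by_contra hcon
    have h1 : pre F F.card x = true := by simpa using hcon
    rw [pre_iff] at h1
    apply hx
    apply h1
    rw [List.take_of_length_le (by rw [length_toList])]
    exact mem_toList.2 hCF
  · rcases Nat.eq_zero_or_pos k.1 with h0 | h0
    · refine ⟨∅, empty_subset _, by simp, ∅, by simp, by simp, fun x _ _ => ?_, by simp⟩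
      rw [h0, pre_iff]
      simp
    · obtain ⟨j, hj⟩ : ∃ j, k.1 = j + 1 := ⟨k.1 - 1, by omega⟩
      have hjc : j < F.toList.length := by
        rw [length_toList]
        have := k.2
        omega
      refine ⟨{F.toList[j]}, ?_, by simp, {⟨j, by omega⟩}, by simp, ?_, ?_, by simp⟩
      · rw [singleton_subset_iff]
        exact mem_toList.1 (List.getElem_mem hjc)
      · intro i hi
        rw [mem_singleton] at hi
        rw [hi, Fin.lt_def]
        simp only
        omega
      · intro x h1 h2
        have h3 := h2 ⟨j, by omega⟩ (mem_singleton_self _)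
        have h4 := h1 F.toList[j] (mem_singleton_self _)
        rw [pre_iff] at h3
        rw [pre_iff, hj, List.take_succ_eq_append_getElem hjc]
        intro C hC
        rw [List.mem_append, List.mem_singleton] at hC
        rcases hC with hC | hC
        · exact h3 C hC
        · rw [hC]
          exact h4

end Sharpx

/-- the upper side -/
theorem sharp (c ℓ n m b N : ℕ) (hℓ : 3 ≤ ℓ) (hn : n = 2 ^ ℓ) (hm : n = m + 1)
    (hb : b = (c + 19) * ℓ) (hN : N = n * b) :
    ∃ V : Finset ((Fin n × Fin b → Bool) → Bool), V.card ≤ 2 ^ (N ^ (c + 21)) ∧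
      ∀ g : Fin n → (Fin b → Bool) → Fin m, ∃ S, S ≤ N ^ (2 * c + 40) + 1 ∧
        Nonempty (WRefutation (R8x.FF g) (fun _ => False) (fun f => f ∈ V) 1 S 0) := by
  classical
  obtain ⟨M, hM⟩ : ∃ M, M = n ^ 2 * (2 ^ b) ^ 2 := ⟨_, rfl⟩
  have hbℓ : ℓ ≤ b := by
    rw [hb]
    exact Nat.le_mul_of_pos_left _ (by omega)
  have hn1 : 1 ≤ n := by omega
  have hMN : M ≤ N ^ (2 * c + 40) := by
    have e1 : n ^ 2 * (2 ^ b) ^ 2 = n ^ (2 * c + 40) := by
      rw [hn, ← pow_mul, ← pow_mul, ← pow_mul, ← pow_add, hb]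
      congr 1
      ring
    rw [hM, e1, hN]
    apply Nat.pow_le_pow_left
    exact Nat.le_mul_of_pos_right _ (by omega)
  refine ⟨((univ : Finset ((Fin n → (Fin b → Bool) → Fin m) × Fin (M + 1))).image
    (fun z => Sharpx.pre (R8x.FF z.1) z.2.1)), ?_, fun g => ?_⟩
  · refine card_image_le.trans ?_
    rw [card_univ, Fintype.card_prod, Fintype.card_fun, Fintype.card_fun, Fintype.card_fun,
      Fintype.card_bool, Fintype.card_fin, Fintype.card_fin, Fintype.card_fin, Fintype.card_fin]
    have h1 : (m ^ 2 ^ b) ^ n ≤ 2 ^ (ℓ * n ^ (c + 20)) := by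
      calc (m ^ 2 ^ b) ^ n ≤ ((2 ^ ℓ) ^ 2 ^ b) ^ n := by
            gcongr
            omega
        _ = 2 ^ (ℓ * 2 ^ b * n) := by rw [← pow_mul, ← pow_mul, mul_assoc]
        _ = 2 ^ (ℓ * n ^ (c + 20)) := by
            congr 1
            have e : 2 ^ b = n ^ (c + 19) := by
              rw [hn, ← pow_mul, hb, mul_comm]
            rw [e, pow_succ n (c + 19)]
            ring
    have h2 : M + 1 ≤ 2 ^ (2 * ℓ + 2 * b + 1) := by
      have e1 : M = 2 ^ (2 * ℓ + 2 * b) := by
        rw [hM, hn, ← pow_mul, ← pow_mul, ← pow_add]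
        congr 1
        ring
      have e2 : 1 ≤ 2 ^ (2 * ℓ + 2 * b) := Nat.one_le_two_pow
      rw [pow_succ, ← e1]
      omega
    calc (m ^ 2 ^ b) ^ n * (M + 1) ≤ 2 ^ (ℓ * n ^ (c + 20)) * 2 ^ (2 * ℓ + 2 * b + 1) :=
          Nat.mul_le_mul h1 h2
      _ = 2 ^ (ℓ * n ^ (c + 20) + (2 * ℓ + 2 * b + 1)) := by rw [← pow_add]
      _ ≤ 2 ^ (N ^ (c + 21)) := by
          apply Nat.pow_le_pow_right (by norm_num)
          have hn8 : 8 ≤ n := by
            rw [hn]
            calc 8 = 2 ^ 3 := by norm_num
              _ ≤ 2 ^ ℓ := Nat.pow_le_pow_right (by norm_num) hℓ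
          have hN8 : 8 * b ≤ N := by
            rw [hN]
            exact Nat.mul_le_mul_right _ hn8
          have e1 : ℓ * n ^ (c + 20) ≤ N ^ (c + 20) := by
            rw [hN, mul_pow]
            calc ℓ * n ^ (c + 20) ≤ b * n ^ (c + 20) := Nat.mul_le_mul_right _ hbℓ
              _ = n ^ (c + 20) * b := mul_comm _ _
              _ ≤ n ^ (c + 20) * b ^ (c + 20) := by
                  apply Nat.mul_le_mul_left
                  exact Nat.le_self_pow (by omega) b
          have e2 : N ≤ N ^ (c + 20) := Nat.le_self_pow (by omega) N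
          have e3 : N ^ (c + 21) = N ^ (c + 20) * N := pow_succ N (c + 20)
          have e4 : 8 ≤ N := by omega
          have e5 : 2 * N ^ (c + 20) ≤ N ^ (c + 21) := by
            rw [e3, mul_comm]
            exact Nat.mul_le_mul_left _ (by omega)
          omega
  · refine ⟨(R8x.FF g).card + 1, ?_, Sharpx.write (R8x.FF g) (R8x.FF_unsat (by omega) g) _
      fun t ht => ?_⟩
    · have := R8x.FF_card g
      rw [← hM] at this
      omega
    · have h1 := R8x.FF_card g
      rw [← hM] at h1
      rw [mem_image]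
      exact ⟨(g, ⟨t, by omega⟩), mem_univ _, rfl⟩

end Pool.Agent.BW
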