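import Pool.Agent.Lib.BW.Walk

/-!
# Row STEP

Project BW (helper10).
-/

set_option autoImplicit false

namespace Pool.Agent.BW

open Finset Pool.Agent.SL

variable {Ω : Type} [Fintype Ω] [DecidableEq Ω]

theorem Sg_cells {ι : Type} [Fintype ι] [DecidableEq ι] (κ : Ω → ℝ) (R0 : Finset Ω) (c : Ω → ι)
    (h : List (Finset Ω)) :
    Sg κ R0 h = ∑ i, Sg κ R0 ((univ.filter fun x => c x = i) :: h) := by
  unfold Sg
  rw [← sum_fiberwise (Inter (R0 :: h)) c κ]
  refine sum_congr rfl fun i _ => sum_congr ?_ fun _ _ => rfl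
  ext x
  simp only [mem_filter, R6x.mem_Inter, List.mem_cons, forall_eq_or_imp, mem_univ, true_and]
  tauto

section

variable {κ : Ω → ℝ} {ε : ℝ} {base cl : Finset (Finset Ω)} {M r c0 : ℕ} {R0 : Finset Ω}

theorem Sg_clauses (H : R6x.Pseudo κ ε base cl M r) (hR0 : R0 ∈ base) {R : Finset (Finset Ω)}
    (hR : R ⊆ cl) (hr : R.card ≤ r) {h : List (Finset Ω)} (ha : R6x.Adm base h)
    (hl : h.length + 1 ≤ M) (hx : ∀ x ∈ R0, (∀ V ∈ h, x ∈ V) → x ∈ R.biUnion id) :
    Sg κ R0 h ≤ r * ε := by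
  refine R6x.clausesF H hR hr (ha.cons hR0) (by simpa using hl) fun x hx' => ?_
  have h1 := R6x.mem_Inter.1 hx'
  exact hx x (h1 R0 (by simp)) fun V hV => h1 V (by simp [hV])

theorem Sg_one (H : R6x.Pseudo κ ε base cl M r) (hR0 : R0 ∈ base) {h : List (Finset Ω)}
    (ha : R6x.Adm base h) (hl : h.length + 1 ≤ M) {C : Finset Ω} (hC : C ∈ cl)
    (hx : ∀ x ∈ R0, (∀ V ∈ h, x ∈ V) → x ∈ C) : Sg κ R0 h ≤ ε := by
  have h1 := H.upp (R0 :: h) [] (by simpa using hl) (ha.cons hR0) (by simp) R6x.Adm.nil C hC (by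
    intro x hx'
    rw [R6x.Inter_nil, inter_univ] at hx'
    have h1 := R6x.mem_Inter.1 hx'
    exact hx x (h1 R0 (by simp)) fun V hV => h1 V (by simp [hV]))
  rwa [R6x.Inter_nil, inter_univ] at h1

theorem Sg_low (H : R6x.Pseudo κ ε base cl M r) (hR0 : R0 ∈ base) {h : List (Finset Ω)}
    (ha : R6x.Adm base h) (hl : h.length + 1 ≤ M) : -ε ≤ Sg κ R0 h :=
  H.low1 (R0 :: h) (by simpa using hl) (ha.cons hR0)

theorem Sg_drop (H : R6x.Pseudo κ ε base cl M r) (hR0 : R0 ∈ base) {V U : Finset Ω}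
    (hV : V ∈ base) (hU : U ∈ base ∨ Uᶜ ∈ base) {h : List (Finset Ω)} (ha : R6x.Adm base h)
    (hl : h.length + 3 ≤ M) : Sg κ R0 (U :: V :: h) ≤ Sg κ R0 (U :: h) + ε := by
  have haU : R6x.Adm base (U :: h) := by
    intro W hW
    rcases List.mem_cons.1 hW with rfl | hW
    · exact hU
    · exact ha W hW
  have h1 := Sg_split κ R0 V (U :: h)
  have h2 := Sg_low H hR0 (haU.consc hV) (by simp only [List.length_cons]; omega)
  rw [Sg_swap κ R0 V U] at h1
  linarith

theorem Sg_dead (H : R6x.Pseudo κ ε base cl M r) (hR0 : R0 ∈ base) {D : Finset Ω}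
    (hD : DeadSet base cl R0 c0 D) {h : List (Finset Ω)} (ha : R6x.Adm base h)
    (hl : h.length + 2 ≤ M) {B : ℝ} (hB : ε ≤ B)
    (hx : ∀ A ∈ base, (∀ x ∈ R0, x ∈ A → x ∉ D) → Sg κ R0 (A :: h) ≤ B) :
    Sg κ R0 h ≤ c0 * B := by
  obtain ⟨ι, _, _, c, hc, hb, hd⟩ := hD
  have hB0 : 0 ≤ B := H.eps.trans hB
  rw [Sg_cells κ R0 c h]
  have h1 : ∀ i, Sg κ R0 ((univ.filter fun x => c x = i) :: h) ≤ B := by
    intro i
    rcases hd i with h2 | ⟨C, hC, h2⟩
    · exact hx _ (hb i) fun x hx0 hxA => h2 x hx0 (mem_filter.1 hxA).2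
    · refine (Sg_one H hR0 (ha.cons (hb i)) (by simp only [List.length_cons]; omega) hC
        ?_).trans hB
      intro x hx0 hxV
      exact h2 x hx0 (mem_filter.1 (hxV _ List.mem_cons_self)).2
  calc ∑ i, Sg κ R0 ((univ.filter fun x => c x = i) :: h) ≤ ∑ _i : ι, B :=
        sum_le_sum fun i _ => h1 i
    _ = (Fintype.card ι : ℝ) * B := by rw [sum_const, nsmul_eq_mul, card_univ]
    _ ≤ c0 * B := mul_le_mul_of_nonneg_right (by exact_mod_cast hc) hB0

end

theorem step : Step := by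
  classical
  intro Ω _ _ κ ε base cl M r c0 R0 H hR0 hc0 R hR hr V hV
  have hε := H.eps
  have hc1 : (1:ℝ) ≤ c0 := by exact_mod_cast hc0
  have hr0 : (0:ℝ) ≤ r := by positivity
  have hc2 : (c0:ℝ) ≤ c0 ^ 2 := by nlinarith
  refine ⟨?_, ?_, ?_⟩
  · intro D₁ D₂ hD1 hD2 hs h hl ha
    have h1 : Sg κ R0 (V :: h) ≤ c0 * (c0 * ((r + 1) * ε)) := by
      refine Sg_dead H hR0 hD1 (ha.cons hV) (by simp only [List.length_cons]; omega) ?_ ?_
      · have : (1:ℝ) ≤ c0 * (r + 1) := by nlinarith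
        calc ε = 1 * ε := (one_mul ε).symm
          _ ≤ (c0 * (r + 1)) * ε := mul_le_mul_of_nonneg_right this hε
          _ = _ := by ring
      · intro A hA hAD
        refine Sg_dead H hR0 hD2 ((ha.cons hV).cons hA) (by simp only [List.length_cons]; omega)
          ?_ ?_
        · have : (1:ℝ) ≤ (r + 1) := by linarith
          calc ε = 1 * ε := (one_mul ε).symm
            _ ≤ (r + 1) * ε := mul_le_mul_of_nonneg_right this hε
        · intro B hB hBD
          have h2 : Sg κ R0 (B :: A :: V :: h) ≤ r * ε := by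
            refine Sg_clauses H hR0 hR hr (((ha.cons hV).cons hA).cons hB)
              (by simp only [List.length_cons]; omega) ?_
            intro x hx0 hxV
            rcases hs x hx0 (hxV V (by simp)) with h3 | h3 | h3
            · exact absurd h3 (hAD x hx0 (hxV A (by simp)))
            · exact absurd h3 (hBD x hx0 (hxV B (by simp)))
            · exact h3
          linarith
    refine h1.trans ?_
    have h2 : (c0:ℝ) * (c0 * ((r + 1) * ε)) = c0 ^ 2 * (r + 1) * ε := by ring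
    rw [h2]
    gcongr
    norm_num
  · intro D₁ hD1 U hU hs h hl ha
    have h1 := Sg_split κ R0 U (V :: h)
    have h2 := Sg_drop H hR0 hV (Or.inl hU) ha (by omega)
    have h3 : Sg κ R0 (Uᶜ :: V :: h) ≤ c0 * ((r + 1) * ε) := by
      refine Sg_dead H hR0 hD1 ((ha.cons hV).consc hU) (by simp only [List.length_cons]; omega)
        ?_ ?_
      · have : (1:ℝ) ≤ (r + 1) := by linarith
        calc ε = 1 * ε := (one_mul ε).symm
          _ ≤ (r + 1) * ε := mul_le_mul_of_nonneg_right this hε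
      · intro A hA hAD
        have h2 : Sg κ R0 (A :: Uᶜ :: V :: h) ≤ r * ε := by
          refine Sg_clauses H hR0 hR hr (((ha.cons hV).consc hU).cons hA)
            (by simp only [List.length_cons]; omega) ?_
          intro x hx0 hxV
          rcases hs x hx0 (hxV V (by simp)) with h3 | h3 | h3
          · exact absurd h3 (mem_compl.1 (hxV Uᶜ (by simp)))
          · exact absurd h3 (hAD x hx0 (hxV A (by simp)))
          · exact h3
        linarith
    have h4 : (c0:ℝ) * ((r + 1) * ε) + ε ≤ c0 ^ 2 * (r + 3) * ε := by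
      have h5 : (c0:ℝ) * (r + 1) + 1 ≤ c0 ^ 2 * (r + 3) := by nlinarith
      calc (c0:ℝ) * ((r + 1) * ε) + ε = (c0 * (r + 1) + 1) * ε := by ring
        _ ≤ _ := mul_le_mul_of_nonneg_right h5 hε
    linarith
  · intro U hU T hT hs h hl ha
    have h1 := Sg_split κ R0 U (V :: h)
    have h2 := Sg_drop H hR0 hV (Or.inl hU) ha (by omega)
    have h3 := Sg_split κ R0 T (V :: Uᶜ :: h)
    rw [Sg_swap κ R0 V Uᶜ] at h3
    have h4 := Sg_drop H hR0 hV (Or.inl hT) (ha.consc hU) (by simp only [List.length_cons]; omega)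
    have h5 : Sg κ R0 (Tᶜ :: V :: Uᶜ :: h) ≤ r * ε := by
      refine Sg_clauses H hR0 hR hr (((ha.consc hU).cons hV).consc hT)
        (by simp only [List.length_cons]; omega) ?_
      intro x hx0 hxV
      rcases hs x hx0 (hxV V (by simp)) with h3 | h3 | h3
      · exact absurd h3 (mem_compl.1 (hxV Uᶜ (by simp)))
      · exact absurd h3 (mem_compl.1 (hxV Tᶜ (by simp)))
      · exact h3
    have h6 : (r + 2) * ε ≤ c0 ^ 2 * (r + 3) * ε := by
      have h5 : ((r:ℝ) + 2) ≤ c0 ^ 2 * (r + 3) := by nlinarith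
      exact mul_le_mul_of_nonneg_right h5 hε
    linarith

end Pool.Agent.BW
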