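import Pool.Agent.Lib.BW.Defs

/-!
# Row WALKA

Project BW (helper10), after `Pool.Agent.Lib.SL.R6`.
-/

set_option autoImplicit false

namespace Pool.Agent.BW

open Finset Pool.Agent.SL

variable {Ω : Type} [Fintype Ω] [DecidableEq Ω]

theorem Sg_congr {κ : Ω → ℝ} {R0 : Finset Ω} {h h' : List (Finset Ω)}
    (H : ∀ V, V ∈ h ↔ V ∈ h') : Sg κ R0 h = Sg κ R0 h' := by
  unfold Sg
  rw [R6x.Inter_congr (h := R0 :: h) (h' := R0 :: h')]
  intro V
  simp only [List.mem_cons, H V]

theorem Sg_swap (κ : Ω → ℝ) (R0 : Finset Ω) (A B : Finset Ω) (h : List (Finset Ω)) :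
    Sg κ R0 (A :: B :: h) = Sg κ R0 (B :: A :: h) :=
  Sg_congr fun V => by simp only [List.mem_cons]; tauto

theorem Sg_same (κ : Ω → ℝ) (R0 : Finset Ω) (A : Finset Ω) (h : List (Finset Ω)) :
    Sg κ R0 (A :: A :: h) = Sg κ R0 (A :: h) :=
  Sg_congr fun V => by simp only [List.mem_cons]; tauto

theorem Sg_split (κ : Ω → ℝ) (R0 V : Finset Ω) (h : List (Finset Ω)) :
    Sg κ R0 h = Sg κ R0 (V :: h) + Sg κ R0 (Vᶜ :: h) := by
  unfold Sg
  rw [R6x.split κ V (R0 :: h), R6x.swap2 V R0, R6x.swap2 Vᶜ R0]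

section

variable {κ : Ω → ℝ} {ε E : ℝ} {base : Finset (Finset Ω)} {R0 : Finset Ω} {S q : ℕ}
  {W : Fin S → Finset Ω} {act : Fin S → Prop} {rank : Fin S → ℕ}

/-- the inequality which a line satisfies -/
def StepRel (κ : Ω → ℝ) (E : ℝ) (base : Finset (Finset Ω)) (R0 : Finset Ω) (q : ℕ)
    (W : Fin S → Finset Ω) (act : Fin S → Prop) (rank : Fin S → ℕ) (k : Fin S) : Prop :=
  (∀ h : List (Finset Ω), h.length ≤ q → R6x.Adm base h → Sg κ R0 (W k :: h) ≤ E) ∨
  (∃ i, i < k ∧ act i ∧ rank i ≤ rank k ∧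
    ∀ h : List (Finset Ω), h.length ≤ q → R6x.Adm base h →
      Sg κ R0 (W k :: h) ≤ Sg κ R0 (W i :: h) + E) ∨
  (∃ i j, i < k ∧ j < k ∧ act i ∧ act j ∧ rank i < rank k ∧ rank j < rank k ∧
    ∀ h : List (Finset Ω), h.length ≤ q → R6x.Adm base h →
      Sg κ R0 (W k :: h) ≤ Sg κ R0 (W i :: h) + Sg κ R0 (W j :: (W i)ᶜ :: h) + E)

theorem claimA (hε : 0 ≤ ε) (hE : 0 ≤ E) (hW : ∀ k, act k → W k ∈ base)
    (low : ∀ h : List (Finset Ω), h.length ≤ q + 4 → R6x.Adm base h → -ε ≤ Sg κ R0 h)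
    (hI : ∀ k, act k → StepRel κ E base R0 q W act rank k) (ρ : ℕ) :
    ∀ (j : ℕ) (h : List (Finset Ω)), h.length + j ≤ q →
    R6x.Adm base h → ∀ (N : ℕ) (k : Fin S), act k → (k : ℕ) < N → rank k ≤ ρ + j →
    ∃ f : Fin S → ℝ, (∀ k', act k' → f k' ≤ Sg κ R0 (W k' :: h) + 2 ^ j * ε) ∧
      Sg κ R0 (W k :: h) ≤ ∑ k' ∈ univ.filter (fun k' => rank k' ≤ ρ), f k' +
        (2 ^ (j + 1) - 1) * ((k : ℕ) + 1) * E ∧ ∀ k', ¬ act k' → f k' = 0 := by
  classical
  intro j
  induction j with
  | zero =>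
    intro h hl ha N k hka _ hk
    refine ⟨fun k' => if k' = k then Sg κ R0 (W k' :: h) else 0, ?_, ?_, ?_⟩
    · intro k' hk'
      have := low (W k' :: h) (by simp only [List.length_cons]; omega) (ha.cons (hW k' hk'))
      dsimp only
      split_ifs
      · linarith
      · linarith
    · rw [sum_ite_eq' (univ.filter fun k' => rank k' ≤ ρ) k]
      rw [if_pos (by simpa using hk)]
      have : 0 ≤ (2 ^ (0 + 1) - 1 : ℝ) * ((k : ℕ) + 1) * E := by
        have : (0:ℝ) ≤ 2 ^ (0 + 1) - 1 := by norm_num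
        positivity
      linarith
    · intro k' hk'
      dsimp only
      rw [if_neg]
      rintro rfl
      exact hk' hka
  | succ j ihj =>
    intro h hl ha N
    induction N with
    | zero => intro k _ hk; omega
    | succ N ihN =>
      intro k hka hkN hk
      have hlow : ∀ k', act k' → -ε ≤ Sg κ R0 (W k' :: h) := fun k' hk' =>
        low (W k' :: h) (by simp only [List.length_cons]; omega) (ha.cons (hW k' hk'))
      have h2j : (1:ℝ) ≤ 2 ^ (j + 1) := one_le_pow₀ (by norm_num)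
      have h2j' : (2:ℝ) ^ (j + 1 + 1) = 2 * 2 ^ (j + 1) := by ring
      have hk0 : (0:ℝ) ≤ (k : ℕ) := by positivity
      rcases hI k hka with h0 | ⟨i, hik, hia, hri, h1⟩ | ⟨i, i', hik, hik', hia, hia', hri, hri', h2⟩
      · refine ⟨fun _ => 0, fun k' hk' => ?_, ?_, fun _ _ => rfl⟩
        · have := hlow k' hk'
          nlinarith
        · have h3 := h0 h (by omega) ha
          rw [sum_const_zero, zero_add]
          refine h3.trans ?_
          have h4 : (1:ℝ) ≤ (2 ^ (j + 1 + 1) - 1) * ((k : ℕ) + 1) := by nlinarith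
          nlinarith
      · have hiN : (i : ℕ) < N := by
          have : (i : ℕ) < k := hik
          omega
        obtain ⟨f, hf1, hf2, hf3⟩ := ihN i hia hiN (hri.trans hk)
        refine ⟨f, hf1, ?_, hf3⟩
        have h3 := h1 h (by omega) ha
        have hi1 : ((i : ℕ) : ℝ) + 1 ≤ (k : ℕ) := by
          have : (i : ℕ) < k := hik
          exact_mod_cast this
        have h4 : (2 ^ (j + 1 + 1) - 1 : ℝ) * ((i : ℕ) + 1) * E + E ≤
            (2 ^ (j + 1 + 1) - 1) * ((k : ℕ) + 1) * E := by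
          have h8 : (2 ^ (j + 1 + 1) - 1 : ℝ) * ((i : ℕ) + 1) + 1 ≤
              (2 ^ (j + 1 + 1) - 1) * ((k : ℕ) + 1) := by nlinarith
          have h9 := mul_le_mul_of_nonneg_right h8 hE
          nlinarith
        linarith
      · have hi1 : ((i : ℕ) : ℝ) + 1 ≤ (k : ℕ) := by
          have : (i : ℕ) < k := hik
          exact_mod_cast this
        have hi2 : ((i' : ℕ) : ℝ) + 1 ≤ (k : ℕ) := by
          have : (i' : ℕ) < k := hik'
          exact_mod_cast this
        obtain ⟨f1, hf1, hg1, he1⟩ := ihj (W i :: h) (by simp only [List.length_cons]; omega)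
          (ha.cons (hW i hia)) ((i : ℕ) + 1) i hia (by omega) (by omega)
        obtain ⟨f2, hf2, hg2, he2⟩ := ihj ((W i)ᶜ :: h) (by simp only [List.length_cons]; omega)
          (ha.consc (hW i hia)) ((i' : ℕ) + 1) i' hia' (by omega) (by omega)
        refine ⟨fun k' => f1 k' + f2 k', fun k' hk' => ?_, ?_, fun k' hk' => ?_⟩
        · have a1 := hf1 k' hk'
          have a2 := hf2 k' hk'
          have a3 := Sg_split κ R0 (W i) (W k' :: h)
          rw [Sg_swap κ R0 (W i), Sg_swap κ R0 (W i)ᶜ] at a3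
          have a4 : (2:ℝ) ^ (j + 1) * ε = 2 ^ j * ε + 2 ^ j * ε := by ring
          linarith
        · rw [Sg_same] at hg1
          have h3 := h2 h (by omega) ha
          rw [sum_add_distrib]
          have h4 : (2 ^ (j + 1) - 1 : ℝ) * ((i : ℕ) + 1) * E +
              (2 ^ (j + 1) - 1 : ℝ) * ((i' : ℕ) + 1) * E + E ≤
              (2 ^ (j + 1 + 1) - 1) * ((k : ℕ) + 1) * E := by
            have h8 : (2 ^ (j + 1) - 1 : ℝ) * ((i : ℕ) + 1) +
                (2 ^ (j + 1) - 1 : ℝ) * ((i' : ℕ) + 1) + 1 ≤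
                (2 ^ (j + 1 + 1) - 1) * ((k : ℕ) + 1) := by nlinarith
            have h9 := mul_le_mul_of_nonneg_right h8 hE
            nlinarith
          linarith
        · show f1 k' + f2 k' = 0
          rw [he1 k' hk', he2 k' hk', add_zero]

theorem baseA (hE : 0 ≤ E) (hI : ∀ k, act k → StepRel κ E base R0 q W act rank k) :
    ∀ (N : ℕ) (k : Fin S), act k → (k : ℕ) < N → rank k = 0 →
    Sg κ R0 [W k] ≤ ((k : ℕ) + 1) * E := by
  intro N
  induction N with
  | zero => intro k _ hk; omega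
  | succ N ihN =>
    intro k hka hkN hk
    have hk0 : (0:ℝ) ≤ (k : ℕ) := by positivity
    have ha : R6x.Adm base ([] : List (Finset Ω)) := fun V hV => by simp at hV
    rcases hI k hka with h0 | ⟨i, hik, hia, hri, h1⟩ | ⟨i, i', hik, hik', hia, hia', hri, hri', h2⟩
    · have h3 := h0 [] (by simp) ha
      nlinarith
    · have hik2 : (i : ℕ) < k := hik
      have h4 := ihN i hia (by omega) (by omega)
      have h3 := h1 [] (by simp) ha
      have hi1 : ((i : ℕ) : ℝ) + 1 ≤ (k : ℕ) := by exact_mod_cast hik2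
      nlinarith
    · omega

end

theorem walkA : WalkA := by
  classical
  intro Ω _ _ κ ε E base R0 S D q P W act rank hε hE hW low hD hDP hI k hka
  have hI' : ∀ k, act k → StepRel κ E base R0 q W act rank k := hI
  have hS : 0 < S := k.pos
  have hS1 : (1:ℝ) ≤ S := by exact_mod_cast hS
  set X : ℝ := 2 ^ (q + 1) * (E + ε) with hX
  have hX0 : 0 ≤ X := by positivity
  have h2q : (1:ℝ) ≤ 2 ^ q := one_le_pow₀ (by norm_num)
  have e2 : (2:ℝ) ^ (q + 1) = 2 * 2 ^ q := by ring
  have key : ∀ (p : ℕ) (k : Fin S), act k → rank k ≤ p * q →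
      Sg κ R0 [W k] ≤ (p + 1) * (S : ℝ) ^ (p + 1) * X := by
    intro p
    induction p with
    | zero =>
      intro k hka hk
      have h1 := baseA hE hI' ((k : ℕ) + 1) k hka (by omega) (by simpa using hk)
      refine h1.trans ?_
      have hkS : ((k : ℕ) : ℝ) + 1 ≤ S := by
        have : (k : ℕ) + 1 ≤ S := k.2
        exact_mod_cast this
      have h2 : E ≤ X := by
        rw [hX]
        nlinarith
      have h6 : (((k : ℕ) : ℝ) + 1) * E ≤ S * X :=
        mul_le_mul hkS h2 hE (by positivity)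
      have e1 : (((0 : ℕ) : ℝ) + 1) * (S : ℝ) ^ (0 + 1) * X = S * X := by
        push_cast
        ring
      rw [e1]
      exact h6
    | succ p ih =>
      intro k hka hk
      have ha : R6x.Adm base ([] : List (Finset Ω)) := fun V hV => by simp at hV
      obtain ⟨f, hf1, hf2, hf3⟩ := claimA hε hE hW low hI' (p * q) q [] (by simp) ha
        ((k : ℕ) + 1) k hka (by omega)
        (by rw [add_mul, one_mul] at hk; exact hk)
      set β : ℝ := (p + 1) * (S : ℝ) ^ (p + 1) * X with hβ
      have hβ0 : 0 ≤ β := by positivity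
      have h1 : ∑ k' ∈ univ.filter (fun k' => rank k' ≤ p * q), f k' ≤ S * (β + 2 ^ q * ε) := by
        calc ∑ k' ∈ univ.filter (fun k' => rank k' ≤ p * q), f k'
            ≤ ∑ k' ∈ univ.filter (fun k' => rank k' ≤ p * q), (β + 2 ^ q * ε) := by
              refine sum_le_sum fun k' hk' => ?_
              by_cases hk'a : act k'
              · have h2 := hf1 k' hk'a
                have h3 := ih k' hk'a (by simpa using hk')
                linarith
              · rw [hf3 k' hk'a]
                positivity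
          _ = ((univ.filter (fun k' => rank k' ≤ p * q)).card : ℝ) * (β + 2 ^ q * ε) := by
              rw [sum_const, nsmul_eq_mul]
          _ ≤ S * (β + 2 ^ q * ε) := by
              refine mul_le_mul_of_nonneg_right ?_ (by positivity)
              have : (univ.filter (fun k' => rank k' ≤ p * q)).card ≤ S := by
                refine (card_filter_le _ _).trans ?_
                simp
              exact_mod_cast this
      have hkS : ((k : ℕ) : ℝ) + 1 ≤ S := by
        have : (k : ℕ) + 1 ≤ S := k.2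
        exact_mod_cast this
      have h4 : (2 ^ (q + 1) - 1 : ℝ) * ((k : ℕ) + 1) * E ≤
          S * ((2 ^ (q + 1) - 1) * E) := by
        have h5 : 0 ≤ (2 ^ (q + 1) - 1 : ℝ) * E := by
          have : (0:ℝ) ≤ 2 ^ (q + 1) - 1 := by linarith
          positivity
        calc (2 ^ (q + 1) - 1 : ℝ) * ((k : ℕ) + 1) * E
            = (((k : ℕ) : ℝ) + 1) * ((2 ^ (q + 1) - 1) * E) := by ring
          _ ≤ _ := mul_le_mul_of_nonneg_right hkS h5
      have h6 : 2 ^ q * ε + (2 ^ (q + 1) - 1 : ℝ) * E ≤ X := by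
        rw [hX, e2]
        have h7 : 0 ≤ 2 ^ q * ε := by positivity
        nlinarith
      have hSp : (1:ℝ) ≤ (S : ℝ) ^ (p + 1) := one_le_pow₀ hS1
      have h9 : S * (β + X) ≤ ((p + 1 : ℕ) + 1) * (S : ℝ) ^ (p + 1 + 1) * X := by
        have e3 : ((p + 1 : ℕ) + 1 : ℝ) * (S : ℝ) ^ (p + 1 + 1) * X =
            S * (β + (S : ℝ) ^ (p + 1) * X) := by
          rw [hβ]
          push_cast
          ring
        rw [e3]
        have : X ≤ (S : ℝ) ^ (p + 1) * X := by nlinarith
        gcongr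
      calc Sg κ R0 [W k] ≤ S * (β + 2 ^ q * ε) + S * ((2 ^ (q + 1) - 1) * E) := by
            linarith
        _ = S * (β + (2 ^ q * ε + (2 ^ (q + 1) - 1) * E)) := by ring
        _ ≤ S * (β + X) := by gcongr
        _ ≤ _ := h9
  exact key P k hka ((hD k hka).trans hDP)

end Pool.Agent.BW
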