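import Pool.Agent.Lib.BW.Defs10
import Pool.Agent.Lib.BW.Walk

/-!
# Row WALKP: unfolding the complex lines, inferences from at most `p` lines

Project BW (helper10), after `Pool.Agent.Lib.BW.WalkT`.
-/

set_option autoImplicit false

namespace Pool.Agent.BW

open Finset Pool.Agent.SL

namespace WalkPx

variable {Ω : Type} [Fintype Ω] [DecidableEq Ω] {κ : Ω → ℝ} {ε E : ℝ}
  {base : Finset (Finset Ω)} {R0 : Finset Ω} {J : ℕ} {ι : Type} [Fintype ι] [DecidableEq ι]
  {W : ι → Finset Ω} {act lo : ι → Prop}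

/-- an inference without active premises -/
def Rel0 (κ : Ω → ℝ) (E : ℝ) (base : Finset (Finset Ω)) (R0 : Finset Ω) (J : ℕ)
    (W : ι → Finset Ω) (k : ι) : Prop :=
  ∀ h : List (Finset Ω), h.length ≤ J → R6x.Adm base h → Sg κ R0 (W k :: h) ≤ E

/-- an inference with one active premise -/
def Rel1 (κ : Ω → ℝ) (E : ℝ) (base : Finset (Finset Ω)) (R0 : Finset Ω) (J : ℕ)
    (W : ι → Finset Ω) (k i : ι) : Prop :=
  ∀ h : List (Finset Ω), h.length ≤ J → R6x.Adm base h →
    Sg κ R0 (W k :: h) ≤ Sg κ R0 (W i :: h) + E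

/-- an inference with two active premises -/
def Rel2 (κ : Ω → ℝ) (E : ℝ) (base : Finset (Finset Ω)) (R0 : Finset Ω) (J : ℕ)
    (W : ι → Finset Ω) (k i i' : ι) : Prop :=
  ∀ h : List (Finset Ω), h.length ≤ J → R6x.Adm base h →
    Sg κ R0 (W k :: h) ≤ Sg κ R0 (W i :: h) + Sg κ R0 (W i' :: (W i)ᶜ :: h) + E

/-- `k` can be unfolded, down to low lines and to lines in `Z`, into a tree with `w` nodes
(the lines in `Z` are not counted) -/
inductive Unf (κ : Ω → ℝ) (E : ℝ) (base : Finset (Finset Ω)) (R0 : Finset Ω) (J : ℕ)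
    (W : ι → Finset Ω) (act lo : ι → Prop) (Z : Finset ι) :
    ι → ℕ → Prop
  | zero (k : ι) : k ∈ Z → Unf κ E base R0 J W act lo Z k 0
  | low (k : ι) : act k → lo k → Unf κ E base R0 J W act lo Z k 1
  | leaf (k : ι) : act k → Rel0 κ E base R0 J W k → Unf κ E base R0 J W act lo Z k 1
  | one (k i : ι) (w : ℕ) : act k → Rel1 κ E base R0 J W k i →
      Unf κ E base R0 J W act lo Z i w → Unf κ E base R0 J W act lo Z k (w + 1)
  | two (k i i' : ι) (w w' : ℕ) : act k → Rel2 κ E base R0 J W k i i' →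
      Unf κ E base R0 J W act lo Z i w → Unf κ E base R0 J W act lo Z i' w' →
      Unf κ E base R0 J W act lo Z k (w + w' + 1)

theorem Unf.mono {Z : Finset ι} {k : ι} {w : ℕ}
    (h : Unf κ E base R0 J W act lo Z k w) (v : ι) :
    ∃ w' ≤ w, Unf κ E base R0 J W act lo (insert v Z) k w' := by
  induction h with
  | zero k hk => exact ⟨0, le_rfl, Unf.zero k (mem_insert_of_mem hk)⟩
  | low k ha hl => exact ⟨1, le_rfl, Unf.low k ha hl⟩
  | leaf k ha hr => exact ⟨1, le_rfl, Unf.leaf k ha hr⟩
  | one k i w ha hr _ ih =>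
    obtain ⟨w', hw', h'⟩ := ih
    exact ⟨w' + 1, by omega, Unf.one k i w' ha hr h'⟩
  | two k i i' w w' ha hr _ _ ih ih' =>
    obtain ⟨u, hu, h1⟩ := ih
    obtain ⟨u', hu', h2⟩ := ih'
    exact ⟨u + u' + 1, by omega, Unf.two k i i' u u' ha hr h1 h2⟩

theorem Unf.act_of_pos {Z : Finset ι} {k : ι} {w : ℕ}
    (h : Unf κ E base R0 J W act lo Z k w) (hw : 0 < w) : act k := by
  cases h with
  | zero => omega
  | low _ ha _ => exact ha
  | leaf _ ha _ => exact ha
  | one _ _ _ ha _ _ => exact ha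
  | two _ _ _ _ _ ha _ _ _ => exact ha

/-- Spira's lemma -/
theorem centroid {Z : Finset ι} {k : ι} {w : ℕ} (w₀ : ℕ) (hw₀ : 3 ≤ w₀)
    (h : Unf κ E base R0 J W act lo Z k w) (hw : 3 * w₀ < 4 * w) :
    ∃ (v : ι) (wv w' : ℕ), Unf κ E base R0 J W act lo Z v wv ∧
      Unf κ E base R0 J W act lo (insert v Z) k w' ∧ 4 * wv ≤ 3 * w₀ ∧ w₀ ≤ 4 * wv ∧
      w' + wv ≤ w := by
  induction h with
  | zero k hk => omega
  | low k ha hl => omega
  | leaf k ha hr => omega
  | one k i w ha hr h' ih =>
    by_cases hb : 3 * w₀ < 4 * w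
    · obtain ⟨v, wv, w1, h1, h2, h3, h4, h5⟩ := ih hb
      exact ⟨v, wv, w1 + 1, h1, Unf.one k i w1 ha hr h2, h3, h4, by omega⟩
    · refine ⟨i, w, 1, h', ?_, by omega, by omega, by omega⟩
      exact Unf.one k i 0 ha hr (Unf.zero i (mem_insert_self _ _))
  | two k i i' w w' ha hr h1 h2 ih ih' =>
    by_cases hb : 3 * w₀ < 4 * w
    · obtain ⟨v, wv, u, g1, g2, g3, g4, g5⟩ := ih hb
      obtain ⟨u', hu', g6⟩ := h2.mono v
      exact ⟨v, wv, u + u' + 1, g1, Unf.two k i i' u u' ha hr g2 g6, g3, g4, by omega⟩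
    by_cases hb' : 3 * w₀ < 4 * w'
    · obtain ⟨v, wv, u, g1, g2, g3, g4, g5⟩ := ih' hb'
      obtain ⟨u', hu', g6⟩ := h1.mono v
      exact ⟨v, wv, u' + u + 1, g1, Unf.two k i i' u' u ha hr g6 g2, g3, g4, by omega⟩
    rcases le_total w' w with hc | hc
    · obtain ⟨u', hu', g6⟩ := h2.mono i
      exact ⟨i, w, 0 + u' + 1, h1,
        Unf.two k i i' 0 u' ha hr (Unf.zero i (mem_insert_self _ _)) g6,
        by omega, by omega, by omega⟩
    · obtain ⟨u, hu, g6⟩ := h1.mono i'
      exact ⟨i', w', u + 0 + 1, h2,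
        Unf.two k i i' u 0 ha hr g6 (Unf.zero i' (mem_insert_self _ _)),
        by omega, by omega, by omega⟩

theorem Sg_zero {h : List (Finset Ω)} {V : Finset Ω} (h1 : V ∈ h) (h2 : Vᶜ ∈ h) :
    Sg κ R0 h = 0 := by
  unfold Sg
  have : Inter (R0 :: h) = ∅ := by
    rw [eq_empty_iff_forall_notMem]
    intro x hx
    have hx := R6x.mem_Inter.1 hx
    exact absurd (hx V (by simp [h1])) (mem_compl.1 (hx Vᶜ (by simp [h2])))
  rw [this, sum_empty]

/-- the conclusion of the walk with budget `j` -/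
def Concl (κ : Ω → ℝ) (ε E : ℝ) (R0 : Finset Ω) (W : ι → Finset Ω)
    (act lo : ι → Prop) (j : ℕ) (h : List (Finset Ω)) (k : ι) : Prop :=
  ∃ f : ι → ℝ, (∀ k', act k' → lo k' → f k' ≤ Sg κ R0 (W k' :: h) + 2 ^ j * ε) ∧
    (∀ k', ¬ (act k' ∧ lo k') → f k' = 0) ∧
    Sg κ R0 (W k :: h) ≤ ∑ k', f k' + (2 ^ (j + 1) - 1) * (E + ε)

theorem Concl.zero (hε : 0 ≤ ε) (hE : 0 ≤ E) (hW : ∀ k, act k → W k ∈ base)
    (low : ∀ h : List (Finset Ω), h.length ≤ J + 4 → R6x.Adm base h → -ε ≤ Sg κ R0 h)
    {j : ℕ} {h : List (Finset Ω)} {k : ι} (hl : h.length ≤ J) (ha : R6x.Adm base h)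
    (hk : Sg κ R0 (W k :: h) ≤ E) :
    Concl κ ε E R0 W act lo j h k := by
  have h2 : (1 : ℝ) ≤ 2 ^ j := one_le_pow₀ (by norm_num)
  have h2' : (2 : ℝ) ^ (j + 1) = 2 * 2 ^ j := by ring
  refine ⟨fun _ => 0, fun k' hk' _ => ?_, fun _ _ => rfl, ?_⟩
  · have := low (W k' :: h) (by simp only [List.length_cons]; omega) (ha.cons (hW k' hk'))
    nlinarith
  · rw [sum_const_zero, zero_add]
    have h3 : (1 : ℝ) ≤ 2 ^ (j + 1) - 1 := by linarith
    nlinarith

theorem claimT (hε : 0 ≤ ε) (hE : 0 ≤ E) (hW : ∀ k, act k → W k ∈ base)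
    (low : ∀ h : List (Finset Ω), h.length ≤ J + 4 → R6x.Adm base h → -ε ≤ Sg κ R0 h) :
    ∀ (j : ℕ) (Z : Finset ι) (h : List (Finset Ω)) (k : ι) (w : ℕ),
    Unf κ E base R0 J W act lo Z k w → w * 3 ^ j ≤ 4 ^ j → (∀ z ∈ Z, (W z)ᶜ ∈ h) →
    h.length + j ≤ J → R6x.Adm base h → Concl κ ε E R0 W act lo j h k := by
  classical
  have hlow : ∀ (j : ℕ) (h : List (Finset Ω)) (k : ι), h.length ≤ J → R6x.Adm base h →
      act k → lo k → Concl κ ε E R0 W act lo j h k := by
    intro j h k hl ha hk hlk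
    have h2 : (1 : ℝ) ≤ 2 ^ j := one_le_pow₀ (by norm_num)
    have h2' : (2 : ℝ) ^ (j + 1) = 2 * 2 ^ j := by ring
    refine ⟨fun k' => if k' = k then Sg κ R0 (W k' :: h) else 0, fun k' hk' _ => ?_,
      fun k' hk' => ?_, ?_⟩
    · have := low (W k' :: h) (by simp only [List.length_cons]; omega) (ha.cons (hW k' hk'))
      dsimp only
      split_ifs
      · nlinarith
      · nlinarith
    · dsimp only
      rw [if_neg]
      rintro rfl
      exact hk' ⟨hk, hlk⟩
    · rw [sum_ite_eq' univ k, if_pos (mem_univ _)]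
      have h3 : (0 : ℝ) ≤ 2 ^ (j + 1) - 1 := by linarith
      have h4 : 0 ≤ (2 ^ (j + 1) - 1) * (E + ε) := mul_nonneg h3 (by linarith)
      linarith
  intro j
  induction j with
  | zero =>
    intro Z h k w hU hw hZ hl ha
    have hw' : w ≤ 1 := by simpa using hw
    have hz : ∀ {i : ι}, Unf κ E base R0 J W act lo Z i 0 → i ∈ Z := by
      intro i hi
      cases hi with
      | zero _ hk => exact hk
    cases hU with
    | zero _ hk =>
      refine Concl.zero hε hE hW low (by omega) ha ?_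
      have e1 : Sg κ R0 (W k :: h) = 0 := Sg_zero (V := W k) (by simp) (by simp [hZ k hk])
      rw [e1]
      exact hE
    | low _ hka hlk => exact hlow 0 h k (by omega) ha hka hlk
    | leaf _ hka hr => exact Concl.zero hε hE hW low (by omega) ha (hr h (by omega) ha)
    | one _ i w1 hka hr hi =>
      have : w1 = 0 := by omega
      subst this
      refine Concl.zero hε hE hW low (by omega) ha ?_
      have h1 := hr h (by omega) ha
      have e1 : Sg κ R0 (W i :: h) = 0 := Sg_zero (V := W i) (by simp) (by simp [hZ i (hz hi)])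
      linarith
    | two _ i i' w1 w2 hka hr hi hi' =>
      have e1 : w1 = 0 := by omega
      have e2 : w2 = 0 := by omega
      subst e1 e2
      refine Concl.zero hε hE hW low (by omega) ha ?_
      have h1 := hr h (by omega) ha
      have e1 : Sg κ R0 (W i :: h) = 0 := Sg_zero (V := W i) (by simp) (by simp [hZ i (hz hi)])
      have e2 : Sg κ R0 (W i' :: (W i)ᶜ :: h) = 0 :=
        Sg_zero (V := W i') (by simp) (by simp [hZ i' (hz hi')])
      linarith
  | succ j ih =>
    intro Z h k w hU hw hZ hl ha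
    have h2 : (1 : ℝ) ≤ 2 ^ j := one_le_pow₀ (by norm_num)
    have h2' : (2 : ℝ) ^ (j + 1) = 2 * 2 ^ j := by ring
    have h2'' : (2 : ℝ) ^ (j + 1 + 1) = 4 * 2 ^ j := by ring
    -- gluing two walks
    have glue : ∀ (V : Finset Ω) (k1 k2 : ι), V ∈ base →
        Concl κ ε E R0 W act lo j (V :: h) k1 → Concl κ ε E R0 W act lo j (Vᶜ :: h) k2 →
        Sg κ R0 (W k :: h) ≤ Sg κ R0 (W k1 :: V :: h) + Sg κ R0 (W k2 :: Vᶜ :: h) + (E + ε) →
        Concl κ ε E R0 W act lo (j + 1) h k := by
      rintro V k1 k2 hV ⟨f1, a1, b1, c1⟩ ⟨f2, a2, b2, c2⟩ hs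
      refine ⟨fun k' => f1 k' + f2 k', fun k' hk' hl' => ?_, fun k' hk' => ?_, ?_⟩
      · have g1 := a1 k' hk' hl'
        have g2 := a2 k' hk' hl'
        have g3 := Sg_split κ R0 V (W k' :: h)
        rw [Sg_swap κ R0 V, Sg_swap κ R0 Vᶜ] at g3
        dsimp only
        rw [h2']
        linarith
      · show f1 k' + f2 k' = 0
        rw [b1 k' hk', b2 k' hk', add_zero]
      · rw [sum_add_distrib, h2'']
        rw [h2'] at c1 c2
        linarith
    have h3j : w * 3 ^ j * 3 ≤ 4 ^ j * 4 := by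
      have e1 : w * 3 ^ (j + 1) = w * 3 ^ j * 3 := by ring
      have e2 : 4 ^ (j + 1) = 4 ^ j * 4 := by ring
      rw [← e1, ← e2]
      exact hw
    have hpow : ∀ u : ℕ, 4 * u ≤ 3 * w → u * 3 ^ j ≤ 4 ^ j := by
      intro u hu
      have e1 : 4 * (u * 3 ^ j) ≤ 4 * 4 ^ j := by
        calc 4 * (u * 3 ^ j) = (4 * u) * 3 ^ j := by ring
          _ ≤ (3 * w) * 3 ^ j := Nat.mul_le_mul_right _ hu
          _ = w * 3 ^ j * 3 := by ring
          _ ≤ 4 ^ j * 4 := h3j
          _ = 4 * 4 ^ j := by ring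
      omega
    have hone : ∀ u : ℕ, u ≤ 1 → u * 3 ^ j ≤ 4 ^ j := by
      intro u hu
      calc u * 3 ^ j ≤ 1 * 4 ^ j := Nat.mul_le_mul hu (Nat.pow_le_pow_left (by norm_num) j)
        _ = 4 ^ j := one_mul _
    by_cases hw3 : 3 ≤ w
    · -- split at the centroid
      obtain ⟨v, wv, w', h1, h2v, h3, h4, h5⟩ := centroid w hw3 hU (by omega)
      have hva : act v := h1.act_of_pos (by omega)
      have hV := hW v hva
      refine glue (W v) v k hV
        (ih Z (W v :: h) v wv h1 (hpow wv h3) (fun z hz => by simp [hZ z hz])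
          (by simp only [List.length_cons]; omega) (ha.cons hV))
        (ih (insert v Z) ((W v)ᶜ :: h) k w' h2v (hpow w' (by omega))
          (fun z hz => by
            rcases mem_insert.1 hz with rfl | hz
            · simp
            · simp [hZ z hz])
          (by simp only [List.length_cons]; omega) (ha.consc hV)) ?_
      have g1 := Sg_split κ R0 (W v) (W k :: h)
      have hka : act k := hU.act_of_pos (by omega)
      have hWk := hW k hka
      -- drop `W k` in the first part
      have g2 := Sg_split κ R0 (W k) (W v :: h)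
      have g3 := low ((W k)ᶜ :: W v :: h) (by simp only [List.length_cons]; omega)
        ((ha.cons hV).consc hWk)
      rw [Sg_swap κ R0 (W k)] at g2
      rw [Sg_swap κ R0 (W v)ᶜ] at g1
      rw [Sg_same]
      linarith
    · -- small trees
      cases hU with
      | zero _ hk =>
        refine Concl.zero hε hE hW low (by omega) ha ?_
        have e1 : Sg κ R0 (W k :: h) = 0 := Sg_zero (V := W k) (by simp) (by simp [hZ k hk])
        rw [e1]
        exact hE
      | low _ hka hlk => exact hlow (j + 1) h k (by omega) ha hka hlk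
      | leaf _ hka hr => exact Concl.zero hε hE hW low (by omega) ha (hr h (by omega) ha)
      | one _ i w1 hka hr hi =>
        obtain ⟨f, a1, b1, c1⟩ := ih Z h i w1 hi (hone w1 (by omega)) hZ (by omega) ha
        refine ⟨f, fun k' hk' hl' => ?_, b1, ?_⟩
        · have g1 := a1 k' hk' hl'
          rw [h2']
          nlinarith
        · have g1 := hr h (by omega) ha
          rw [h2'']
          rw [h2'] at c1
          nlinarith
      | two _ i i' w1 w2 hka hr hi hi' =>
        have g1 := hr h (by omega) ha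
        rcases Nat.eq_zero_or_pos w1 with hw1 | hw1
        · -- the first premise is empty
          subst hw1
          have hz : i ∈ Z := by
            cases hi with
            | zero _ hk => exact hk
          have e1 : Sg κ R0 (W i :: h) = 0 :=
            Sg_zero (V := W i) (by simp) (by simp [hZ i hz])
          have e2 : Sg κ R0 (W i' :: (W i)ᶜ :: h) = Sg κ R0 (W i' :: h) := by
            refine Sg_congr fun V => ?_
            simp only [List.mem_cons]
            constructor
            · rintro (h | h | h)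
              · exact Or.inl h
              · rw [h]
                exact Or.inr (hZ i hz)
              · exact Or.inr h
            · rintro (h | h)
              · exact Or.inl h
              · exact Or.inr (Or.inr h)
          rw [e1, e2] at g1
          obtain ⟨f, a1, b1, c1⟩ := ih Z h i' w2 hi' (hone w2 (by omega)) hZ (by omega) ha
          refine ⟨f, fun k' hk' hl' => ?_, b1, ?_⟩
          · have g1 := a1 k' hk' hl'
            rw [h2']
            nlinarith
          · rw [h2'']
            rw [h2'] at c1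
            nlinarith
        · have hia : act i := hi.act_of_pos hw1
          have hV := hW i hia
          refine glue (W i) i i' hV
            (ih Z (W i :: h) i w1 hi (hone w1 (by omega)) (fun z hz => by simp [hZ z hz])
              (by simp only [List.length_cons]; omega) (ha.cons hV))
            (ih Z ((W i)ᶜ :: h) i' w2 hi' (hone w2 (by omega)) (fun z hz => by simp [hZ z hz])
              (by simp only [List.length_cons]; omega) (ha.consc hV)) ?_
          rw [Sg_same]
          linarith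


section pary

variable {M : ℕ} {V : Fin M → Finset Ω}

/-- splitting off one premise -/
theorem rel_insert (hE : 0 ≤ E) {Q : Finset (Fin M)} {i : Fin M} :
    Rel2 κ E base R0 J (fun Q : Finset (Fin M) => Q.biUnion V) (insert i Q) {i} Q := by
  intro h _ _
  dsimp only
  have h1 := Sg_split κ R0 (V i) ((insert i Q).biUnion V :: h)
  have e1 : Sg κ R0 (V i :: (insert i Q).biUnion V :: h) = Sg κ R0 (({i} : Finset (Fin M)).biUnion V :: h) := by
    unfold Sg
    congr 1
    ext x
    simp only [R6x.mem_Inter, List.mem_cons, forall_eq_or_imp, singleton_biUnion, mem_biUnion,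
      mem_insert]
    constructor
    · rintro ⟨a, b, c, d⟩
      exact ⟨a, b, d⟩
    · rintro ⟨a, b, d⟩
      exact ⟨a, b, ⟨i, Or.inl rfl, b⟩, d⟩
  have e2 : Sg κ R0 ((V i)ᶜ :: (insert i Q).biUnion V :: h) =
      Sg κ R0 (Q.biUnion V :: (({i} : Finset (Fin M)).biUnion V)ᶜ :: h) := by
    unfold Sg
    congr 1
    ext x
    simp only [R6x.mem_Inter, List.mem_cons, forall_eq_or_imp, singleton_biUnion, mem_biUnion,
      mem_insert, mem_compl]
    constructor
    · rintro ⟨a, b, ⟨z, hz, hx⟩, d⟩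
      rcases hz with rfl | hz
      · exact absurd hx b
      · exact ⟨a, ⟨z, hz, hx⟩, b, d⟩
    · rintro ⟨a, ⟨z, hz, hx⟩, b, d⟩
      exact ⟨a, b, ⟨z, Or.inr hz, hx⟩, d⟩
  rw [e1, e2] at h1
  linarith

theorem unf_insert {act' lo' : Finset (Fin M) → Prop} (hE : 0 ≤ E) (g : Fin M → ℕ) :
    ∀ Q : Finset (Fin M), Q.Nonempty → (∀ Q' ⊆ Q, Q'.Nonempty → act' Q') →
    (∀ i ∈ Q, Unf κ E base R0 J (fun Q : Finset (Fin M) => Q.biUnion V) act' lo' ∅ {i} (g i)) →
    ∃ w ≤ ∑ i ∈ Q, g i + Q.card,
      Unf κ E base R0 J (fun Q : Finset (Fin M) => Q.biUnion V) act' lo' ∅ Q w := by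
  intro Q
  induction Q using Finset.induction_on with
  | empty =>
    intro h
    exact absurd h (by simp)
  | insert i Q hi ih =>
    intro _ hact hU
    rcases Q.eq_empty_or_nonempty with h0 | h0
    · subst h0
      refine ⟨g i, by simp, ?_⟩
      have := hU i (by simp)
      simpa using this
    · obtain ⟨w, hw, h1⟩ := ih h0
        (fun Q' hQ' => hact Q' (hQ'.trans (subset_insert _ _)))
        (fun i hi => hU i (mem_insert_of_mem hi))
      refine ⟨g i + w + 1, ?_, Unf.two (insert i Q) {i} Q (g i) w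
        (hact _ (Finset.Subset.refl _) (by simp)) (rel_insert hE) (hU i (by simp)) h1⟩
      rw [sum_insert hi, card_insert_of_notMem hi]
      omega

theorem exists_unfP (hE : 0 ≤ E) {act : Finset (Fin M)} {anc : Fin M → Finset (Fin M)}
    {size : Fin M → ℕ} {p : ℕ} (hp : 1 ≤ p) (θ : ℕ) (A : Finset (Fin M))
    (hI : ∀ k ∈ act, ∃ Q ⊆ act, Q.card ≤ p ∧ (∀ i ∈ Q, i < k ∧ insert i (anc i) ⊆ anc k) ∧
      ∑ i ∈ Q, size i < size k ∧
      ∀ h : List (Finset Ω), h.length ≤ J → R6x.Adm base h →
        Sg κ R0 (V k :: h) ≤ Sg κ R0 (Q.biUnion V :: h) + E) :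
    ∀ (N : ℕ) (k : Fin M), k ∈ act → (k : ℕ) < N → anc k ⊆ A → (k ∈ A ∨ θ < size k) →
    ∃ w, Unf κ E base R0 J (fun Q : Finset (Fin M) => Q.biUnion V)
      (fun Q => Q ⊆ act ∧ Q.card ≤ p) (fun Q => ∃ i ∈ A, Q = {i} ∧ size i ≤ θ) ∅ {k} w ∧
      w * θ ≤ (2 * p + 1) * ((k : ℕ) + 1) * size k + θ := by
  classical
  intro N
  induction N with
  | zero => intro k _ hk; omega
  | succ N ih =>
    intro k hka hkN hanc hkA
    have hk1 : ({k} : Finset (Fin M)) ⊆ act ∧ ({k} : Finset (Fin M)).card ≤ p :=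
      ⟨by simpa using hka, by simpa using hp⟩
    by_cases hlo : size k ≤ θ
    · refine ⟨1, Unf.low {k} hk1 ⟨k, ?_, rfl, hlo⟩, by omega⟩
      rcases hkA with h | h
      · exact h
      · omega
    have hθ : θ < size k := by omega
    obtain ⟨Q, hQa, hQc, hQi, hQs, hQr⟩ := hI k hka
    rcases Q.eq_empty_or_nonempty with h0 | h0
    · subst h0
      refine ⟨1, Unf.leaf {k} hk1 ?_, by omega⟩
      intro h hl ha
      have h1 := hQr h hl ha
      dsimp only
      rw [singleton_biUnion]
      have h2 : Sg κ R0 ((∅ : Finset (Fin M)).biUnion V :: h) = 0 := by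
        unfold Sg
        have : Inter (R0 :: (∅ : Finset (Fin M)).biUnion V :: h) = ∅ := by
          rw [eq_empty_iff_forall_notMem]
          intro x hx
          have hx := R6x.mem_Inter.1 hx
          have := hx ((∅ : Finset (Fin M)).biUnion V) (by simp)
          simp at this
        rw [this, sum_empty]
      linarith
    · have hex : ∀ i : Fin M, ∃ w, i ∈ Q → (Unf κ E base R0 J
          (fun Q : Finset (Fin M) => Q.biUnion V)
          (fun Q => Q ⊆ act ∧ Q.card ≤ p) (fun Q => ∃ i ∈ A, Q = {i} ∧ size i ≤ θ) ∅ {i} w ∧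
          w * θ ≤ (2 * p + 1) * (k : ℕ) * size i + θ) := by
        intro i
        by_cases hi : i ∈ Q
        · obtain ⟨h1, h2⟩ := hQi i hi
          have hik : (i : ℕ) < k := h1
          obtain ⟨w, hw1, hw2⟩ := ih i (hQa hi) (by omega)
            ((subset_insert _ _).trans (h2.trans hanc))
            (Or.inl (hanc (h2 (mem_insert_self _ _))))
          refine ⟨w, fun _ => ⟨hw1, hw2.trans ?_⟩⟩
          apply Nat.add_le_add_right
          apply Nat.mul_le_mul_right
          exact Nat.mul_le_mul_left _ (by omega)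
        · exact ⟨0, fun h => absurd h hi⟩
      choose g hg using hex
      obtain ⟨w, hw, hU⟩ := unf_insert (κ := κ) (base := base) (R0 := R0) (J := J) (V := V)
        (act' := fun Q => Q ⊆ act ∧ Q.card ≤ p)
        (lo' := fun Q => ∃ i ∈ A, Q = {i} ∧ size i ≤ θ) hE g Q h0
        (fun Q' hQ' _ => ⟨hQ'.trans hQa, (card_le_card hQ').trans hQc⟩)
        (fun i hi => (hg i hi).1)
      refine ⟨w + 1, Unf.one {k} Q w hk1 ?_ hU, ?_⟩
      · intro h hl ha
        have h1 := hQr h hl ha
        dsimp only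
        rw [singleton_biUnion]
        exact h1
      · have h1 : (∑ i ∈ Q, g i) * θ ≤ (2 * p + 1) * (k : ℕ) * size k + p * θ := by
          rw [sum_mul]
          calc ∑ i ∈ Q, g i * θ ≤ ∑ i ∈ Q, ((2 * p + 1) * (k : ℕ) * size i + θ) :=
                sum_le_sum fun i hi => (hg i hi).2
            _ = (2 * p + 1) * (k : ℕ) * ∑ i ∈ Q, size i + Q.card * θ := by
                rw [sum_add_distrib, ← mul_sum, sum_const, smul_eq_mul]
            _ ≤ (2 * p + 1) * (k : ℕ) * size k + p * θ :=
                Nat.add_le_add (Nat.mul_le_mul_left _ hQs.le) (Nat.mul_le_mul_right _ hQc)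
        have h2 : (w + 1) * θ ≤ (∑ i ∈ Q, g i) * θ + (p + 1) * θ := by
          rw [← Nat.add_mul]
          apply Nat.mul_le_mul_right
          omega
        have h3 : (2 * p + 1) * θ ≤ (2 * p + 1) * size k := Nat.mul_le_mul_left _ hθ.le
        have e1 : (2 * p + 1) * ((k : ℕ) + 1) * size k =
            (2 * p + 1) * (k : ℕ) * size k + (2 * p + 1) * size k := by ring
        have e2 : (2 * p + 1) * θ = p * θ + (p + 1) * θ := by ring
        omega

end pary

end WalkPx

open WalkPx in
theorem walkP : WalkP := by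
  classical
  intro Ω _ _ κ ε E base R0 M S T p q P J W act anc size hε hE hp hW low hS hT hTP hJ hI k hka
  set X : ℝ := 2 ^ (J + 2) * (E + ε) with hX
  have hX0 : 0 ≤ X := by positivity
  have hS0 : (0 : ℝ) ≤ S := Nat.cast_nonneg _
  have hsz : ∀ k ∈ act, 1 ≤ size k := by
    intro k hk
    obtain ⟨Q, _, _, _, hQs, _⟩ := hI k hk
    omega
  have hsum : 2 ^ J * ε + (2 ^ (J + 1) - 1 : ℝ) * (E + ε) ≤ X := by
    rw [hX]
    have e1 : (2:ℝ) ^ (J + 1) = 2 * 2 ^ J := by ring
    have e2 : (2:ℝ) ^ (J + 2) = 4 * 2 ^ J := by ring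
    rw [e1, e2]
    have h7 : 0 ≤ (2:ℝ) ^ J * ε := by positivity
    have h8 : 0 ≤ (2:ℝ) ^ J * E := by positivity
    nlinarith
  have key : ∀ (s : ℕ) (k : Fin M), k ∈ act → size k ≤ 2 ^ (q * s) →
      Sg κ R0 [W k] + 2 ^ J * ε ≤ ((S : ℝ) + 1) ^ s * X := by
    intro s
    induction s with
    | zero =>
      intro k hka hk
      have hk1 : size k ≤ 1 := by simpa using hk
      obtain ⟨Q, hQa, _, _, hQs, hQr⟩ := hI k hka
      have hQ0 : Q = ∅ := by
        rw [eq_empty_iff_forall_notMem]
        intro i hi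
        have h1 := hsz i (hQa hi)
        have h2 : size i ≤ ∑ i ∈ Q, size i :=
          single_le_sum (f := fun i => size i) (fun _ _ => Nat.zero_le _) hi
        omega
      subst hQ0
      have h1 := hQr [] (by simp) R6x.Adm.nil
      have h2 : Sg κ R0 [(∅ : Finset (Fin M)).biUnion W] = 0 := by
        unfold Sg
        have : Inter (R0 :: [(∅ : Finset (Fin M)).biUnion W]) = ∅ := by
          rw [eq_empty_iff_forall_notMem]
          intro x hx
          have hx := R6x.mem_Inter.1 hx
          have := hx ((∅ : Finset (Fin M)).biUnion W) (by simp)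
          simp at this
        rw [this, sum_empty]
      rw [pow_zero, one_mul]
      have h3 : E ≤ (2 ^ (J + 1) - 1 : ℝ) * (E + ε) := by
        have h4 : (1:ℝ) ≤ 2 ^ J := one_le_pow₀ (by norm_num)
        have e1 : (2:ℝ) ^ (J + 1) = 2 * 2 ^ J := by ring
        rw [e1]
        nlinarith
      linarith
    | succ s ih =>
      intro k hka hk
      have hpow0 : (0 : ℝ) ≤ ((S : ℝ) + 1) ^ s * X := by positivity
      by_cases hlow : size k ≤ 2 ^ (q * s)
      · refine (ih k hka hlow).trans ?_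
        rw [pow_succ]
        nlinarith
      obtain ⟨w, hU, hw⟩ := exists_unfP (κ := κ) (base := base) (R0 := R0) (J := J)
        (V := W) hE hp (2 ^ (q * s)) (anc k) hI ((k : ℕ) + 1) k hka (by omega)
        (Finset.Subset.refl _) (Or.inr (by omega))
      have hw3 : w * 3 ^ J ≤ 4 ^ J := by
        have h1 : w * 2 ^ (q * s) ≤ ((2 * p + 2) * M * 2 ^ q) * 2 ^ (q * s) := by
          have hkM : (k : ℕ) + 1 ≤ M := k.2
          have hM1 : 1 ≤ M := by omega
          have h2q : 1 ≤ 2 ^ q := Nat.one_le_two_pow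
          calc w * 2 ^ (q * s) ≤ (2 * p + 1) * ((k : ℕ) + 1) * size k + 2 ^ (q * s) := hw
            _ ≤ (2 * p + 1) * M * 2 ^ (q * (s + 1)) + 1 * 1 * 2 ^ (q * s) :=
                Nat.add_le_add (Nat.mul_le_mul (Nat.mul_le_mul_left _ hkM) hk) (by omega)
            _ ≤ (2 * p + 1) * M * 2 ^ (q * (s + 1)) + M * 2 ^ q * 2 ^ (q * s) := by
                apply Nat.add_le_add_left
                exact Nat.mul_le_mul_right _ (Nat.mul_le_mul hM1 h2q)
            _ = ((2 * p + 2) * M * 2 ^ q) * 2 ^ (q * s) := by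
                rw [Nat.mul_add q s 1, mul_one, pow_add]
                ring
        have h2 : w ≤ (2 * p + 2) * M * 2 ^ q := Nat.le_of_mul_le_mul_right h1 (by positivity)
        exact (Nat.mul_le_mul_right _ h2).trans hJ
      have ha : R6x.Adm base ([] : List (Finset Ω)) := R6x.Adm.nil
      obtain ⟨f, hf1, hf2, hf3⟩ := claimT (W := fun Q : Finset (Fin M) => Q.biUnion W) hε hE
        (fun Q hQ => hW Q hQ.1 hQ.2) low J ∅ [] {k} w hU hw3 (by simp) (by simp) ha
      have h1 : ∑ Q, f Q ≤ S * (((S : ℝ) + 1) ^ s * X) := by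
        have h0 : ∑ Q, f Q = ∑ Q ∈ (anc k).image (fun i => ({i} : Finset (Fin M))), f Q := by
          symm
          refine sum_subset (subset_univ _) fun Q _ hQ => hf2 Q ?_
          rintro ⟨_, i, hi, rfl, _⟩
          exact hQ (mem_image_of_mem _ hi)
        rw [h0]
        calc ∑ Q ∈ (anc k).image (fun i => ({i} : Finset (Fin M))), f Q
            ≤ ∑ _Q ∈ (anc k).image (fun i => ({i} : Finset (Fin M))),
                (((S : ℝ) + 1) ^ s * X) := by
              refine sum_le_sum fun Q hQ => ?_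
              by_cases hQ' : (Q ⊆ act ∧ Q.card ≤ p) ∧ ∃ i ∈ anc k, Q = {i} ∧ size i ≤ 2 ^ (q * s)
              · have h2 := hf1 Q hQ'.1 hQ'.2
                obtain ⟨⟨hQa, _⟩, i, hi, rfl, hsi⟩ := hQ'
                have h3 := ih i (by simpa using hQa) hsi
                simp only [singleton_biUnion] at h2
                linarith
              · rw [hf2 Q hQ']
                exact hpow0
          _ = (((anc k).image (fun i => ({i} : Finset (Fin M)))).card : ℝ) *
                (((S : ℝ) + 1) ^ s * X) := by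
              rw [sum_const, nsmul_eq_mul]
          _ ≤ S * (((S : ℝ) + 1) ^ s * X) := by
              refine mul_le_mul_of_nonneg_right ?_ hpow0
              exact_mod_cast card_image_le.trans (hS k hka)
      simp only [singleton_biUnion] at hf3
      have h2 : X ≤ ((S : ℝ) + 1) ^ s * X := by
        have : (1 : ℝ) ≤ ((S : ℝ) + 1) ^ s := one_le_pow₀ (by linarith)
        nlinarith
      have h3 : ((S : ℝ) + 1) ^ (s + 1) * X =
          S * (((S : ℝ) + 1) ^ s * X) + ((S : ℝ) + 1) ^ s * X := by ring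
      rw [h3]
      linarith
  have h1 := key P k hka ((hT k hka).trans hTP)
  have h2 : 0 ≤ (2:ℝ) ^ J * ε := by positivity
  linarith

end Pool.Agent.BW
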