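import Pool.Agent.Lib.BW.Defs8
import Pool.Agent.Lib.BW.Walk

/-!
# Row WALKT: unfolding the complex lines, with Spira's argument

Project BW (helper10).
-/

set_option autoImplicit false

namespace Pool.Agent.BW

open Finset Pool.Agent.SL

namespace WalkTx

variable {Ω : Type} [Fintype Ω] [DecidableEq Ω] {κ : Ω → ℝ} {ε E : ℝ}
  {base : Finset (Finset Ω)} {R0 : Finset Ω} {S J : ℕ} {W : Fin S → Finset Ω}
  {act lo : Fin S → Prop}

/-- an inference without active premises -/
def Rel0 (κ : Ω → ℝ) (E : ℝ) (base : Finset (Finset Ω)) (R0 : Finset Ω) (J : ℕ)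
    (W : Fin S → Finset Ω) (k : Fin S) : Prop :=
  ∀ h : List (Finset Ω), h.length ≤ J → R6x.Adm base h → Sg κ R0 (W k :: h) ≤ E

/-- an inference with one active premise -/
def Rel1 (κ : Ω → ℝ) (E : ℝ) (base : Finset (Finset Ω)) (R0 : Finset Ω) (J : ℕ)
    (W : Fin S → Finset Ω) (k i : Fin S) : Prop :=
  ∀ h : List (Finset Ω), h.length ≤ J → R6x.Adm base h →
    Sg κ R0 (W k :: h) ≤ Sg κ R0 (W i :: h) + E

/-- an inference with two active premises -/
def Rel2 (κ : Ω → ℝ) (E : ℝ) (base : Finset (Finset Ω)) (R0 : Finset Ω) (J : ℕ)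
    (W : Fin S → Finset Ω) (k i i' : Fin S) : Prop :=
  ∀ h : List (Finset Ω), h.length ≤ J → R6x.Adm base h →
    Sg κ R0 (W k :: h) ≤ Sg κ R0 (W i :: h) + Sg κ R0 (W i' :: (W i)ᶜ :: h) + E

/-- `k` can be unfolded, down to low lines and to lines in `Z`, into a tree with `w` nodes
(the lines in `Z` are not counted) -/
inductive Unf (κ : Ω → ℝ) (E : ℝ) (base : Finset (Finset Ω)) (R0 : Finset Ω) (J : ℕ)
    (W : Fin S → Finset Ω) (act lo : Fin S → Prop) (Z : Finset (Fin S)) :
    Fin S → ℕ → Prop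
  | zero (k : Fin S) : k ∈ Z → Unf κ E base R0 J W act lo Z k 0
  | low (k : Fin S) : act k → lo k → Unf κ E base R0 J W act lo Z k 1
  | leaf (k : Fin S) : act k → Rel0 κ E base R0 J W k → Unf κ E base R0 J W act lo Z k 1
  | one (k i : Fin S) (w : ℕ) : act k → Rel1 κ E base R0 J W k i →
      Unf κ E base R0 J W act lo Z i w → Unf κ E base R0 J W act lo Z k (w + 1)
  | two (k i i' : Fin S) (w w' : ℕ) : act k → Rel2 κ E base R0 J W k i i' →
      Unf κ E base R0 J W act lo Z i w → Unf κ E base R0 J W act lo Z i' w' →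
      Unf κ E base R0 J W act lo Z k (w + w' + 1)

theorem Unf.mono {Z : Finset (Fin S)} {k : Fin S} {w : ℕ}
    (h : Unf κ E base R0 J W act lo Z k w) (v : Fin S) :
    ∃ w' ≤ w, Unf κ E base R0 J W act lo (insert v Z) k w' := by
  induction h with
  | zero k hk => exact ⟨0, le_rfl, Unf.zero k (mem_insert_of_mem hk)⟩
  | low k ha hl => exact ⟨1, le_rfl, Unf.low k ha hl⟩
  | leaf k ha hr => exact ⟨1, le_rfl, Unf.leaf k ha hr⟩
  | one k i w ha hr _ ih =>
    obtain ⟨w', hw', h'⟩ := ih
    exact ⟨w' + 1, by omega, Unf.one k i w' ha hr h'⟩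
  | two k i i' w w' ha hr _ _ ih ih' =>
    obtain ⟨u, hu, h1⟩ := ih
    obtain ⟨u', hu', h2⟩ := ih'
    exact ⟨u + u' + 1, by omega, Unf.two k i i' u u' ha hr h1 h2⟩

theorem Unf.act_of_pos {Z : Finset (Fin S)} {k : Fin S} {w : ℕ}
    (h : Unf κ E base R0 J W act lo Z k w) (hw : 0 < w) : act k := by
  cases h with
  | zero => omega
  | low _ ha _ => exact ha
  | leaf _ ha _ => exact ha
  | one _ _ _ ha _ _ => exact ha
  | two _ _ _ _ _ ha _ _ _ => exact ha

/-- Spira's lemma -/
theorem centroid {Z : Finset (Fin S)} {k : Fin S} {w : ℕ} (w₀ : ℕ) (hw₀ : 3 ≤ w₀)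
    (h : Unf κ E base R0 J W act lo Z k w) (hw : 3 * w₀ < 4 * w) :
    ∃ (v : Fin S) (wv w' : ℕ), Unf κ E base R0 J W act lo Z v wv ∧
      Unf κ E base R0 J W act lo (insert v Z) k w' ∧ 4 * wv ≤ 3 * w₀ ∧ w₀ ≤ 4 * wv ∧
      w' + wv ≤ w := by
  induction h with
  | zero k hk => omega
  | low k ha hl => omega
  | leaf k ha hr => omega
  | one k i w ha hr h' ih =>
    by_cases hb : 3 * w₀ < 4 * w
    · obtain ⟨v, wv, w1, h1, h2, h3, h4, h5⟩ := ih hb
      exact ⟨v, wv, w1 + 1, h1, Unf.one k i w1 ha hr h2, h3, h4, by omega⟩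
    · refine ⟨i, w, 1, h', ?_, by omega, by omega, by omega⟩
      exact Unf.one k i 0 ha hr (Unf.zero i (mem_insert_self _ _))
  | two k i i' w w' ha hr h1 h2 ih ih' =>
    by_cases hb : 3 * w₀ < 4 * w
    · obtain ⟨v, wv, u, g1, g2, g3, g4, g5⟩ := ih hb
      obtain ⟨u', hu', g6⟩ := h2.mono v
      exact ⟨v, wv, u + u' + 1, g1, Unf.two k i i' u u' ha hr g2 g6, g3, g4, by omega⟩
    by_cases hb' : 3 * w₀ < 4 * w'
    · obtain ⟨v, wv, u, g1, g2, g3, g4, g5⟩ := ih' hb'
      obtain ⟨u', hu', g6⟩ := h1.mono v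
      exact ⟨v, wv, u' + u + 1, g1, Unf.two k i i' u' u ha hr g6 g2, g3, g4, by omega⟩
    rcases le_total w' w with hc | hc
    · obtain ⟨u', hu', g6⟩ := h2.mono i
      exact ⟨i, w, 0 + u' + 1, h1,
        Unf.two k i i' 0 u' ha hr (Unf.zero i (mem_insert_self _ _)) g6,
        by omega, by omega, by omega⟩
    · obtain ⟨u, hu, g6⟩ := h1.mono i'
      exact ⟨i', w', u + 0 + 1, h2,
        Unf.two k i i' u 0 ha hr g6 (Unf.zero i' (mem_insert_self _ _)),
        by omega, by omega, by omega⟩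

theorem Sg_zero {h : List (Finset Ω)} {V : Finset Ω} (h1 : V ∈ h) (h2 : Vᶜ ∈ h) :
    Sg κ R0 h = 0 := by
  unfold Sg
  have : Inter (R0 :: h) = ∅ := by
    rw [eq_empty_iff_forall_notMem]
    intro x hx
    have hx := R6x.mem_Inter.1 hx
    exact absurd (hx V (by simp [h1])) (mem_compl.1 (hx Vᶜ (by simp [h2])))
  rw [this, sum_empty]

/-- the conclusion of the walk with budget `j` -/
def Concl (κ : Ω → ℝ) (ε E : ℝ) (R0 : Finset Ω) (W : Fin S → Finset Ω)
    (act lo : Fin S → Prop) (j : ℕ) (h : List (Finset Ω)) (k : Fin S) : Prop :=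
  ∃ f : Fin S → ℝ, (∀ k', act k' → lo k' → f k' ≤ Sg κ R0 (W k' :: h) + 2 ^ j * ε) ∧
    (∀ k', ¬ (act k' ∧ lo k') → f k' = 0) ∧
    Sg κ R0 (W k :: h) ≤ ∑ k', f k' + (2 ^ (j + 1) - 1) * (E + ε)

theorem Concl.zero (hε : 0 ≤ ε) (hE : 0 ≤ E) (hW : ∀ k, act k → W k ∈ base)
    (low : ∀ h : List (Finset Ω), h.length ≤ J + 4 → R6x.Adm base h → -ε ≤ Sg κ R0 h)
    {j : ℕ} {h : List (Finset Ω)} {k : Fin S} (hl : h.length ≤ J) (ha : R6x.Adm base h)
    (hk : Sg κ R0 (W k :: h) ≤ E) :
    Concl κ ε E R0 W act lo j h k := by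
  have h2 : (1 : ℝ) ≤ 2 ^ j := one_le_pow₀ (by norm_num)
  have h2' : (2 : ℝ) ^ (j + 1) = 2 * 2 ^ j := by ring
  refine ⟨fun _ => 0, fun k' hk' _ => ?_, fun _ _ => rfl, ?_⟩
  · have := low (W k' :: h) (by simp only [List.length_cons]; omega) (ha.cons (hW k' hk'))
    nlinarith
  · rw [sum_const_zero, zero_add]
    have h3 : (1 : ℝ) ≤ 2 ^ (j + 1) - 1 := by linarith
    nlinarith

theorem claimT (hε : 0 ≤ ε) (hE : 0 ≤ E) (hW : ∀ k, act k → W k ∈ base)
    (low : ∀ h : List (Finset Ω), h.length ≤ J + 4 → R6x.Adm base h → -ε ≤ Sg κ R0 h) :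
    ∀ (j : ℕ) (Z : Finset (Fin S)) (h : List (Finset Ω)) (k : Fin S) (w : ℕ),
    Unf κ E base R0 J W act lo Z k w → w * 3 ^ j ≤ 4 ^ j → (∀ z ∈ Z, (W z)ᶜ ∈ h) →
    h.length + j ≤ J → R6x.Adm base h → Concl κ ε E R0 W act lo j h k := by
  classical
  have hlow : ∀ (j : ℕ) (h : List (Finset Ω)) (k : Fin S), h.length ≤ J → R6x.Adm base h →
      act k → lo k → Concl κ ε E R0 W act lo j h k := by
    intro j h k hl ha hk hlk
    have h2 : (1 : ℝ) ≤ 2 ^ j := one_le_pow₀ (by norm_num)
    have h2' : (2 : ℝ) ^ (j + 1) = 2 * 2 ^ j := by ring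
    refine ⟨fun k' => if k' = k then Sg κ R0 (W k' :: h) else 0, fun k' hk' _ => ?_,
      fun k' hk' => ?_, ?_⟩
    · have := low (W k' :: h) (by simp only [List.length_cons]; omega) (ha.cons (hW k' hk'))
      dsimp only
      split_ifs
      · nlinarith
      · nlinarith
    · dsimp only
      rw [if_neg]
      rintro rfl
      exact hk' ⟨hk, hlk⟩
    · rw [sum_ite_eq' univ k, if_pos (mem_univ _)]
      have h3 : (0 : ℝ) ≤ 2 ^ (j + 1) - 1 := by linarith
      have h4 : 0 ≤ (2 ^ (j + 1) - 1) * (E + ε) := mul_nonneg h3 (by linarith)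
      linarith
  intro j
  induction j with
  | zero =>
    intro Z h k w hU hw hZ hl ha
    have hw' : w ≤ 1 := by simpa using hw
    have hz : ∀ {i : Fin S}, Unf κ E base R0 J W act lo Z i 0 → i ∈ Z := by
      intro i hi
      cases hi with
      | zero _ hk => exact hk
    cases hU with
    | zero _ hk =>
      refine Concl.zero hε hE hW low (by omega) ha ?_
      have e1 : Sg κ R0 (W k :: h) = 0 := Sg_zero (V := W k) (by simp) (by simp [hZ k hk])
      rw [e1]
      exact hE
    | low _ hka hlk => exact hlow 0 h k (by omega) ha hka hlk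
    | leaf _ hka hr => exact Concl.zero hε hE hW low (by omega) ha (hr h (by omega) ha)
    | one _ i w1 hka hr hi =>
      have : w1 = 0 := by omega
      subst this
      refine Concl.zero hε hE hW low (by omega) ha ?_
      have h1 := hr h (by omega) ha
      have e1 : Sg κ R0 (W i :: h) = 0 := Sg_zero (V := W i) (by simp) (by simp [hZ i (hz hi)])
      linarith
    | two _ i i' w1 w2 hka hr hi hi' =>
      have e1 : w1 = 0 := by omega
      have e2 : w2 = 0 := by omega
      subst e1 e2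
      refine Concl.zero hε hE hW low (by omega) ha ?_
      have h1 := hr h (by omega) ha
      have e1 : Sg κ R0 (W i :: h) = 0 := Sg_zero (V := W i) (by simp) (by simp [hZ i (hz hi)])
      have e2 : Sg κ R0 (W i' :: (W i)ᶜ :: h) = 0 :=
        Sg_zero (V := W i') (by simp) (by simp [hZ i' (hz hi')])
      linarith
  | succ j ih =>
    intro Z h k w hU hw hZ hl ha
    have h2 : (1 : ℝ) ≤ 2 ^ j := one_le_pow₀ (by norm_num)
    have h2' : (2 : ℝ) ^ (j + 1) = 2 * 2 ^ j := by ring
    have h2'' : (2 : ℝ) ^ (j + 1 + 1) = 4 * 2 ^ j := by ring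
    -- gluing two walks
    have glue : ∀ (V : Finset Ω) (k1 k2 : Fin S), V ∈ base →
        Concl κ ε E R0 W act lo j (V :: h) k1 → Concl κ ε E R0 W act lo j (Vᶜ :: h) k2 →
        Sg κ R0 (W k :: h) ≤ Sg κ R0 (W k1 :: V :: h) + Sg κ R0 (W k2 :: Vᶜ :: h) + (E + ε) →
        Concl κ ε E R0 W act lo (j + 1) h k := by
      rintro V k1 k2 hV ⟨f1, a1, b1, c1⟩ ⟨f2, a2, b2, c2⟩ hs
      refine ⟨fun k' => f1 k' + f2 k', fun k' hk' hl' => ?_, fun k' hk' => ?_, ?_⟩
      · have g1 := a1 k' hk' hl'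
        have g2 := a2 k' hk' hl'
        have g3 := Sg_split κ R0 V (W k' :: h)
        rw [Sg_swap κ R0 V, Sg_swap κ R0 Vᶜ] at g3
        dsimp only
        rw [h2']
        linarith
      · show f1 k' + f2 k' = 0
        rw [b1 k' hk', b2 k' hk', add_zero]
      · rw [sum_add_distrib, h2'']
        rw [h2'] at c1 c2
        linarith
    have h3j : w * 3 ^ j * 3 ≤ 4 ^ j * 4 := by
      have e1 : w * 3 ^ (j + 1) = w * 3 ^ j * 3 := by ring
      have e2 : 4 ^ (j + 1) = 4 ^ j * 4 := by ring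
      rw [← e1, ← e2]
      exact hw
    have hpow : ∀ u : ℕ, 4 * u ≤ 3 * w → u * 3 ^ j ≤ 4 ^ j := by
      intro u hu
      have e1 : 4 * (u * 3 ^ j) ≤ 4 * 4 ^ j := by
        calc 4 * (u * 3 ^ j) = (4 * u) * 3 ^ j := by ring
          _ ≤ (3 * w) * 3 ^ j := Nat.mul_le_mul_right _ hu
          _ = w * 3 ^ j * 3 := by ring
          _ ≤ 4 ^ j * 4 := h3j
          _ = 4 * 4 ^ j := by ring
      omega
    have hone : ∀ u : ℕ, u ≤ 1 → u * 3 ^ j ≤ 4 ^ j := by
      intro u hu
      calc u * 3 ^ j ≤ 1 * 4 ^ j := Nat.mul_le_mul hu (Nat.pow_le_pow_left (by norm_num) j)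
        _ = 4 ^ j := one_mul _
    by_cases hw3 : 3 ≤ w
    · -- split at the centroid
      obtain ⟨v, wv, w', h1, h2v, h3, h4, h5⟩ := centroid w hw3 hU (by omega)
      have hva : act v := h1.act_of_pos (by omega)
      have hV := hW v hva
      refine glue (W v) v k hV
        (ih Z (W v :: h) v wv h1 (hpow wv h3) (fun z hz => by simp [hZ z hz])
          (by simp only [List.length_cons]; omega) (ha.cons hV))
        (ih (insert v Z) ((W v)ᶜ :: h) k w' h2v (hpow w' (by omega))
          (fun z hz => by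
            rcases mem_insert.1 hz with rfl | hz
            · simp
            · simp [hZ z hz])
          (by simp only [List.length_cons]; omega) (ha.consc hV)) ?_
      have g1 := Sg_split κ R0 (W v) (W k :: h)
      have hka : act k := hU.act_of_pos (by omega)
      have hWk := hW k hka
      -- drop `W k` in the first part
      have g2 := Sg_split κ R0 (W k) (W v :: h)
      have g3 := low ((W k)ᶜ :: W v :: h) (by simp only [List.length_cons]; omega)
        ((ha.cons hV).consc hWk)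
      rw [Sg_swap κ R0 (W k)] at g2
      rw [Sg_swap κ R0 (W v)ᶜ] at g1
      rw [Sg_same]
      linarith
    · -- small trees
      cases hU with
      | zero _ hk =>
        refine Concl.zero hε hE hW low (by omega) ha ?_
        have e1 : Sg κ R0 (W k :: h) = 0 := Sg_zero (V := W k) (by simp) (by simp [hZ k hk])
        rw [e1]
        exact hE
      | low _ hka hlk => exact hlow (j + 1) h k (by omega) ha hka hlk
      | leaf _ hka hr => exact Concl.zero hε hE hW low (by omega) ha (hr h (by omega) ha)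
      | one _ i w1 hka hr hi =>
        obtain ⟨f, a1, b1, c1⟩ := ih Z h i w1 hi (hone w1 (by omega)) hZ (by omega) ha
        refine ⟨f, fun k' hk' hl' => ?_, b1, ?_⟩
        · have g1 := a1 k' hk' hl'
          rw [h2']
          nlinarith
        · have g1 := hr h (by omega) ha
          rw [h2'']
          rw [h2'] at c1
          nlinarith
      | two _ i i' w1 w2 hka hr hi hi' =>
        have g1 := hr h (by omega) ha
        rcases Nat.eq_zero_or_pos w1 with hw1 | hw1
        · -- the first premise is empty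
          subst hw1
          have hz : i ∈ Z := by
            cases hi with
            | zero _ hk => exact hk
          have e1 : Sg κ R0 (W i :: h) = 0 :=
            Sg_zero (V := W i) (by simp) (by simp [hZ i hz])
          have e2 : Sg κ R0 (W i' :: (W i)ᶜ :: h) = Sg κ R0 (W i' :: h) := by
            refine Sg_congr fun V => ?_
            simp only [List.mem_cons]
            constructor
            · rintro (h | h | h)
              · exact Or.inl h
              · rw [h]
                exact Or.inr (hZ i hz)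
              · exact Or.inr h
            · rintro (h | h)
              · exact Or.inl h
              · exact Or.inr (Or.inr h)
          rw [e1, e2] at g1
          obtain ⟨f, a1, b1, c1⟩ := ih Z h i' w2 hi' (hone w2 (by omega)) hZ (by omega) ha
          refine ⟨f, fun k' hk' hl' => ?_, b1, ?_⟩
          · have g1 := a1 k' hk' hl'
            rw [h2']
            nlinarith
          · rw [h2'']
            rw [h2'] at c1
            nlinarith
        · have hia : act i := hi.act_of_pos hw1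
          have hV := hW i hia
          refine glue (W i) i i' hV
            (ih Z (W i :: h) i w1 hi (hone w1 (by omega)) (fun z hz => by simp [hZ z hz])
              (by simp only [List.length_cons]; omega) (ha.cons hV))
            (ih Z ((W i)ᶜ :: h) i' w2 hi' (hone w2 (by omega)) (fun z hz => by simp [hZ z hz])
              (by simp only [List.length_cons]; omega) (ha.consc hV)) ?_
          rw [Sg_same]
          linarith

/-- the unfolding of a line down to the lines of size at most `θ` -/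
theorem exists_unf {size : Fin S → ℕ} (θ : ℕ)
    (hI : ∀ k, act k →
      (1 ≤ size k ∧ Rel0 κ E base R0 J W k) ∨
      (∃ i, i < k ∧ act i ∧ size i + 1 ≤ size k ∧ Rel1 κ E base R0 J W k i) ∨
      (∃ i i', i < k ∧ i' < k ∧ act i ∧ act i' ∧ size i + size i' + 1 ≤ size k ∧
        Rel2 κ E base R0 J W k i i')) :
    ∀ (N : ℕ) (k : Fin S), act k → (k : ℕ) < N →
    ∃ w, Unf κ E base R0 J W act (fun k => size k ≤ θ) ∅ k w ∧
      ((size k ≤ θ ∧ w = 1) ∨ (θ < size k ∧ w * θ ≤ 3 * ((k : ℕ) + 1) * size k)) := by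
  intro N
  induction N with
  | zero => intro k _ hk; omega
  | succ N ih =>
    intro k hka hkN
    by_cases hlo : size k ≤ θ
    · exact ⟨1, Unf.low k hka hlo, Or.inl ⟨hlo, rfl⟩⟩
    have hθ : θ < size k := by omega
    have hk3 : 3 * size k ≤ 3 * ((k : ℕ) + 1) * size k := by
      apply Nat.mul_le_mul_right
      omega
    rcases hI k hka with ⟨h0, hr⟩ | ⟨i, hik, hia, hsi, hr⟩ | ⟨i, i', hik, hik', hia, hia', hs, hr⟩
    · exact ⟨1, Unf.leaf k hka hr, Or.inr ⟨hθ, by omega⟩⟩
    · have hik2 : (i : ℕ) < k := hik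
      obtain ⟨w, hU, hw⟩ := ih i hia (by omega)
      refine ⟨w + 1, Unf.one k i w hka hr hU, Or.inr ⟨hθ, ?_⟩⟩
      rcases hw with ⟨_, rfl⟩ | ⟨_, hw⟩
      · omega
      · calc (w + 1) * θ = w * θ + θ := by ring
          _ ≤ 3 * ((i : ℕ) + 1) * size i + size k := Nat.add_le_add hw hθ.le
          _ ≤ 3 * (k : ℕ) * size k + size k := by
              apply Nat.add_le_add_right
              exact Nat.mul_le_mul (Nat.mul_le_mul_left _ (by omega)) (by omega)
          _ ≤ 3 * ((k : ℕ) + 1) * size k := by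
              have : 3 * ((k : ℕ) + 1) * size k = 3 * (k : ℕ) * size k + 3 * size k := by ring
              omega
    · have hik2 : (i : ℕ) < k := hik
      have hik3 : (i' : ℕ) < k := hik'
      obtain ⟨w, hU, hw⟩ := ih i hia (by omega)
      obtain ⟨w', hU', hw'⟩ := ih i' hia' (by omega)
      refine ⟨w + w' + 1, Unf.two k i i' w w' hka hr hU hU', Or.inr ⟨hθ, ?_⟩⟩
      have e : 3 * ((k : ℕ) + 1) * size k = 3 * (k : ℕ) * size k + 3 * size k := by ring
      have b1 : 3 * ((i : ℕ) + 1) * size i ≤ 3 * (k : ℕ) * size i :=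
        Nat.mul_le_mul_right _ (Nat.mul_le_mul_left _ (by omega))
      have b2 : 3 * ((i' : ℕ) + 1) * size i' ≤ 3 * (k : ℕ) * size i' :=
        Nat.mul_le_mul_right _ (Nat.mul_le_mul_left _ (by omega))
      have b3 : 3 * (k : ℕ) * size i + 3 * (k : ℕ) * size i' ≤ 3 * (k : ℕ) * size k := by
        rw [← Nat.mul_add]
        exact Nat.mul_le_mul_left _ (by omega)
      have e3 : (w + w' + 1) * θ = w * θ + w' * θ + θ := by ring
      have p1 : 0 ≤ 3 * (k : ℕ) * size i := Nat.zero_le _
      have p2 : 0 ≤ 3 * (k : ℕ) * size i' := Nat.zero_le _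
      rcases hw with ⟨_, rfl⟩ | ⟨_, hw⟩ <;> rcases hw' with ⟨_, rfl⟩ | ⟨_, hw'⟩
      · rw [e3]; omega
      · rw [e3]; omega
      · rw [e3]; omega
      · rw [e3]; omega

end WalkTx

open WalkTx in
theorem walkT : WalkT := by
  classical
  intro Ω _ _ κ ε E base R0 S T q P J W act size hε hE hW low hT hTP hJ hI k hka
  have hS : 0 < S := k.pos
  have hS1 : (1:ℝ) ≤ S := by exact_mod_cast hS
  set X : ℝ := 2 ^ (J + 2) * (E + ε) with hX
  have hX0 : 0 ≤ X := by positivity
  have h2J : (1:ℝ) ≤ 2 ^ J := one_le_pow₀ (by norm_num)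
  have hsz : ∀ k, act k → 1 ≤ size k := by
    intro k hk
    rcases hI k hk with ⟨h0, _⟩ | ⟨i, _, _, hsi, _⟩ | ⟨i, i', _, _, _, _, hs, _⟩ <;> omega
  have key : ∀ (p : ℕ) (k : Fin S), act k → size k ≤ 2 ^ (q * p) →
      Sg κ R0 [W k] ≤ (p + 1) * (S : ℝ) ^ (p + 1) * X := by
    intro p
    induction p with
    | zero =>
      intro k hka hk
      have hk1 : size k ≤ 1 := by simpa using hk
      have ha : R6x.Adm base ([] : List (Finset Ω)) := R6x.Adm.nil
      rcases hI k hka with ⟨_, hr⟩ | ⟨i, _, hia, hsi, _⟩ | ⟨i, i', _, _, hia, _, hs, _⟩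
      · have h1 := hr [] (by simp) ha
        have h2 : E ≤ X := by
          rw [hX]
          have : (1:ℝ) ≤ 2 ^ (J + 2) := one_le_pow₀ (by norm_num)
          nlinarith
        have e1 : (((0 : ℕ) : ℝ) + 1) * (S : ℝ) ^ (0 + 1) * X = S * X := by
          push_cast
          ring
        rw [e1]
        nlinarith
      · have := hsz i hia
        omega
      · have := hsz i hia
        omega
    | succ p ih =>
      intro k hka hk
      obtain ⟨w, hU, hw⟩ := exists_unf (κ := κ) (E := E) (base := base) (R0 := R0) (J := J)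
        (W := W) (act := act) (size := size) (2 ^ (q * p)) hI ((k : ℕ) + 1) k hka (by omega)
      have hw3 : w * 3 ^ J ≤ 4 ^ J := by
        rcases hw with ⟨_, rfl⟩ | ⟨_, hw⟩
        · rw [one_mul]
          exact Nat.pow_le_pow_left (by norm_num) J
        · have h1 : w * 2 ^ (q * p) ≤ (3 * S * 2 ^ q) * 2 ^ (q * p) := by
            calc w * 2 ^ (q * p) ≤ 3 * ((k : ℕ) + 1) * size k := hw
              _ ≤ 3 * S * 2 ^ (q * (p + 1)) :=
                  Nat.mul_le_mul (Nat.mul_le_mul_left _ k.2) hk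
              _ = (3 * S * 2 ^ q) * 2 ^ (q * p) := by
                  rw [Nat.mul_add, mul_one, pow_add]
                  ring
          have h2 : w ≤ 3 * S * 2 ^ q := Nat.le_of_mul_le_mul_right h1 (by positivity)
          exact (Nat.mul_le_mul_right _ h2).trans hJ
      have ha : R6x.Adm base ([] : List (Finset Ω)) := R6x.Adm.nil
      obtain ⟨f, hf1, hf2, hf3⟩ := claimT hε hE hW low J ∅ [] k w hU hw3 (by simp) (by simp) ha
      set β : ℝ := (p + 1) * (S : ℝ) ^ (p + 1) * X with hβ
      have hβ0 : 0 ≤ β := by positivity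
      have h1 : ∑ k', f k' ≤ S * (β + 2 ^ J * ε) := by
        calc ∑ k', f k' ≤ ∑ _k' : Fin S, (β + 2 ^ J * ε) := by
              refine sum_le_sum fun k' _ => ?_
              by_cases hk' : act k' ∧ size k' ≤ 2 ^ (q * p)
              · have h2 := hf1 k' hk'.1 hk'.2
                have h3 := ih k' hk'.1 hk'.2
                linarith
              · rw [hf2 k' hk']
                positivity
          _ = S * (β + 2 ^ J * ε) := by
              rw [sum_const, nsmul_eq_mul, card_univ, Fintype.card_fin]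
      have h6 : 2 ^ J * ε + (2 ^ (J + 1) - 1 : ℝ) * (E + ε) ≤ X := by
        rw [hX]
        have e1 : (2:ℝ) ^ (J + 1) = 2 * 2 ^ J := by ring
        have e2 : (2:ℝ) ^ (J + 2) = 4 * 2 ^ J := by ring
        rw [e1, e2]
        have h7 : 0 ≤ (2:ℝ) ^ J * ε := by positivity
        have h8 : 0 ≤ (2:ℝ) ^ J * E := by positivity
        nlinarith
      have hSp : (1:ℝ) ≤ (S : ℝ) ^ (p + 1) := one_le_pow₀ hS1
      have h9 : S * (β + X) ≤ ((p + 1 : ℕ) + 1) * (S : ℝ) ^ (p + 1 + 1) * X := by
        have e3 : ((p + 1 : ℕ) + 1 : ℝ) * (S : ℝ) ^ (p + 1 + 1) * X =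
            S * (β + (S : ℝ) ^ (p + 1) * X) := by
          rw [hβ]
          push_cast
          ring
        rw [e3]
        have : X ≤ (S : ℝ) ^ (p + 1) * X := by nlinarith
        gcongr
      have h10 : 0 ≤ (2 ^ (J + 1) - 1 : ℝ) * (E + ε) := by
        have : (1:ℝ) ≤ 2 ^ (J + 1) := one_le_pow₀ (by norm_num)
        exact mul_nonneg (by linarith) (by linarith)
      calc Sg κ R0 [W k] ≤ S * (β + 2 ^ J * ε) + (2 ^ (J + 1) - 1) * (E + ε) := by
            linarith
        _ ≤ S * (β + 2 ^ J * ε) + S * ((2 ^ (J + 1) - 1) * (E + ε)) := by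
            have : (2 ^ (J + 1) - 1 : ℝ) * (E + ε) ≤ S * ((2 ^ (J + 1) - 1) * (E + ε)) := by
              nlinarith
            linarith
        _ = S * (β + (2 ^ J * ε + (2 ^ (J + 1) - 1) * (E + ε))) := by ring
        _ ≤ S * (β + X) := by gcongr
        _ ≤ _ := h9
  exact key P k hka ((hT k hka).trans hTP)

end Pool.Agent.BW
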