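import Pool.Agent.Lib.BW.Defs9
import Pool.Agent.Lib.BW.WalkT

/-!
# Row WALKS

Project BW (helper10).
-/

set_option autoImplicit false

namespace Pool.Agent.BW

open Finset Pool.Agent.SL

open WalkTx in
theorem walkS : WalkS := by
  classical
  intro Ω _ _ κ ε E base R0 S Sc T q P J W act size hε hE hW low hSc hT hTP hJ hI k hka
  have hS1 : (1:ℝ) ≤ Sc := by
    have h1 : 0 < (univ.filter fun k => act k).card :=
      card_pos.2 ⟨k, mem_filter.2 ⟨mem_univ _, hka⟩⟩
    have h2 : 1 ≤ Sc := by omega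
    exact_mod_cast h2
  set X : ℝ := 2 ^ (J + 2) * (E + ε) with hX
  have hX0 : 0 ≤ X := by positivity
  have h2J : (1:ℝ) ≤ 2 ^ J := one_le_pow₀ (by norm_num)
  have hsz : ∀ k, act k → 1 ≤ size k := by
    intro k hk
    rcases hI k hk with ⟨h0, _⟩ | ⟨i, _, _, hsi, _⟩ | ⟨i, i', _, _, _, _, hs, _⟩ <;> omega
  have key : ∀ (p : ℕ) (k : Fin S), act k → size k ≤ 2 ^ (q * p) →
      Sg κ R0 [W k] ≤ (p + 1) * (Sc : ℝ) ^ (p + 1) * X := by
    intro p
    induction p with
    | zero =>
      intro k hka hk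
      have hk1 : size k ≤ 1 := by simpa using hk
      have ha : R6x.Adm base ([] : List (Finset Ω)) := R6x.Adm.nil
      rcases hI k hka with ⟨_, hr⟩ | ⟨i, _, hia, hsi, _⟩ | ⟨i, i', _, _, hia, _, hs, _⟩
      · have h1 := hr [] (by simp) ha
        have h2 : E ≤ X := by
          rw [hX]
          have : (1:ℝ) ≤ 2 ^ (J + 2) := one_le_pow₀ (by norm_num)
          nlinarith
        have e1 : (((0 : ℕ) : ℝ) + 1) * (Sc : ℝ) ^ (0 + 1) * X = Sc * X := by
          push_cast
          ring
        rw [e1]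
        nlinarith
      · have := hsz i hia
        omega
      · have := hsz i hia
        omega
    | succ p ih =>
      intro k hka hk
      obtain ⟨w, hU, hw⟩ := exists_unf (κ := κ) (E := E) (base := base) (R0 := R0) (J := J)
        (W := W) (act := act) (size := size) (2 ^ (q * p)) hI ((k : ℕ) + 1) k hka (by omega)
      have hw3 : w * 3 ^ J ≤ 4 ^ J := by
        rcases hw with ⟨_, rfl⟩ | ⟨_, hw⟩
        · rw [one_mul]
          exact Nat.pow_le_pow_left (by norm_num) J
        · have h1 : w * 2 ^ (q * p) ≤ (3 * S * 2 ^ q) * 2 ^ (q * p) := by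
            calc w * 2 ^ (q * p) ≤ 3 * ((k : ℕ) + 1) * size k := hw
              _ ≤ 3 * S * 2 ^ (q * (p + 1)) :=
                  Nat.mul_le_mul (Nat.mul_le_mul_left _ k.2) hk
              _ = (3 * S * 2 ^ q) * 2 ^ (q * p) := by
                  rw [Nat.mul_add, mul_one, pow_add]
                  ring
          have h2 : w ≤ 3 * S * 2 ^ q := Nat.le_of_mul_le_mul_right h1 (by positivity)
          exact (Nat.mul_le_mul_right _ h2).trans hJ
      have ha : R6x.Adm base ([] : List (Finset Ω)) := R6x.Adm.nil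
      obtain ⟨f, hf1, hf2, hf3⟩ := claimT hε hE hW low J ∅ [] k w hU hw3 (by simp) (by simp) ha
      set β : ℝ := (p + 1) * (Sc : ℝ) ^ (p + 1) * X with hβ
      have hβ0 : 0 ≤ β := by positivity
      have h1 : ∑ k', f k' ≤ Sc * (β + 2 ^ J * ε) := by
        have h0 : ∑ k', f k' = ∑ k' ∈ univ.filter (fun k => act k), f k' := by
          symm
          refine sum_subset (subset_univ _) fun k' _ hk' => hf2 k' ?_
          rintro ⟨hk'1, _⟩
          exact hk' (mem_filter.2 ⟨mem_univ _, hk'1⟩)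
        rw [h0]
        calc ∑ k' ∈ univ.filter (fun k => act k), f k'
            ≤ ∑ _k' ∈ univ.filter (fun k => act k), (β + 2 ^ J * ε) := by
              refine sum_le_sum fun k' _ => ?_
              by_cases hk' : act k' ∧ size k' ≤ 2 ^ (q * p)
              · have h2 := hf1 k' hk'.1 hk'.2
                have h3 := ih k' hk'.1 hk'.2
                linarith
              · rw [hf2 k' hk']
                positivity
          _ = ((univ.filter (fun k => act k)).card : ℝ) * (β + 2 ^ J * ε) := by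
              rw [sum_const, nsmul_eq_mul]
          _ ≤ Sc * (β + 2 ^ J * ε) := by
              refine mul_le_mul_of_nonneg_right ?_ (by positivity)
              exact_mod_cast hSc
      have h6 : 2 ^ J * ε + (2 ^ (J + 1) - 1 : ℝ) * (E + ε) ≤ X := by
        rw [hX]
        have e1 : (2:ℝ) ^ (J + 1) = 2 * 2 ^ J := by ring
        have e2 : (2:ℝ) ^ (J + 2) = 4 * 2 ^ J := by ring
        rw [e1, e2]
        have h7 : 0 ≤ (2:ℝ) ^ J * ε := by positivity
        have h8 : 0 ≤ (2:ℝ) ^ J * E := by positivity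
        nlinarith
      have hSp : (1:ℝ) ≤ (Sc : ℝ) ^ (p + 1) := one_le_pow₀ hS1
      have h9 : Sc * (β + X) ≤ ((p + 1 : ℕ) + 1) * (Sc : ℝ) ^ (p + 1 + 1) * X := by
        have e3 : ((p + 1 : ℕ) + 1 : ℝ) * (Sc : ℝ) ^ (p + 1 + 1) * X =
            Sc * (β + (Sc : ℝ) ^ (p + 1) * X) := by
          rw [hβ]
          push_cast
          ring
        rw [e3]
        have : X ≤ (Sc : ℝ) ^ (p + 1) * X := by nlinarith
        gcongr
      have h10 : 0 ≤ (2 ^ (J + 1) - 1 : ℝ) * (E + ε) := by
        have : (1:ℝ) ≤ 2 ^ (J + 1) := one_le_pow₀ (by norm_num)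
        exact mul_nonneg (by linarith) (by linarith)
      calc Sg κ R0 [W k] ≤ Sc * (β + 2 ^ J * ε) + (2 ^ (J + 1) - 1) * (E + ε) := by
            linarith
        _ ≤ Sc * (β + 2 ^ J * ε) + Sc * ((2 ^ (J + 1) - 1) * (E + ε)) := by
            have : (2 ^ (J + 1) - 1 : ℝ) * (E + ε) ≤ Sc * ((2 ^ (J + 1) - 1) * (E + ε)) := by
              nlinarith
            linarith
        _ = Sc * (β + (2 ^ J * ε + (2 ^ (J + 1) - 1) * (E + ε))) := by ring
        _ ≤ Sc * (β + X) := by gcongr
        _ ≤ _ := h9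
  exact key P k hka ((hT k hka).trans hTP)

end Pool.Agent.BW
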